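import Pool.Agent.Work.MP_ca14f8_co.QE.Stmts

/-! Bundle of small proof modules (one section per former module). -/

section

/-!
Block QE of MP_ca14f8_co, item B3.
-/

set_option autoImplicit false
open Classical

namespace Pool.Agent.Work.MP_ca14f8_co.QE

namespace XB3

theorem prod_mem {κ Z : Type} (S : κ → Set (Z → ℚ)) (F : κ → Z → ℚ)
    (hF : ∀ j, F j ∈ Submodule.span ℚ (S j)) (s : Finset κ) :
    (∏ j ∈ s, F j) ∈ Submodule.span ℚ {f : Z → ℚ | ∃ g : κ → Z → ℚ, (∀ j ∈ s, g j ∈ S j) ∧
      f = ∏ j ∈ s, g j} := by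
  induction s using Finset.induction_on with
  | empty =>
      apply Submodule.subset_span
      exact ⟨F, by simp, rfl⟩
  | insert a s ha ih =>
      rw [Finset.prod_insert ha]
      have h1 := Submodule.mul_mem_mul (hF a) ih
      rw [Submodule.span_mul_span] at h1
      refine Submodule.span_mono ?_ h1
      rintro f ⟨x, hx, y, ⟨g, hg, rfl⟩, rfl⟩
      refine ⟨Function.update g a x, ?_, ?_⟩
      · intro j hj
        rcases Finset.mem_insert.mp hj with rfl | hj
        · simpa using hx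
        · have hne : j ≠ a := fun h => ha (h ▸ hj)
          rw [Function.update_of_ne hne]
          exact hg j hj
      · rw [Finset.prod_insert ha, Function.update_self]
        have h2 : ∏ j ∈ s, Function.update g a x j = ∏ j ∈ s, g j := by
          apply Finset.prod_congr rfl
          intro j hj
          have hne : j ≠ a := fun h => ha (h ▸ hj)
          rw [Function.update_of_ne hne]
        rw [h2]

/-- The pullback. -/
def pull {A B : Type} (φ : B → A) : (A → ℚ) →ₗ[ℚ] (B → ℚ) where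
  toFun := fun f b => f (φ b)
  map_add' := by intro f g; rfl
  map_smul' := by intro c f; rfl

theorem pull_inj {A B : Type} (φ : B → A) (hφ : Function.Surjective φ) :
    Function.Injective (pull φ) := by
  intro f g hfg
  funext a
  obtain ⟨b, rfl⟩ := hφ a
  exact congrFun hfg b

theorem LS_fin {ι κ : Type} [Fintype ι] [DecidableEq ι] [Fintype κ] (𝓑 : Set (Matrix ι ι ℚ))
    (I : κ → Finset ι) : FiniteDimensional ℚ (LS 𝓑 I) := by
  unfold LS
  apply FiniteDimensional.span_of_finite
  have h : {f : 𝓑 → ℚ | ∃ (C : κ → Finset ι) (ρ : κ → ι → ι), Adm I C ρ ∧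
      f = fun B : 𝓑 => FF C ρ B.1} ⊆
      Set.range (fun q : (κ → Finset ι) × (κ → ι → ι) => fun B : 𝓑 => FF q.1 q.2 B.1) := by
    rintro f ⟨C, ρ, _, rfl⟩
    exact ⟨(C, ρ), rfl⟩
  exact (Set.finite_range _).subset h

end XB3

open XB3 in
theorem I_B3 (h : StB3a) : StB3 := by
  intro ι κ _ _ _ 𝓑 hB I
  have hfin : FiniteDimensional ℚ (LS 𝓑 I) := LS_fin 𝓑 I
  let φ : 𝓑 → {X : Matrix ι ι ℚ | ∃ B ∈ 𝓑, X = 1 + B} := fun B => ⟨1 + B.1, B.1, B.2, rfl⟩
  have hφ : Function.Surjective φ := by
    rintro ⟨X, B, hB', rfl⟩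
    exact ⟨⟨B, hB'⟩, rfl⟩
  have hinj := pull_inj φ hφ
  have hle : (VS {X : Matrix ι ι ℚ | ∃ B ∈ 𝓑, X = 1 + B} I).map (pull φ) ≤ LS 𝓑 I := by
    unfold VS
    rw [Submodule.map_span, Submodule.span_le]
    rintro f ⟨g, ⟨ρ, rfl⟩, rfl⟩
    have h1 := prod_mem (fun j => {f : 𝓑 → ℚ |
      ∃ (C : Finset ι) (ρ' : ι → ι), C ⊆ I j ∧ (∀ a ∈ C, ρ' a ∉ I j) ∧
        f = fun B : 𝓑 => mn C ρ' B.1}) (fun j => fun B : 𝓑 => mn (I j) (ρ j) (1 + B.1))
      (fun j => h ι 𝓑 hB (I j) (ρ j)) Finset.univ
    have h2 : (pull φ) (fun X => FF I ρ X.1) =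
        ∏ j, (fun B : 𝓑 => mn (I j) (ρ j) (1 + B.1)) := by
      funext B
      rw [Finset.prod_apply]
      rfl
    show (pull φ) (fun X => FF I ρ X.1) ∈ LS 𝓑 I
    rw [h2]
    unfold LS
    refine Submodule.span_mono ?_ h1
    rintro f ⟨g, hg, rfl⟩
    have hg' : ∀ j, ∃ (C : Finset ι) (ρ' : ι → ι), C ⊆ I j ∧ (∀ a ∈ C, ρ' a ∉ I j) ∧
        g j = fun B : 𝓑 => mn C ρ' B.1 := fun j => hg j (Finset.mem_univ j)
    choose C ρ' hC hρ hgj using hg'
    refine ⟨C, ρ', fun j => ⟨hC j, hρ j⟩, ?_⟩
    funext B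
    rw [Finset.prod_apply]
    unfold FF
    apply Finset.prod_congr rfl
    intro j _
    rw [hgj j]
  unfold dV dL
  rw [← (Submodule.equivMapOfInjective (pull φ) hinj
    (VS {X : Matrix ι ι ℚ | ∃ B ∈ 𝓑, X = 1 + B} I)).finrank_eq.symm]
  exact Submodule.finrank_mono hle

end Pool.Agent.Work.MP_ca14f8_co.QE

end

section

/-!
Block QE of MP_ca14f8_co, item B3a: minors of `1 + B` for a set of matrices with all products zero.
-/

set_option autoImplicit false
open Classical

namespace Pool.Agent.Work.MP_ca14f8_co.QE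

namespace XB3a

theorem det_one_add_of_sq {m : Type} [Fintype m] [DecidableEq m] (κ : Matrix m m ℚ)
    (h : κ * κ = 0) : (1 + κ).det = 1 := by
  have hn : IsNilpotent (-κ) := ⟨2, by rw [pow_two, neg_mul_neg, h]⟩
  have h1 := Matrix.isNilpotent_charpoly_sub_pow_of_isNilpotent hn
  have h2 : (-κ).charpoly = Polynomial.X ^ Fintype.card m := sub_eq_zero.1 h1.eq_zero
  have h3 := Matrix.eval_charpoly (-κ) 1
  rw [h2, Polynomial.eval_pow, Polynomial.eval_X, one_pow, map_one, sub_neg_eq_add] at h3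
  exact h3.symm

variable {ι : Type} [Fintype ι]

/-- The span of all columns. -/
def PS (𝓑 : Set (Matrix ι ι ℚ)) : Submodule ℚ (ι → ℚ) :=
  Submodule.span ℚ {p | ∃ B ∈ 𝓑, ∃ x : ι → ℚ, p = B.mulVec x}

theorem mem_PS {𝓑 : Set (Matrix ι ι ℚ)} {B : Matrix ι ι ℚ} (hB : B ∈ 𝓑) (x : ι → ℚ) :
    B.mulVec x ∈ PS 𝓑 := Submodule.subset_span ⟨B, hB, x, rfl⟩

theorem mulVec_PS {𝓑 : Set (Matrix ι ι ℚ)} (h𝓑 : ∀ B ∈ 𝓑, ∀ B' ∈ 𝓑, B * B' = 0)
    {B : Matrix ι ι ℚ} (hB : B ∈ 𝓑) {p : ι → ℚ} (hp : p ∈ PS 𝓑) : B.mulVec p = 0 := by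
  have h : PS 𝓑 ≤ LinearMap.ker (Matrix.mulVecLin B) := by
    refine Submodule.span_le.2 ?_
    rintro _ ⟨B', hB', x, rfl⟩
    rw [SetLike.mem_coe, LinearMap.mem_ker, Matrix.mulVecLin_apply, Matrix.mulVec_mulVec,
      h𝓑 B hB B' hB', Matrix.zero_mulVec]
  have h2 := h hp
  rwa [LinearMap.mem_ker, Matrix.mulVecLin_apply] at h2

/-- restriction to the coordinates outside `I`. -/
noncomputable def qq (I : Finset ι) : (ι → ℚ) →ₗ[ℚ] (ι → ℚ) where
  toFun := fun x a => if a ∈ I then 0 else x a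
  map_add' := by
    intro x y
    funext a
    by_cases h : a ∈ I
    · simp [h]
    · simp [h]
  map_smul' := by
    intro c x
    funext a
    by_cases h : a ∈ I
    · simp [h]
    · simp [h]

theorem exists_L (P : Submodule ℚ (ι → ℚ)) (I : Finset ι) :
    ∃ L : (ι → ℚ) →ₗ[ℚ] (ι → ℚ), (∀ x : ι → ℚ, (∀ a, a ∉ I → x a = 0) → L x = 0) ∧
      ∀ p ∈ P, p - L p ∈ P ∧ ∀ a, a ∉ I → (p - L p) a = 0 := by
  obtain ⟨s, hs⟩ := LinearMap.exists_rightInverse_of_surjective
    ((qq I).domRestrict P).rangeRestrict (LinearMap.range_rangeRestrict _)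
  obtain ⟨S, hS⟩ := LinearMap.exists_extend (P.subtype ∘ₗ s)
  refine ⟨S ∘ₗ qq I, ?_, ?_⟩
  · intro x hx
    have h : qq I x = 0 := by
      funext a
      by_cases ha : a ∈ I
      · show (if a ∈ I then (0 : ℚ) else x a) = 0
        rw [if_pos ha]
      · show (if a ∈ I then (0 : ℚ) else x a) = 0
        rw [if_neg ha, hx a ha]
    rw [LinearMap.comp_apply, h, map_zero]
  · intro p hp
    have hm : qq I p ∈ LinearMap.range ((qq I).domRestrict P) := ⟨⟨p, hp⟩, rfl⟩
    have h1 : S (qq I p) = (s ⟨qq I p, hm⟩ : ι → ℚ) :=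
      LinearMap.congr_fun hS (⟨qq I p, hm⟩ : LinearMap.range ((qq I).domRestrict P))
    have h2 : qq I (s ⟨qq I p, hm⟩ : ι → ℚ) = qq I p := by
      have h3 := LinearMap.congr_fun hs
        (⟨qq I p, hm⟩ : LinearMap.range ((qq I).domRestrict P))
      exact congrArg Subtype.val h3
    rw [LinearMap.comp_apply, h1]
    refine ⟨P.sub_mem hp (s ⟨qq I p, hm⟩).2, ?_⟩
    intro a ha
    have h4 := congrFun h2 a
    have h5 : (if a ∈ I then (0 : ℚ) else (s ⟨qq I p, hm⟩ : ι → ℚ) a) =
      if a ∈ I then (0 : ℚ) else p a := h4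
    rw [if_neg ha, if_neg ha] at h5
    rw [Pi.sub_apply, h5, sub_self]

end XB3a

open XB3a in
theorem I_B3a (hM : StMn) : StB3a := by
  intro ι _ _ 𝓑 h𝓑 I ρ
  obtain ⟨L, hL0, hLP⟩ := exists_L (PS 𝓑) I
  set Λ : Matrix ι ι ℚ := LinearMap.toMatrix' L with hΛ
  have hΛv : ∀ x : ι → ℚ, Λ.mulVec x = L x := fun x => by
    rw [hΛ, ← Matrix.toLin'_apply, Matrix.toLin'_toMatrix']
  have hΛ0 : ∀ a c, c ∈ I → Λ a c = 0 := by
    intro a c hc
    have h := hL0 (Pi.single c 1)
      (fun b hb => Pi.single_eq_of_ne (fun h : b = c => hb (by rw [h]; exact hc)) _)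
    rw [← hΛv, Matrix.mulVec_single_one] at h
    exact congrFun h a
  -- the matrix `k`
  have hk : ∀ B ∈ 𝓑, (∀ c b, c ∉ I → (B - Λ * B) c b = 0) ∧ B * (B - Λ * B) = 0 ∧
      (B - Λ * B) * (B - Λ * B) = 0 := by
    intro B hB
    have hcol : ∀ x : ι → ℚ, (B - Λ * B).mulVec x = B.mulVec x - L (B.mulVec x) := by
      intro x
      rw [Matrix.sub_mulVec, ← Matrix.mulVec_mulVec, hΛv]
    have hP : ∀ x : ι → ℚ, (B - Λ * B).mulVec x ∈ PS 𝓑 := by
      intro x
      rw [hcol]
      exact (hLP _ (mem_PS hB x)).1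
    have hBk : B * (B - Λ * B) = 0 := by
      apply Matrix.ext_of_mulVec_single
      intro i
      rw [← Matrix.mulVec_mulVec, mulVec_PS h𝓑 hB (hP _), Matrix.zero_mulVec]
    refine ⟨?_, hBk, ?_⟩
    · intro c b hc
      have h := (hLP _ (mem_PS hB (Pi.single b 1))).2 c hc
      rw [← hcol, Matrix.mulVec_single_one] at h
      exact h
    · have h1 : (B - Λ * B) * (B - Λ * B) = B * (B - Λ * B) - Λ * (B * (B - Λ * B)) := by
        rw [Matrix.sub_mul, Matrix.mul_assoc]
      rw [h1, hBk, Matrix.mul_zero, sub_zero]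
  -- step 2
  have h2 : ∀ B ∈ 𝓑, mn I ρ (1 + B) =
      (Matrix.of (fun (a b : I) => (1 + Λ * B) (ρ a) b)).det := by
    intro B hB
    obtain ⟨k0, k1, k2⟩ := hk B hB
    have e1 : (1 + Λ * B) * (1 + (B - Λ * B)) = 1 + B := by
      rw [Matrix.mul_add, Matrix.mul_one, Matrix.add_mul, Matrix.one_mul, Matrix.mul_assoc, k1,
        Matrix.mul_zero, add_zero]
      abel
    have e2 : Matrix.of (fun (a b : I) => (1 + B) (ρ a) b) =
        Matrix.of (fun (a b : I) => (1 + Λ * B) (ρ a) b) *
          (1 + Matrix.of (fun (a b : I) => (B - Λ * B) a b)) := by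
      ext a b
      rw [Matrix.mul_apply, Matrix.of_apply, ← e1, Matrix.mul_apply,
        ← Finset.sum_subset (Finset.subset_univ I), ← Finset.sum_coe_sort I]
      · refine Finset.sum_congr rfl fun c _ => ?_
        have h6 : (1 + (B - Λ * B)) (c : ι) (b : ι) =
            (1 + Matrix.of (fun (a b : I) => (B - Λ * B) a b)) c b := by
          rw [Matrix.add_apply, Matrix.add_apply, Matrix.of_apply, Matrix.one_apply,
            Matrix.one_apply]
          by_cases h : c = b
          · rw [if_pos h, if_pos (congrArg Subtype.val h)]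
          · rw [if_neg h, if_neg (fun h' => h (Subtype.ext h'))]
        rw [h6]
        rfl
      · intro c _ hc
        have h6 : (1 + (B - Λ * B)) c (b : ι) = 0 := by
          rw [Matrix.add_apply, k0 c b hc, Matrix.one_apply,
            if_neg (fun h : c = (b : ι) => hc (by rw [h]; exact b.2)), add_zero]
        rw [h6, mul_zero]
    have e3 : Matrix.of (fun (a b : I) => (B - Λ * B) a b) *
        Matrix.of (fun (a b : I) => (B - Λ * B) a b) = 0 := by
      ext a b
      rw [Matrix.mul_apply]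
      have h := congrFun (congrFun k2 a) b
      rw [Matrix.mul_apply, ← Finset.sum_subset (Finset.subset_univ I),
        ← Finset.sum_coe_sort I] at h
      · exact h
      · intro c _ hc
        rw [k0 c b hc, mul_zero]
    unfold mn
    rw [e2, Matrix.det_mul, det_one_add_of_sq _ e3, mul_one]
  -- step 3
  have h3 : ∀ B : Matrix ι ι ℚ, (Matrix.of (fun (a b : I) => (1 + Λ * B) (ρ a) b)).det =
      ∑ r : (I → ι), (∏ a : I, (if r a ∈ I then (if ρ a = r a then (1 : ℚ) else 0)
        else Λ (ρ a) (r a))) *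
        (Matrix.of (fun (a b : I) => if r a ∈ I then (if r a = b then (1 : ℚ) else 0)
          else B (r a) b)).det := by
    intro B
    have e1 : Matrix.of (fun (a b : I) => (1 + Λ * B) (ρ a) b) =
        (fun (a : I) => ∑ c : ι, (if c ∈ I then (if ρ a = c then (1 : ℚ) else 0)
          else Λ (ρ a) c) • (fun (b : I) => if c ∈ I then (if c = b then (1 : ℚ) else 0)
            else B c b)) := by
      ext a b
      rw [Matrix.of_apply, Matrix.add_apply, Matrix.mul_apply, Finset.sum_apply]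
      have h5 : ∀ c : ι, ((if c ∈ I then (if ρ a = c then (1 : ℚ) else 0)
          else Λ (ρ a) c) • (fun (b : I) => if c ∈ I then (if c = b then (1 : ℚ) else 0)
            else B c b)) b = (if c = b then (if ρ a = c then (1 : ℚ) else 0) else 0) +
            Λ (ρ a) c * B c b := by
        intro c
        rw [Pi.smul_apply, smul_eq_mul]
        by_cases hc : c ∈ I
        · rw [if_pos hc, if_pos hc, hΛ0 _ _ hc, zero_mul, add_zero]
          by_cases hcb : c = b
          · rw [if_pos hcb, if_pos hcb, mul_one]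
          · rw [if_neg hcb, if_neg hcb, mul_zero]
        · rw [if_neg hc, if_neg hc,
            if_neg (fun h : c = (b : ι) => hc (by rw [h]; exact b.2)), zero_add]
      rw [Finset.sum_congr rfl (fun c _ => h5 c), Finset.sum_add_distrib]
      congr 1
      rw [Finset.sum_ite_eq' Finset.univ (b : ι), if_pos (Finset.mem_univ _), Matrix.one_apply]
    show Matrix.detRowAlternating (Matrix.of (fun (a b : I) => (1 + Λ * B) (ρ a) b)) = _
    rw [e1]
    have e2 := (Matrix.detRowAlternating (n := I) (R := ℚ)).toMultilinearMap.map_sum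
      (fun (a : I) (c : ι) => (if c ∈ I then (if ρ a = c then (1 : ℚ) else 0)
          else Λ (ρ a) c) • (fun (b : I) => if c ∈ I then (if c = b then (1 : ℚ) else 0)
            else B c b))
    refine e2.trans (Finset.sum_congr rfl fun r _ => ?_)
    exact (Matrix.detRowAlternating (n := I) (R := ℚ)).toMultilinearMap.map_smul_univ _ _
  -- conclusion
  have h4 : (fun B : 𝓑 => mn I ρ (1 + B.1)) =
      ∑ r : (I → ι), (∏ a : I, (if r a ∈ I then (if ρ a = r a then (1 : ℚ) else 0)
        else Λ (ρ a) (r a))) •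
        (fun B : 𝓑 => (Matrix.of (fun (a b : I) => if r a ∈ I then (if r a = b then (1 : ℚ) else 0)
          else B.1 (r a) b)).det) := by
    funext B
    rw [h2 B.1 B.2, h3 B.1, Finset.sum_apply]
    rfl
  rw [h4]
  refine Submodule.sum_mem _ fun r _ => Submodule.smul_mem _ _ ?_
  obtain ⟨ε, C, ρ', hC, hρ', hdet⟩ := hM ι I (fun a => if h : a ∈ I then r ⟨a, h⟩ else a)
  have h5 : (fun B : 𝓑 => (Matrix.of (fun (a b : I) =>
      if r a ∈ I then (if r a = b then (1 : ℚ) else 0) else B.1 (r a) b)).det) =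
      ε • (fun B : 𝓑 => mn C ρ' B.1) := by
    funext B
    rw [Pi.smul_apply, smul_eq_mul, ← hdet B.1]
    congr 1
    ext a b
    rw [Matrix.of_apply, Matrix.of_apply, dif_pos a.2]
  rw [h5]
  exact Submodule.smul_mem _ _ (Submodule.subset_span ⟨C, ρ', hC, hρ', rfl⟩)

end Pool.Agent.Work.MP_ca14f8_co.QE

end

section

set_option autoImplicit false
open Classical

namespace Pool.Agent.Work.MP_ca14f8_co.QE

namespace XB3g

theorem mul_NU {n : ℕ} (U N : Matrix (Fin n) (Fin n) ℚ) (hU : ∀ a b, b < a → U a b = 0)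
    (hN : N ∈ NU n) : U * N ∈ NU n := by
  intro a b hab
  rw [Matrix.mul_apply]
  apply Finset.sum_eq_zero
  intro c _
  rcases lt_or_ge c a with h | h
  · rw [hU a c h, zero_mul]
  · rw [hN c b (le_trans hab h), mul_zero]

theorem NU_mul {n : ℕ} (U N : Matrix (Fin n) (Fin n) ℚ) (hU : ∀ a b, b < a → U a b = 0)
    (hN : N ∈ NU n) : N * U ∈ NU n := by
  intro a b hab
  rw [Matrix.mul_apply]
  apply Finset.sum_eq_zero
  intro c _
  rcases lt_or_ge b c with h | h
  · rw [hU c b h, mul_zero]
  · rw [hN a c (le_trans h hab), zero_mul]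

theorem dL_mono {n : ℕ} {κ : Type} [Fintype κ] (I : κ → Finset (Fin n))
    (s t : Set (Matrix (Fin n) (Fin n) ℚ)) (hst : s ⊆ t) : dL s I ≤ dL t I := by
  let R : (t → ℚ) →ₗ[ℚ] (s → ℚ) :=
    { toFun := fun f x => f ⟨x.1, hst x.2⟩
      map_add' := fun f g => rfl
      map_smul' := fun c f => rfl }
  have hfin : {f : t → ℚ | ∃ (C : κ → Finset (Fin n)) (ρ : κ → Fin n → Fin n), Adm I C ρ ∧
      f = fun B : t => FF C ρ B.1}.Finite := by
    apply Set.Finite.subset (Set.finite_range
      (fun (p : (κ → Finset (Fin n)) × (κ → Fin n → Fin n)) => (fun B : t => FF p.1 p.2 B.1)))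
    rintro f ⟨C, ρ, _, rfl⟩
    exact ⟨(C, ρ), rfl⟩
  have : FiniteDimensional ℚ (LS t I) := by
    unfold LS
    exact FiniteDimensional.span_of_finite ℚ hfin
  have hle : LS s I ≤ (LS t I).map R := by
    unfold LS
    rw [Submodule.span_le]
    rintro f ⟨C, ρ, hA, rfl⟩
    refine ⟨fun B : t => FF C ρ B.1, Submodule.subset_span ⟨C, ρ, hA, rfl⟩, rfl⟩
  unfold dL
  calc Module.finrank ℚ (LS s I) ≤ Module.finrank ℚ ((LS t I).map R) :=
        Submodule.finrank_mono hle
    _ ≤ Module.finrank ℚ (LS t I) := Submodule.finrank_map_le R (LS t I)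

end XB3g

theorem I_B3g (h3 : StB3) (hL : StLM) : StB3g := by
  intro n κ _ I S g hg
  have htri : Matrix.BlockTriangular g (id : Fin n → Fin n) := by
    intro i j hij
    exact hg.1 i j hij
  have hdet : g.det = 1 := by
    rw [Matrix.det_of_isUpperTriangular htri]
    exact Finset.prod_eq_one (fun a _ => hg.2 a)
  have hunit : IsUnit g.det := by rw [hdet]; exact isUnit_one
  have h1 : g * g⁻¹ = 1 := Matrix.mul_nonsing_inv g hunit
  have h2 : g⁻¹ * g = 1 := Matrix.nonsing_inv_mul g hunit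
  have : Invertible g := Matrix.invertibleOfIsUnitDet g hunit
  have htri' : Matrix.BlockTriangular g⁻¹ (id : Fin n → Fin n) :=
    Matrix.blockTriangular_inv_of_blockTriangular htri
  have hup : ∀ a b, b < a → g a b = 0 := fun a b h => htri h
  have hup' : ∀ a b, b < a → g⁻¹ a b = 0 := fun a b h => htri' h
  set BB : Set (Matrix (Fin n) (Fin n) ℚ) := {B' | ∃ B ∈ SB n S, B' = g⁻¹ * B * g} with hBB
  have hsub : BB ⊆ NU n := by
    rintro B' ⟨B, hB, rfl⟩
    have hBN : B ∈ NU n := by
      intro a b hab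
      by_contra hne
      exact absurd (hB a b hne).1 (not_lt.mpr hab)
    exact XB3g.NU_mul g _ hup (XB3g.mul_NU _ B hup' hBN)
  have hprod : ∀ B ∈ BB, ∀ B' ∈ BB, B * B' = 0 := by
    rintro _ ⟨B, hB, rfl⟩ _ ⟨B', hB', rfl⟩
    have h0 : B * B' = 0 := by
      ext a c
      rw [Matrix.mul_apply]
      simp only [Matrix.zero_apply]
      apply Finset.sum_eq_zero
      intro b _
      by_contra hne
      have hb1 : B a b ≠ 0 := left_ne_zero_of_mul hne
      have hb2 : B' b c ≠ 0 := right_ne_zero_of_mul hne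
      exact (hB a b hb1).2.2 (hB' b c hb2).2.1
    calc g⁻¹ * B * g * (g⁻¹ * B' * g) = g⁻¹ * (B * ((g * g⁻¹) * B')) * g := by
          simp only [Matrix.mul_assoc]
      _ = 0 := by rw [h1, Matrix.one_mul, h0, Matrix.mul_zero, Matrix.zero_mul]
  have hset : {X | ∃ x ∈ {Y | ∃ B ∈ SB n S, Y = 1 + B}, X = x * g} =
      {X | ∃ x ∈ {X : Matrix (Fin n) (Fin n) ℚ | ∃ B ∈ BB, X = 1 + B}, X = g * x} := by
    ext X
    constructor
    · rintro ⟨_, ⟨B, hB, rfl⟩, rfl⟩
      refine ⟨1 + g⁻¹ * B * g, ⟨g⁻¹ * B * g, ⟨B, hB, rfl⟩, rfl⟩, ?_⟩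
      calc (1 + B) * g = g + (g * g⁻¹) * B * g := by
            rw [h1, Matrix.one_mul, Matrix.add_mul, Matrix.one_mul]
        _ = g * (1 + g⁻¹ * B * g) := by
            rw [Matrix.mul_add, Matrix.mul_one]; simp only [Matrix.mul_assoc]
    · rintro ⟨_, ⟨_, ⟨B, hB, rfl⟩, rfl⟩, rfl⟩
      refine ⟨1 + B, ⟨B, hB, rfl⟩, ?_⟩
      symm
      calc (1 + B) * g = g + (g * g⁻¹) * B * g := by
            rw [h1, Matrix.one_mul, Matrix.add_mul, Matrix.one_mul]
        _ = g * (1 + g⁻¹ * B * g) := by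
            rw [Matrix.mul_add, Matrix.mul_one]; simp only [Matrix.mul_assoc]
  rw [hset]
  calc dV {X | ∃ x ∈ {X : Matrix (Fin n) (Fin n) ℚ | ∃ B ∈ BB, X = 1 + B}, X = g * x} I
      ≤ dV {X : Matrix (Fin n) (Fin n) ℚ | ∃ B ∈ BB, X = 1 + B} I := hL (Fin n) κ _ g I
    _ ≤ dL BB I := h3 (Fin n) κ BB hprod I
    _ ≤ dL (NU n) I := XB3g.dL_mono I BB (NU n) hsub

end Pool.Agent.Work.MP_ca14f8_co.QE

end

section

/-!
Assembly of part B: the square of `dV (UT n)` is at most the seventh power of `dL (NU n)`.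
-/

set_option autoImplicit false
open Classical

namespace Pool.Agent.Work.MP_ca14f8_co.QE

namespace XBfin

variable {n : ℕ}

/-- The matrices `1 + B`, `B ∈ SB n S`. -/
def O1 (n : ℕ) (S : Finset (Fin n)) : Set (Matrix (Fin n) (Fin n) ℚ) :=
  {Y | ∃ B ∈ SB n S, Y = 1 + B}

/-- Products with one more factor on the left. -/
def pr (n : ℕ) (S : Finset (Fin n)) (Z : Set (Matrix (Fin n) (Fin n) ℚ)) :
    Set (Matrix (Fin n) (Fin n) ℚ) := {X | ∃ x ∈ O1 n S, ∃ z ∈ Z, X = x * z}

lemma O1_UT {S : Finset (Fin n)} {x : Matrix (Fin n) (Fin n) ℚ} (hx : x ∈ O1 n S) :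
    x ∈ UT n := by
  obtain ⟨B, hB, rfl⟩ := hx
  refine ⟨fun a b hab => ?_, fun a => ?_⟩
  · have h0 : B a b = 0 := by
      by_contra h
      exact absurd (hB a b h).1 (not_lt.mpr hab.le)
    rw [Matrix.add_apply, h0, add_zero, Matrix.one_apply_ne hab.ne']
  · have h0 : B a a = 0 := by
      by_contra h
      exact absurd (hB a a h).1 (lt_irrefl _)
    rw [Matrix.add_apply, h0, add_zero, Matrix.one_apply_eq]

lemma UT_mul {x y : Matrix (Fin n) (Fin n) ℚ} (hx : x ∈ UT n) (hy : y ∈ UT n) :
    x * y ∈ UT n := by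
  refine ⟨fun a b hab => ?_, fun a => ?_⟩
  · rw [Matrix.mul_apply]
    refine Finset.sum_eq_zero fun c _ => ?_
    rcases lt_or_ge c a with h | h
    · rw [hx.1 a c h, zero_mul]
    · rw [hy.1 c b (lt_of_lt_of_le hab h), mul_zero]
  · rw [Matrix.mul_apply, Finset.sum_eq_single a]
    · rw [hx.2 a, hy.2 a, mul_one]
    · intro c _ hc
      rcases lt_or_gt_of_ne hc with h | h
      · rw [hx.1 a c h, zero_mul]
      · rw [hy.1 c a h, mul_zero]
    · intro h
      exact absurd (Finset.mem_univ a) h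

lemma pr_UT {S : Finset (Fin n)} {Z : Set (Matrix (Fin n) (Fin n) ℚ)}
    (hZ : ∀ z ∈ Z, z ∈ UT n) : ∀ z ∈ pr n S Z, z ∈ UT n := by
  rintro _ ⟨x, hx, z, hz, rfl⟩
  exact UT_mul (O1_UT hx) (hZ z hz)

lemma step (h1 : StB1) (h3g : StB3g) {κ : Type} [Fintype κ] (I : κ → Finset (Fin n))
    (S : Finset (Fin n)) (Z : Set (Matrix (Fin n) (Fin n) ℚ)) (hZ : ∀ z ∈ Z, z ∈ UT n) :
    dV (pr n S Z) I ≤ dL (NU n) I * dV Z I :=
  h1 (Fin n) κ (O1 n S) Z I (dL (NU n) I) (fun z hz => h3g n κ I S z (hZ z hz))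

lemma base (h3 : StB3) {κ : Type} [Fintype κ] (I : κ → Finset (Fin n))
    (S : Finset (Fin n)) : dV (O1 n S) I ≤ dL (SB n S) I := by
  refine h3 (Fin n) κ (SB n S) ?_ I
  intro B hB B' hB'
  ext a b
  rw [Matrix.mul_apply, Matrix.zero_apply]
  refine Finset.sum_eq_zero fun c _ => ?_
  by_contra h
  have h1 : B a c ≠ 0 := left_ne_zero_of_mul h
  have h2 : B' c b ≠ 0 := right_ne_zero_of_mul h
  exact (hB a c h1).2.2 (hB' c b h2).2.1

lemma PP_eq (S S' : Finset (Fin n)) :
    PP n S S' = pr n S (pr n S' (pr n S (O1 n S'))) := by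
  ext X
  constructor
  · rintro ⟨B₁, h₁, B₂, h₂, B₃, h₃, B₄, h₄, rfl⟩
    exact ⟨1 + B₁, ⟨B₁, h₁, rfl⟩, _, ⟨1 + B₂, ⟨B₂, h₂, rfl⟩, _, ⟨1 + B₃, ⟨B₃, h₃, rfl⟩, _,
      ⟨B₄, h₄, rfl⟩, rfl⟩, rfl⟩, rfl⟩
  · rintro ⟨_, ⟨B₁, h₁, rfl⟩, _, ⟨_, ⟨B₂, h₂, rfl⟩, _, ⟨_, ⟨B₃, h₃, rfl⟩, _,
      ⟨B₄, h₄, rfl⟩, rfl⟩, rfl⟩, rfl⟩
    exact ⟨B₁, h₁, B₂, h₂, B₃, h₃, B₄, h₄, rfl⟩

lemma PP_le (h1 : StB1) (h3 : StB3) (h3g : StB3g) {κ : Type} [Fintype κ]
    (I : κ → Finset (Fin n)) (S S' : Finset (Fin n)) :
    dV (PP n S S') I ≤ (dL (NU n) I) ^ 3 * dL (SB n S') I := by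
  have hU : ∀ z ∈ O1 n S', z ∈ UT n := fun z hz => O1_UT hz
  have s1 := step h1 h3g I S (pr n S' (pr n S (O1 n S'))) (pr_UT (pr_UT hU))
  have s2 := step h1 h3g I S' (pr n S (O1 n S')) (pr_UT hU)
  have s3 := step h1 h3g I S (O1 n S') hU
  have s4 := base h3 I S'
  rw [PP_eq]
  calc dV (pr n S (pr n S' (pr n S (O1 n S')))) I
      ≤ dL (NU n) I * dV (pr n S' (pr n S (O1 n S'))) I := s1
    _ ≤ dL (NU n) I * (dL (NU n) I * dV (pr n S (O1 n S')) I) := Nat.mul_le_mul_left _ s2
    _ ≤ dL (NU n) I * (dL (NU n) I * (dL (NU n) I * dV (O1 n S') I)) :=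
        Nat.mul_le_mul_left _ (Nat.mul_le_mul_left _ s3)
    _ ≤ dL (NU n) I * (dL (NU n) I * (dL (NU n) I * dL (SB n S') I)) :=
        Nat.mul_le_mul_left _ (Nat.mul_le_mul_left _ (Nat.mul_le_mul_left _ s4))
    _ = (dL (NU n) I) ^ 3 * dL (SB n S') I := by ring

end XBfin

theorem I_Bfin (h1 : StB1) (h2 : StB2) (h3 : StB3) (h3g : StB3g) (hD : StBD) : StBfin := by
  intro n κ _ I
  have hS := h2 n κ I
  have a1 := hS.1.trans (XBfin.PP_le h1 h3 h3g I (ev n) (ev n)ᶜ)
  have a2 := hS.2.trans (XBfin.PP_le h1 h3 h3g I (ev n)ᶜ (ev n))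
  have a3 := hD n κ I (ev n)
  calc (dV (UT n) I) ^ 2 = dV (UT n) I * dV (UT n) I := sq _
    _ ≤ ((dL (NU n) I) ^ 3 * dL (SB n (ev n)ᶜ) I) * ((dL (NU n) I) ^ 3 * dL (SB n (ev n)) I) :=
        Nat.mul_le_mul a1 a2
    _ = (dL (NU n) I) ^ 6 * (dL (SB n (ev n)) I * dL (SB n (ev n)ᶜ) I) := by ring
    _ ≤ (dL (NU n) I) ^ 6 * dL (NU n) I := Nat.mul_le_mul_left _ a3
    _ = (dL (NU n) I) ^ 7 := by ring

end Pool.Agent.Work.MP_ca14f8_co.QE

end

section

/-!
Item C2 of the block QE of MP_ca14f8_co.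
-/

set_option autoImplicit false
open Classical

namespace Pool.Agent.Work.MP_ca14f8_co.QE

namespace XC2

/-- `dV` does not change under an equivalence of the column index type. -/
theorem dV_equiv {ι κ κ' : Type} [Fintype ι] [DecidableEq ι] [Fintype κ] [Fintype κ']
    (𝒳 : Set (Matrix ι ι ℚ)) (e : κ ≃ κ') (I : κ' → Finset ι) :
    dV 𝒳 (fun j => I (e j)) = dV 𝒳 I := by
  have h : VS 𝒳 (fun j => I (e j)) = VS 𝒳 I := by
    unfold VS
    congr 1
    ext f
    constructor
    · rintro ⟨ρ, rfl⟩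
      refine ⟨fun j => ρ (e.symm j), ?_⟩
      funext X
      show FF I (fun j => ρ (e.symm j)) X.1 = FF (fun j => I (e j)) ρ X.1
      unfold FF
      rw [← Equiv.prod_comp e]
      apply Finset.prod_congr rfl
      intro j _
      simp only [Equiv.symm_apply_apply]
    · rintro ⟨ρ, rfl⟩
      refine ⟨fun j => ρ (e j), ?_⟩
      funext X
      show FF (fun j => I (e j)) (fun j => ρ (e j)) X.1 = FF I ρ X.1
      unfold FF
      rw [← Equiv.prod_comp e (fun j => mn (I j) (ρ j) X.1)]
  unfold dV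
  rw [h]

theorem card_lt (m b : ℕ) (hb : b ≤ m) :
    (Finset.univ.filter (fun γ : Fin m => γ.val < b)).card = b := by
  have h : ((Finset.univ.filter (fun γ : Fin m => γ.val < b)).image Fin.val) =
      Finset.range b := by
    ext x
    simp only [Finset.mem_image, Finset.mem_filter, Finset.mem_univ, true_and, Finset.mem_range]
    constructor
    · rintro ⟨γ, h, rfl⟩
      exact h
    · intro h
      exact ⟨⟨x, by omega⟩, h, rfl⟩
  rw [← Finset.card_image_of_injective _ Fin.val_injective, h, Finset.card_range]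

/-- the number of pairs. -/
theorem card_Gam (k : ℕ) :
    (Gam k (fun γ : Fin (k - 1) => ((γ.val : ℤ) + 1))).card = k * (k - 1) / 2 := by
  have h1 : (Gam k (fun γ : Fin (k - 1) => ((γ.val : ℤ) + 1))).card =
      ∑ β : Fin k, (Finset.univ.filter (fun γ : Fin (k - 1) => γ.val < β.val)).card := by
    unfold Gam
    rw [Finset.card_filter, Fintype.sum_prod_type, Finset.sum_comm]
    apply Finset.sum_congr rfl
    intro β _
    rw [Finset.card_filter]
    apply Finset.sum_congr rfl
    intro γ _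
    have hβ := β.isLt
    have : (0 ≤ (β.val : ℤ) - ((γ.val : ℤ) + 1) ∧ (β.val : ℤ) - ((γ.val : ℤ) + 1) < k) ↔
        γ.val < β.val := by
      constructor
      · intro h; omega
      · intro h; omega
    by_cases hc : γ.val < β.val
    · rw [if_pos hc, if_pos (this.2 hc)]
    · rw [if_neg hc, if_neg (fun h => hc (this.1 h))]
  rw [h1]
  have h2 : ∀ β : Fin k,
      (Finset.univ.filter (fun γ : Fin (k - 1) => γ.val < β.val)).card = β.val := by
    intro β
    apply card_lt
    have := β.isLt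
    omega
  rw [Finset.sum_congr rfl (fun β _ => h2 β), Fin.sum_univ_eq_sum_range (fun i => i) k,
    Finset.sum_range_id]

end XC2

theorem I_C2 (h0 : StC0) (hM : StMix) : StC2 := by
  intro n k κ _ I hk
  obtain ⟨R, hR⟩ := h0 n k κ I (Fin (k - 1)) (fun γ => ((γ.val : ℤ) + 1))
    (by
      intro a b hab
      have h : (a.val : ℤ) + 1 = (b.val : ℤ) + 1 := hab
      exact Fin.ext (by omega))
    (by
      intro γ
      have := γ.isLt
      show |(γ.val : ℤ) + 1| ≤ k
      rw [abs_of_nonneg (by positivity)]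
      omega)
  have h := hM n k κ I (Fin (k - 1)) (fun γ => ((γ.val : ℤ) + 1))
    (by
      intro γ
      show (0 : ℤ) < (γ.val : ℤ) + 1
      positivity) _ R hR
  have hc : Fintype.card (Gam k (fun γ : Fin (k - 1) => ((γ.val : ℤ) + 1)) →
      Fin (dL (NU n) I)) = (dL (NU n) I) ^ (k * (k - 1) / 2) := by
    rw [Fintype.card_fun, Fintype.card_fin, Fintype.card_coe, XC2.card_Gam]
  rw [hc] at h
  refine h.trans (le_of_eq ?_)
  have e : Option (Fin (k - 1)) ≃ Fin k :=
    Fintype.equivOfCardEq (by rw [Fintype.card_option, Fintype.card_fin, Fintype.card_fin]; omega)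
  exact XC2.dV_equiv (XK n k) (Equiv.prodCongr (Equiv.refl κ) e)
    (fun p : κ × Fin k => bl k (I p.1))

end Pool.Agent.Work.MP_ca14f8_co.QE

end

section

/-!
The constraint `(i, t)` of `w_i` (case `b = i`).
-/

set_option autoImplicit false
open Classical

namespace Pool.Agent.Work.MP_ca14f8_co.QE

namespace XCcB

variable {n : ℕ} {M : Type} [AddCommGroup M] [Module ℚ M]

theorem comm_E_y (e : Fin n → Fin n → Module.End ℚ M) (hR : IsRep e) (i r : Fin n) (hir : i < r)
    (σ : Fin n → ℚ) (hσ : ∀ a, σ a ≠ 0 → a < i) :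
    Lin e i σ * e i r - e i r * Lin e i σ = Lin e r σ := by
  unfold Lin
  rw [Finset.sum_mul, Finset.mul_sum, ← Finset.sum_sub_distrib]
  refine Finset.sum_congr rfl fun a _ => ?_
  by_cases h : σ a = 0
  · simp [h]
  · have ha := hσ a h
    have h1 := hR a i i r ha hir
    have hne : a ≠ r := ne_of_lt (lt_trans ha hir)
    rw [if_pos rfl, if_neg hne, sub_zero] at h1
    rw [smul_mul_assoc, mul_smul_comm, ← smul_sub, h1]

theorem comm_P_E (e : Fin n → Fin n → Module.End ℚ M) (hR : IsRep e) (i r : Fin n) (hir : i < r)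
    (σ : Fin n → ℚ) (hσ : ∀ a, σ a ≠ 0 → a < i) :
    Commute (Lin e r σ) (Lin e i σ) := by
  unfold Lin
  refine Commute.sum_left _ _ _ fun a _ => Commute.sum_right _ _ _ fun a' _ => ?_
  by_cases h : σ a = 0
  · rw [h, zero_smul]; exact Commute.zero_left _
  by_cases h' : σ a' = 0
  · rw [h', zero_smul]; exact Commute.zero_right _
  have ha := hσ a h
  have ha' := hσ a' h'
  have h1 := hR a r a' i (lt_trans ha hir) ha'
  rw [if_neg (ne_of_gt (lt_trans ha' hir)), if_neg (ne_of_lt ha), sub_zero] at h1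
  have h2 : Commute (e a r) (e a' i) := sub_eq_zero.1 h1
  exact (h2.smul_left _).smul_right _

theorem comm_P_y (e : Fin n → Fin n → Module.End ℚ M) (hR : IsRep e) (i r : Fin n) (hir : i < r)
    (σ : Fin n → ℚ) (hσ : ∀ a, σ a ≠ 0 → a < i) :
    Commute (Lin e r σ) (e i r) := by
  unfold Lin
  refine Commute.sum_left _ _ _ fun a _ => ?_
  by_cases h : σ a = 0
  · rw [h, zero_smul]; exact Commute.zero_left _
  have ha := hσ a h
  have h1 := hR a r i r (lt_trans ha hir) hir
  rw [if_neg (ne_of_gt hir), if_neg (ne_of_lt (lt_trans ha hir)), sub_zero] at h1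
  have h2 : Commute (e a r) (e i r) := sub_eq_zero.1 h1
  exact h2.smul_left _

theorem pow_ge (E : Module.End ℚ M) (u : M) (a b : ℕ) (hab : a ≤ b) (h : (E ^ a) u = 0) :
    (E ^ b) u = 0 := by
  obtain ⟨c, rfl⟩ := Nat.exists_eq_add_of_le hab
  rw [add_comm, pow_add, Module.End.mul_apply, h, map_zero]

end XCcB

open XCcB in
theorem I_CcB (hM : StMM2) (hD : StD) (hB : StBin) : StCcB := by
  intro n M _ _ e w v r s i u hH t σ hσ
  obtain ⟨hR, hT, hC, hi, hprev⟩ := hH
  obtain ⟨-, -, -, -, hM5, hM6, hM7⟩ := hM n w v r s hT i hi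
  have hi' := hi
  unfold Trs at hi'
  rw [Finset.mem_filter] at hi'
  obtain ⟨-, hir, hwis, hno⟩ := hi'
  have hval : ∀ a, a < i → (v * Equiv.swap i r) a = w a := by
    intro a ha
    rw [hT.hv]
    have h1 : a ≠ i := ne_of_lt ha
    have h2 : a ≠ r := ne_of_lt (lt_trans ha hir)
    have h3 : a ≠ s := ne_of_lt (lt_trans (lt_trans ha hir) hT.hrs)
    simp only [Equiv.Perm.mul_apply]
    rw [Equiv.swap_apply_of_ne_of_ne h1 h2, Equiv.swap_apply_of_ne_of_ne h2 h3]
  have hlt : ∀ a, σ a ≠ 0 → a < i := fun a ha => (hσ a ha).1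
  have hSi : Sup w i t σ := by
    intro a ha
    refine ⟨hlt a ha, ?_⟩
    have := (hσ a ha).2
    rwa [hval a (hlt a ha)] at this
  have hSr : Sup w r t σ := fun a ha => ⟨lt_trans (hlt a ha) hir, (hSi a ha).2⟩
  have hEi := hC i t σ hSi
  have hPr := hC r t σ hSr
  have key := hB M (Lin e i σ) (e i r) (Lin e r σ) (mm (v * Equiv.swap i r) i t + 1)
    (mm w r (w i).val) u (comm_E_y e hR i r hir σ hlt) (comm_P_E e hR i r hir σ hlt)
    (comm_P_y e hR i r hir σ hlt) ?_
  · rw [Module.End.mul_apply] at key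
    exact key
  intro j hjm hjβ
  rcases le_or_gt t (w i).val with ht | ht
  · have h5 := hM5 t ht
    rw [Module.End.mul_apply, pow_ge (Lin e i σ) u (mm w i t + 1) _ (by omega) hEi, map_zero]
  rcases le_or_gt t (w s).val with ht2 | ht2
  · obtain ⟨h6, h6'⟩ := hM6 t ht ht2
    rw [h6'] at hEi
    rcases lt_or_eq_of_le hjm with hj | hj
    · rw [Module.End.mul_apply, pow_ge (Lin e i σ) u (0 + 1) _ (by omega) hEi, map_zero]
    · have hP : ((Lin e r σ) ^ (mm w r t)) u = 0 := by
        refine hD n M e w v r s u hR hT hC t ht2 ?_ σ hSr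
        intro i' hi' hti'
        refine hprev i' hi' ?_
        unfold Trs at hi'
        rw [Finset.mem_filter] at hi'
        obtain ⟨-, hir', hwis', -⟩ := hi'
        have hlt' : w i < w i' := by
          rw [Fin.lt_def]; omega
        rcases lt_trichotomy i' i with h | h | h
        · exact h
        · rw [h] at hlt'; exact absurd hlt' (lt_irrefl _)
        · exact absurd ⟨hlt', hwis'⟩ (hno i' h hir')
      rw [hj, Nat.sub_self, pow_zero, mul_one, h6]
      exact hP
  · obtain ⟨h7, h7', h7''⟩ := hM7 t ht2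
    rw [h7'] at hEi
    rw [h7''] at hPr
    rw [h7] at hjm ⊢
    have hj : j = 0 ∨ j = 1 := by omega
    rcases hj with rfl | rfl
    · rw [pow_zero, one_mul]
      exact hEi
    · rw [Nat.sub_self, pow_zero, mul_one]
      exact hPr

end Pool.Agent.Work.MP_ca14f8_co.QE

end

section

/-!
The constraints `(b, t)`, `i < b < r`, `w i < t ≤ w s < w b`, of `w_i` for `e_ir^β u`.
-/

set_option autoImplicit false
open Classical

namespace Pool.Agent.Work.MP_ca14f8_co.QE

namespace XCcD

variable {n : ℕ} {M : Type} [AddCommGroup M] [Module ℚ M]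

lemma comm_e (e : Fin n → Fin n → Module.End ℚ M) (he : IsRep e) {a b c d : Fin n}
    (hab : a < b) (hcd : c < d) (hbc : b ≠ c) (had : a ≠ d) : Commute (e a b) (e c d) := by
  have h := he a b c d hab hcd
  rw [if_neg hbc, if_neg had, sub_zero] at h
  exact sub_eq_zero.1 h

lemma comm_lin (e : Fin n → Fin n → Module.End ℚ M) (he : IsRep e) {b c d : Fin n}
    (hcd : c < d) (hbc : b ≠ c) (σ : Fin n → ℚ) (hσ : ∀ a, σ a ≠ 0 → a < b ∧ a ≠ d) :
    Commute (Lin e b σ) (e c d) := by
  unfold Lin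
  refine Commute.sum_left _ _ _ (fun a _ => ?_)
  by_cases h : σ a = 0
  · rw [h, zero_smul]
    exact Commute.zero_left _
  · exact (comm_e e he (hσ a h).1 hcd hbc (hσ a h).2).smul_left _

lemma comm_lin2 (e : Fin n → Fin n → Module.End ℚ M) (he : IsRep e) {b d : Fin n}
    (σ τ : Fin n → ℚ) (hσ : ∀ a, σ a ≠ 0 → a < b ∧ a < d) (hτ : ∀ a, τ a ≠ 0 → a < d ∧ a < b) :
    Commute (Lin e b σ) (Lin e d τ) := by
  have h : ∀ c, τ c ≠ 0 → Commute (Lin e b σ) (e c d) := fun c hc =>
    comm_lin e he (hτ c hc).1 (ne_of_gt (hτ c hc).2) σ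
      (fun a ha => ⟨(hσ a ha).1, ne_of_lt (hσ a ha).2⟩)
  have h2 : Lin e d τ = ∑ c, τ c • e c d := rfl
  rw [h2]
  refine Commute.sum_right _ _ _ (fun c _ => ?_)
  by_cases hc : τ c = 0
  · rw [hc, zero_smul]
    exact Commute.zero_right _
  · exact (h c hc).smul_right _

lemma lin_brk (e : Fin n → Fin n → Module.End ℚ M) (he : IsRep e) {b r : Fin n} (hbr : b < r)
    (σ : Fin n → ℚ) (hσ : ∀ a, σ a ≠ 0 → a < b) :
    Lin e b σ * e b r - e b r * Lin e b σ = Lin e r σ := by
  unfold Lin
  rw [Finset.sum_mul, Finset.mul_sum, ← Finset.sum_sub_distrib]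
  refine Finset.sum_congr rfl fun a _ => ?_
  by_cases h : σ a = 0
  · simp [h]
  · have ha := hσ a h
    have h1 := he a b b r ha hbr
    rw [if_pos rfl, if_neg (ne_of_lt (lt_trans ha hbr)), sub_zero] at h1
    rw [smul_mul_assoc, mul_smul_comm, ← smul_sub, h1]

lemma lin_single (e : Fin n → Fin n → Module.End ℚ M) (b a : Fin n) :
    Lin e b (Pi.single a 1) = e a b := by
  unfold Lin
  rw [Finset.sum_eq_single a]
  · rw [Pi.single_eq_same, one_smul]
  · intro c _ hc
    rw [Pi.single_eq_of_ne hc, zero_smul]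
  · intro h; exact absurd (Finset.mem_univ a) h

lemma lin_add (e : Fin n → Fin n → Module.End ℚ M) (b a : Fin n) (σ : Fin n → ℚ) (x : ℚ) :
    Lin e b (σ + x • Pi.single a 1) = Lin e b σ + x • e a b := by
  rw [← lin_single e b a]
  unfold Lin
  rw [Finset.smul_sum, ← Finset.sum_add_distrib]
  refine Finset.sum_congr rfl fun c _ => ?_
  rw [Pi.add_apply, Pi.smul_apply, add_smul, smul_eq_mul, mul_smul]

lemma lin_sub_update (e : Fin n → Fin n → Module.End ℚ M) (r i : Fin n) (σ : Fin n → ℚ) :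
    Lin e r σ - Lin e r (Function.update σ i 0) = σ i • e i r := by
  unfold Lin
  rw [← Finset.sum_sub_distrib, Finset.sum_eq_single i]
  · rw [Function.update_self, zero_smul, sub_zero]
  · intro c _ hc
    rw [Function.update_of_ne hc, sub_self]
  · intro h; exact absurd (Finset.mem_univ i) h

lemma wi_i {w v : Equiv.Perm (Fin n)} {r s i : Fin n} (h : TrD w v r s) (hir : i < r) :
    (v * Equiv.swap i r) i = w s := by
  rw [Equiv.Perm.mul_apply, Equiv.swap_apply_left, h.hv, Equiv.Perm.mul_apply,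
    Equiv.swap_apply_left]

lemma wi_a {w v : Equiv.Perm (Fin n)} {r s i a : Fin n} (h : TrD w v r s) (hai : a ≠ i)
    (har : a < r) : (v * Equiv.swap i r) a = w a := by
  rw [Equiv.Perm.mul_apply, Equiv.swap_apply_of_ne_of_ne hai (ne_of_lt har), h.hv,
    Equiv.Perm.mul_apply, Equiv.swap_apply_of_ne_of_ne (ne_of_lt har)
      (ne_of_lt (har.trans h.hrs))]

lemma mm_zero {w v : Equiv.Perm (Fin n)} {r s : Fin n} (h : TrD w v r s) :
    mm w r ((w s).val + 1) = 0 := by
  unfold mm
  rw [Finset.card_eq_zero, Finset.filter_eq_empty_iff]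
  rintro k - ⟨h1, h2, h3⟩
  rcases lt_trichotomy k s with hk | hk | hk
  · have h4 := h.inc k s h1 hk
    rw [Fin.lt_def] at h4
    omega
  · rw [hk] at h2
    omega
  · exact absurd (h.smax k hk) (not_lt.2 h3.le)

/-- the case `σ i ≠ 0`. -/
lemma main (hM : StMM3) (hD : StD) (hH : StHard) {e : Fin n → Fin n → Module.End ℚ M}
    {w v : Equiv.Perm (Fin n)} {r s i : Fin n} {u : M} (h : CcH e w v r s i u) {b : Fin n} {t : ℕ}
    (hib : i < b) (hbr : b < r) (hsb : w s < w b) (hit : (w i).val < t) (hts : t ≤ (w s).val)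
    (σ : Fin n → ℚ) (hσ : ∀ a, σ a ≠ 0 → a < b) (hσ2 : ∀ a, a ≠ i → σ a ≠ 0 → t ≤ (w a).val)
    (hσi : σ i ≠ 0) :
    ((Lin e b σ) ^ (mm w b t)) (((e i r) ^ (mm w r (w i).val)) u) = 0 := by
  obtain ⟨hR, hT, hC, hi, hprev⟩ := h
  obtain ⟨-, -, -, hM4⟩ := hM n w v r s hT i hi
  obtain ⟨-, hm⟩ := hM4 b t hib hbr hsb hit hts
  have hi' := hi
  unfold Trs at hi'
  rw [Finset.mem_filter] at hi'
  obtain ⟨-, hir, hwis, hno⟩ := hi'
  have hσ' : ∀ a, Function.update σ i 0 a ≠ 0 → a ≠ i ∧ σ a ≠ 0 := by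
    intro a ha
    by_cases hai : a = i
    · rw [hai, Function.update_self] at ha
      exact absurd rfl ha
    · rw [Function.update_of_ne hai] at ha
      exact ⟨hai, ha⟩
  have hz : e b r u = 0 := by
    have h1 := hC r ((w s).val + 1) (Pi.single b 1) (by
      intro c hc
      by_cases hcb : c = b
      · rw [hcb]
        rw [Fin.lt_def] at hsb
        exact ⟨hbr, hsb⟩
      · exact absurd (Pi.single_eq_of_ne hcb _) hc)
    rw [mm_zero hT, lin_single, zero_add, pow_one] at h1
    exact h1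
  have hE : ((Lin e b σ) ^ (mm w b (w i).val + 1)) u = 0 := by
    refine hC b (w i).val σ (fun a ha => ⟨hσ a ha, ?_⟩)
    by_cases hai : a = i
    · rw [hai]
    · exact hit.le.trans (hσ2 a hai ha)
  have hP : ((Lin e r (Function.update σ i 0)) ^ (mm w r t)) u = 0 := by
    refine hD n M e w v r s u hR hT hC t hts ?_ _ ?_
    · intro i' hi' hti'
      refine hprev i' hi' ?_
      unfold Trs at hi'
      rw [Finset.mem_filter] at hi'
      obtain ⟨-, hir', hwis', -⟩ := hi'
      have hlt' : w i < w i' := by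
        rw [Fin.lt_def]; omega
      rcases lt_trichotomy i' i with h | h | h
      · exact h
      · rw [h] at hlt'; exact absurd hlt' (lt_irrefl _)
      · exact absurd ⟨hlt', hwis'⟩ (hno i' h hir')
    · intro a ha
      obtain ⟨h1, h2⟩ := hσ' a ha
      exact ⟨(hσ a h2).trans hbr, hσ2 a h1 h2⟩
  have key := hH M (Lin e b σ) (Lin e r σ) (Lin e r (Function.update σ i 0)) (e b r)
    (mm w b t) (mm w b (w i).val) (mm w r t) (mm w r (w i).val) u
    (lin_brk e hR hbr σ hσ)
    (comm_lin2 e hR σ σ (fun a ha => ⟨(hσ a ha).trans hbr, hσ a ha⟩)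
      (fun a ha => ⟨hσ a ha, (hσ a ha).trans hbr⟩))
    (comm_lin e hR hbr (ne_of_gt hbr) σ
      (fun a ha => ⟨(hσ a ha).trans hbr, ne_of_lt ((hσ a ha).trans hbr)⟩))
    (comm_lin2 e hR _ σ (fun a ha => ⟨(hσ a (hσ' a ha).2).trans hbr, hσ a (hσ' a ha).2⟩)
      (fun a ha => ⟨hσ a ha, (hσ a ha).trans hbr⟩))
    (comm_lin2 e hR _ σ (fun a ha => ⟨(hσ a (hσ' a ha).2).trans hbr,
        (hσ a (hσ' a ha).2).trans hbr⟩)
      (fun a ha => ⟨(hσ a ha).trans hbr, (hσ a ha).trans hbr⟩))
    hz hE hP hm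
  rw [lin_sub_update, smul_pow, mul_smul_comm, LinearMap.smul_apply,
    Module.End.mul_apply] at key
  exact (smul_eq_zero.1 key).resolve_left (pow_ne_zero _ hσi)

end XCcD

open XCcD in
theorem I_CcD (hM : StMM3) (hD : StD) (hH : StHard) (hG : StGEN) : StCcD := by
  intro n M _ _ e w v r s i u h b t hib hbr hsb hit hts σ hσ
  have hH' := h
  obtain ⟨hR, hT, hC, hi, hprev⟩ := hH'
  obtain ⟨-, -, -, hM4⟩ := hM n w v r s hT i hi
  obtain ⟨hm1, -⟩ := hM4 b t hib hbr hsb hit hts
  rw [hm1]
  have hσ1 : ∀ a, σ a ≠ 0 → a < b := fun a ha => (hσ a ha).1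
  have hσ2 : ∀ a, a ≠ i → σ a ≠ 0 → t ≤ (w a).val := by
    intro a hai ha
    have h1 := (hσ a ha).2
    rwa [wi_a hT hai ((hσ1 a ha).trans hbr)] at h1
  by_cases hσi : σ i = 0
  · have h1 := hG M (Lin e b σ) (e i b) (mm w b t) (((e i r) ^ (mm w r (w i).val)) u)
      (comm_lin e hR hib (ne_of_gt hib) σ (fun a ha => ⟨hσ1 a ha, ne_of_lt (hσ1 a ha)⟩))
      (fun x hx => by
        rw [← lin_add e b i σ x]
        refine main hM hD hH h hib hbr hsb hit hts _ ?_ ?_ ?_
        · intro a ha
          by_cases hai : a = i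
          · rw [hai]; exact hib
          · rw [Pi.add_apply, Pi.smul_apply, Pi.single_eq_of_ne hai, smul_zero, add_zero] at ha
            exact hσ1 a ha
        · intro a hai ha
          rw [Pi.add_apply, Pi.smul_apply, Pi.single_eq_of_ne hai, smul_zero, add_zero] at ha
          exact hσ2 a hai ha
        · rw [Pi.add_apply, Pi.smul_apply, Pi.single_eq_same, hσi, zero_add, smul_eq_mul,
            mul_one]
          exact hx) (mm w b t) 0 (add_zero _)
    rw [pow_zero, mul_one] at h1
    exact h1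
  · exact main hM hD hH h hib hbr hsb hit hts σ hσ1 hσ2 hσi

end Pool.Agent.Work.MP_ca14f8_co.QE

end

section

/-!
Block QE of MP_ca14f8_co, item D: descending induction on the threshold `t`.
-/

set_option autoImplicit false
open Classical

namespace Pool.Agent.Work.MP_ca14f8_co.QE

namespace XD

variable {n : ℕ} {M : Type} [AddCommGroup M] [Module ℚ M]

theorem comm_y {e : Fin n → Fin n → Module.End ℚ M} (h : IsRep e) {a c r : Fin n} (ha : a < r)
    (hc : c < r) : Commute (e a r) (e c r) := by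
  have h1 := h a r c r ha hc
  rw [if_neg (ne_of_gt hc), if_neg (ne_of_lt ha), sub_zero] at h1
  exact sub_eq_zero.mp h1

/-- `e c r` commutes with `e a b` for `a < b < r`, `c ≠ b`. -/
theorem comm_ba {e : Fin n → Fin n → Module.End ℚ M} (h : IsRep e) {a b c r : Fin n} (hab : a < b)
    (hbr : b < r) (hcr : c < r) (hcb : c ≠ b) : Commute (e c r) (e a b) := by
  have h1 := h a b c r hab hcr
  rw [if_neg (Ne.symm hcb), if_neg (ne_of_lt (hab.trans hbr)), sub_zero] at h1
  exact (sub_eq_zero.mp h1).symm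

theorem comm_Lin {e : Fin n → Fin n → Module.End ℚ M} (X : Module.End ℚ M) (b : Fin n)
    (τ : Fin n → ℚ) (h : ∀ c, τ c ≠ 0 → Commute X (e c b)) : Commute X (Lin e b τ) := by
  unfold Lin
  refine Commute.sum_right _ _ _ (fun c _ => ?_)
  by_cases hc : τ c = 0
  · rw [hc, zero_smul]; exact Commute.zero_right _
  · exact (h c hc).smul_right _

theorem comm_LL {e : Fin n → Fin n → Module.End ℚ M} (h : IsRep e) (r : Fin n) (σ τ : Fin n → ℚ)
    (hσ : ∀ c, σ c ≠ 0 → c < r) (hτ : ∀ c, τ c ≠ 0 → c < r) :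
    Commute (Lin e r σ) (Lin e r τ) := by
  refine comm_Lin _ _ _ (fun c hc => ?_)
  exact (comm_Lin _ _ _ (fun d hd => comm_y h (hτ c hc) (hσ d hd))).symm

theorem Lin_add (e : Fin n → Fin n → Module.End ℚ M) (b : Fin n) (σ τ : Fin n → ℚ) :
    Lin e b (σ + τ) = Lin e b σ + Lin e b τ := by
  unfold Lin
  rw [← Finset.sum_add_distrib]
  exact Finset.sum_congr rfl (fun a _ => by rw [Pi.add_apply, add_smul])

theorem Lin_single (e : Fin n → Fin n → Module.End ℚ M) (b a : Fin n) (c : ℚ) :
    Lin e b (Pi.single a c) = c • e a b := by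
  unfold Lin
  rw [Finset.sum_eq_single a]
  · rw [Pi.single_eq_same]
  · intro d _ hd
    rw [Pi.single_eq_of_ne hd, zero_smul]
  · intro h; exact absurd (Finset.mem_univ a) h

/-- `[∑ σ_c e_ca, e_ar] = ∑ σ_c e_cr`. -/
theorem brk {e : Fin n → Fin n → Module.End ℚ M} (h : IsRep e) {a r : Fin n} (har : a < r)
    (σ : Fin n → ℚ) (hσ : ∀ c, σ c ≠ 0 → c < a) :
    Lin e a σ * e a r - e a r * Lin e a σ = Lin e r σ := by
  unfold Lin
  rw [Finset.sum_mul, Finset.mul_sum, ← Finset.sum_sub_distrib]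
  refine Finset.sum_congr rfl (fun c _ => ?_)
  by_cases hc : σ c = 0
  · rw [hc]; simp
  · have h1 := h c a a r (hσ c hc) har
    rw [if_pos rfl, if_neg (ne_of_lt ((hσ c hc).trans har)), sub_zero] at h1
    rw [smul_mul_assoc, mul_smul_comm, ← smul_sub, h1]

/-- `[e_ak, ∑ τ_c e_cr] = τ_k e_ar`. -/
theorem brk2 {e : Fin n → Fin n → Module.End ℚ M} (h : IsRep e) {a k r : Fin n} (hak : a < k)
    (hkr : k < r) (τ : Fin n → ℚ) (hτ : ∀ c, τ c ≠ 0 → c < r) :
    e a k * Lin e r τ - Lin e r τ * e a k = τ k • e a r := by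
  unfold Lin
  rw [Finset.sum_mul, Finset.mul_sum, ← Finset.sum_sub_distrib, Finset.sum_eq_single k]
  · have h1 := h a k k r hak hkr
    rw [if_pos rfl, if_neg (ne_of_lt (hak.trans hkr)), sub_zero] at h1
    rw [smul_mul_assoc, mul_smul_comm, ← smul_sub, h1]
  · intro c _ hck
    by_cases hc : τ c = 0
    · rw [hc]; simp
    · have h1 := h a k c r hak (hτ c hc)
      rw [if_neg (Ne.symm hck), if_neg (ne_of_lt (hak.trans hkr)), sub_zero] at h1
      rw [smul_mul_assoc, mul_smul_comm, ← smul_sub, h1, smul_zero]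
  · intro h; exact absurd (Finset.mem_univ k) h

theorem pow_add_zero {X Y : Module.End ℚ M} (h : Commute X Y) (γ : ℕ) (u : M)
    (H : ∀ i j, i + j = γ → (X ^ i * Y ^ j) u = 0) : ((X + Y) ^ γ) u = 0 := by
  rw [h.add_pow, LinearMap.sum_apply]
  refine Finset.sum_eq_zero (fun m hm => ?_)
  have hm' : m ≤ γ := Nat.lt_succ_iff.mp (Finset.mem_range.mp hm)
  rw [← (Nat.cast_commute (γ.choose m) (X ^ m * Y ^ (γ - m))).eq, Module.End.mul_apply,
    H m (γ - m) (by omega), map_zero]

theorem final (hSH : StSH) {e : Fin n → Fin n → Module.End ℚ M} (h : IsRep e)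
    (w : Equiv.Perm (Fin n)) (u : M) {a r : Fin n} (har : a < r) (t θ : ℕ)
    (hwa : (w a).val = t) (htθ : t < θ)
    (hcon : ∀ σ' : Fin n → ℚ, Sup w a (t + 1) σ' → (Lin e a σ') u = 0)
    (hpos : ∀ a', a' < r → t < (w a').val → (w a').val < θ → a' < a)
    (γ : ℕ) (hcl : ∀ τ : Fin n → ℚ, Sup w r θ τ → ∀ i j, γ ≤ i + j →
      ((e a r) ^ i * (Lin e r τ) ^ j) u = 0)
    (σ : Fin n → ℚ) (hσ : Sup w r t σ) : ((Lin e r σ) ^ γ) u = 0 := by
  have h2 : ∃ σ₂ : Fin n → ℚ, σ₂ = fun c => if t < (w c).val ∧ (w c).val < θ then σ c else 0 :=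
    ⟨_, rfl⟩
  obtain ⟨σ₂, e2⟩ := h2
  have h3 : ∃ σ₃ : Fin n → ℚ, σ₃ = fun c => if θ ≤ (w c).val then σ c else 0 := ⟨_, rfl⟩
  obtain ⟨σ₃, e3⟩ := h3
  have s2 : ∀ c, σ₂ c ≠ 0 → σ c ≠ 0 ∧ t < (w c).val ∧ (w c).val < θ := by
    intro c hc
    rw [e2] at hc
    by_cases hh : t < (w c).val ∧ (w c).val < θ
    · simp only [if_pos hh] at hc; exact ⟨hc, hh.1, hh.2⟩
    · simp only [if_neg hh] at hc; exact absurd rfl hc
  have s3 : ∀ c, σ₃ c ≠ 0 → σ c ≠ 0 ∧ θ ≤ (w c).val := by
    intro c hc
    rw [e3] at hc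
    by_cases hh : θ ≤ (w c).val
    · simp only [if_pos hh] at hc; exact ⟨hc, hh⟩
    · simp only [if_neg hh] at hc; exact absurd rfl hc
  have r2 : ∀ c, σ₂ c ≠ 0 → c < r := fun c hc => (hσ c (s2 c hc).1).1
  have r3 : ∀ c, σ₃ c ≠ 0 → c < r := fun c hc => (hσ c (s3 c hc).1).1
  have a2 : ∀ c, σ₂ c ≠ 0 → c < a := fun c hc => hpos c (r2 c hc) (s2 c hc).2.1 (s2 c hc).2.2
  have hdec : σ = (σ₂ + Pi.single a (σ a)) + σ₃ := by
    funext c
    rw [Pi.add_apply, Pi.add_apply, e2, e3]
    by_cases hca : c = a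
    · subst hca
      rw [Pi.single_eq_same]
      simp only [hwa, lt_irrefl, false_and, if_false, not_le.mpr htθ, zero_add, add_zero]
    · rw [Pi.single_eq_of_ne hca]
      by_cases hc0 : σ c = 0
      · simp [hc0]
      · have h1 := (hσ c hc0).2
        have hne : (w c).val ≠ t := by
          intro hh
          apply hca
          apply w.injective
          apply Fin.ext
          rw [hh, hwa]
        have h2 : t < (w c).val := by omega
        by_cases hθ : θ ≤ (w c).val
        · simp [h2, hθ, not_lt.mpr hθ]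
        · simp [h2, hθ, not_le.mp hθ]
  have hL : Lin e r σ = (Lin e r σ₂ + σ a • e a r) + Lin e r σ₃ := by
    conv_lhs => rw [hdec]
    rw [Lin_add, Lin_add, Lin_single]
  have c_y2 : Commute (Lin e r σ₂) (e a r) :=
    (comm_Lin _ _ _ (fun c hc => comm_y h har (r2 c hc))).symm
  have c_y3 : Commute (Lin e r σ₃) (e a r) :=
    (comm_Lin _ _ _ (fun c hc => comm_y h har (r3 c hc))).symm
  have c_23 : Commute (Lin e r σ₂) (Lin e r σ₃) := comm_LL h r _ _ r2 r3
  have hb := brk h har σ₂ a2
  have c_2E : Commute (Lin e r σ₂) (Lin e a σ₂) := by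
    refine comm_Lin _ _ _ (fun c hc => ?_)
    refine (comm_Lin _ _ _ (fun d hd => ?_)).symm
    exact (comm_ba h (a2 c hc) har (r2 d hd) (ne_of_lt (a2 d hd))).symm
  have c_3E : Commute (Lin e r σ₃) (Lin e a σ₂) := by
    refine comm_Lin _ _ _ (fun c hc => ?_)
    refine (comm_Lin _ _ _ (fun d hd => ?_)).symm
    have hda : d ≠ a := by
      intro hh
      have := (s3 d hd).2
      rw [hh, hwa] at this
      omega
    exact (comm_ba h (a2 c hc) har (r3 d hd) hda).symm
  have hEu : (Lin e a σ₂) u = 0 :=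
    hcon σ₂ (fun c hc => ⟨a2 c hc, (s2 c hc).2.1⟩)
  rw [hL]
  refine pow_add_zero ?_ γ u (fun i j hij => ?_)
  · exact Commute.add_left c_23 ((c_y3.symm).smul_left _)
  rw [Module.End.mul_apply]
  refine pow_add_zero (c_y2.smul_right _) i _ (fun p q hpq => ?_)
  have hz : ((e a r) ^ i * (Lin e r σ₃) ^ j) u = 0 :=
    hcl σ₃ (fun c hc => ⟨r3 c hc, (s3 c hc).2⟩) i j (by omega)
  have hs := hSH M (Lin e a σ₂) (e a r) (Lin e r σ₂) ((Lin e r σ₃) ^ j) i u hb c_2E c_y2
    (c_3E.pow_left j) ((c_23.symm).pow_left j) (c_y3.pow_left j) hEu hz p q hpq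
  rw [← Module.End.mul_apply, smul_pow, mul_smul_comm, smul_mul_assoc, LinearMap.smul_apply, hs,
    smul_zero]

theorem mm_anti (w : Equiv.Perm (Fin n)) (b : Fin n) {t t' : ℕ} (h : t ≤ t') :
    mm w b t' ≤ mm w b t := by
  unfold mm
  refine Finset.card_le_card (fun k hk => ?_)
  rw [Finset.mem_filter] at hk ⊢
  exact ⟨hk.1, hk.2.1, h.trans hk.2.2.1, hk.2.2.2⟩

theorem pow_zero_of_le {X : Module.End ℚ M} {u : M} {p q : ℕ} (hpq : p ≤ q)
    (h : (X ^ p) u = 0) : (X ^ q) u = 0 := by
  obtain ⟨d, rfl⟩ := Nat.exists_eq_add_of_le hpq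
  rw [add_comm, pow_add, Module.End.mul_apply, h, map_zero]

theorem mm_split (w : Equiv.Perm (Fin n)) {a k r : Fin n} (hak : a < k) (hkr : k < r)
    (hw : w a < w k) (hwr : w k < w r)
    (hmin : ∀ c, a < c → c < r → w a < w c → ¬ w c < w k) :
    mm w k (w a).val + mm w r (w k).val = mm w r (w a).val := by
  unfold mm
  rw [← Finset.card_union_of_disjoint]
  · congr 1
    ext c
    simp only [Finset.mem_union, Finset.mem_filter, Finset.mem_univ, true_and, Fin.val_fin_le]
    constructor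
    · rintro (⟨h1, h2, h3⟩ | ⟨h1, h2, h3⟩)
      · have hca : w a < w c := lt_of_le_of_ne h2 (fun hh => by
          have := w.injective hh
          rw [← this] at h1
          exact absurd (hak.trans h1) (lt_irrefl _))
        have hcr : ¬ c < r := fun hh => hmin c (hak.trans h1) hh hca h3
        have hcr2 : c ≠ r := fun hh => by
          rw [hh] at h3
          exact absurd (h3.trans hwr) (lt_irrefl _)
        exact ⟨lt_of_le_of_ne (not_lt.mp hcr) (Ne.symm hcr2), h2, h3.trans hwr⟩
      · exact ⟨h1, (hw.le).trans h2, h3⟩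
    · rintro ⟨h1, h2, h3⟩
      by_cases h4 : w k ≤ w c
      · exact Or.inr ⟨h1, h4, h3⟩
      · exact Or.inl ⟨hkr.trans h1, h2, not_le.mp h4⟩
  · rw [Finset.disjoint_left]
    intro c hc hc'
    simp only [Finset.mem_filter, Finset.mem_univ, true_and, Fin.val_fin_le] at hc hc'
    exact absurd hc.2.2 (not_lt.mpr hc'.2.1)

theorem main (hG : StGEN) (h3 : StL3) (hSH : StSH)
    (e : Fin n → Fin n → Module.End ℚ M) (w v : Equiv.Perm (Fin n)) (r s : Fin n) (u : M)
    (hrep : IsRep e) (htr : TrD w v r s) (hcon : Con w e u) :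
    ∀ (d t : ℕ), t ≤ (w s).val → (w s).val - t = d →
    (∀ i ∈ Trs w r s, t ≤ (w i).val → ((e i r) ^ (mm w r (w i).val)) u = 0) →
    ∀ σ : Fin n → ℚ, Sup w r t σ → ((Lin e r σ) ^ (mm w r t)) u = 0 := by
  have hmm0 : mm w r ((w s).val + 1) = 0 := by
    unfold mm
    rw [Finset.card_eq_zero, Finset.filter_eq_empty_iff]
    rintro k _ ⟨h1, h2, h3'⟩
    have hks : k ≤ s := by
      by_contra hh
      exact absurd (htr.smax k (not_le.mp hh)) (not_lt.mpr h3'.le)
    rcases lt_or_eq_of_le hks with hlt | heq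
    · have h5 := htr.inc k s h1 hlt
      have h6 : (w k).val < (w s).val := h5
      omega
    · rw [heq] at h2; omega
  have hT : ∀ τ : Fin n → ℚ, Sup w r (w s).val τ → (Lin e r τ) u = 0 := by
    intro τ hτ
    have h1 : Sup w r ((w s).val + 1) τ := by
      intro c hc
      obtain ⟨h2, h3'⟩ := hτ c hc
      refine ⟨h2, ?_⟩
      have hne : (w c).val ≠ (w s).val := by
        intro hh
        have h4 : c = s := w.injective (Fin.ext hh)
        rw [h4] at h2
        exact absurd (h2.trans htr.hrs) (lt_irrefl _)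
      omega
    have h2 := hcon r _ τ h1
    rw [hmm0, zero_add, pow_one] at h2
    exact h2
  have hge1 : ∀ t, t ≤ (w s).val → 1 ≤ mm w r t := by
    intro t ht
    unfold mm
    rw [Nat.one_le_iff_ne_zero, Finset.card_ne_zero]
    exact ⟨s, Finset.mem_filter.mpr ⟨Finset.mem_univ _, htr.hrs, ht, htr.hws⟩⟩
  intro d
  induction d using Nat.strong_induction_on with
  | _ d ih =>
  intro t ht hd hyp σ hσ
  rcases eq_or_lt_of_le ht with hts | hts
  · have h1 : (Lin e r σ) u = 0 := hT σ (by rw [← hts]; exact hσ)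
    exact pow_zero_of_le (hge1 t ht) (by rw [pow_one]; exact h1)
  have IH : ∀ t', t < t' → t' ≤ (w s).val → ∀ τ : Fin n → ℚ, Sup w r t' τ →
      ((Lin e r τ) ^ (mm w r t')) u = 0 := by
    intro t' h1 h2 τ hτ
    exact ih ((w s).val - t') (by omega) t' h2 rfl (fun i hi hti => hyp i hi (by omega)) τ hτ
  by_cases hex : ∃ a, a < r ∧ (w a).val = t
  · obtain ⟨a, har, hwa⟩ := hex
    have hcon' : ∀ σ' : Fin n → ℚ, Sup w a (t + 1) σ' → (Lin e a σ') u = 0 := by
      intro σ' hσ'
      have h1 := hcon a (t + 1) σ' hσ'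
      have h2 : mm w a (t + 1) = 0 := by
        unfold mm
        rw [Finset.card_eq_zero, Finset.filter_eq_empty_iff]
        rintro k _ ⟨_, h4, h5⟩
        have h6 : (w k).val < (w a).val := h5
        omega
      rw [h2, zero_add, pow_one] at h1
      exact h1
    by_cases hat : a ∈ Trs w r s
    · have hat' := hat
      unfold Trs at hat'
      rw [Finset.mem_filter] at hat'
      refine final hSH hrep w u har t (w s).val hwa hts hcon' ?_ (mm w r t) ?_ σ hσ
      · intro a' h1 h2 h3'
        by_contra hh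
        rcases eq_or_lt_of_le (not_lt.mp hh) with h4 | h4
        · rw [← h4, hwa] at h2; omega
        · refine hat'.2.2.2 a' h4 h1 ⟨?_, ?_⟩
          · show (w a).val < (w a').val
            rw [hwa]; exact h2
          · exact h3'
      · intro τ hτ i j hij
        rcases Nat.eq_zero_or_pos j with hj | hj
        · subst hj
          rw [pow_zero, mul_one]
          refine pow_zero_of_le (p := mm w r t) (by omega) ?_
          have h1 := hyp a hat (by omega)
          rw [hwa] at h1
          exact h1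
        · have h1 : ((Lin e r τ) ^ j) u = 0 :=
            pow_zero_of_le (p := 1) hj (by rw [pow_one]; exact hT τ hτ)
          rw [Module.End.mul_apply, h1, map_zero]
    · have hK : (Finset.univ.filter (fun k : Fin n => a < k ∧ k < r ∧ w a < w k ∧
          w k < w s)).Nonempty := by
        by_contra hne
        rw [Finset.not_nonempty_iff_eq_empty, Finset.filter_eq_empty_iff] at hne
        apply hat
        unfold Trs
        rw [Finset.mem_filter]
        refine ⟨Finset.mem_univ _, har, ?_, ?_⟩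
        · show (w a).val < (w s).val
          rw [hwa]; exact hts
        · intro c h1 h2 h3'
          exact hne (Finset.mem_univ c) ⟨h1, h2, h3'.1, h3'.2⟩
      obtain ⟨k, hk, hkmin⟩ := Finset.exists_min_image _ (fun k => w k) hK
      rw [Finset.mem_filter] at hk
      obtain ⟨_, hak, hkr, hwak, hwks⟩ := hk
      have hmin : ∀ c, a < c → c < r → w a < w c → ¬ w c < w k := by
        intro c h1 h2 h3' h4
        have h5 := hkmin c (Finset.mem_filter.mpr
          ⟨Finset.mem_univ _, h1, h2, h3', h4.trans hwks⟩)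
        exact absurd h4 (not_lt.mpr h5)
      have hwkr : w k < w r := hwks.trans htr.hws
      have hsplit := mm_split w hak hkr hwak hwkr hmin
      rw [hwa] at hsplit
      have htk : t < (w k).val := by
        have h1 : (w a).val < (w k).val := hwak
        omega
      have hE : ((e a k) ^ (mm w k t + 1)) u = 0 := by
        have h1 := hcon k t (Pi.single a (1 : ℚ)) (by
          intro c hc
          have hca : c = a := by
            by_contra hh
            exact hc (Pi.single_eq_of_ne hh _)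
          rw [hca]
          exact ⟨hak, hwa.ge⟩)
        rw [Lin_single, one_smul] at h1
        exact h1
      have key : ∀ τ : Fin n → ℚ, Sup w r (w k).val τ → τ k ≠ 0 → ∀ i j, mm w r t ≤ i + j →
          ((e a r) ^ i * (Lin e r τ) ^ j) u = 0 := by
        intro τ hτ hτk i j hij
        have hτr : ∀ c, τ c ≠ 0 → c < r := fun c hc => (hτ c hc).1
        have h1 := h3 M (e a k) (Lin e r τ) (τ k • e a r) (mm w k t) (mm w r (w k).val) u
          (brk2 hrep hak hkr τ hτr)
          (((comm_ba hrep hak hkr har (ne_of_lt hak))).smul_left _)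
          ((comm_Lin _ _ _ (fun c hc => comm_y hrep har (hτr c hc))).smul_left _)
          hE (IH _ htk (le_of_lt hwks) τ hτ) i j (by omega)
        rw [smul_pow, smul_mul_assoc, LinearMap.smul_apply] at h1
        exact (smul_eq_zero.mp h1).resolve_left (pow_ne_zero _ hτk)
      refine final hSH hrep w u har t (w k).val hwa htk hcon' ?_ (mm w r t) ?_ σ hσ
      · intro a' h1 h2 h3'
        by_contra hh
        rcases eq_or_lt_of_le (not_lt.mp hh) with h4 | h4
        · rw [← h4, hwa] at h2; omega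
        · refine hmin a' h4 h1 ?_ h3'
          show (w a).val < (w a').val
          rw [hwa]; exact h2
      · intro τ hτ i j hij
        by_cases hτk : τ k = 0
        · have hτr : ∀ c, τ c ≠ 0 → c < r := fun c hc => (hτ c hc).1
          have hcom : Commute (Lin e r τ) (e k r) :=
            (comm_Lin _ _ _ (fun c hc => comm_y hrep hkr (hτr c hc))).symm
          have hcy : Commute (e a r) (Lin e r τ) :=
            comm_Lin _ _ _ (fun c hc => comm_y hrep har (hτr c hc))
          have h1 := hG M (Lin e r τ) (e k r) j (((e a r) ^ i) u) hcom (by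
            intro x hx
            have h2 := key (τ + Pi.single k x) (by
              intro c hc
              by_cases hck : c = k
              · rw [hck]; exact ⟨hkr, le_rfl⟩
              · rw [Pi.add_apply, Pi.single_eq_of_ne hck, add_zero] at hc
                exact hτ c hc) (by
              rw [Pi.add_apply, Pi.single_eq_same, hτk, zero_add]; exact hx) i j hij
            rw [Lin_add, Lin_single] at h2
            have hc2 : Commute (e a r) (Lin e r τ + x • e k r) :=
              hcy.add_right ((comm_y hrep har hkr).smul_right _)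
            rw [← Module.End.mul_apply, ← (hc2.pow_pow i j).eq]
            exact h2) j 0 (by omega)
          rw [pow_zero, mul_one, ← Module.End.mul_apply, ← (hcy.pow_pow i j).eq] at h1
          exact h1
        · exact key τ hτ hτk i j hij
  · have h1 : Sup w r (t + 1) σ := by
      intro c hc
      obtain ⟨h2, h3'⟩ := hσ c hc
      refine ⟨h2, ?_⟩
      have hne : (w c).val ≠ t := fun hh => hex ⟨c, h2, hh⟩
      omega
    exact pow_zero_of_le (mm_anti w r (Nat.le_succ t)) (IH (t + 1) (Nat.lt_succ_self t) hts σ h1)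

end XD

theorem I_D (hG : StGEN) (h3 : StL3) (hS : StSH) : StD := by
  intro n M _ _ e w v r s u hrep htr hcon t ht hyp σ hσ
  exact XD.main hG h3 hS e w v r s u hrep htr hcon _ t ht rfl hyp σ hσ

end Pool.Agent.Work.MP_ca14f8_co.QE

end

section

/-!
Existence of the transition data.
-/

set_option autoImplicit false
open Classical

namespace Pool.Agent.Work.MP_ca14f8_co.QE

namespace XEX

theorem eq_one_of_mono {n : ℕ} (w : Equiv.Perm (Fin n)) (h : ∀ a b, a < b → w a < w b) : w = 1 := by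
  have hs : StrictMono w := fun a b hab => h a b hab
  let e : Fin n ≃o Fin n :=
    { toEquiv := w, map_rel_iff' := by intro a b; exact hs.le_iff_le }
  have he : e = OrderIso.refl (Fin n) := Subsingleton.elim _ _
  ext a
  have := congrArg (fun f : Fin n ≃o Fin n => (f a).val) he
  simpa [e] using this

end XEX

theorem I_EX : StEX := by
  intro n w hw
  have hne : (Finset.univ.filter (fun r : Fin n => ∃ b, r < b ∧ w b < w r)).Nonempty := by
    by_contra hcon
    apply hw
    apply XEX.eq_one_of_mono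
    intro a b hab
    by_contra hlt
    apply hcon
    refine ⟨a, ?_⟩
    rw [Finset.mem_filter]
    refine ⟨Finset.mem_univ _, b, hab, ?_⟩
    rcases lt_trichotomy (w b) (w a) with h | h | h
    · exact h
    · exact absurd (w.injective h) (ne_of_gt hab)
    · exact absurd h hlt
  obtain ⟨r, hr, hmax⟩ := Finset.exists_max_image _ (fun x : Fin n => x) hne
  rw [Finset.mem_filter] at hr
  have hne2 : (Finset.univ.filter (fun s : Fin n => r < s ∧ w s < w r)).Nonempty := by
    obtain ⟨_, b, hb⟩ := hr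
    exact ⟨b, by rw [Finset.mem_filter]; exact ⟨Finset.mem_univ _, hb⟩⟩
  obtain ⟨s, hs, hmax2⟩ := Finset.exists_max_image _ (fun x : Fin n => x) hne2
  rw [Finset.mem_filter] at hs
  refine ⟨r, s, hs.2.1, hs.2.2, ?_, ?_, rfl⟩
  · intro a b hra hab
    rcases lt_trichotomy (w a) (w b) with h | h | h
    · exact h
    · exact absurd (w.injective h) (ne_of_lt hab)
    · exfalso
      have := hmax a (by rw [Finset.mem_filter]; exact ⟨Finset.mem_univ _, b, hab, h⟩)
      exact absurd hra (not_lt.mpr this)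
  · intro k hk
    rcases lt_trichotomy (w r) (w k) with h | h | h
    · exact h
    · exact absurd (w.injective h) (ne_of_lt (hs.2.1.trans hk))
    · exfalso
      have := hmax2 k (by rw [Finset.mem_filter]; exact ⟨Finset.mem_univ _, hs.2.1.trans hk, h⟩)
      exact absurd hk (not_lt.mpr this)

end Pool.Agent.Work.MP_ca14f8_co.QE

end

section

set_option autoImplicit false
open Classical

namespace Pool.Agent.Work.MP_ca14f8_co.QE

namespace XF

variable {n : ℕ} {M : Type} [AddCommGroup M] [Module ℚ M]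

/-- The quotient operators. -/
noncomputable def eq' (e : Fin n → Fin n → Module.End ℚ M) (F : Submodule ℚ M) (hF : Stab e F)
    (a b : Fin n) : Module.End ℚ (M ⧸ F) :=
  if h : a < b then F.mapQ F (e a b) (fun x hx => hF a b h x hx) else 0

theorem eq'_mk {e : Fin n → Fin n → Module.End ℚ M} {F : Submodule ℚ M} (hF : Stab e F)
    {a b : Fin n} (h : a < b) (x : M) :
    eq' e F hF a b (F.mkQ x) = F.mkQ (e a b x) := by
  unfold eq'
  rw [dif_pos h]
  rfl

theorem isRep {e : Fin n → Fin n → Module.End ℚ M} {F : Submodule ℚ M} (hF : Stab e F)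
    (he : IsRep e) : IsRep (eq' e F hF) := by
  intro a b c d hab hcd
  apply LinearMap.ext
  intro y
  obtain ⟨x, rfl⟩ := F.mkQ_surjective y
  have h1 := congrArg F.mkQ (LinearMap.congr_fun (he a b c d hab hcd) x)
  have e1 : (eq' e F hF a b * eq' e F hF c d - eq' e F hF c d * eq' e F hF a b) (F.mkQ x) =
      F.mkQ ((e a b * e c d - e c d * e a b) x) := by
    rw [LinearMap.sub_apply, Module.End.mul_apply, Module.End.mul_apply, eq'_mk hF hab,
      eq'_mk hF hcd, eq'_mk hF hab, eq'_mk hF hcd, ← map_sub]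
    rfl
  rw [e1, h1]
  by_cases hbc : b = c
  · by_cases hda : a = d
    · exfalso
      subst hbc hda
      exact absurd hab (not_lt.2 hcd.le)
    · rw [if_pos hbc, if_pos hbc, if_neg hda, if_neg hda, sub_zero, sub_zero]
      subst hbc
      rw [eq'_mk hF (hab.trans hcd)]
  · by_cases hda : a = d
    · rw [if_neg hbc, if_neg hbc, if_pos hda, if_pos hda, zero_sub, zero_sub]
      subst hda
      rw [LinearMap.neg_apply, LinearMap.neg_apply, eq'_mk hF (hcd.trans hab), map_neg]
    · rw [if_neg hbc, if_neg hbc, if_neg hda, if_neg hda, sub_zero, sub_zero]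
      simp

theorem pow_mk {F : Submodule ℚ M} {A : Module.End ℚ M} {A' : Module.End ℚ (M ⧸ F)}
    (h : ∀ x, A' (F.mkQ x) = F.mkQ (A x)) (k : ℕ) : ∀ x, (A' ^ k) (F.mkQ x) = F.mkQ ((A ^ k) x) := by
  induction k with
  | zero => intro x; simp
  | succ k ih =>
    intro x
    rw [pow_succ, pow_succ, Module.End.mul_apply, Module.End.mul_apply, h, ih]

theorem mk_zero_iff {F : Submodule ℚ M} (x : M) : F.mkQ x = 0 ↔ x ∈ F := by
  rw [Submodule.mkQ_apply, Submodule.Quotient.mk_eq_zero]

theorem lin_mk {e : Fin n → Fin n → Module.End ℚ M} {F : Submodule ℚ M} (hF : Stab e F)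
    {b : Fin n} {σ : Fin n → ℚ} (hσ : ∀ a, σ a ≠ 0 → a < b) (x : M) :
    Lin (eq' e F hF) b σ (F.mkQ x) = F.mkQ (Lin e b σ x) := by
  unfold Lin
  rw [LinearMap.sum_apply, LinearMap.sum_apply, map_sum]
  refine Finset.sum_congr rfl (fun a _ => ?_)
  rw [LinearMap.smul_apply, LinearMap.smul_apply]
  by_cases ha : σ a = 0
  · rw [ha, zero_smul, zero_smul, map_zero]
  · rw [eq'_mk hF (hσ a ha), map_smul]

theorem con_iff {e : Fin n → Fin n → Module.End ℚ M} {F : Submodule ℚ M} (hF : Stab e F)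
    (w : Equiv.Perm (Fin n)) (u : M) : Con w (eq' e F hF) (F.mkQ u) ↔ ConF w e F u := by
  have key : ∀ (b : Fin n) (t : ℕ) (σ : Fin n → ℚ), Sup w b t σ →
      (((Lin (eq' e F hF) b σ) ^ (mm w b t + 1)) (F.mkQ u) = 0 ↔
        ((Lin e b σ) ^ (mm w b t + 1)) u ∈ F) := by
    intro b t σ hσ
    rw [pow_mk (lin_mk hF (fun a ha => (hσ a ha).1)), mk_zero_iff]
  constructor
  · intro h b t σ hσ
    exact (key b t σ hσ).1 (h b t σ hσ)
  · intro h b t σ hσ
    exact (key b t σ hσ).2 (h b t σ hσ)

end XF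

theorem I_BbF (h : StBb) : StBbF := by
  intro n M _ _ e w v r s F u he hF htr hcon hi
  rw [← XF.con_iff hF]
  refine h n (M ⧸ F) (XF.eq' e F hF) w v r s (F.mkQ u) (XF.isRep hF he) htr
    ((XF.con_iff hF w u).2 hcon) ?_
  intro i hiT
  have hir : i < r := (Finset.mem_filter.1 hiT).2.1
  rw [XF.pow_mk (XF.eq'_mk hF hir), XF.mk_zero_iff]
  exact hi i hiT

theorem I_CcF (h : StCc) : StCcF := by
  intro n M _ _ e w v r s i F u he hF htr hcon hiT hi
  rw [← XF.con_iff hF]
  have hir : i < r := (Finset.mem_filter.1 hiT).2.1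
  rw [← XF.pow_mk (XF.eq'_mk hF hir)]
  refine h n (M ⧸ F) (XF.eq' e F hF) w v r s i (F.mkQ u)
    ⟨XF.isRep hF he, htr, (XF.con_iff hF w u).2 hcon, hiT, ?_⟩
  intro i' hi' hlt
  have hir' : i' < r := (Finset.mem_filter.1 hi').2.1
  rw [XF.pow_mk (XF.eq'_mk hF hir'), XF.mk_zero_iff]
  exact hi i' hi' hlt

end Pool.Agent.Work.MP_ca14f8_co.QE

end

section

/-!
# `StHard`
-/

set_option autoImplicit false
open Classical

namespace Pool.Agent.Work.MP_ca14f8_co.QE

namespace XHard

variable {M : Type} [AddCommGroup M] [Module ℚ M]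

lemma zE (E R z : Module.End ℚ M) (u : M) (h : E * z - z * E = R) (hRE : Commute R E)
    (hz : z u = 0) (k : ℕ) : z ((E ^ (k + 1)) u) = -((k + 1 : ℕ) : ℚ) • R ((E ^ k) u) := by
  have h1 : ∀ x : M, z (E x) = E (z x) - R x := by
    intro x
    have h2 := congrArg (fun f : Module.End ℚ M => f x) h
    simp only [LinearMap.sub_apply, Module.End.mul_apply] at h2
    rw [← h2]
    abel
  have h3 : ∀ x : M, R (E x) = E (R x) := by
    intro x
    have h4 := congrArg (fun f : Module.End ℚ M => f x) hRE.eq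
    simpa only [Module.End.mul_apply] using h4
  induction k with
  | zero =>
    rw [zero_add, pow_one, pow_zero, h1, hz, map_zero, zero_sub]
    simp
  | succ k ih =>
    have h5 : (E ^ (k + 1 + 1)) u = E ((E ^ (k + 1)) u) := by
      rw [pow_succ' E (k + 1), Module.End.mul_apply]
    have h6 : (E ^ (k + 1)) u = E ((E ^ k) u) := by
      rw [pow_succ' E k, Module.End.mul_apply]
    rw [h5, h1, ih, map_smul, ← h3, ← h6]
    push_cast
    module

lemma RE (E R z : Module.End ℚ M) (u : M) (h : E * z - z * E = R) (hRE : Commute R E)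
    (hRz : Commute R z) (hz : z u = 0) (m' : ℕ) (hE : (E ^ (m' + 1)) u = 0) (N : ℕ) :
    ∀ j, N + j = m' + 1 → (R ^ N * E ^ j) u = 0 := by
  induction N with
  | zero =>
    intro j hj
    have : j = m' + 1 := by omega
    subst this
    simpa using hE
  | succ N ih =>
    intro j hj
    have h1 := ih (j + 1) (by omega)
    have h2 : z ((R ^ N * E ^ (j + 1)) u) = 0 := by rw [h1, map_zero]
    have h3 : z ((R ^ N * E ^ (j + 1)) u) = (R ^ N) (z ((E ^ (j + 1)) u)) := by
      have h4 := congrArg (fun f : Module.End ℚ M => f ((E ^ (j + 1)) u)) (hRz.pow_left N).eq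
      simp only [Module.End.mul_apply] at h4
      rw [Module.End.mul_apply, h4]
    rw [h3, zE E R z u h hRE hz j, map_smul] at h2
    have h5 : (-((j + 1 : ℕ) : ℚ)) ≠ 0 := by
      rw [neg_ne_zero]
      exact_mod_cast Nat.succ_ne_zero j
    have h6 := (smul_eq_zero.1 h2).resolve_left h5
    rw [pow_succ, mul_assoc, Module.End.mul_apply, Module.End.mul_apply]
    exact h6

lemma RE' (E R z : Module.End ℚ M) (u : M) (h : E * z - z * E = R) (hRE : Commute R E)
    (hRz : Commute R z) (hz : z u = 0) (m' : ℕ) (hE : (E ^ (m' + 1)) u = 0) (N j : ℕ)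
    (hj : m' + 1 ≤ N + j) : (R ^ N * E ^ j) u = 0 := by
  rcases le_or_gt N (m' + 1) with hN | hN
  · obtain ⟨i, rfl⟩ : ∃ i, j = i + (m' + 1 - N) := ⟨j - (m' + 1 - N), by omega⟩
    have h1 := RE E R z u h hRE hRz hz m' hE N (m' + 1 - N) (by omega)
    rw [pow_add, ← mul_assoc, (hRE.pow_pow N i).eq, mul_assoc, Module.End.mul_apply, h1, map_zero]
  · obtain ⟨i, rfl⟩ : ∃ i, N = i + (m' + 1) := ⟨N - (m' + 1), by omega⟩
    have h1 := RE E R z u h hRE hRz hz m' hE (m' + 1) 0 (by omega)
    rw [pow_zero, mul_one] at h1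
    rw [(hRE.pow_pow (i + (m' + 1)) j).eq, pow_add, Module.End.mul_apply, Module.End.mul_apply, h1,
      map_zero, map_zero]

lemma main (E R P z : Module.End ℚ M) (u : M) (m m' D : ℕ) (h : E * z - z * E = R)
    (hRE : Commute R E) (hRz : Commute R z) (hPE : Commute P E) (hPR : Commute P R)
    (hz : z u = 0) (hE : (E ^ (m' + 1)) u = 0) (hP : (P ^ D) u = 0) (β : ℕ) :
    ∀ a b, m' + D ≤ m + a + b + β → (R ^ a * (P ^ b * (E ^ m * (R - P) ^ β))) u = 0 := by
  induction β with
  | zero =>
    intro a b hab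
    rw [pow_zero, mul_one]
    rcases le_or_gt D b with hb | hb
    · obtain ⟨i, rfl⟩ : ∃ i, b = i + D := ⟨b - D, by omega⟩
      rw [(hPE.pow_pow (i + D) m).eq, pow_add]
      simp only [Module.End.mul_apply, hP, map_zero]
    · have h1 := RE' E R z u h hRE hRz hz m' hE a m (by omega)
      rw [← mul_assoc, ((hPR.pow_pow b a).eq).symm, mul_assoc, Module.End.mul_apply, h1, map_zero]
  | succ β ih =>
    intro a b hab
    have h1 := ih (a + 1) b (by omega)
    have h2 := ih a (b + 1) (by omega)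
    have c1 : Commute (R - P) R := (Commute.refl R).sub_left hPR
    have c2 : Commute (R - P) P := (hPR.symm).sub_left (Commute.refl P)
    have c3 : Commute (R - P) E := hRE.sub_left hPE
    have h3 : R ^ a * (P ^ b * (E ^ m * (R - P) ^ (β + 1))) =
        R ^ (a + 1) * (P ^ b * (E ^ m * (R - P) ^ β)) -
          R ^ a * (P ^ (b + 1) * (E ^ m * (R - P) ^ β)) := by
      have e1 : P ^ b * (E ^ m * (R - P) ^ (β + 1)) =
          (R - P) * (P ^ b * (E ^ m * (R - P) ^ β)) := by
        rw [pow_succ' (R - P) β, ← mul_assoc (E ^ m), ← (c3.pow_right m).eq, mul_assoc,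
          ← mul_assoc (P ^ b), ← (c2.pow_right b).eq, mul_assoc]
      rw [e1, sub_mul, mul_sub, ← mul_assoc (R ^ a) R, ← pow_succ, ← mul_assoc P, ← pow_succ']
    rw [h3, LinearMap.sub_apply, h1, h2, sub_zero]

end XHard

theorem I_Hard : StHard := by
  intro M _ _ E R P z m m' D β u h hRE hRz hPE hPR hz hE hP hm
  have h1 := XHard.main E R P z u m m' D h hRE hRz hPE hPR hz hE hP β 0 0 (by omega)
  simpa using h1

end Pool.Agent.Work.MP_ca14f8_co.QE

end

section

/-!
Item LAP: the antisymmetrised product of two minors.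
-/

set_option autoImplicit false
open Classical

namespace Pool.Agent.Work.MP_ca14f8_co.QE

namespace XLAP

theorem sum_perm {Q A : Type} [Fintype Q] [DecidableEq Q] [Fintype A] [DecidableEq A]
    (i : A ↪ Q) (p : Q → Prop) [DecidablePred p] (hp : ∀ q, p q ↔ q ∈ Set.range i) (f : Q → Q → ℚ) :
    ∑ π : Equiv.Perm Q, ((Equiv.Perm.sign π : ℤ) : ℚ) *
      ((Matrix.of (fun a b : A => f (π (i a)) (i b))).det *
        ∏ q : {q // ¬ p q}, f (π q) q) =
    ((Fintype.card A).factorial : ℚ) * (Matrix.of f).det := by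
  have h1 : ∀ π : Equiv.Perm Q, (Matrix.of (fun a b : A => f (π (i a)) (i b))).det =
      ∑ τ : Equiv.Perm A, ((Equiv.Perm.sign τ : ℤ) : ℚ) * ∏ a, f (π (i a)) (i (τ a)) := by
    intro π
    rw [← Matrix.det_transpose, Matrix.det_apply']
    rfl
  have h2 : ∀ (π : Equiv.Perm Q) (τ : Equiv.Perm A),
      (∏ a, f (π (i a)) (i (τ a))) * ∏ q : {q // ¬ p q}, f (π q) q =
      ∏ q, f (π q) (τ.viaFintypeEmbedding i q) := by
    intro π τ
    rw [← Fintype.prod_subtype_mul_prod_subtype p]
    congr 1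
    · let e : A ≃ {q // p q} := Equiv.ofBijective (fun a => ⟨i a, (hp _).2 ⟨a, rfl⟩⟩) (by
        constructor
        · intro a b hab
          exact i.injective (congrArg Subtype.val hab)
        · rintro ⟨q, hq⟩
          obtain ⟨a, ha⟩ := (hp q).1 hq
          exact ⟨a, Subtype.ext ha⟩)
      rw [← Equiv.prod_comp e]
      refine Finset.prod_congr rfl fun a _ => ?_
      change _ = f (π (i a)) (τ.viaFintypeEmbedding i (i a))
      rw [Equiv.Perm.viaFintypeEmbedding_apply_image]
    · refine Finset.prod_congr rfl fun q _ => ?_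
      rw [Equiv.Perm.viaFintypeEmbedding_apply_notMem_range]
      intro h
      exact q.2 ((hp _).2 h)
  have h3 : ∀ τ : Equiv.Perm A, ∑ π : Equiv.Perm Q, ((Equiv.Perm.sign π : ℤ) : ℚ) *
      ∏ q, f (π q) (τ.viaFintypeEmbedding i q) =
      ((Equiv.Perm.sign τ : ℤ) : ℚ) * (Matrix.of f).det := by
    intro τ
    rw [← Equiv.sum_comp (Equiv.mulRight (τ.viaFintypeEmbedding i)), Matrix.det_apply', Finset.mul_sum]
    refine Finset.sum_congr rfl fun π _ => ?_
    rw [Equiv.coe_mulRight, Equiv.Perm.sign_mul, Equiv.Perm.viaFintypeEmbedding_sign]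
    have : ∏ q, f ((π * τ.viaFintypeEmbedding i) q) (τ.viaFintypeEmbedding i q) =
        ∏ q, f (π q) q := by
      rw [← Equiv.prod_comp (τ.viaFintypeEmbedding i) (fun q => f (π q) q)]
      rfl
    rw [this]
    push_cast
    simp only [Matrix.of_apply]
    ring
  calc ∑ π : Equiv.Perm Q, ((Equiv.Perm.sign π : ℤ) : ℚ) *
      ((Matrix.of (fun a b : A => f (π (i a)) (i b))).det *
        ∏ q : {q // ¬ p q}, f (π q) q)
      = ∑ π : Equiv.Perm Q, ∑ τ : Equiv.Perm A, ((Equiv.Perm.sign τ : ℤ) : ℚ) *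
          (((Equiv.Perm.sign π : ℤ) : ℚ) * ∏ q, f (π q) (τ.viaFintypeEmbedding i q)) := by
        refine Finset.sum_congr rfl fun π _ => ?_
        rw [h1, Finset.sum_mul, Finset.mul_sum]
        refine Finset.sum_congr rfl fun τ _ => ?_
        rw [← h2]
        ring
    _ = ∑ τ : Equiv.Perm A, ((Equiv.Perm.sign τ : ℤ) : ℚ) *
          (((Equiv.Perm.sign τ : ℤ) : ℚ) * (Matrix.of f).det) := by
        rw [Finset.sum_comm]
        refine Finset.sum_congr rfl fun τ _ => ?_
        rw [← Finset.mul_sum, h3]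
    _ = ∑ _τ : Equiv.Perm A, (Matrix.of f).det := by
        refine Finset.sum_congr rfl fun τ _ => ?_
        rw [← mul_assoc]
        have : ((Equiv.Perm.sign τ : ℤ) : ℚ) * ((Equiv.Perm.sign τ : ℤ) : ℚ) = 1 := by
          rcases Int.units_eq_one_or (Equiv.Perm.sign τ) with h | h <;> rw [h] <;> norm_num
        rw [this, one_mul]
    _ = ((Fintype.card A).factorial : ℚ) * (Matrix.of f).det := by
        rw [Finset.sum_const, nsmul_eq_mul, Finset.card_univ, Fintype.card_perm]

theorem sum_split {C : Type} [Fintype C] [DecidableEq C] (p : C → Prop) [DecidablePred p]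
    (Y : C → C → ℚ) (D : Equiv.Perm C → ℚ)
    (h0 : ∀ σ : Equiv.Perm C, (∃ g, ¬ p g ∧ p (σ g)) → D σ = 0)
    (d : ℚ)
    (h1 : ∀ (η : Equiv.Perm {a // p a}) (γ : Equiv.Perm {a // ¬ p a}),
      D (Equiv.Perm.subtypeCongr η γ) = ((Equiv.Perm.sign γ : ℤ) : ℚ) * d) :
    ∑ σ : Equiv.Perm C, ((Equiv.Perm.sign σ : ℤ) : ℚ) * ((∏ h : {a // p a}, Y h (σ h)) * D σ) =
      ((Fintype.card {a // ¬ p a}).factorial : ℚ) *
        (d * (Matrix.of (fun a b : {a // p a} => Y a b)).det) := by
  refine (Fintype.sum_of_injective (fun x : Equiv.Perm {a // p a} × Equiv.Perm {a // ¬ p a} =>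
      Equiv.Perm.subtypeCongr x.1 x.2)
    (Equiv.Perm.subtypeCongrHom_injective p)
    (fun x => ((Equiv.Perm.sign x.1 : ℤ) : ℚ) * ((∏ h : {a // p a}, Y h (x.1 h)) * d))
    (fun σ : Equiv.Perm C => ((Equiv.Perm.sign σ : ℤ) : ℚ) *
      ((∏ h : {a // p a}, Y h (σ h)) * D σ)) ?_ ?_).symm.trans ?_
  rotate_left 2
  · rw [Fintype.sum_prod_type]
    simp only [Finset.sum_const, Finset.card_univ, Fintype.card_perm, nsmul_eq_mul]
    rw [← Finset.mul_sum, ← Matrix.det_transpose, Matrix.det_apply']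
    congr 1
    rw [Finset.mul_sum]
    refine Finset.sum_congr rfl fun σ _ => ?_
    simp only [Matrix.transpose_apply, Matrix.of_apply]
    ring
  · intro σ hσ
    have : D σ = 0 := by
      apply h0
      by_contra hcon
      push Not at hcon
      apply hσ
      have h2 : ∀ h, p h → p (σ h) := by
        intro h hh
        by_contra hn
        let φ : {a // ¬ p a} → {a // ¬ p a} := fun a => ⟨σ a, hcon a a.2⟩
        have hφ : Function.Injective φ := by
          intro a b hab
          exact Subtype.ext (σ.injective (congrArg Subtype.val hab))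
        obtain ⟨g, hg⟩ := (Finite.injective_iff_surjective.1 hφ) ⟨σ h, hn⟩
        have : (g : C) = h := σ.injective (congrArg Subtype.val hg)
        exact g.2 (this ▸ hh)
      have h3 : ∀ x, p (σ x) ↔ p x := fun x => ⟨fun h => by
        by_contra hn
        exact hcon x hn h, h2 x⟩
      have h4 : ∀ x, ¬ p (σ x) ↔ ¬ p x := fun x => not_congr (h3 x)
      refine ⟨(σ.subtypePerm h3, σ.subtypePerm h4), ?_⟩
      ext x
      by_cases hx : p x
      · change (Equiv.Perm.subtypeCongr _ _) x = _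
        rw [Equiv.Perm.subtypeCongr.left_apply _ _ hx]
        rfl
      · change (Equiv.Perm.subtypeCongr _ _) x = _
        rw [Equiv.Perm.subtypeCongr.right_apply _ _ hx]
        rfl
    rw [this, mul_zero, mul_zero]
  · rintro ⟨η, γ⟩
    simp only
    rw [h1, Equiv.Perm.sign_subtypeCongr]
    have h5 : ((Equiv.Perm.sign γ : ℤ) : ℚ) * ((Equiv.Perm.sign γ : ℤ) : ℚ) = 1 := by
      rcases Int.units_eq_one_or (Equiv.Perm.sign γ) with h | h <;> rw [h] <;> norm_num
    have h6 : ∏ h : {a // p a}, Y h (Equiv.Perm.subtypeCongr η γ h) = ∏ h : {a // p a}, Y h (η h) := by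
      refine Finset.prod_congr rfl fun h _ => ?_
      rw [Equiv.Perm.subtypeCongr.left_apply_subtype]
    rw [h6]
    push_cast
    linear_combination (-((Equiv.Perm.sign η : ℤ) : ℚ) * ((∏ h : {a // p a}, Y h (η h)) * d)) * h5

end XLAP

open XLAP in
theorem I_LAP : StLAP := by
  intro n P C r z ρ₁ ρ₂ X hrP hrC hzP
  obtain ⟨c, hc⟩ : ∃ c : Fin n → Fin n, c = Function.update id r z := ⟨_, rfl⟩
  have hcr : c r = z := by rw [hc, Function.update_self]
  have hcne : ∀ a, a ≠ r → c a = a := by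
    intro a ha
    rw [hc, Function.update_of_ne ha]
    rfl
  let Q : Finset (Fin n) := insert r (P ∪ C)
  have hmemQ : ∀ a, a ∈ Q ↔ a = r ∨ a ∈ P ∨ a ∈ C := by
    intro a
    simp only [Q, Finset.mem_insert, Finset.mem_union]
  let E : Equiv.Perm C → Q → Fin n := fun σ b =>
    if h : (b : Fin n) ∈ C ∧ (b : Fin n) ∉ P then ((σ ⟨b, h.1⟩ : C) : Fin n) else c b
  have hE1 : ∀ (σ : Equiv.Perm C) (b : Q) (h : (b : Fin n) ∈ C) (_ : (b : Fin n) ∉ P),
      E σ b = ((σ ⟨b, h⟩ : C) : Fin n) := by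
    intro σ b h h'
    simp only [E]
    rw [dif_pos ⟨h, h'⟩]
  have hE2 : ∀ (σ : Equiv.Perm C) (b : Q), ((b : Fin n) ∈ P ∨ (b : Fin n) = r) → E σ b = c b := by
    intro σ b h
    simp only [E]
    rw [dif_neg]
    rintro ⟨h1, h2⟩
    rcases h with h | h
    · exact h2 h
    · exact hrC (h ▸ h1)
  let D : Equiv.Perm C → ℚ := fun σ => (Matrix.of (fun a b : Q => X (ρ₁ a) (E σ b))).det
  -- claim 1
  have c1 : ∀ σ : Equiv.Perm C, ∑ π : Equiv.Perm Q, ((Equiv.Perm.sign π : ℤ) : ℚ) *
      (mc (insert r P) c (fun a => ρ₁ (Equiv.Perm.ofSubtype π a)) X *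
        ∏ g : {a : C // ¬ (a : Fin n) ∈ P}, X (ρ₁ (Equiv.Perm.ofSubtype π (g : C))) (σ g)) =
      ((P.card + 1).factorial : ℚ) * D σ := by
    intro σ
    have hsub : ∀ a : (insert r P : Finset (Fin n)), (a : Fin n) ∈ Q := by
      rintro ⟨a, ha⟩
      rw [hmemQ]
      rcases Finset.mem_insert.1 ha with h | h
      · exact Or.inl h
      · exact Or.inr (Or.inl h)
    let i : (insert r P : Finset (Fin n)) ↪ Q := ⟨fun a => ⟨a, hsub a⟩, by
      intro a b hab
      exact Subtype.ext (congrArg (fun x : Q => (x : Fin n)) hab)⟩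
    have key := sum_perm i (fun q : Q => (q : Fin n) ∈ insert r P) (by
      intro q
      constructor
      · intro h
        exact ⟨⟨q, h⟩, rfl⟩
      · rintro ⟨a, ha⟩
        rw [← ha]
        exact a.2) (fun a b => X (ρ₁ a) (E σ b))
    have hcard : Fintype.card (insert r P : Finset (Fin n)) = P.card + 1 := by
      rw [Fintype.card_coe, Finset.card_insert_of_notMem hrP]
    rw [hcard] at key
    refine Eq.trans ?_ key
    refine Finset.sum_congr rfl fun π _ => ?_
    congr 1
    congr 1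
    · unfold mc
      congr 1
      ext a b
      simp only [Matrix.of_apply]
      have h1 : Equiv.Perm.ofSubtype π (a : Fin n) = (π (i a) : Q) :=
        Equiv.Perm.ofSubtype_apply_of_mem π (hsub a)
      have h2 : E σ (i b) = c b := by
        apply hE2
        rcases Finset.mem_insert.1 b.2 with h | h
        · exact Or.inr h
        · exact Or.inl h
      rw [h1, h2]
    · have hmq : ∀ g : {a : C // ¬ (a : Fin n) ∈ P}, ((g : C) : Fin n) ∈ Q := by
        intro g
        rw [hmemQ]
        exact Or.inr (Or.inr (g : C).2)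
      have hnr : ∀ g : {a : C // ¬ (a : Fin n) ∈ P}, ¬ ((g : C) : Fin n) ∈ insert r P := by
        intro g h
        rcases Finset.mem_insert.1 h with h | h
        · exact hrC (h ▸ (g : C).2)
        · exact g.2 h
      let e : {a : C // ¬ (a : Fin n) ∈ P} ≃ {q : Q // ¬ (q : Fin n) ∈ insert r P} :=
        Equiv.ofBijective (fun g => ⟨⟨g, hmq g⟩, hnr g⟩) (by
          constructor
          · intro a b hab
            exact Subtype.ext (Subtype.ext (congrArg (fun x => ((x.1 : Q) : Fin n)) hab))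
          · rintro ⟨⟨q, hq⟩, hq'⟩
            have hq1 : q ∉ P := fun h => hq' (Finset.mem_insert_of_mem h)
            have hq2 : q ∈ C := by
              rcases (hmemQ q).1 hq with h | h | h
              · exact absurd (Finset.mem_insert.2 (Or.inl h)) hq'
              · exact absurd h hq1
              · exact h
            exact ⟨⟨⟨q, hq2⟩, hq1⟩, rfl⟩)
      rw [← Equiv.prod_comp e]
      refine Finset.prod_congr rfl fun g _ => ?_
      have h1 : Equiv.Perm.ofSubtype π ((g : C) : Fin n) = (π ⟨g, hmq g⟩ : Q) :=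
        Equiv.Perm.ofSubtype_apply_of_mem π (hmq g)
      have h2 : E σ ⟨g, hmq g⟩ = ((σ g : C) : Fin n) := hE1 σ ⟨g, hmq g⟩ (g : C).2 g.2
      change _ = X (ρ₁ (π ⟨g, hmq g⟩ : Q)) (E σ ⟨g, hmq g⟩)
      rw [h1, h2]
  -- claim 2
  have c2 : ∀ σ : Equiv.Perm C, (∃ g : C, ¬ (g : Fin n) ∈ P ∧ ((σ g : C) : Fin n) ∈ P) → D σ = 0 := by
    rintro σ ⟨g, hg, hσ⟩
    have hgQ : (g : Fin n) ∈ Q := (hmemQ _).2 (Or.inr (Or.inr g.2))
    have hsQ : ((σ g : C) : Fin n) ∈ Q := (hmemQ _).2 (Or.inr (Or.inl hσ))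
    refine Matrix.det_zero_of_column_eq (i := (⟨g, hgQ⟩ : Q)) (j := ⟨(σ g : C), hsQ⟩) ?_ ?_
    · intro h
      have h' : (g : Fin n) = ((σ g : C) : Fin n) := congrArg (fun x : Q => (x : Fin n)) h
      exact hg (h' ▸ hσ)
    · intro a
      simp only [Matrix.of_apply]
      rw [hE1 σ ⟨g, hgQ⟩ g.2 hg, hE2 σ ⟨(σ g : C), hsQ⟩ (Or.inl hσ), hcne]
      intro h
      exact hrP (h ▸ hσ)
  -- expansion
  have c3 : SL P C r z ρ₁ ρ₂ X = ((P.card + 1).factorial : ℚ) *
      ∑ σ : Equiv.Perm C, ((Equiv.Perm.sign σ : ℤ) : ℚ) *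
        ((∏ h : {a : C // (a : Fin n) ∈ P}, X (ρ₂ (h : C)) (σ h)) * D σ) := by
    have e1 : SL P C r z ρ₁ ρ₂ X = ∑ π : Equiv.Perm Q, ∑ σ : Equiv.Perm C,
        (((Equiv.Perm.sign σ : ℤ) : ℚ) * ∏ h : {a : C // (a : Fin n) ∈ P}, X (ρ₂ (h : C)) (σ h)) *
        (((Equiv.Perm.sign π : ℤ) : ℚ) *
          (mc (insert r P) c (fun a => ρ₁ (Equiv.Perm.ofSubtype π a)) X *
            ∏ g : {a : C // ¬ (a : Fin n) ∈ P}, X (ρ₁ (Equiv.Perm.ofSubtype π (g : C))) (σ g))) := by
      unfold SL
      rw [← hc]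
      refine Finset.sum_congr rfl fun π _ => ?_
      have e2 : mn C (fun a => if a ∈ P then ρ₂ a else ρ₁ (Equiv.Perm.ofSubtype π a)) X =
          ∑ σ : Equiv.Perm C, ((Equiv.Perm.sign σ : ℤ) : ℚ) *
            ((∏ h : {a : C // (a : Fin n) ∈ P}, X (ρ₂ (h : C)) (σ h)) *
            ∏ g : {a : C // ¬ (a : Fin n) ∈ P}, X (ρ₁ (Equiv.Perm.ofSubtype π (g : C))) (σ g)) := by
        unfold mn
        rw [← Matrix.det_transpose, Matrix.det_apply']
        refine Finset.sum_congr rfl fun σ _ => ?_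
        congr 1
        rw [← Fintype.prod_subtype_mul_prod_subtype (fun a : C => (a : Fin n) ∈ P)]
        congr 1
        · refine Finset.prod_congr rfl fun h _ => ?_
          simp only [Matrix.transpose_apply, Matrix.of_apply]
          rw [if_pos h.2]
        · refine Finset.prod_congr rfl fun g _ => ?_
          simp only [Matrix.transpose_apply, Matrix.of_apply]
          rw [if_neg g.2]
      rw [e2, Finset.mul_sum, Finset.mul_sum]
      refine Finset.sum_congr rfl fun σ _ => ?_
      ring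
    rw [e1, Finset.sum_comm, Finset.mul_sum]
    refine Finset.sum_congr rfl fun σ _ => ?_
    rw [← Finset.mul_sum, c1]
    ring
  refine ⟨?_, ?_⟩
  · intro hzC
    rw [c3]
    have hD : ∀ σ, D σ = 0 := by
      intro σ
      by_cases hex : ∃ g : C, ¬ (g : Fin n) ∈ P ∧ ((σ g : C) : Fin n) ∈ P
      · exact c2 σ hex
      · push Not at hex
        let φ : {a : C // ¬ (a : Fin n) ∈ P} → {a : C // ¬ (a : Fin n) ∈ P} :=
          fun a => ⟨σ a, hex a a.2⟩
        have hφ : Function.Injective φ := by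
          intro a b hab
          exact Subtype.ext (σ.injective (congrArg Subtype.val hab))
        obtain ⟨g, hg⟩ := (Finite.injective_iff_surjective.1 hφ) ⟨⟨z, hzC⟩, hzP⟩
        have hσg : ((σ (g : C) : C) : Fin n) = z := congrArg (fun x => ((x.1 : C) : Fin n)) hg
        have hgQ : ((g : C) : Fin n) ∈ Q := (hmemQ _).2 (Or.inr (Or.inr (g : C).2))
        have hrQ : r ∈ Q := (hmemQ _).2 (Or.inl rfl)
        refine Matrix.det_zero_of_column_eq (i := (⟨(g : C), hgQ⟩ : Q)) (j := ⟨r, hrQ⟩) ?_ ?_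
        · intro h
          have h' : ((g : C) : Fin n) = r := congrArg (fun x : Q => (x : Fin n)) h
          exact hrC (h' ▸ (g : C).2)
        · intro a
          simp only [Matrix.of_apply]
          rw [hE1 σ ⟨(g : C), hgQ⟩ (g : C).2 g.2, hE2 σ ⟨r, hrQ⟩ (Or.inr rfl)]
          change X _ ((σ (g : C) : C) : Fin n) = X _ (c r)
          rw [hσg, hcr]
    rw [Finset.sum_eq_zero, mul_zero]
    intro σ _
    rw [hD, mul_zero, mul_zero]
  · intro hzC
    rw [c3]
    have c4 : ∀ (η : Equiv.Perm {a : C // (a : Fin n) ∈ P})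
        (γ : Equiv.Perm {a : C // ¬ (a : Fin n) ∈ P}),
        D (Equiv.Perm.subtypeCongr η γ) = ((Equiv.Perm.sign γ : ℤ) : ℚ) *
          mc (insert r (P ∪ C)) c ρ₁ X := by
      intro η γ
      have hmq : ∀ g : {a : C // ¬ (a : Fin n) ∈ P}, ((g : C) : Fin n) ∈ Q := by
        intro g
        rw [hmemQ]
        exact Or.inr (Or.inr (g : C).2)
      let i : {a : C // ¬ (a : Fin n) ∈ P} ↪ Q := ⟨fun g => ⟨g, hmq g⟩, by
        intro a b hab
        exact Subtype.ext (Subtype.ext (congrArg (fun x => ((x : Q) : Fin n)) hab))⟩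
      have h1 : D (Equiv.Perm.subtypeCongr η γ) =
          ((Matrix.of (fun a b : Q => X (ρ₁ a) (c b))).submatrix id
            (γ.viaFintypeEmbedding i)).det := by
        simp only [D]
        congr 1
        ext a b
        simp only [Matrix.of_apply, Matrix.submatrix_apply, id]
        congr 1
        by_cases hb : (b : Fin n) ∈ C ∧ (b : Fin n) ∉ P
        · have hbi : b = i ⟨⟨b, hb.1⟩, hb.2⟩ := rfl
          rw [hE1 _ b hb.1 hb.2]
          have h2 : γ.viaFintypeEmbedding i b = i (γ ⟨⟨b, hb.1⟩, hb.2⟩) := by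
            conv_lhs => rw [hbi]
            rw [Equiv.Perm.viaFintypeEmbedding_apply_image]
          rw [h2, Equiv.Perm.subtypeCongr.right_apply (p := fun a : C => (a : Fin n) ∈ P) η γ
            (a := ⟨b, hb.1⟩) hb.2]
          have h3 : ((i (γ ⟨⟨b, hb.1⟩, hb.2⟩) : Q) : Fin n) =
              ((γ ⟨⟨b, hb.1⟩, hb.2⟩ : {a : C // ¬ (a : Fin n) ∈ P}) : C) := rfl
          rw [h3, hcne]
          intro h
          exact hrC (h ▸ (γ ⟨⟨b, hb.1⟩, hb.2⟩ : {a : C // ¬ (a : Fin n) ∈ P}).1.2)
        · have h2 : γ.viaFintypeEmbedding i b = b := by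
            apply Equiv.Perm.viaFintypeEmbedding_apply_notMem_range
            rintro ⟨g, hg⟩
            apply hb
            rw [← hg]
            exact ⟨(g : C).2, g.2⟩
          rw [h2]
          simp only [E]
          rw [dif_neg hb]
      rw [h1, Matrix.det_permute', Equiv.Perm.viaFintypeEmbedding_sign]
      rfl
    have key := sum_split (fun a : C => (a : Fin n) ∈ P) (fun a b => X (ρ₂ a) b) D c2
      (mc (insert r (P ∪ C)) c ρ₁ X) c4
    rw [key, hc]
    have hcard : Fintype.card {a : C // ¬ (a : Fin n) ∈ P} = (C \ P).card := by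
      rw [← Fintype.card_coe]
      refine Fintype.card_congr ?_
      exact {
        toFun := fun g => ⟨(g : C), Finset.mem_sdiff.2 ⟨(g : C).2, g.2⟩⟩
        invFun := fun g => ⟨⟨g, (Finset.mem_sdiff.1 g.2).1⟩, (Finset.mem_sdiff.1 g.2).2⟩
        left_inv := fun g => rfl
        right_inv := fun g => rfl }
    have hdet : (Matrix.of (fun a b : {a : C // (a : Fin n) ∈ P} => X (ρ₂ (a : C)) (b : C))).det =
        mn (P ∩ C) ρ₂ X := by
      let e : {a : C // (a : Fin n) ∈ P} ≃ (P ∩ C : Finset (Fin n)) := {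
        toFun := fun g => ⟨(g : C), Finset.mem_inter.2 ⟨g.2, (g : C).2⟩⟩
        invFun := fun g => ⟨⟨g, (Finset.mem_inter.1 g.2).2⟩, (Finset.mem_inter.1 g.2).1⟩
        left_inv := fun g => rfl
        right_inv := fun g => rfl }
      unfold mn
      rw [← Matrix.det_submatrix_equiv_self e]
      rfl
    rw [hcard]
    have hdet' : (Matrix.of (fun a b : {a : C // (a : Fin n) ∈ P} =>
        (fun (a b : C) => X (ρ₂ a) b) a b)).det = mn (P ∩ C) ρ₂ X := hdet
    rw [hdet']
    ring

end Pool.Agent.Work.MP_ca14f8_co.QE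

end

section

/-!
Lifting of the products of minors (block QE of MP_ca14f8_co).
-/

set_option autoImplicit false
open Classical

namespace Pool.Agent.Work.MP_ca14f8_co.QE

namespace XLift

lemma ext_sum {n : ℕ} {S : Type} (T : Finset S) (a : S → ℚ) (g : S → UT n → ℚ)
    (X : Matrix (Fin n) (Fin n) ℚ) :
    ext (fun Y => ∑ p ∈ T, a p * g p Y) X = ∑ p ∈ T, a p * ext (g p) X := by
  unfold ext
  by_cases h : X ∈ UT n
  · simp only [dif_pos h]
  · simp only [dif_neg h, mul_zero, Finset.sum_const_zero]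

lemma tau_sum {n : ℕ} {S : Type} (T : Finset S) (a : S → ℚ) (g : S → UT n → ℚ)
    (i r : Fin n) (β : ℕ) (X : UT n) :
    tau i r β (fun Y => ∑ p ∈ T, a p * g p Y) X = ∑ p ∈ T, a p * tau i r β (g p) X := by
  unfold tau
  simp only [ext_sum, Finset.mul_sum]
  rw [Finset.sum_comm]
  refine Finset.sum_congr rfl fun p _ => Finset.sum_congr rfl fun t _ => by ring

/-- the bijection `r ↦ i`. -/
def ee {n : ℕ} (I : Finset (Fin n)) (r i : Fin n) (hr : r ∈ I) (hi : i ∉ I) :
    I ≃ ↥(insert i (I.erase r)) where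
  toFun := fun a => ⟨if a.1 = r then i else a.1, by
    by_cases h : a.1 = r
    · simp [h]
    · simp [h, a.2]⟩
  invFun := fun b => ⟨if b.1 = i then r else b.1, by
    by_cases h : b.1 = i
    · simp [h, hr]
    · have := b.2
      simp only [Finset.mem_insert, Finset.mem_erase] at this
      simp only [h, if_false]
      exact (this.resolve_left h).2⟩
  left_inv := by
    intro a
    apply Subtype.ext
    by_cases h : a.1 = r
    · simp [h]
    · have : a.1 ≠ i := fun h' => hi (h' ▸ a.2)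
      simp [h, this]
  right_inv := by
    intro b
    apply Subtype.ext
    by_cases h : b.1 = i
    · simp [h]
    · have hb := b.2
      simp only [Finset.mem_insert, Finset.mem_erase] at hb
      have := (hb.resolve_left h).1
      simp [h, this]

lemma mc_swap {n : ℕ} (I : Finset (Fin n)) (r i : Fin n) (hr : r ∈ I) (hi : i ∉ I)
    (σ : Fin n → Fin n) (X : Matrix (Fin n) (Fin n) ℚ) :
    mc I (Function.update id r i) (fun a => σ (if a = r then i else a)) X =
      mn (insert i (I.erase r)) σ X := by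
  unfold mc mn
  rw [← Matrix.det_submatrix_equiv_self (ee I r i hr hi)]
  congr 1
  ext a b
  simp only [Matrix.of_apply, Matrix.submatrix_apply, ee, Equiv.coe_fn_mk]
  congr 1
  by_cases h : b.1 = r
  · simp [h]
  · simp [h]

/-- the rows. -/
noncomputable def RR {n : ℕ} (I : Fin n → Finset (Fin n)) (P C : Finset (Fin n))
    (r i j0 j1 : Fin n) (ρ : Fin n → Fin n → Fin n) (π : Equiv.Perm (↥(insert r (P ∪ C)))) :
    Fin n → Fin n → Fin n := fun j =>
  if j = j0 then fun a => (fun a => ρ j1 (if a = r then i else a)) (Equiv.Perm.ofSubtype π a)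
  else if j = j1 then fun a => if a ∈ P then ρ j0 a else
    (fun a => ρ j1 (if a = r then i else a)) (Equiv.Perm.ofSubtype π a)
  else if r ∈ I j ∧ i ∉ I j then fun a => ρ j (if a = r then i else a)
  else ρ j

/-- The value of `tau z r` on the antisymmetrised product. -/
lemma main_tau (hT : StTau) {n : ℕ} (I : Fin n → Finset (Fin n)) (P C : Finset (Fin n))
    (r i j0 j1 : Fin n) (ρ : Fin n → Fin n → Fin n) (hj : j1 ≠ j0) (hP : I j0 = insert r P)
    (hC : I j1 = C) (hrC : r ∉ C) (z : Fin n) (hz : z < r) (hzj : z ∉ I j0) (X : UT n) :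
    tau z r (Finset.univ.filter (fun j => r ∈ I j ∧ z ∉ I j)).card
      (fun Y => ∑ π : Equiv.Perm (↥(insert r (P ∪ C))), ((Equiv.Perm.sign π : ℤ) : ℚ) *
        (FF I (RR I P C r i j0 j1 ρ π) Y.1)) X =
    ((Finset.univ.filter (fun j => r ∈ I j ∧ z ∉ I j)).card.factorial : ℚ) *
      SL P C r z (fun a => ρ j1 (if a = r then i else a)) (ρ j0) X.1 *
      ∏ j ∈ (Finset.univ.erase j0).erase j1,
        (if r ∈ I j ∧ z ∉ I j then
          mc (I j) (Function.update id r z)
            (if r ∈ I j ∧ i ∉ I j then fun a => ρ j (if a = r then i else a) else ρ j) X.1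
        else mn (I j) (if r ∈ I j ∧ i ∉ I j then fun a => ρ j (if a = r then i else a)
          else ρ j) X.1) := by
  rw [tau_sum]
  unfold SL
  rw [Finset.mul_sum, Finset.sum_mul]
  refine Finset.sum_congr rfl fun π _ => ?_
  have h := (hT n I (RR I P C r i j0 j1 ρ π) z r
    (Finset.univ.filter (fun j => r ∈ I j ∧ z ∉ I j)).card hz).2 rfl
  rw [h]
  simp only
  have hr0 : r ∈ I j0 := by rw [hP]; exact Finset.mem_insert_self _ _
  have hr1 : r ∉ I j1 := by rw [hC]; exact hrC
  rw [← Finset.mul_prod_erase Finset.univ _ (Finset.mem_univ j0),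
    ← Finset.mul_prod_erase (Finset.univ.erase j0) _
      (Finset.mem_erase.2 ⟨hj, Finset.mem_univ j1⟩)]
  have e0 : (if r ∈ I j0 ∧ z ∉ I j0 then
      mc (I j0) (Function.update id r z) (RR I P C r i j0 j1 ρ π j0) X.1
      else mn (I j0) (RR I P C r i j0 j1 ρ π j0) X.1) =
      mc (insert r P) (Function.update id r z)
        (fun a => (fun a => ρ j1 (if a = r then i else a)) (Equiv.Perm.ofSubtype π a)) X.1 := by
    rw [if_pos ⟨hr0, hzj⟩, hP]
    congr 1
    unfold RR
    rw [if_pos rfl]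
  have e1 : (if r ∈ I j1 ∧ z ∉ I j1 then
      mc (I j1) (Function.update id r z) (RR I P C r i j0 j1 ρ π j1) X.1
      else mn (I j1) (RR I P C r i j0 j1 ρ π j1) X.1) =
      mn C (fun a => if a ∈ P then ρ j0 a else
        (fun a => ρ j1 (if a = r then i else a)) (Equiv.Perm.ofSubtype π a)) X.1 := by
    rw [if_neg (fun h => hr1 h.1), hC]
    congr 1
    unfold RR
    rw [if_neg hj, if_pos rfl]
  rw [e0, e1]
  have e2 : (∏ j ∈ (Finset.univ.erase j0).erase j1,
      (if r ∈ I j ∧ z ∉ I j then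
      mc (I j) (Function.update id r z) (RR I P C r i j0 j1 ρ π j) X.1
      else mn (I j) (RR I P C r i j0 j1 ρ π j) X.1)) =
      ∏ j ∈ (Finset.univ.erase j0).erase j1,
        (if r ∈ I j ∧ z ∉ I j then
          mc (I j) (Function.update id r z)
            (if r ∈ I j ∧ i ∉ I j then fun a => ρ j (if a = r then i else a) else ρ j) X.1
        else mn (I j) (if r ∈ I j ∧ i ∉ I j then fun a => ρ j (if a = r then i else a)
          else ρ j) X.1) := by
    refine Finset.prod_congr rfl fun j hj' => ?_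
    have hj1 : j ≠ j1 := (Finset.mem_erase.1 hj').1
    have hj0 : j ≠ j0 := (Finset.mem_erase.1 (Finset.mem_erase.1 hj').2).1
    have : RR I P C r i j0 j1 ρ π j =
      (if r ∈ I j ∧ i ∉ I j then fun a => ρ j (if a = r then i else a) else ρ j) := by
      unfold RR
      rw [if_neg hj0, if_neg hj1]
    rw [this]
  rw [e2]
  ring

end XLift

open XLift

theorem I_Lift (hC : StComb) (hT : StTau) (hL : StLAP) : StLift := by
  intro n w v r s i hTr hi ρ
  obtain ⟨-, h2, -, -, hc⟩ := hC n w v r s hTr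
  obtain ⟨c1, c2, c3, c4, c5, c6, c7, -, c9⟩ := hc i hi
  have hir : i < r := by
    have := hi
    unfold Trs at this
    simp only [Finset.mem_filter] at this
    exact this.2.1
  have hrs : r < s := hTr.hrs
  have hj : w i ≠ w s := fun h => absurd (w.injective h) (by omega)
  set I : Fin n → Finset (Fin n) := Ic w with hI
  set P : Finset (Fin n) := (I (w s)).erase r with hPdef
  set C : Finset (Fin n) := I (w i) with hCdef
  have hP : I (w s) = insert r P := by
    rw [hPdef, Finset.insert_erase h2]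
  have hrP : r ∉ P := by simp [hPdef]
  have hiP : i ∉ P := fun h => c1 (Finset.mem_of_mem_erase h)
  set g : UT n → ℚ := fun Y => ∑ π : Equiv.Perm (↥(insert r (P ∪ C))),
    ((Equiv.Perm.sign π : ℤ) : ℚ) * (FF I (RR I P C r i (w s) (w i) ρ π) Y.1) with hg
  set c : ℚ := 1 / (((mm w r (w i).val).factorial : ℚ) * ((P.card + 1).factorial : ℚ) *
    ((C \ P).card.factorial : ℚ)) with hcdef
  have hgV : g ∈ VS (UT n) I := by
    have : g = ∑ π : Equiv.Perm (↥(insert r (P ∪ C))), ((Equiv.Perm.sign π : ℤ) : ℚ) •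
        (fun Y : UT n => FF I (RR I P C r i (w s) (w i) ρ π) Y.1) := by
      funext Y
      simp [hg, Finset.sum_apply]
    rw [this]
    refine Submodule.sum_mem _ fun π _ => Submodule.smul_mem _ _ (Submodule.subset_span ?_)
    exact ⟨RR I P C r i (w s) (w i) ρ π, rfl⟩
  have htau : ∀ (z : Fin n) (β : ℕ) (X : UT n), tau z r β (c • g) X = c * tau z r β g X := by
    intro z β X
    have := tau_sum (Finset.univ : Finset Unit) (fun _ => c) (fun _ => g) z r β X
    simpa [Pi.smul_def] using this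
  refine ⟨c • g, Submodule.smul_mem _ _ hgV, ?_, ?_⟩
  · funext X
    rw [htau]
    have hm := main_tau hT I P C r i (w s) (w i) ρ hj hP rfl c3 i hir c1 X
    rw [c7] at hm
    rw [hg, hm, ((hL n P C r i _ _ X.1 hrP c3 hiP).2 c2)]
    have hrPC : r ∉ P ∪ C := by
      simp only [Finset.mem_union, not_or]
      exact ⟨hrP, c3⟩
    have hiPC : i ∉ insert r (P ∪ C) := by
      simp only [Finset.mem_insert, Finset.mem_union, not_or]
      exact ⟨ne_of_lt hir, hiP, c2⟩
    rw [mc_swap (insert r (P ∪ C)) r i (Finset.mem_insert_self _ _) hiPC (ρ (w i)) X.1,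
      Finset.erase_insert hrPC]
    unfold FF
    rw [← Finset.mul_prod_erase Finset.univ _ (Finset.mem_univ (w s)),
      ← Finset.mul_prod_erase (Finset.univ.erase (w s)) _
        (Finset.mem_erase.2 ⟨hj, Finset.mem_univ (w i)⟩)]
    rw [c4, c5]
    have e2 : (∏ j ∈ (Finset.univ.erase (w s)).erase (w i),
        (if r ∈ I j ∧ i ∉ I j then
          mc (I j) (Function.update id r i)
            (if r ∈ I j ∧ i ∉ I j then fun a => ρ j (if a = r then i else a) else ρ j) X.1
        else mn (I j) (if r ∈ I j ∧ i ∉ I j then fun a => ρ j (if a = r then i else a)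
          else ρ j) X.1)) =
        ∏ j ∈ (Finset.univ.erase (w s)).erase (w i),
          mn (Ic (v * Equiv.swap i r) j) (ρ j) X.1 := by
      refine Finset.prod_congr rfl fun j hj' => ?_
      have hj1 : j ≠ w i := (Finset.mem_erase.1 hj').1
      have hj0 : j ≠ w s := (Finset.mem_erase.1 (Finset.mem_erase.1 hj').2).1
      rw [c6 j hj0 hj1]
      by_cases h : r ∈ I j ∧ i ∉ I j
      · rw [if_pos h, if_pos h, if_pos h]
        exact mc_swap (I j) r i h.1 h.2 (ρ j) X.1
      · rw [if_neg h, if_neg h, if_neg h]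
    rw [e2]
    have hf1 : ((mm w r (w i).val).factorial : ℚ) ≠ 0 := by positivity
    have hf2 : ((P.card + 1).factorial : ℚ) ≠ 0 := by positivity
    have hf3 : ((C \ P).card.factorial : ℚ) ≠ 0 := by positivity
    rw [hcdef]
    field_simp
  · intro i' hi' hlt
    obtain ⟨d1, d2, d3⟩ := c9 i' hi' hlt
    obtain ⟨-, -, -, -, -, -, c7', -, -⟩ := hc i' hi'
    have hir' : i' < r := lt_trans hlt hir
    have hiP' : i' ∉ P := fun h => d2 (Finset.mem_of_mem_erase h)
    funext X
    rw [htau]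
    have hm := main_tau hT I P C r i (w s) (w i) ρ hj hP rfl c3 i' hir' d2 X
    rw [c7'] at hm
    rw [hg, hm, ((hL n P C r i' _ _ X.1 hrP c3 hiP').1 d1)]
    simp

end Pool.Agent.Work.MP_ca14f8_co.QE

end

section

/-!
Item Mn: expansion of a minor with unit rows.
-/

set_option autoImplicit false
open Classical

namespace Pool.Agent.Work.MP_ca14f8_co.QE

theorem I_Mn : StMn := by
  intro ι _ _ I ρ
  by_cases hinj : ∃ a ∈ I, ∃ a' ∈ I, a ≠ a' ∧ ρ a = ρ a' ∧ ρ a ∈ I
  · obtain ⟨a, ha, a', ha', hne, he, hI⟩ := hinj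
    refine ⟨0, ∅, id, Finset.empty_subset _, by simp, ?_⟩
    intro B
    rw [zero_mul]
    refine Matrix.det_zero_of_row_eq (i := (⟨a, ha⟩ : I)) (j := ⟨a', ha'⟩) ?_ ?_
    · intro h; exact hne (congrArg Subtype.val h)
    · funext b
      simp only [Matrix.of_apply, he]
  · push Not at hinj
    let p : I → Prop := fun a => ρ a ∈ I
    let q : I → Prop := fun b => ∃ a : I, ρ a = b
    let f : {a : I // p a} → {b : I // q b} := fun a => ⟨⟨ρ a.1, a.2⟩, ⟨a.1, rfl⟩⟩
    have hf : Function.Bijective f := by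
      constructor
      · rintro ⟨⟨a, ha⟩, hpa⟩ ⟨⟨a', ha'⟩, hpa'⟩ h
        have h1 : ρ a = ρ a' := congrArg (fun x => ((x.1 : I) : ι)) h
        by_contra hne
        have hne' : a ≠ a' := by
          rintro rfl; exact hne rfl
        exact hinj a ha a' ha' hne' h1 hpa
      · rintro ⟨⟨b, hb⟩, ⟨a, hab⟩⟩
        refine ⟨⟨a, ?_⟩, ?_⟩
        · change ρ a ∈ I
          rw [hab]; exact hb
        · apply Subtype.ext
          apply Subtype.ext
          exact hab
    let e : {a : I // p a} ≃ {b : I // q b} := Equiv.ofBijective f hf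
    let π : Equiv.Perm I := e.extendSubtype
    have hπ1 : ∀ a : I, ρ a ∈ I → ((π a : I) : ι) = ρ a := by
      intro a ha
      have := Equiv.extendSubtype_apply_of_mem e a ha
      change ((e.extendSubtype a : I) : ι) = ρ a
      rw [this]
      rfl
    have hπ2 : ∀ a : I, ρ a ∉ I → ¬ q (π a) := by
      intro a ha
      exact Equiv.extendSubtype_not_mem e a ha
    have hs1 : ∀ b : I, q b → ρ (π.symm b) = b := by
      intro b hb
      by_cases h : ρ (π.symm b) ∈ I
      · have := hπ1 _ h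
        rw [Equiv.apply_symm_apply] at this
        exact this.symm
      · have := hπ2 _ h
        rw [Equiv.apply_symm_apply] at this
        exact absurd hb this
    have hs2 : ∀ b : I, ¬ q b → ρ (π.symm b) ∉ I := by
      intro b hb h
      apply hb
      refine ⟨π.symm b, ?_⟩
      have := hπ1 _ h
      rw [Equiv.apply_symm_apply] at this
      exact this.symm
    let ρ' : ι → ι := fun b => if h : b ∈ I then ρ (π.symm ⟨b, h⟩) else b
    let C : Finset ι := I.filter (fun b => ¬ ∃ a : I, ρ a = b)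
    have hρ' : ∀ (b : ι) (h : b ∈ I), ρ' b = ρ (π.symm ⟨b, h⟩) := by
      intro b h
      simp only [ρ', h, dif_pos]
    refine ⟨((Equiv.Perm.sign π.symm : ℤ) : ℚ), C, ρ', Finset.filter_subset _ _, ?_, ?_⟩
    · intro a ha
      have haI : a ∈ I := (Finset.mem_filter.1 ha).1
      have haq : ¬ q ⟨a, haI⟩ := (Finset.mem_filter.1 ha).2
      rw [hρ' a haI]
      exact hs2 _ haq
    · intro B
      set M : Matrix I I ℚ := (Matrix.of (fun (a b : I) => if ρ a ∈ I then (if ρ a = b then (1 : ℚ) else 0)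
        else B (ρ a) b)) with hM
      have hperm := Matrix.det_permute π.symm M
      have hsq : ((Equiv.Perm.sign π.symm : ℤ) : ℚ) * ((Equiv.Perm.sign π.symm : ℤ) : ℚ) = 1 := by
        rcases Int.units_eq_one_or (Equiv.Perm.sign π.symm) with h | h <;> simp [h]
      have hdet : M.det = ((Equiv.Perm.sign π.symm : ℤ) : ℚ) * (M.submatrix π.symm id).det := by
        rw [hperm, ← mul_assoc, hsq, one_mul]
      rw [hdet]
      congr 1
      set N : Matrix I I ℚ := M.submatrix π.symm id with hN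
      have hN1 : ∀ b : I, q b → ∀ b' : I, N b b' = if b = b' then (1 : ℚ) else 0 := by
        intro b hb b'
        have h1 := hs1 b hb
        have h2 : ρ (π.symm b) ∈ I := by rw [h1]; exact b.2
        rw [hN, Matrix.submatrix_apply, hM, Matrix.of_apply, if_pos h2, h1]
        simp only [id, Subtype.ext_iff]
      have hN2 : ∀ b : I, ¬ q b → ∀ b' : I, N b b' = B (ρ (π.symm b)) b' := by
        intro b hb b'
        have h2 := hs2 b hb
        rw [hN, Matrix.submatrix_apply, hM, Matrix.of_apply, if_neg h2]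
        rfl
      have h2b := Matrix.twoBlockTriangular_det' N q (by
        intro i hi j hj
        rw [hN1 i hi j, if_neg]
        rintro rfl
        exact hj hi)
      rw [h2b]
      have hone : (Matrix.toSquareBlockProp N q) = 1 := by
        ext i j
        rw [Matrix.toSquareBlockProp_def, Matrix.of_apply, hN1 i.1 i.2 j.1, Matrix.one_apply]
        simp only [Subtype.ext_iff]
      rw [hone, Matrix.det_one, one_mul]
      let E : {b : I // ¬ q b} ≃ C :=
        { toFun := fun b => ⟨b.1.1, Finset.mem_filter.2 ⟨b.1.2, b.2⟩⟩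
          invFun := fun c => ⟨⟨c.1, (Finset.mem_filter.1 c.2).1⟩, (Finset.mem_filter.1 c.2).2⟩
          left_inv := fun _ => rfl
          right_inv := fun _ => rfl }
      unfold mn
      rw [← Matrix.det_submatrix_equiv_self E]
      congr 1
      ext i j
      rw [Matrix.toSquareBlockProp_def, Matrix.of_apply, hN2 i.1 i.2 j.1, Matrix.submatrix_apply,
        Matrix.of_apply]
      congr 1
      exact (hρ' i.1.1 i.1.2).symm

end Pool.Agent.Work.MP_ca14f8_co.QE

end

section

/-!
Monk's rule for principal evaluations (block QE of MP_ca14f8_co).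
-/

set_option autoImplicit false
open Classical

namespace Pool.Agent.Work.MP_ca14f8_co.QE

namespace XMonk

variable {n : ℕ}

theorem sms (v : Equiv.Perm (Fin n)) {a b x y : Fin n} (hxy : x ≠ y) :
    Equiv.swap x y * (v * Equiv.swap a b) = v ↔ (x = v a ∧ y = v b) ∨ (x = v b ∧ y = v a) := by
  have h0 : Equiv.swap x y * (v * Equiv.swap a b) = v ↔
      Equiv.swap x y = Equiv.swap (v a) (v b) := by
    rw [Equiv.swap_apply_apply]
    constructor
    · intro h
      have h1 : Equiv.swap x y * (v * Equiv.swap a b) * (Equiv.swap a b * v⁻¹) =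
          v * (Equiv.swap a b * v⁻¹) := by rw [h]
      have h2 : Equiv.swap x y * (v * Equiv.swap a b) * (Equiv.swap a b * v⁻¹) =
          Equiv.swap x y := by
        rw [show Equiv.swap x y * (v * Equiv.swap a b) * (Equiv.swap a b * v⁻¹) =
          Equiv.swap x y * (v * (Equiv.swap a b * Equiv.swap a b) * v⁻¹) by group]
        rw [Equiv.swap_mul_self, mul_one, mul_inv_cancel, mul_one]
      rw [h2] at h1
      rw [h1, mul_assoc]
    · intro h
      rw [h]
      rw [show v * Equiv.swap a b * v⁻¹ * (v * Equiv.swap a b) =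
        v * (Equiv.swap a b * Equiv.swap a b) by group]
      rw [Equiv.swap_mul_self, mul_one]
  rw [h0]
  constructor
  · intro h
    have h1 : Equiv.swap (v a) (v b) x = y := by rw [← h]; exact Equiv.swap_apply_left x y
    by_cases h2 : x = v a
    · left
      refine ⟨h2, ?_⟩
      rw [h2, Equiv.swap_apply_left] at h1
      exact h1.symm
    · by_cases h3 : x = v b
      · right
        refine ⟨h3, ?_⟩
        rw [h3, Equiv.swap_apply_right] at h1
        exact h1.symm
      · rw [Equiv.swap_apply_of_ne_of_ne h2 h3] at h1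
        exact absurd h1 hxy
  · rintro (⟨h1, h2⟩ | ⟨h1, h2⟩)
    · rw [h1, h2]
    · rw [h1, h2, Equiv.swap_comm]

/-- the term of the sum on the left. -/
noncomputable def tL (v : Equiv.Perm (Fin n)) (a b : Fin n) (p : Fin n × Fin n) : ℚ :=
  if Cov v a b ∧ p ∈ Desc (v * Equiv.swap a b) then
    ((p.1.val : ℚ) + 1) * Ups (Equiv.swap p.1 p.2 * (v * Equiv.swap a b)) else 0

noncomputable def tR (v : Equiv.Perm (Fin n)) (a b : Fin n) (p : Fin n × Fin n) : ℚ :=
  if p ∈ Desc v ∧ Cov (Equiv.swap p.1 p.2 * v) a b then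
    ((p.1.val : ℚ) + 1) * Ups ((Equiv.swap p.1 p.2 * v) * Equiv.swap a b) else 0

theorem ne_of_adj {p : Fin n × Fin n} (hp : p.2.val = p.1.val + 1) : p.1 ≠ p.2 := by
  intro h
  rw [← h] at hp
  omega

/-- correction terms -/
theorem term_eq (h2 : StCovBij) (v : Equiv.Perm (Fin n)) {a b : Fin n} (hab : a < b)
    (p : Fin n × Fin n) :
    tL v a b p = tR v a b p +
      (if p = (v a, v b) ∧ (v b).val = (v a).val + 1 then (((v a).val : ℚ) + 1) * Ups v else 0) -
      (if p = (v b, v a) ∧ (v a).val = (v b).val + 1 then (((v b).val : ℚ) + 1) * Ups v else 0) := by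
  by_cases hp : p.2.val = p.1.val + 1
  · have hne := ne_of_adj hp
    by_cases hv : Equiv.swap p.1 p.2 * (v * Equiv.swap a b) = v
    · rcases (sms v hne).mp hv with ⟨e1, e2⟩ | ⟨e1, e2⟩
      · -- p = (v a, v b)
        have hadj : (v b).val = (v a).val + 1 := by rw [← e1, ← e2]; exact hp
        have hpe : p = (v a, v b) := Prod.ext e1 e2
        have hn1 : ¬ (p = (v b, v a) ∧ (v a).val = (v b).val + 1) := by
          rintro ⟨_, h⟩; omega
        rw [if_pos ⟨hpe, hadj⟩, if_neg hn1]
        have hL : tL v a b p = (((v a).val : ℚ) + 1) * Ups v := by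
          unfold tL
          rw [if_pos, hv, e1]
          refine ⟨⟨hab, ?_, ?_⟩, ?_⟩
          · rw [Fin.lt_def]; omega
          · intro c _ _ h
            rw [Fin.lt_def, Fin.lt_def] at h
            omega
          · rw [mem_Desc]
            refine ⟨hp, ?_⟩
            have e3 : (v * Equiv.swap a b).symm p.2 = a := by
              rw [Equiv.symm_apply_eq, Equiv.Perm.mul_apply, Equiv.swap_apply_left, e2]
            have e4 : (v * Equiv.swap a b).symm p.1 = b := by
              rw [Equiv.symm_apply_eq, Equiv.Perm.mul_apply, Equiv.swap_apply_right, e1]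
            rw [e3, e4]
            exact hab
        have hR : tR v a b p = 0 := by
          unfold tR
          rw [if_neg]
          rintro ⟨h3, _⟩
          rw [mem_Desc] at h3
          have h4 := h3.2
          rw [e1, e2, Equiv.symm_apply_apply, Equiv.symm_apply_apply] at h4
          exact absurd h4 (not_lt.mpr hab.le)
        rw [hL, hR]; ring
      · have hadj : (v a).val = (v b).val + 1 := by rw [← e1, ← e2]; exact hp
        have hpe : p = (v b, v a) := Prod.ext e1 e2
        have hn1 : ¬ (p = (v a, v b) ∧ (v b).val = (v a).val + 1) := by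
          rintro ⟨_, h⟩; omega
        rw [if_neg hn1, if_pos ⟨hpe, hadj⟩]
        have hL : tL v a b p = 0 := by
          unfold tL
          rw [if_neg]
          rintro ⟨⟨_, h3, _⟩, _⟩
          rw [Fin.lt_def] at h3
          omega
        have hR : tR v a b p = (((v b).val : ℚ) + 1) * Ups v := by
          unfold tR
          have e5 : (Equiv.swap p.1 p.2 * v) a = p.1 := by
            rw [Equiv.Perm.mul_apply, ← e2, Equiv.swap_apply_right]
          have e6 : (Equiv.swap p.1 p.2 * v) b = p.2 := by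
            rw [Equiv.Perm.mul_apply, ← e1, Equiv.swap_apply_left]
          rw [if_pos, mul_assoc (Equiv.swap p.1 p.2) v, hv, e1]
          refine ⟨?_, hab, ?_, ?_⟩
          · rw [mem_Desc]
            refine ⟨hp, ?_⟩
            rw [e1, e2, Equiv.symm_apply_apply, Equiv.symm_apply_apply]
            exact hab
          · rw [e5, e6, Fin.lt_def]; omega
          · intro c _ _ h
            rw [e5, e6, Fin.lt_def, Fin.lt_def] at h
            omega
        rw [hL, hR]; ring
    · have hn1 : ¬ (p = (v a, v b) ∧ (v b).val = (v a).val + 1) := by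
        rintro ⟨h, _⟩
        apply hv
        rw [sms v hne]
        left
        rw [h]
        exact ⟨rfl, rfl⟩
      have hn2 : ¬ (p = (v b, v a) ∧ (v a).val = (v b).val + 1) := by
        rintro ⟨h, _⟩
        apply hv
        rw [sms v hne]
        right
        rw [h]
        exact ⟨rfl, rfl⟩
      rw [if_neg hn1, if_neg hn2]
      have h3 := h2 n v a b p hp hab
      unfold tL tR
      by_cases hc : Cov v a b ∧ p ∈ Desc (v * Equiv.swap a b)
      · have h4 := h3.mp ⟨hc.1, hc.2, hv⟩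
        rw [if_pos hc, if_pos ⟨h4.1, h4.2.1⟩, mul_assoc (Equiv.swap p.1 p.2) v]
        ring
      · rw [if_neg hc, if_neg]
        · ring
        · rintro ⟨h5, h6⟩
          apply hc
          have h7 := h3.mpr ⟨h5, h6, by rw [mul_assoc]; exact hv⟩
          exact ⟨h7.1, h7.2.1⟩
  · have hL : tL v a b p = 0 := by
      unfold tL
      rw [if_neg]
      rintro ⟨_, h⟩
      rw [mem_Desc] at h
      exact hp h.1
    have hR : tR v a b p = 0 := by
      unfold tR
      rw [if_neg]
      rintro ⟨h, _⟩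
      rw [mem_Desc] at h
      exact hp h.1
    have hn1 : ¬ (p = (v a, v b) ∧ (v b).val = (v a).val + 1) := by
      rintro ⟨h, h'⟩
      apply hp
      rw [h]
      exact h'
    have hn2 : ¬ (p = (v b, v a) ∧ (v a).val = (v b).val + 1) := by
      rintro ⟨h, h'⟩
      apply hp
      rw [h]
      exact h'
    rw [hL, hR, if_neg hn1, if_neg hn2]
    ring

noncomputable def cU (v : Equiv.Perm (Fin n)) (a b : Fin n) : ℚ :=
  if Cov v a b then Ups (v * Equiv.swap a b) else 0

theorem key (h1 : StCovLen) (h2 : StCovBij) (v : Equiv.Perm (Fin n)) {a b : Fin n} (hab : a < b) :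
    (((inv v).card : ℚ) + 1) * cU v a b =
      (∑ p ∈ Desc v, ((p.1.val : ℚ) + 1) * cU (Equiv.swap p.1 p.2 * v) a b) +
      (if (v b).val = (v a).val + 1 then (((v a).val : ℚ) + 1) * Ups v else 0) -
      (if (v a).val = (v b).val + 1 then (((v b).val : ℚ) + 1) * Ups v else 0) := by
  have hL : (((inv v).card : ℚ) + 1) * cU v a b = ∑ p, tL v a b p := by
    unfold cU
    by_cases hc : Cov v a b
    · rw [if_pos hc]
      have h3 := Ups_rec (v * Equiv.swap a b)
      rw [h1 n v a b hc] at h3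
      push_cast at h3
      rw [h3]
      rw [← Finset.sum_filter_add_sum_filter_not Finset.univ
        (fun p => p ∈ Desc (v * Equiv.swap a b)) (tL v a b)]
      have h4 : ∑ p ∈ Finset.univ.filter (fun p => ¬ p ∈ Desc (v * Equiv.swap a b)),
          tL v a b p = 0 := by
        refine Finset.sum_eq_zero ?_
        intro p hp
        rw [Finset.mem_filter] at hp
        unfold tL
        rw [if_neg]
        rintro ⟨_, h⟩
        exact hp.2 h
      rw [h4, add_zero]
      rw [Finset.filter_mem_eq_inter, Finset.univ_inter]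
      refine Finset.sum_congr rfl ?_
      intro p hp
      unfold tL
      rw [if_pos ⟨hc, hp⟩]
    · rw [if_neg hc, mul_zero]
      symm
      refine Finset.sum_eq_zero ?_
      intro p _
      unfold tL
      rw [if_neg]
      rintro ⟨h, _⟩
      exact hc h
  have hR : ∑ p ∈ Desc v, ((p.1.val : ℚ) + 1) * cU (Equiv.swap p.1 p.2 * v) a b =
      ∑ p, tR v a b p := by
    rw [← Finset.sum_filter_add_sum_filter_not Finset.univ (fun p => p ∈ Desc v) (tR v a b)]
    have h4 : ∑ p ∈ Finset.univ.filter (fun p => ¬ p ∈ Desc v), tR v a b p = 0 := by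
      refine Finset.sum_eq_zero ?_
      intro p hp
      rw [Finset.mem_filter] at hp
      unfold tR
      rw [if_neg]
      rintro ⟨h, _⟩
      exact hp.2 h
    rw [h4, add_zero]
    rw [Finset.filter_mem_eq_inter, Finset.univ_inter]
    refine Finset.sum_congr rfl ?_
    intro p hp
    unfold tR cU
    by_cases hc : Cov (Equiv.swap p.1 p.2 * v) a b
    · rw [if_pos hc, if_pos ⟨hp, hc⟩]
    · rw [if_neg hc, if_neg, mul_zero]
      rintro ⟨_, h⟩
      exact hc h
  rw [hL, hR]
  rw [Finset.sum_congr rfl (fun p _ => term_eq h2 v hab p)]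
  rw [Finset.sum_sub_distrib, Finset.sum_add_distrib]
  congr 1
  · congr 1
    by_cases hc : (v b).val = (v a).val + 1
    · rw [if_pos hc]
      rw [Finset.sum_eq_single (v a, v b)]
      · rw [if_pos ⟨rfl, hc⟩]
      · intro p _ hp
        rw [if_neg]
        rintro ⟨h, _⟩
        exact hp h
      · intro h
        exact absurd (Finset.mem_univ _) h
    · rw [if_neg hc]
      refine Finset.sum_eq_zero ?_
      intro p _
      rw [if_neg]
      rintro ⟨_, h⟩
      exact hc h
  · by_cases hc : (v a).val = (v b).val + 1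
    · rw [if_pos hc]
      rw [Finset.sum_eq_single (v b, v a)]
      · rw [if_pos ⟨rfl, hc⟩]
      · intro p _ hp
        rw [if_neg]
        rintro ⟨h, _⟩
        exact hp h
      · intro h
        exact absurd (Finset.mem_univ _) h
    · rw [if_neg hc]
      refine Finset.sum_eq_zero ?_
      intro p _
      rw [if_neg]
      rintro ⟨_, h⟩
      exact hc h

/-- the right side of Monk's rule. -/
noncomputable def AA (v : Equiv.Perm (Fin n)) (r : Fin n) : ℚ :=
  ∑ b ∈ Finset.univ.filter (fun b => r < b), cU v r b -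
    ∑ a ∈ Finset.univ.filter (fun a => a < r), cU v a r

theorem AA_eq (v : Equiv.Perm (Fin n)) (r : Fin n) :
    ∑ b ∈ Finset.univ.filter (fun b => Cov v r b), Ups (v * Equiv.swap r b) -
    ∑ a ∈ Finset.univ.filter (fun a => Cov v a r), Ups (v * Equiv.swap a r) = AA v r := by
  unfold AA cU
  congr 1
  · rw [Finset.sum_filter, Finset.sum_filter]
    refine Finset.sum_congr rfl ?_
    intro b _
    by_cases hc : Cov v r b
    · rw [if_pos hc, if_pos hc.1]
    · rw [if_neg hc]
      split_ifs <;> rfl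
  · rw [Finset.sum_filter, Finset.sum_filter]
    refine Finset.sum_congr rfl ?_
    intro b _
    by_cases hc : Cov v b r
    · rw [if_pos hc, if_pos hc.1]
    · rw [if_neg hc]
      split_ifs <;> rfl

theorem split_ne (r : Fin n) (f : Fin n → ℚ) (hr : f r = 0) :
    ∑ b ∈ Finset.univ.filter (fun b => r < b), f b +
      ∑ a ∈ Finset.univ.filter (fun a => a < r), f a = ∑ a, f a := by
  rw [Finset.sum_filter, Finset.sum_filter, ← Finset.sum_add_distrib]
  refine Finset.sum_congr rfl ?_
  intro a _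
  rcases lt_trichotomy a r with h | h | h
  · rw [if_neg (not_lt.mpr h.le), if_pos h, zero_add]
  · subst h
    rw [if_neg (lt_irrefl _), hr, add_zero]
  · rw [if_pos h, if_neg (not_lt.mpr h.le), add_zero]

theorem AA_rec (h1 : StCovLen) (h2 : StCovBij) (v : Equiv.Perm (Fin n)) (r : Fin n)
    (hr : (v r).val + 1 < n) :
    (((inv v).card : ℚ) + 1) * AA v r =
      (∑ p ∈ Desc v, ((p.1.val : ℚ) + 1) * AA (Equiv.swap p.1 p.2 * v) r) + Ups v := by
  unfold AA
  rw [mul_sub, Finset.mul_sum, Finset.mul_sum]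
  have e1 : ∀ b ∈ Finset.univ.filter (fun b => r < b), (((inv v).card : ℚ) + 1) * cU v r b =
      (∑ p ∈ Desc v, ((p.1.val : ℚ) + 1) * cU (Equiv.swap p.1 p.2 * v) r b) +
      (if (v b).val = (v r).val + 1 then (((v r).val : ℚ) + 1) * Ups v else 0) -
      (if (v r).val = (v b).val + 1 then (((v b).val : ℚ) + 1) * Ups v else 0) := by
    intro b hb
    rw [Finset.mem_filter] at hb
    exact key h1 h2 v hb.2
  have e2 : ∀ a ∈ Finset.univ.filter (fun a => a < r), (((inv v).card : ℚ) + 1) * cU v a r =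
      (∑ p ∈ Desc v, ((p.1.val : ℚ) + 1) * cU (Equiv.swap p.1 p.2 * v) a r) +
      (if (v r).val = (v a).val + 1 then (((v a).val : ℚ) + 1) * Ups v else 0) -
      (if (v a).val = (v r).val + 1 then (((v r).val : ℚ) + 1) * Ups v else 0) := by
    intro a ha
    rw [Finset.mem_filter] at ha
    exact key h1 h2 v ha.2
  rw [Finset.sum_congr rfl e1, Finset.sum_congr rfl e2]
  rw [Finset.sum_sub_distrib, Finset.sum_add_distrib, Finset.sum_sub_distrib,
    Finset.sum_add_distrib, Finset.sum_comm, Finset.sum_comm (s := Finset.univ.filter (fun a => a < r))]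
  have e3 : ∑ p ∈ Desc v, ((p.1.val : ℚ) + 1) *
      (∑ b ∈ Finset.univ.filter (fun b => r < b), cU (Equiv.swap p.1 p.2 * v) r b -
        ∑ a ∈ Finset.univ.filter (fun a => a < r), cU (Equiv.swap p.1 p.2 * v) a r) =
      ∑ p ∈ Desc v, ∑ b ∈ Finset.univ.filter (fun b => r < b),
        ((p.1.val : ℚ) + 1) * cU (Equiv.swap p.1 p.2 * v) r b -
      ∑ p ∈ Desc v, ∑ a ∈ Finset.univ.filter (fun a => a < r),
        ((p.1.val : ℚ) + 1) * cU (Equiv.swap p.1 p.2 * v) a r := by
    rw [← Finset.sum_sub_distrib]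
    refine Finset.sum_congr rfl ?_
    intro p _
    rw [mul_sub, Finset.mul_sum, Finset.mul_sum]
  rw [e3]
  -- the corrections
  have e4 := split_ne r
    (fun a => if (v a).val = (v r).val + 1 then (((v r).val : ℚ) + 1) * Ups v else 0)
    (by rw [if_neg]; omega)
  have e5 := split_ne r
    (fun a => if (v r).val = (v a).val + 1 then (((v a).val : ℚ) + 1) * Ups v else 0)
    (by rw [if_neg]; omega)
  have e6 : ∑ a, (if (v a).val = (v r).val + 1 then (((v r).val : ℚ) + 1) * Ups v else 0) =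
      (((v r).val : ℚ) + 1) * Ups v := by
    rw [Finset.sum_eq_single (v.symm ⟨(v r).val + 1, hr⟩)]
    · rw [if_pos]
      rw [Equiv.apply_symm_apply]
    · intro a _ ha
      rw [if_neg]
      intro h
      apply ha
      rw [Equiv.eq_symm_apply]
      exact Fin.ext h
    · intro h
      exact absurd (Finset.mem_univ _) h
  have e7 : ∑ a, (if (v r).val = (v a).val + 1 then (((v a).val : ℚ) + 1) * Ups v else 0) =
      ((v r).val : ℚ) * Ups v := by
    by_cases h0 : (v r).val = 0
    · rw [h0]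
      rw [Finset.sum_eq_zero]
      · simp
      · intro a _
        rw [if_neg]
        omega
    · obtain ⟨x, hx⟩ : ∃ x, (v r).val = x + 1 := ⟨(v r).val - 1, by omega⟩
      rw [Finset.sum_eq_single (v.symm ⟨x, by omega⟩)]
      · rw [if_pos]
        · rw [Equiv.apply_symm_apply, hx]
          push_cast
          ring
        · rw [Equiv.apply_symm_apply]
          exact hx
      · intro a _ ha
        rw [if_neg]
        intro h
        apply ha
        rw [Equiv.eq_symm_apply]
        apply Fin.ext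
        show (v a).val = x
        omega
      · intro h
        exact absurd (Finset.mem_univ _) h
  rw [e6] at e4
  rw [e7] at e5
  linarith

theorem main (h1 : StCovLen) (h2 : StCovBij) : ∀ (l : ℕ) (n : ℕ)
    (v : Equiv.Perm (Fin (n + 1))) (r : Fin (n + 1)), (inv v).card = l →
    v (Fin.last n) = Fin.last n → r ≠ Fin.last n → Ups v = AA v r := by
  intro l
  induction l using Nat.strong_induction_on with
  | _ l ih =>
    intro n v r hl hv hr
    have h3 : (v r).val + 1 < n + 1 := by
      have h4 : v r ≠ Fin.last n := by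
        intro h
        apply hr
        apply v.injective
        rw [h, hv]
      have h5 := (v r).isLt
      have h6 : (v r).val ≠ n := by
        intro h
        apply h4
        apply Fin.ext
        rw [h, Fin.val_last]
      omega
    have h4 := AA_rec h1 h2 v r h3
    have h5 : ∀ p ∈ Desc v, ((p.1.val : ℚ) + 1) * AA (Equiv.swap p.1 p.2 * v) r =
        ((p.1.val : ℚ) + 1) * Ups (Equiv.swap p.1 p.2 * v) := by
      intro p hp
      rw [mem_Desc] at hp
      have h6 := card_inv_down v hp.1 hp.2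
      rw [← ih (inv (Equiv.swap p.1 p.2 * v)).card (by omega) n (Equiv.swap p.1 p.2 * v) r rfl
        ?_ hr]
      have hvs : v.symm (Fin.last n) = Fin.last n := by
        rw [Equiv.symm_apply_eq]; exact hv.symm
      rw [Equiv.Perm.mul_apply, hv]
      apply Equiv.swap_apply_of_ne_of_ne
      · intro h
        have h7 := hp.1
        rw [← h, Fin.val_last] at h7
        have := p.2.isLt
        omega
      · intro h
        have h7 := hp.2
        rw [← h, hvs] at h7
        exact absurd h7 (not_lt.mpr (Fin.le_last _))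
    rw [Finset.sum_congr rfl h5, ← Ups_rec v] at h4
    have h6 : (((inv v).card : ℚ) + 1) ≠ 0 := by positivity
    have h7 : (((inv v).card : ℚ) + 1) * AA v r = (((inv v).card : ℚ) + 1) * Ups v := by
      rw [h4]; ring
    exact (mul_left_cancel₀ h6 h7).symm

end XMonk

theorem I_Monk (h1 : StCovLen) (h2 : StCovBij) : StMonk := by
  intro n v r hv hr
  rw [XMonk.AA_eq]
  exact XMonk.main h1 h2 _ n v r rfl hv hr

end Pool.Agent.Work.MP_ca14f8_co.QE

end

section

set_option autoImplicit false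

namespace Pool.Agent.Work.MP_ca14f8_co.QE

namespace XRK

theorem ker_eq (P Z : Type) [Fintype P] [DecidableEq P] (F : P → Z → ℚ) :
    LinearMap.ker (Fintype.linearCombination ℚ F) =
      LinearMap.ker ((Submodule.dualRestrict
        (Submodule.span ℚ (Set.range (fun (z : Z) (p : P) => F p z)))).comp
        (dotProductEquiv ℚ P).toLinearMap) := by
  ext c
  simp only [LinearMap.mem_ker, LinearMap.comp_apply]
  constructor
  · intro h
    ext ⟨w, hw⟩
    simp only [LinearMap.zero_apply, Submodule.dualRestrict_apply]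
    induction hw using Submodule.span_induction with
    | mem x hx =>
      obtain ⟨z, rfl⟩ := hx
      have := congrFun h z
      simp only [Fintype.linearCombination_apply, Finset.sum_apply, Pi.smul_apply, smul_eq_mul,
        Pi.zero_apply] at this
      simpa [dotProductEquiv, dotProduct] using this
    | zero => simp
    | add x y hx hy hx' hy' => rw [map_add, hx', hy', add_zero]
    | smul a x hx hx' => rw [map_smul, hx', smul_zero]
  · intro h
    funext z
    have := LinearMap.congr_fun h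
      ⟨fun p => F p z, Submodule.subset_span ⟨z, rfl⟩⟩
    simp only [LinearMap.zero_apply, Submodule.dualRestrict_apply] at this
    simp only [Fintype.linearCombination_apply, Finset.sum_apply, Pi.smul_apply, smul_eq_mul,
        Pi.zero_apply]
    simpa [dotProductEquiv, dotProduct] using this

end XRK

theorem I_RK : StRK := by
  classical
  intro P Z _ F
  set W := Submodule.span ℚ (Set.range (fun (z : Z) (p : P) => F p z)) with hW
  set Ψ := ((Submodule.dualRestrict W).comp (dotProductEquiv ℚ P).toLinearMap) with hΨ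
  have h1 := LinearMap.finrank_range_add_finrank_ker (Fintype.linearCombination ℚ F)
  have h2 := LinearMap.finrank_range_add_finrank_ker Ψ
  have hk : LinearMap.ker (Fintype.linearCombination ℚ F) = LinearMap.ker Ψ :=
    XRK.ker_eq P Z F
  have hs : Function.Surjective Ψ := by
    rw [hΨ]
    exact (Subspace.dualRestrict_surjective (W := W)).comp (dotProductEquiv ℚ P).surjective
  have hr : Module.finrank ℚ (LinearMap.range Ψ) = Module.finrank ℚ W := by
    rw [LinearMap.range_eq_top.2 hs, finrank_top]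
    exact Subspace.dual_finrank_eq
  rw [Fintype.range_linearCombination] at h1
  rw [hk] at h1
  omega

end Pool.Agent.Work.MP_ca14f8_co.QE

end

section

/-!
`I_Rep : StRep`: the operators `eop (E_ab)` satisfy the relations of the strictly upper
triangular matrices.
-/

set_option autoImplicit false

namespace Pool.Agent.Work.MP_ca14f8_co.QE

namespace XRep

variable {β : Type} [DecidableEq β] {n : ℕ}

theorem op_mul (x : β) (A B : Matrix (Fin n) (Fin n) ℚ) :
    op x A * op x B = op x (A * B) := by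
  apply LinearMap.ext
  intro t
  funext ρ
  change ∑ c, A (ρ x) c * (∑ d, B (Function.update ρ x c x) d *
      t (Function.update (Function.update ρ x c) x d)) =
    ∑ d, (A * B) (ρ x) d * t (Function.update ρ x d)
  simp only [Function.update_self, Function.update_idem, Matrix.mul_apply, Finset.sum_mul,
    Finset.mul_sum]
  rw [Finset.sum_comm]
  refine Finset.sum_congr rfl fun d _ => Finset.sum_congr rfl fun c _ => ?_
  ring

theorem op_comm {x y : β} (h : x ≠ y) (A B : Matrix (Fin n) (Fin n) ℚ) :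
    op x A * op y B = op y B * op x A := by
  apply LinearMap.ext
  intro t
  funext ρ
  change ∑ c, A (ρ x) c * (∑ d, B (Function.update ρ x c y) d *
      t (Function.update (Function.update ρ x c) y d)) =
    ∑ d, B (ρ y) d * (∑ c, A (Function.update ρ y d x) c *
      t (Function.update (Function.update ρ y d) x c))
  simp only [Function.update_of_ne h.symm, Function.update_of_ne h, Finset.mul_sum]
  rw [Finset.sum_comm]
  refine Finset.sum_congr rfl fun d _ => Finset.sum_congr rfl fun c _ => ?_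
  rw [Function.update_comm h]
  ring

theorem op_add (x : β) (A B : Matrix (Fin n) (Fin n) ℚ) :
    op x (A + B) = op x A + op x B := by
  apply LinearMap.ext
  intro t
  funext ρ
  change ∑ c, (A + B) (ρ x) c * t (Function.update ρ x c) =
    ∑ c, A (ρ x) c * t (Function.update ρ x c) + ∑ c, B (ρ x) c * t (Function.update ρ x c)
  simp only [Matrix.add_apply, add_mul, Finset.sum_add_distrib]

theorem op_neg (x : β) (A : Matrix (Fin n) (Fin n) ℚ) :
    op x (-A) = - op x A := by
  apply LinearMap.ext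
  intro t
  funext ρ
  change ∑ c, (-A) (ρ x) c * t (Function.update ρ x c) =
    - ∑ c, A (ρ x) c * t (Function.update ρ x c)
  simp only [Matrix.neg_apply, neg_mul, Finset.sum_neg_distrib]

theorem op_sub (x : β) (A B : Matrix (Fin n) (Fin n) ℚ) :
    op x (A - B) = op x A - op x B := by
  rw [sub_eq_add_neg, op_add, op_neg, ← sub_eq_add_neg]

theorem op_zero (x : β) : op x (0 : Matrix (Fin n) (Fin n) ℚ) = 0 := by
  apply LinearMap.ext
  intro t
  funext ρ
  change ∑ c, (0 : Matrix (Fin n) (Fin n) ℚ) (ρ x) c * t (Function.update ρ x c) = 0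
  simp only [Matrix.zero_apply, zero_mul, Finset.sum_const_zero]

variable [Fintype β]

theorem eop_sub (A B : Matrix (Fin n) (Fin n) ℚ) :
    eop (β := β) (A - B) = eop A - eop B := by
  unfold eop
  rw [← Finset.sum_sub_distrib]
  exact Finset.sum_congr rfl fun x _ => op_sub x A B

theorem eop_zero : eop (β := β) (0 : Matrix (Fin n) (Fin n) ℚ) = 0 := by
  unfold eop
  exact Finset.sum_eq_zero fun x _ => op_zero x

theorem eop_bracket (A B : Matrix (Fin n) (Fin n) ℚ) :
    eop (β := β) A * eop B - eop B * eop A = eop (A * B - B * A) := by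
  have h1 : ∀ x : β, op x A * eop B - eop B * op x A = op x (A * B - B * A) := by
    intro x
    unfold eop
    rw [Finset.mul_sum, Finset.sum_mul, ← Finset.sum_sub_distrib,
      Finset.sum_eq_single x]
    · rw [op_mul, op_mul, ← op_sub]
    · intro y _ hy
      rw [op_comm (Ne.symm hy), sub_self]
    · intro h
      exact absurd (Finset.mem_univ x) h
  have h2 : eop (β := β) A * eop B - eop B * eop A =
      ∑ x : β, (op x A * eop B - eop B * op x A) := by
    rw [Finset.sum_sub_distrib, ← Finset.sum_mul, ← Finset.mul_sum]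
    rfl
  rw [h2]
  unfold eop
  exact Finset.sum_congr rfl fun x _ => h1 x

end XRep

theorem I_Rep : StRep := by
  intro β _ _ n a b c d _ _
  change eop (β := β) (Matrix.single a b (1 : ℚ)) * eop (Matrix.single c d (1 : ℚ)) -
    eop (Matrix.single c d (1 : ℚ)) * eop (Matrix.single a b (1 : ℚ)) =
    (if b = c then eop (Matrix.single a d (1 : ℚ)) else 0) -
    (if a = d then eop (Matrix.single c b (1 : ℚ)) else 0)
  rw [XRep.eop_bracket, XRep.eop_sub]
  congr 1
  · by_cases h : b = c
    · subst h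
      rw [if_pos rfl, Matrix.single_mul_single_same, one_mul]
    · rw [if_neg h, Matrix.single_mul_single_of_ne (h := h), XRep.eop_zero]
  · by_cases h : a = d
    · subst h
      rw [if_pos rfl, Matrix.single_mul_single_same, one_mul]
    · rw [if_neg h, Matrix.single_mul_single_of_ne (h := Ne.symm h), XRep.eop_zero]

end Pool.Agent.Work.MP_ca14f8_co.QE

end

section

set_option autoImplicit false
open Classical

namespace Pool.Agent.Work.MP_ca14f8_co.QE

namespace XSHBin

/-- the commutator with a power -/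
theorem comm_pow {R : Type} [Ring R] (E y Q : R) (h : E * y - y * E = Q) (hQ : Commute Q y)
    (b : ℕ) : E * y ^ (b + 1) = y ^ (b + 1) * E + ((b + 1 : ℕ) : R) * (y ^ b * Q) := by
  have h1 : E * y = y * E + Q := by rw [← h]; abel
  induction b with
  | zero => simp [h1]
  | succ b ih =>
    have h2 : E * y ^ (b + 1 + 1) = (E * y ^ (b + 1)) * y := by rw [pow_succ y (b + 1), mul_assoc]
    rw [h2, ih, add_mul, mul_assoc (y ^ (b + 1)) E y, h1, mul_add, ← mul_assoc (y ^ (b + 1)) y E,
      ← pow_succ y (b + 1)]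
    have h3 : ((b + 1 : ℕ) : R) * (y ^ b * Q) * y = ((b + 1 : ℕ) : R) * (y ^ (b + 1) * Q) := by
      rw [mul_assoc, mul_assoc (y ^ b), hQ.eq, ← mul_assoc (y ^ b) y Q, ← pow_succ]
    rw [h3]
    push_cast
    noncomm_ring

end XSHBin

theorem I_SH : StSH := by
  intro M _ _ E y Q Z i u h hQE hQy hZE hZQ hZy hu hyZ a
  induction a with
  | zero =>
    intro b hb
    have : b = i := by omega
    rw [this, pow_zero, one_mul]
    exact hyZ
  | succ a ih =>
    intro b hb
    have h1 := ih (b + 1) (by omega)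
    have h2 : E ((Q ^ a * y ^ (b + 1) * Z) u) = 0 := by rw [h1, map_zero]
    have h3 : E * (Q ^ a * y ^ (b + 1) * Z) = Q ^ a * y ^ (b + 1) * Z * E +
        ((b + 1 : ℕ) : Module.End ℚ M) * (Q ^ (a + 1) * y ^ b * Z) := by
      have e1 : E * (Q ^ a * y ^ (b + 1) * Z) = Q ^ a * (E * y ^ (b + 1)) * Z := by
        have := (hQE.symm.pow_right a).eq
        rw [← mul_assoc, ← mul_assoc, this, mul_assoc (Q ^ a)]
      rw [e1, XSHBin.comm_pow E y Q h hQy b, mul_add, add_mul]
      congr 1
      · rw [mul_assoc, mul_assoc, ← hZE.eq]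
        simp only [mul_assoc]
      · have e2 : y ^ b * Q = Q * y ^ b := ((hQy.pow_right b).eq).symm
        have e3 : Q ^ a * (((b + 1 : ℕ) : Module.End ℚ M) * (Q * y ^ b)) =
            ((b + 1 : ℕ) : Module.End ℚ M) * (Q ^ a * (Q * y ^ b)) := by
          rw [← mul_assoc, ← mul_assoc, ← (Nat.cast_commute (b + 1) (Q ^ a)).eq]
          simp only [mul_assoc]
        rw [e2, e3, mul_assoc, ← mul_assoc (Q ^ a) Q, ← pow_succ]
    have h4 : (E * (Q ^ a * y ^ (b + 1) * Z)) u = 0 := h2
    rw [h3, LinearMap.add_apply, Module.End.mul_apply, hu, map_zero, zero_add,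
      Module.End.mul_apply] at h4
    have h5 : ((b + 1 : ℕ) : Module.End ℚ M) ((Q ^ (a + 1) * y ^ b * Z) u) =
        ((b + 1 : ℕ) : ℚ) • ((Q ^ (a + 1) * y ^ b * Z) u) := by
      rw [Module.End.natCast_apply, Nat.cast_smul_eq_nsmul]
    rw [h5] at h4
    rcases smul_eq_zero.mp h4 with h6 | h6
    · exact absurd h6 (by positivity)
    · exact h6

theorem I_Bin : StBin := by
  intro M _ _ E y P m β u h hPE hPy
  induction m generalizing β u with
  | zero =>
    intro H
    have h1 := H 0 le_rfl (Nat.zero_le _)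
    have h2 : u = 0 := by simpa using h1
    rw [h2, map_zero]
  | succ m ih =>
    intro H
    rcases β with _ | β
    · have h1 := H 0 (Nat.zero_le _) le_rfl
      simpa using h1
    · have h3 : E ^ (m + 1) * y ^ (β + 1) = E ^ m * y ^ (β + 1) * E +
          ((β + 1 : ℕ) : Module.End ℚ M) * (E ^ m * y ^ β * P) := by
        rw [pow_succ, mul_assoc, XSHBin.comm_pow E y P h hPy β, mul_add]
        have e4 : E ^ m * (((β + 1 : ℕ) : Module.End ℚ M) * (y ^ β * P)) =
            ((β + 1 : ℕ) : Module.End ℚ M) * (E ^ m * (y ^ β * P)) := by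
          rw [← mul_assoc, ← mul_assoc, ← (Nat.cast_commute (β + 1) (E ^ m)).eq]
          simp only [mul_assoc]
        rw [e4]
        simp only [mul_assoc]
      have h4 : (E ^ m * y ^ (β + 1)) (E u) = 0 := by
        apply ih
        intro j hj hjb
        have h5 := H j (by omega) hjb
        have h6 : P ^ j * E ^ (m + 1 - j) = P ^ j * E ^ (m - j) * E := by
          rw [mul_assoc, ← pow_succ]
          congr 2
          omega
        rw [h6] at h5
        exact h5
      have h5 : (E ^ m * y ^ β) (P u) = 0 := by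
        apply ih
        intro j hj hjb
        have h5 := H (j + 1) (by omega) (by omega)
        have h6 : P ^ (j + 1) * E ^ (m + 1 - (j + 1)) = P ^ j * E ^ (m - j) * P := by
          have h7 : m + 1 - (j + 1) = m - j := by omega
          rw [h7, pow_succ, mul_assoc, mul_assoc, (hPE.pow_right (m - j)).eq]
        rw [h6] at h5
        exact h5
      rw [h3, LinearMap.add_apply, Module.End.mul_apply, h4, zero_add,
        Module.End.mul_apply, Module.End.mul_apply, h5, map_zero]

end Pool.Agent.Work.MP_ca14f8_co.QE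

end

section

/-!
The principal evaluation is stable under the embedding of `S_n` in `S_(n+1)`.
-/

set_option autoImplicit false
open Classical

namespace Pool.Agent.Work.MP_ca14f8_co.QE

namespace XStab

variable {n : ℕ}

/-- `w'` extends `w`. -/
def Ex (w : Equiv.Perm (Fin n)) (w' : Equiv.Perm (Fin (n + 1))) : Prop :=
  ∀ i : Fin n, w' i.castSucc = (w i).castSucc

/-- pairs of positions. -/
def emb : (Fin n × Fin n) ↪ (Fin (n + 1) × Fin (n + 1)) where
  toFun := fun p => (p.1.castSucc, p.2.castSucc)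
  inj' := by
    rintro ⟨a, b⟩ ⟨c, d⟩ h
    simp only [Prod.mk.injEq, Fin.castSucc_inj] at h
    rw [h.1, h.2]

theorem emb_apply (p : Fin n × Fin n) : emb p = (p.1.castSucc, p.2.castSucc) := rfl

theorem last_fix {w : Equiv.Perm (Fin n)} {w' : Equiv.Perm (Fin (n + 1))} (h : Ex w w') :
    w' (Fin.last n) = Fin.last n := by
  rcases Fin.eq_castSucc_or_eq_last (w' (Fin.last n)) with ⟨j, hj⟩ | hj
  · exfalso
    have h1 := h (w.symm j)
    rw [Equiv.apply_symm_apply, ← hj] at h1
    have h2 := w'.injective h1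
    exact absurd h2 (Fin.castSucc_lt_last _).ne
  · exact hj

theorem symm_ext {w : Equiv.Perm (Fin n)} {w' : Equiv.Perm (Fin (n + 1))} (h : Ex w w')
    (i : Fin n) : w'.symm i.castSucc = (w.symm i).castSucc := by
  rw [Equiv.symm_apply_eq, h, Equiv.apply_symm_apply]

theorem symm_last {w : Equiv.Perm (Fin n)} {w' : Equiv.Perm (Fin (n + 1))} (h : Ex w w') :
    w'.symm (Fin.last n) = Fin.last n := by
  rw [Equiv.symm_apply_eq, last_fix h]

theorem inv_ext {w : Equiv.Perm (Fin n)} {w' : Equiv.Perm (Fin (n + 1))} (h : Ex w w') :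
    inv w' = (inv w).map emb := by
  ext ⟨a, b⟩
  rw [mem_inv, Finset.mem_map]
  constructor
  · rintro ⟨h1, h2⟩
    rcases Fin.eq_castSucc_or_eq_last b with ⟨b, rfl⟩ | rfl
    · rcases Fin.eq_castSucc_or_eq_last a with ⟨a, rfl⟩ | rfl
      · refine ⟨(a, b), ?_, rfl⟩
        rw [mem_inv]
        simp only at h1 h2 ⊢
        rw [h, h] at h2
        exact ⟨Fin.castSucc_lt_castSucc_iff.1 h1, Fin.castSucc_lt_castSucc_iff.1 h2⟩
      · exact absurd h1 (not_lt.2 (Fin.le_last _))
    · simp only at h2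
      rw [last_fix h] at h2
      exact absurd h2 (not_lt.2 (Fin.le_last _))
  · rintro ⟨⟨c, d⟩, hp, he⟩
    rw [mem_inv] at hp
    rw [emb_apply, Prod.mk.injEq] at he
    obtain ⟨rfl, rfl⟩ := he
    simp only at hp ⊢
    rw [h, h]
    exact ⟨Fin.castSucc_lt_castSucc_iff.2 hp.1, Fin.castSucc_lt_castSucc_iff.2 hp.2⟩

theorem Desc_ext {w : Equiv.Perm (Fin n)} {w' : Equiv.Perm (Fin (n + 1))} (h : Ex w w') :
    Desc w' = (Desc w).map emb := by
  ext ⟨a, b⟩
  rw [mem_Desc, Finset.mem_map]
  constructor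
  · rintro ⟨h1, h2⟩
    rcases Fin.eq_castSucc_or_eq_last b with ⟨b, rfl⟩ | rfl
    · rcases Fin.eq_castSucc_or_eq_last a with ⟨a, rfl⟩ | rfl
      · refine ⟨(a, b), ?_, rfl⟩
        rw [mem_Desc]
        simp only at h1 h2 ⊢
        rw [symm_ext h, symm_ext h] at h2
        exact ⟨h1, Fin.castSucc_lt_castSucc_iff.1 h2⟩
      · simp only [Fin.val_castSucc, Fin.val_last] at h1
        have := b.isLt
        omega
    · simp only at h2
      rw [symm_last h] at h2
      exact absurd h2 (not_lt.2 (Fin.le_last _))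
  · rintro ⟨⟨c, d⟩, hp, he⟩
    rw [mem_Desc] at hp
    rw [emb_apply, Prod.mk.injEq] at he
    obtain ⟨rfl, rfl⟩ := he
    simp only at hp ⊢
    rw [symm_ext h, symm_ext h]
    exact ⟨hp.1, Fin.castSucc_lt_castSucc_iff.2 hp.2⟩

theorem swap_ext {w : Equiv.Perm (Fin n)} {w' : Equiv.Perm (Fin (n + 1))} (h : Ex w w')
    (a b : Fin n) : Ex (Equiv.swap a b * w) (Equiv.swap a.castSucc b.castSucc * w') := by
  intro i
  rw [Equiv.Perm.mul_apply, Equiv.Perm.mul_apply, h,
    (Fin.castSucc_injective n).swap_apply]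

theorem card_ext {w : Equiv.Perm (Fin n)} {w' : Equiv.Perm (Fin (n + 1))} (h : Ex w w') :
    (inv w').card = (inv w).card := by
  rw [inv_ext h, Finset.card_map]

theorem main : ∀ (L : ℕ) (w : Equiv.Perm (Fin n)) (w' : Equiv.Perm (Fin (n + 1))), Ex w w' →
    (inv w).card = L → Ups w' = Ups w := by
  intro L
  induction L with
  | zero =>
    intro w w' h hL
    rw [eq_one_of_inv (w := w) hL, eq_one_of_inv (w := w') (by rw [card_ext h, hL]), Ups_one,
      Ups_one]
  | succ L ih =>
    intro w w' h hL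
    have h1 := Ups_rec w
    have h2 := Ups_rec w'
    rw [Desc_ext h, Finset.sum_map, card_ext h] at h2
    have h3 : ∑ p ∈ Desc w, (((emb p).1.val : ℚ) + 1) *
        Ups (Equiv.swap (emb p).1 (emb p).2 * w') =
        ∑ p ∈ Desc w, ((p.1.val : ℚ) + 1) * Ups (Equiv.swap p.1 p.2 * w) := by
      refine Finset.sum_congr rfl ?_
      intro p hp
      rw [mem_Desc] at hp
      rw [emb_apply]
      simp only [Fin.val_castSucc]
      rw [ih (Equiv.swap p.1 p.2 * w) _ (swap_ext h p.1 p.2)]
      have h4 := card_inv_down w hp.1 hp.2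
      omega
    rw [h3, ← h1, hL] at h2
    have h5 : ((L + 1 : ℕ) : ℚ) ≠ 0 := by
      exact_mod_cast Nat.succ_ne_zero L
    exact mul_left_cancel₀ h5 h2

end XStab

theorem I_Stab : StStab := by
  intro n w w' h
  exact XStab.main _ w w' h rfl

end Pool.Agent.Work.MP_ca14f8_co.QE

end

section

/-!
Block QE of MP_ca14f8_co: tensor products of linearly independent functions.
-/

set_option autoImplicit false
open Classical

namespace Pool.Agent.Work.MP_ca14f8_co.QE

namespace XTens

theorem fin_case {Z : Type} {N : ℕ} {f : Fin N → Z → ℚ} (hf : LinearIndependent ℚ f) :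
    ∀ (d : ℕ) (c : (Fin d → Fin N) → ℚ),
      (∀ z : Fin d → Z, ∑ s, c s * ∏ g, f (s g) (z g) = 0) → ∀ s, c s = 0 := by
  intro d
  induction d with
  | zero =>
    intro c h s
    have := h (fun i => i.elim0)
    simp only [Finset.univ_eq_empty, Finset.prod_empty, mul_one] at this
    rw [Fintype.sum_unique] at this
    rwa [Subsingleton.elim s default]
  | succ d ih =>
    intro c h s
    have key : ∀ (i : Fin N) (z' : Fin d → Z),
        ∑ s' : Fin d → Fin N, c (Fin.cons i s') * ∏ g, f (s' g) (z' g) = 0 := by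
      intro i z'
      have h2 := Fintype.linearIndependent_iff.1 hf
        (fun i => ∑ s' : Fin d → Fin N, c (Fin.cons i s') * ∏ g, f (s' g) (z' g))
      apply h2
      funext z0
      have h3 := h (Fin.cons z0 z')
      rw [← (Fin.consEquiv (fun _ => Fin N)).sum_comp, Fintype.sum_prod_type] at h3
      simp only [Finset.sum_apply, Pi.smul_apply, smul_eq_mul, Pi.zero_apply, Finset.sum_mul]
      rw [← h3]
      refine Finset.sum_congr rfl fun i _ => Finset.sum_congr rfl fun s' _ => ?_
      have hc : ((Fin.consEquiv fun _ => Fin N) (i, s')) = (Fin.cons i s' : Fin (d + 1) → Fin N) :=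
        rfl
      rw [hc]
      simp only [Fin.prod_univ_succ, Fin.cons_zero, Fin.cons_succ]
      ring
    have := ih (fun s' => c (Fin.cons (s 0) s')) (key (s 0)) (Fin.tail s)
    simpa using this

end XTens

open XTens in
theorem I_Tens : StTens := by
  intro G _ Z N f hf
  rw [Fintype.linearIndependent_iff]
  intro c hc
  let e : G ≃ Fin (Fintype.card G) := Fintype.equivFin G
  let E : (G → Fin N) ≃ (Fin (Fintype.card G) → Fin N) := e.arrowCongr (Equiv.refl _)
  have h := fin_case hf (Fintype.card G) (fun s => c (E.symm s)) ?_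
  · intro s
    have := h (E s)
    simpa using this
  · intro z
    have h1 := congrFun hc (fun g => z (e g))
    simp only [Finset.sum_apply, Pi.smul_apply, smul_eq_mul, Pi.zero_apply] at h1
    rw [← E.sum_comp]
    rw [← h1]
    refine Finset.sum_congr rfl fun s _ => ?_
    simp only [Equiv.symm_apply_apply]
    congr 1
    rw [← e.prod_comp]
    refine Finset.prod_congr rfl fun g _ => ?_
    simp [E, e]

end Pool.Agent.Work.MP_ca14f8_co.QE

end

section

/-!
Transport of the spaces of products of minors along the lexicographic order isomorphism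
(block QE of MP_ca14f8_co).
-/

set_option autoImplicit false
open Classical

namespace Pool.Agent.Work.MP_ca14f8_co.QE

namespace XTsp

variable {ι κ ι' κ' : Type} [Fintype ι] [DecidableEq ι] [Fintype κ]
  [Fintype ι'] [DecidableEq ι'] [Fintype κ']

theorem mn_reindex (e : ι ≃ ι') (I : Finset ι) (J : Finset ι') (hJ : ∀ x, x ∈ I ↔ e x ∈ J)
    (ρ : ι → ι) (X : Matrix ι ι ℚ) :
    mn J (fun y => e (ρ (e.symm y))) (X.submatrix e.symm e.symm) = mn I ρ X := by
  unfold mn
  rw [← Matrix.det_submatrix_equiv_self (e.subtypeEquiv hJ)]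
  congr 1
  ext a b
  simp

theorem FF_reindex (e : ι ≃ ι') (g : κ ≃ κ') (I : κ → Finset ι) (J : κ' → Finset ι')
    (hJ : ∀ j x, x ∈ I j ↔ e x ∈ J (g j)) (ρ : κ → ι → ι) (X : Matrix ι ι ℚ) :
    FF J (fun j y => e (ρ (g.symm j) (e.symm y))) (X.submatrix e.symm e.symm) = FF I ρ X := by
  unfold FF
  rw [← Equiv.prod_comp g]
  refine Finset.prod_congr rfl (fun j _ => ?_)
  simp only [Equiv.symm_apply_apply]
  exact mn_reindex e (I j) (J (g j)) (hJ j) (ρ j) X

theorem dV_le (e : ι ≃ ι') (g : κ ≃ κ') (𝒳 : Set (Matrix ι ι ℚ)) (𝒴 : Set (Matrix ι' ι' ℚ))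
    (I : κ → Finset ι) (J : κ' → Finset ι') (hJ : ∀ j x, x ∈ I j ↔ e x ∈ J (g j))
    (hX : ∀ X ∈ 𝒳, X.submatrix e.symm e.symm ∈ 𝒴) : dV 𝒳 I ≤ dV 𝒴 J := by
  let φ : 𝒳 → 𝒴 := fun X => ⟨X.1.submatrix e.symm e.symm, hX X.1 X.2⟩
  let L : (𝒴 → ℚ) →ₗ[ℚ] (𝒳 → ℚ) := LinearMap.funLeft ℚ ℚ φ
  have hle : VS 𝒳 I ≤ (VS 𝒴 J).map L := by
    unfold VS
    rw [Submodule.map_span]
    refine Submodule.span_mono ?_
    rintro _ ⟨ρ, rfl⟩
    refine ⟨_, ⟨fun j y => e (ρ (g.symm j) (e.symm y)), rfl⟩, ?_⟩
    funext X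
    exact FF_reindex e g I J hJ ρ X.1
  have hfin : Module.Finite ℚ (VS 𝒴 J) := by
    unfold VS
    exact Module.Finite.span_of_finite ℚ (Set.finite_range _)
  have hfin2 : Module.Finite ℚ ((VS 𝒴 J).map L) := Module.Finite.map _ _
  unfold dV
  calc Module.finrank ℚ (VS 𝒳 I) ≤ Module.finrank ℚ ((VS 𝒴 J).map L) :=
        Submodule.finrank_mono hle
    _ ≤ Module.finrank ℚ (VS 𝒴 J) := Submodule.finrank_map_le L _

theorem Bl_symm_apply {n : ℕ} (k : ℕ) (w : Equiv.Perm (Fin n)) (j : Fin n) (t : Fin k) :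
    (Bl k w).symm (finProdFinEquiv (j, t)) = finProdFinEquiv (w.symm j, t) := by
  rw [Equiv.symm_apply_eq, Bl_apply, Equiv.apply_symm_apply]

theorem mem_Ic {n k : ℕ} (w : Equiv.Perm (Fin n)) (p x : Fin n × Fin k) :
    x ∈ bl k (Ic w p.1) ↔ finProdFinEquiv x ∈ Ic (Bl k w) (finProdFinEquiv p) := by
  obtain ⟨j, t⟩ := p
  obtain ⟨a, s⟩ := x
  simp only [bl, Ic, Finset.mem_product, Finset.mem_filter, Finset.mem_univ, true_and, and_true]
  rw [Bl_symm_apply, Bl_apply, lt_iff, lt_iff]
  constructor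
  · rintro ⟨h1, h2⟩
    exact ⟨Or.inl h1, Or.inl h2⟩
  · rintro ⟨h1, h2⟩
    have hne : a ≠ w.symm j := by
      rintro rfl
      rw [Equiv.apply_symm_apply] at h2
      rcases h1 with h | ⟨_, h⟩
      · exact lt_irrefl _ h
      · rcases h2 with h2 | ⟨_, h2⟩
        · exact lt_irrefl _ h2
        · exact lt_asymm h h2
    have hne2 : j ≠ w a := by
      intro h
      apply hne
      rw [h, Equiv.symm_apply_apply]
    constructor
    · rcases h1 with h | ⟨h, _⟩
      · exact h
      · exact absurd h hne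
    · rcases h2 with h | ⟨h, _⟩
      · exact h
      · exact absurd h hne2

theorem mem_UT {n k : ℕ} (X : Matrix (Fin n × Fin k) (Fin n × Fin k) ℚ) (hX : X ∈ XK n k) :
    X.submatrix (finProdFinEquiv : Fin n × Fin k ≃ Fin (n * k)).symm
      (finProdFinEquiv : Fin n × Fin k ≃ Fin (n * k)).symm ∈ UT (n * k) := by
  constructor
  · intro a b hab
    obtain ⟨⟨i, s⟩, rfl⟩ := finProdFinEquiv.surjective a
    obtain ⟨⟨j, t⟩, rfl⟩ := finProdFinEquiv.surjective b
    rw [lt_iff] at hab
    rw [Matrix.submatrix_apply, Equiv.symm_apply_apply, Equiv.symm_apply_apply]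
    have h1 : ¬ (i, s).1 < (j, t).1 := by
      rcases hab with h | ⟨h, _⟩
      · exact not_lt.mpr h.le
      · exact not_lt.mpr h.le
    have h2 : ((i, s) : Fin n × Fin k) ≠ (j, t) := by
      intro h
      rw [Prod.mk.injEq] at h
      obtain ⟨rfl, rfl⟩ := h
      rcases hab with h | ⟨_, h⟩
      · exact lt_irrefl _ h
      · exact lt_irrefl _ h
    rw [hX _ _ h1, if_neg h2]
  · intro a
    rw [Matrix.submatrix_apply, hX _ _ (lt_irrefl _), if_pos rfl]

end XTsp

theorem I_Tsp : StTsp := by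
  intro n k w
  exact XTsp.dV_le (finProdFinEquiv : Fin n × Fin k ≃ Fin (n * k))
    (finProdFinEquiv : Fin n × Fin k ≃ Fin (n * k)) (XK n k) (UT (n * k)) _ _
    (fun j x => XTsp.mem_Ic w j x) (fun X hX => XTsp.mem_UT X hX)

end Pool.Agent.Work.MP_ca14f8_co.QE

end

section

/-!
Item Vle of block QE of MP_ca14f8_co: the dimension of the span of the products of minors is at
most `Ups w`.
-/

set_option autoImplicit false
open Classical

namespace Pool.Agent.Work.MP_ca14f8_co.QE

theorem I_Vle (h1 : StA3) (h2 : StRep) (h3 : StUnip) (h4 : StUCon) (h5 : StRK) : StVle := by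
  intro n w
  set e : Fin n → Fin n → Module.End ℚ (((Σ j, Ic w j) → Fin n) → ℚ) :=
    fun a b => eop (Matrix.single a b (1 : ℚ)) with he
  have hrep : IsRep e := h2 (Σ j, Ic w j) n
  have hcon := h4 n w
  obtain ⟨T, hT, hst, hu⟩ := h1 n (((Σ j, Ic w j) → Fin n) → ℚ) e w ⊥ (UU (Ic w) 1) hrep
    (by
      intro a b _ x hx
      rw [Submodule.mem_bot] at hx ⊢
      rw [hx, map_zero])
    (by
      intro b t σ hσ
      rw [Submodule.mem_bot]
      exact hcon b t σ hσ)
  rw [bot_sup_eq] at hst hu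
  have hX := h3 n (Ic w) (Submodule.span ℚ (T : Set (((Σ j, Ic w j) → Fin n) → ℚ))) hst hu
  set F : ((Σ j, Ic w j) → Fin n) → UT n → ℚ := fun ρ X => UU (Ic w) X.1 ρ with hF
  have hrk := h5 ((Σ j, Ic w j) → Fin n) (UT n) F
  have hle1 : Module.finrank ℚ (Submodule.span ℚ (Set.range (fun (z : UT n)
      (p : (Σ j, Ic w j) → Fin n) => F p z))) ≤ T.card := by
    have hsub : Submodule.span ℚ (Set.range (fun (z : UT n)
        (p : (Σ j, Ic w j) → Fin n) => F p z)) ≤
        Submodule.span ℚ (T : Set (((Σ j, Ic w j) → Fin n) → ℚ)) := by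
      rw [Submodule.span_le]
      rintro _ ⟨z, rfl⟩
      exact hX z.1 z.2
    exact (Submodule.finrank_mono hsub).trans (finrank_span_finset_le_card T)
  have hle2 : VS (UT n) (Ic w) ≤ Submodule.span ℚ (Set.range F) := by
    unfold VS
    rw [Submodule.span_le]
    rintro _ ⟨ρ, rfl⟩
    refine Submodule.subset_span ⟨fun x => ρ x.1 x.2, ?_⟩
    funext X
    rfl
  have hfin : Module.Finite ℚ (Submodule.span ℚ (Set.range F)) :=
    Module.Finite.span_of_finite ℚ (Set.finite_range F)
  have hle3 : dV (UT n) (Ic w) ≤ T.card := by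
    unfold dV
    calc Module.finrank ℚ (VS (UT n) (Ic w)) ≤
        Module.finrank ℚ (Submodule.span ℚ (Set.range F)) := Submodule.finrank_mono hle2
      _ = _ := hrk
      _ ≤ T.card := hle1
  exact (Nat.cast_le.mpr hle3).trans hT

end Pool.Agent.Work.MP_ca14f8_co.QE

end
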