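import Pool.Agent.Work.MP_ca14f8_co.QE.Stmts

/-! Bundle of small proof modules (one section per former module). -/

section

/-!
Block QE, item A2: the filtration argument.
-/

set_option autoImplicit false
open Classical

namespace Pool.Agent.Work.MP_ca14f8_co.QE

namespace XA2

/-- rank-nullity for a submodule. -/
theorem rank_null {W : Type} [AddCommGroup W] [Module ℚ W] (K : Submodule ℚ W)
    [FiniteDimensional ℚ K] (T : W →ₗ[ℚ] W) :
    Module.finrank ℚ (K ⊓ LinearMap.ker T : Submodule ℚ W) + Module.finrank ℚ (K.map T) =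
      Module.finrank ℚ K := by
  have h1 := LinearMap.finrank_range_add_finrank_ker (T.domRestrict K)
  have h2 : LinearMap.range (T.domRestrict K) = K.map T := by
    ext x
    simp only [LinearMap.mem_range, Submodule.mem_map, LinearMap.domRestrict_apply]
    constructor
    · rintro ⟨y, hy⟩
      exact ⟨y.1, y.2, hy⟩
    · rintro ⟨y, hy, hx⟩
      exact ⟨⟨y, hy⟩, hx⟩
  have h3 : Module.finrank ℚ (LinearMap.ker (T.domRestrict K)) =
      Module.finrank ℚ (K ⊓ LinearMap.ker T : Submodule ℚ W) := by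
    have e : LinearMap.ker (T.domRestrict K) = (LinearMap.ker T).comap K.subtype := by
      ext x
      simp
    rw [e, ← Submodule.finrank_map_subtype_eq K ((LinearMap.ker T).comap K.subtype),
      Submodule.map_comap_subtype]
  rw [h2, h3] at h1
  omega

/-- the common kernel. -/
def KK {W : Type} [AddCommGroup W] [Module ℚ W] {n : ℕ} (V : Submodule ℚ W)
    (T : Fin n → W →ₗ[ℚ] W) (S : Finset (Fin n)) : Submodule ℚ W :=
  V ⊓ ⨅ i ∈ S, LinearMap.ker (T i)

theorem mem_KK {W : Type} [AddCommGroup W] [Module ℚ W] {n : ℕ} (V : Submodule ℚ W)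
    (T : Fin n → W →ₗ[ℚ] W) (S : Finset (Fin n)) (f : W) :
    f ∈ KK V T S ↔ f ∈ V ∧ ∀ i ∈ S, T i f = 0 := by
  simp [KK, Submodule.mem_iInf]

theorem filtration {W : Type} [AddCommGroup W] [Module ℚ W] {n : ℕ} (V : Submodule ℚ W)
    [FiniteDimensional ℚ V] (T : Fin n → W →ₗ[ℚ] W) (V' : Fin n → Submodule ℚ W)
    (S : Finset (Fin n)) :
    (∀ i ∈ S, ∀ g ∈ V' i, ∃ f ∈ V, T i f = g ∧ ∀ i' ∈ S, i' < i → T i' f = 0) →
    Module.finrank ℚ (KK V T S) + ∑ i ∈ S, Module.finrank ℚ (V' i) ≤ Module.finrank ℚ V := by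
  induction S using Finset.induction_on_max with
  | empty =>
    intro _
    have : KK V T ∅ = V := by
      ext f
      rw [mem_KK]
      simp
    rw [this]
    simp
  | insert a S ha ih =>
    intro h
    have haS : a ∉ S := fun h' => lt_irrefl _ (ha a h')
    have ih' := ih (fun i hi g hg => by
      obtain ⟨f, hf, h1, h2⟩ := h i (Finset.mem_insert_of_mem hi) g hg
      exact ⟨f, hf, h1, fun i' hi' => h2 i' (Finset.mem_insert_of_mem hi')⟩)
    have hle : KK V T S ≤ V := fun f hf => ((mem_KK V T S f).1 hf).1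
    have : FiniteDimensional ℚ (KK V T S) := Submodule.finiteDimensional_of_le hle
    have hrn := rank_null (KK V T S) (T a)
    have e : KK V T S ⊓ LinearMap.ker (T a) = KK V T (insert a S) := by
      ext f
      rw [Submodule.mem_inf, mem_KK, mem_KK, LinearMap.mem_ker, Finset.forall_mem_insert]
      tauto
    rw [e] at hrn
    have hV' : Module.finrank ℚ (V' a) ≤ Module.finrank ℚ ((KK V T S).map (T a)) := by
      apply Submodule.finrank_mono
      intro g hg
      obtain ⟨f, hf, h1, h2⟩ := h a (Finset.mem_insert_self _ _) g hg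
      exact Submodule.mem_map.2 ⟨f, (mem_KK V T S f).2 ⟨hf, fun i hi =>
        h2 i (Finset.mem_insert_of_mem hi) (ha i hi)⟩, h1⟩
    rw [Finset.sum_insert haS]
    omega

theorem ext_add {n : ℕ} (f g : UT n → ℚ) (X : Matrix (Fin n) (Fin n) ℚ) :
    ext (f + g) X = ext f X + ext g X := by
  unfold ext
  split_ifs <;> simp

theorem ext_smul {n : ℕ} (c : ℚ) (f : UT n → ℚ) (X : Matrix (Fin n) (Fin n) ℚ) :
    ext (c • f) X = c * ext f X := by
  unfold ext
  split_ifs <;> simp

/-- `tau` as a linear map. -/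
noncomputable def tauL {n : ℕ} (i r : Fin n) (β : ℕ) : (UT n → ℚ) →ₗ[ℚ] (UT n → ℚ) where
  toFun := tau i r β
  map_add' f g := by
    ext X
    simp only [tau, Pi.add_apply, ext_add, mul_add, Finset.sum_add_distrib]
  map_smul' c f := by
    ext X
    simp only [tau, Pi.smul_apply, ext_smul, RingHom.id_apply, smul_eq_mul, Finset.mul_sum]
    refine Finset.sum_congr rfl (fun t _ => ?_)
    ring

theorem tauL_apply {n : ℕ} (i r : Fin n) (β : ℕ) (f : UT n → ℚ) :
    tauL i r β f = tau i r β f := rfl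

instance finVS {n : ℕ} (I : Fin n → Finset (Fin n)) : FiniteDimensional ℚ (VS (UT n) I) := by
  unfold VS
  exact FiniteDimensional.span_of_finite ℚ (Set.finite_range _)

end XA2

open XA2 in
theorem I_A2 (hC : StComb) (hT : StTau) (h2 : StA2a) (hL : StLift) : StA2 := by
  intro n w v r s htr
  obtain ⟨-, -, -, -, hc⟩ := hC n w v r s htr
  set T : Fin n → (UT n → ℚ) →ₗ[ℚ] (UT n → ℚ) := fun i => tauL i r (mm w r (w i).val) with hTdef
  have hir : ∀ i ∈ Trs w r s, i < r := by
    intro i hi
    simp only [Trs, Finset.mem_filter] at hi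
    exact hi.2.1
  have key := filtration (VS (UT n) (Ic w)) T (fun i => VS (UT n) (Ic (v * Equiv.swap i r)))
    (Trs w r s) (by
      intro i hi g hg
      -- the set of liftable functions is a submodule
      let Q : Submodule ℚ (UT n → ℚ) :=
        (VS (UT n) (Ic w) ⊓ ⨅ i' ∈ (Trs w r s).filter (· < i), LinearMap.ker (T i')).map (T i)
      have hQ : VS (UT n) (Ic (v * Equiv.swap i r)) ≤ Q := by
        unfold VS
        rw [Submodule.span_le]
        rintro _ ⟨ρ, rfl⟩
        obtain ⟨f, hf, h3, h4⟩ := hL n w v r s i htr hi ρ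
        refine Submodule.mem_map.2 ⟨f, ?_, h3⟩
        rw [Submodule.mem_inf]
        refine ⟨hf, ?_⟩
        simp only [Submodule.mem_iInf, Finset.mem_filter, LinearMap.mem_ker]
        rintro i' ⟨hi', hlt⟩
        exact h4 i' hi' hlt
      obtain ⟨f, hf, h3⟩ := Submodule.mem_map.1 (hQ hg)
      rw [Submodule.mem_inf] at hf
      refine ⟨f, hf.1, h3, ?_⟩
      intro i' hi' hlt
      have h5 := hf.2
      simp only [Submodule.mem_iInf, Finset.mem_filter, LinearMap.mem_ker] at h5
      exact h5 i' ⟨hi', hlt⟩)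
  have h0 : VS (UT n) (Ic v) ≤ KK (VS (UT n) (Ic w)) T (Trs w r s) := by
    intro f hf
    rw [mem_KK]
    refine ⟨h2 n w v r s htr hf, fun i hi => ?_⟩
    have hker : VS (UT n) (Ic v) ≤ LinearMap.ker (T i) := by
      unfold VS
      rw [Submodule.span_le]
      rintro _ ⟨ρ, rfl⟩
      rw [SetLike.mem_coe, LinearMap.mem_ker]
      have h3 := (hc i hi).2.2.2.2.2.2.2.1
      exact (hT n (Ic v) ρ i r (mm w r (w i).val) (hir i hi)).1 (by omega)
    exact hker hf
  have hle : KK (VS (UT n) (Ic w)) T (Trs w r s) ≤ VS (UT n) (Ic w) :=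
    fun f hf => ((mem_KK _ _ _ f).1 hf).1
  have : FiniteDimensional ℚ (KK (VS (UT n) (Ic w)) T (Trs w r s)) :=
    Submodule.finiteDimensional_of_le hle
  have h1 : Module.finrank ℚ (VS (UT n) (Ic v)) ≤
      Module.finrank ℚ (KK (VS (UT n) (Ic w)) T (Trs w r s)) := Submodule.finrank_mono h0
  unfold dV
  omega

end Pool.Agent.Work.MP_ca14f8_co.QE

end

section

/-!
Item C1 of the block QE of MP_ca14f8_co.
-/

set_option autoImplicit false
open Classical

namespace Pool.Agent.Work.MP_ca14f8_co.QE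

namespace XC1

theorem sum0 (a : ℕ) : 2 * ∑ i ∈ Finset.range (a + 1), |(i : ℤ) - a| = a * (a + 1) := by
  induction a with
  | zero => simp
  | succ a ih =>
    rw [Finset.sum_range_succ']
    have h : ∑ i ∈ Finset.range (a + 1), |((i + 1 : ℕ) : ℤ) - ((a + 1 : ℕ) : ℤ)| =
        ∑ i ∈ Finset.range (a + 1), |(i : ℤ) - a| := by
      apply Finset.sum_congr rfl
      intro i _
      congr 1
      push_cast
      ring
    rw [h, mul_add, ih]
    have h2 : |((0 : ℕ) : ℤ) - ((a + 1 : ℕ) : ℤ)| = (a : ℤ) + 1 := by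
      rw [abs_sub_comm, abs_of_nonneg] <;> push_cast <;> linarith [Int.natCast_nonneg a]
    rw [h2]
    push_cast
    ring

theorem sum1 (a d : ℕ) : 2 * ∑ i ∈ Finset.range (a + 1 + d), |(i : ℤ) - a| =
    a * (a + 1) + d * (d + 1) := by
  induction d with
  | zero => simpa using sum0 a
  | succ d ih =>
    rw [← add_assoc, Finset.sum_range_succ, mul_add, ih]
    have h2 : |((a + 1 + d : ℕ) : ℤ) - (a : ℤ)| = (d : ℤ) + 1 := by
      rw [abs_of_nonneg] <;> push_cast <;> linarith [Int.natCast_nonneg d]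
    rw [h2]
    push_cast
    ring

theorem card_ge (k : ℕ) (c : ℤ) :
    (k : ℤ) - |c| ≤ (((Finset.univ.filter
      (fun β : Fin k => 0 ≤ (β.val : ℤ) - c ∧ (β.val : ℤ) - c < k)).card : ℕ) : ℤ) := by
  by_cases hk : |c| < k
  · rw [abs_lt] at hk
    -- inject `Fin (k - |c|)`
    have hinj : (Finset.univ : Finset (Fin (k - c.natAbs))).card ≤
        (Finset.univ.filter
          (fun β : Fin k => 0 ≤ (β.val : ℤ) - c ∧ (β.val : ℤ) - c < k)).card := by
      refine Finset.card_le_card_of_injOn
        (fun i => (⟨i.val + c.toNat, by have := i.isLt; omega⟩ : Fin k)) ?_ ?_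
      · intro i _
        have := i.isLt
        simp only [Finset.coe_filter, Finset.mem_univ, true_and, Set.mem_ofPred_eq]
        constructor
        · push_cast
          omega
        · push_cast
          omega
      · intro i _ j _ hij
        have h := congrArg Fin.val hij
        simp only at h
        exact Fin.ext (by omega)
    rw [Finset.card_univ, Fintype.card_fin] at hinj
    have h3 : (k : ℤ) - |c| ≤ ((k - c.natAbs : ℕ) : ℤ) := by
      rw [Int.abs_eq_natAbs]
      omega
    exact h3.trans (by exact_mod_cast hinj)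
  · have : (0 : ℤ) ≤ (((Finset.univ.filter
      (fun β : Fin k => 0 ≤ (β.val : ℤ) - c ∧ (β.val : ℤ) - c < k)).card : ℕ) : ℤ) := by
      positivity
    linarith [not_lt.1 hk]

theorem card_Gam_ge (k : ℕ) :
    3 * k ^ 2 ≤ 4 * (Gam k (fun γ : Fin k => ((γ.val : ℤ) - (((k - 1) / 2 : ℕ) : ℤ)))).card := by
  rcases Nat.eq_zero_or_pos k with h0 | hk
  · subst h0
    simp
  have h1 : (Gam k (fun γ : Fin k => ((γ.val : ℤ) - (((k - 1) / 2 : ℕ) : ℤ)))).card =
      ∑ γ : Fin k, (Finset.univ.filter (fun β : Fin k =>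
        0 ≤ (β.val : ℤ) - ((γ.val : ℤ) - (((k - 1) / 2 : ℕ) : ℤ)) ∧
        (β.val : ℤ) - ((γ.val : ℤ) - (((k - 1) / 2 : ℕ) : ℤ)) < k)).card := by
    unfold Gam
    rw [Finset.card_filter, Fintype.sum_prod_type]
    apply Finset.sum_congr rfl
    intro γ _
    rw [Finset.card_filter]
  have h2 : ∑ γ : Fin k, ((k : ℤ) - |(γ.val : ℤ) - (((k - 1) / 2 : ℕ) : ℤ)|) ≤
      (((Gam k (fun γ : Fin k => ((γ.val : ℤ) - (((k - 1) / 2 : ℕ) : ℤ)))).card : ℕ) : ℤ) := by
    rw [h1]
    push_cast
    exact Finset.sum_le_sum (fun γ _ => card_ge k _)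
  rw [Finset.sum_sub_distrib, Fin.sum_univ_eq_sum_range
    (fun i => |(i : ℤ) - (((k - 1) / 2 : ℕ) : ℤ)|) k] at h2
  simp only [Finset.sum_const, Finset.card_univ, Fintype.card_fin, nsmul_eq_mul] at h2
  have hs := sum1 ((k - 1) / 2) (k / 2)
  have hk2 : (k - 1) / 2 + 1 + k / 2 = k := by omega
  rw [hk2] at hs
  have hq : 2 * ((((k - 1) / 2 : ℕ) : ℤ) * ((((k - 1) / 2 : ℕ) : ℤ) + 1) +
      ((k / 2 : ℕ) : ℤ) * (((k / 2 : ℕ) : ℤ) + 1)) ≤ (k : ℤ) ^ 2 := by
    rcases Nat.even_or_odd' k with ⟨b, hb | hb⟩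
    · have e1 : (k - 1) / 2 = b - 1 := by omega
      have e2 : k / 2 = b := by omega
      have hb1 : 1 ≤ b := by omega
      rw [e1, e2, hb]
      push_cast [Nat.cast_sub hb1]
      nlinarith
    · have e1 : (k - 1) / 2 = b := by omega
      have e2 : k / 2 = b := by omega
      rw [e1, e2, hb]
      push_cast
      nlinarith
  have : (3 * (k : ℤ) ^ 2) ≤
      4 * (((Gam k (fun γ : Fin k => ((γ.val : ℤ) - (((k - 1) / 2 : ℕ) : ℤ)))).card : ℕ) : ℤ) := by
    nlinarith
  exact_mod_cast this

theorem main (n k : ℕ) (κ : Type) [Fintype κ] (I : κ → Finset (Fin n)) (σ : Fin k → ℤ)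
    (R : (Gam k σ → Fin (dL (NU n) I)) → Fin k → κ → (Fin n × Fin k) → (Fin n × Fin k))
    (hR : LinearIndependent ℚ (fun s => fun Y : YK n k σ =>
      ∏ γ, ∏ j, mn (bl k (I j)) (R s γ j) (1 + Y.1))) :
    (dL (NU n) I) ^ (Gam k σ).card ≤ dV (XK n k) (fun p : κ × Fin k => bl k (I p.1)) := by
  -- the functions on `XK`
  let F : (Gam k σ → Fin (dL (NU n) I)) → (XK n k → ℚ) := fun s X =>
    FF (fun p : κ × Fin k => bl k (I p.1)) (fun p => R s p.2 p.1) X.1
  have hmem : ∀ s, F s ∈ VS (XK n k) (fun p : κ × Fin k => bl k (I p.1)) := by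
    intro s
    exact Submodule.subset_span ⟨fun p => R s p.2 p.1, rfl⟩
  have hφ : ∀ Y : YK n k σ, (1 + Y.1) ∈ XK n k := by
    intro Y p q hpq
    have h0 : Y.1 p q = 0 := by
      by_contra hne
      exact hpq (Y.2 p q hne).1
    rw [Matrix.add_apply, h0, add_zero, Matrix.one_apply]
  have hlin : LinearIndependent ℚ F := by
    apply LinearIndependent.of_comp (LinearMap.funLeft ℚ ℚ (fun Y : YK n k σ =>
      (⟨1 + Y.1, hφ Y⟩ : XK n k)))
    convert hR using 1
    funext s Y
    show FF (fun p : κ × Fin k => bl k (I p.1)) (fun p => R s p.2 p.1) (1 + Y.1) = _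
    unfold FF
    rw [Fintype.prod_prod_type, Finset.prod_comm]
  have : FiniteDimensional ℚ (VS (XK n k) (fun p : κ × Fin k => bl k (I p.1))) := by
    unfold VS
    exact FiniteDimensional.span_of_finite ℚ (Set.finite_range _)
  have hlin2 : LinearIndependent ℚ (fun s => (⟨F s, hmem s⟩ :
      VS (XK n k) (fun p : κ × Fin k => bl k (I p.1)))) := by
    apply LinearIndependent.of_comp (VS (XK n k) (fun p : κ × Fin k => bl k (I p.1))).subtype
    exact hlin
  have hc := hlin2.fintype_card_le_finrank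
  rw [Fintype.card_fun, Fintype.card_fin, Fintype.card_coe] at hc
  exact hc

end XC1

theorem I_C1 (h : StC0) : StC1 := by
  intro n k κ _ I
  obtain ⟨R, hR⟩ := h n k κ I (Fin k) (fun γ : Fin k => ((γ.val : ℤ) - (((k - 1) / 2 : ℕ) : ℤ)))
    (by
      intro a b hab
      have h : (a.val : ℤ) - (((k - 1) / 2 : ℕ) : ℤ) = (b.val : ℤ) - (((k - 1) / 2 : ℕ) : ℤ) := hab
      exact Fin.ext (by omega))
    (by
      intro γ
      have := γ.isLt
      show |(γ.val : ℤ) - (((k - 1) / 2 : ℕ) : ℤ)| ≤ k
      rw [abs_le]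
      constructor <;> omega)
  exact ⟨_, XC1.card_Gam_ge k, XC1.main n k κ I _ R hR⟩

end Pool.Agent.Work.MP_ca14f8_co.QE

end

section

/-!
The constraints `(b, t)` of `w_i` for `e_ir^β u`, cases `r < b`, `b = r`, `b < i`.
-/

set_option autoImplicit false
open Classical

namespace Pool.Agent.Work.MP_ca14f8_co.QE

namespace XCcA

variable {n : ℕ} {M : Type} [AddCommGroup M] [Module ℚ M]

lemma comm_e (e : Fin n → Fin n → Module.End ℚ M) (he : IsRep e) {a b i r : Fin n}
    (hab : a < b) (hir : i < r) (hbi : b ≠ i) (har : a ≠ r) : Commute (e a b) (e i r) := by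
  have h := he a b i r hab hir
  rw [if_neg hbi, if_neg har, sub_zero] at h
  exact sub_eq_zero.1 h

lemma app_zero (L E : Module.End ℚ M) (hLE : Commute L E) (β : ℕ) (u : M)
    (h : L u = 0) : L ((E ^ β) u) = 0 := by
  have h1 : L * E ^ β = E ^ β * L := hLE.pow_right β
  have h2 : (L * E ^ β) u = (E ^ β * L) u := by rw [h1]
  rw [Module.End.mul_apply, Module.End.mul_apply, h, map_zero] at h2
  exact h2

lemma wi_i {w v : Equiv.Perm (Fin n)} {r s i : Fin n} (h : TrD w v r s) (hir : i < r) :
    (v * Equiv.swap i r) i = w s := by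
  rw [Equiv.Perm.mul_apply, Equiv.swap_apply_left, h.hv, Equiv.Perm.mul_apply,
    Equiv.swap_apply_left]

lemma wi_a {w v : Equiv.Perm (Fin n)} {r s i a : Fin n} (h : TrD w v r s) (hai : a ≠ i)
    (har : a < r) : (v * Equiv.swap i r) a = w a := by
  rw [Equiv.Perm.mul_apply, Equiv.swap_apply_of_ne_of_ne hai (ne_of_lt har), h.hv,
    Equiv.Perm.mul_apply, Equiv.swap_apply_of_ne_of_ne (ne_of_lt har)
      (ne_of_lt (har.trans h.hrs))]

lemma lin_single (e : Fin n → Fin n → Module.End ℚ M) (b a : Fin n) :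
    Lin e b (Pi.single a 1) = e a b := by
  unfold Lin
  rw [Finset.sum_eq_single a]
  · rw [Pi.single_eq_same, one_smul]
  · intro c _ hc
    rw [Pi.single_eq_of_ne hc, zero_smul]
  · intro h; exact absurd (Finset.mem_univ a) h

lemma lin_add (e : Fin n → Fin n → Module.End ℚ M) (b a : Fin n) (σ : Fin n → ℚ) (x : ℚ) :
    Lin e b (σ + x • Pi.single a 1) = Lin e b σ + x • e a b := by
  rw [← lin_single e b a]
  unfold Lin
  rw [Finset.smul_sum, ← Finset.sum_add_distrib]
  refine Finset.sum_congr rfl fun c _ => ?_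
  rw [Pi.add_apply, Pi.smul_apply, add_smul, smul_eq_mul, mul_smul]

lemma sup_add {w : Equiv.Perm (Fin n)} {b i : Fin n} {t : ℕ} {σ : Fin n → ℚ} (x : ℚ)
    (hσ : Sup w b t σ) (hib : i < b) (ht : t ≤ (w i).val) :
    Sup w b t (σ + x • Pi.single i 1) := by
  intro a ha
  by_cases hai : a = i
  · rw [hai]; exact ⟨hib, ht⟩
  · apply hσ
    intro h0
    apply ha
    rw [Pi.add_apply, Pi.smul_apply, h0, Pi.single_eq_of_ne hai, smul_zero, add_zero]

/-- `e a b u = 0` for `r < b`. -/
lemma e_u {e : Fin n → Fin n → Module.End ℚ M} {w v : Equiv.Perm (Fin n)} {r s : Fin n} {u : M}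
    (hT : TrD w v r s) (hC : Con w e u) {a b : Fin n} (hrb : r < b) (hab : a < b) :
    e a b u = 0 := by
  have h1 : mm w b 0 = 0 := by
    unfold mm
    rw [Finset.card_eq_zero, Finset.filter_eq_empty_iff]
    rintro k - ⟨h2, -, h3⟩
    exact absurd h3 (not_lt.2 (le_of_lt (hT.inc b k hrb h2)))
  have h2 := hC b 0 (Pi.single a 1) (by
    intro c hc
    by_cases hca : c = a
    · rw [hca]; exact ⟨hab, Nat.zero_le _⟩
    · exact absurd (Pi.single_eq_of_ne hca _) hc)
  rw [h1, lin_single, zero_add, pow_one] at h2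
  exact h2

lemma e_r_b {e : Fin n → Fin n → Module.End ℚ M} (he : IsRep e) {i r b : Fin n} {u : M}
    (hir : i < r) (hrb : r < b) (h1 : e r b u = 0) (h2 : e i b u = 0) (k : ℕ) :
    e r b ((e i r ^ k) u) = 0 := by
  induction k with
  | zero => simpa using h1
  | succ k ih =>
    rw [pow_succ', Module.End.mul_apply]
    have h3 := he r b i r hrb hir
    rw [if_neg (ne_of_gt (hir.trans hrb)), if_pos rfl, zero_sub] at h3
    have h4 := congrArg (fun f : Module.End ℚ M => f ((e i r ^ k) u)) h3
    simp only [LinearMap.sub_apply, Module.End.mul_apply, LinearMap.neg_apply] at h4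
    have h5 : e i b ((e i r ^ k) u) = 0 :=
      app_zero _ _ (comm_e e he (hir.trans hrb) hir (ne_of_gt (hir.trans hrb)) (ne_of_lt hir)) _ _ h2
    rw [ih, map_zero, sub_zero, h5, neg_zero] at h4
    exact h4

lemma comm_lin (e : Fin n → Fin n → Module.End ℚ M) (he : IsRep e) {b i r : Fin n}
    (hir : i < r) (hbi : b ≠ i) (hbr : b ≤ r) (σ : Fin n → ℚ) (hσ : ∀ a, σ a ≠ 0 → a < b) :
    Commute (Lin e b σ) (e i r) := by
  unfold Lin
  refine Commute.sum_left _ _ _ (fun a _ => ?_)
  by_cases h : σ a = 0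
  · rw [h, zero_smul]
    exact Commute.zero_left _
  · have hab : a < b := hσ a h
    exact (comm_e e he hab hir hbi (ne_of_lt (lt_of_lt_of_le hab hbr))).smul_left _

end XCcA

open XCcA in
theorem I_CcA (hM : StMM2) (hG : StGEN) : StCcA := by
  intro n M _ _ e w v r s i u hH b t hb σ hσ
  obtain ⟨he, hT, hC, hi, -⟩ := hH
  obtain ⟨hM1, hM2, hM3, hM4, -⟩ := hM n w v r s hT i hi
  have hi' := (Finset.mem_filter.1 hi).2
  obtain ⟨hir, hws, -⟩ := hi'
  have hlt : ∀ a, σ a ≠ 0 → a < b := fun a ha => (hσ a ha).1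
  rcases hb with hrb | rfl | hbi
  · -- `r < b`
    rw [hM1 b t hrb, zero_add, pow_one]
    unfold Lin
    rw [LinearMap.sum_apply]
    refine Finset.sum_eq_zero fun a _ => ?_
    rw [LinearMap.smul_apply]
    by_cases h : σ a = 0
    · rw [h, zero_smul]
    have hab := hlt a h
    by_cases har : a = r
    · rw [har, e_r_b he hir hrb (e_u hT hC hrb hrb) (e_u hT hC hrb (hir.trans hrb)), smul_zero]
    · rw [app_zero _ _ (comm_e e he hab hir (ne_of_gt (hir.trans hrb)) har) _ _
        (e_u hT hC hrb hab), smul_zero]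
  · -- `b = r`
    have hcomm : Commute (Lin e b σ) (e i b) := comm_lin e he hir (ne_of_gt hir) le_rfl σ hlt
    have key : ∀ t' : ℕ, t' ≤ (w i).val → (∀ a, σ a ≠ 0 → a ≠ i → t' ≤ (w a).val) →
        ∀ k, k + mm w b (w i).val = mm w b t' + 1 →
        ((Lin e b σ) ^ k) (((e i b) ^ (mm w b (w i).val)) u) = 0 := by
      intro t' ht' h k hk
      have hS : Sup w b t' σ := by
        intro a ha
        refine ⟨hlt a ha, ?_⟩
        by_cases hai : a = i
        · rw [hai]; exact ht'
        · exact h a ha hai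
      have h1 := hG M (Lin e b σ) (e i b) (mm w b t' + 1) u hcomm (fun x _ => by
        rw [← lin_add e b i σ x]
        exact hC b t' _ (sup_add x hS hir ht')) k _ hk
      rw [Module.End.mul_apply] at h1
      exact h1
    rcases le_or_gt t (w i).val with ht | ht
    · refine key t ht (fun a ha hai => ?_) _ ?_
      · have h1 := (hσ a ha).2
        rwa [wi_a hT hai (hlt a ha)] at h1
      · have := hM2 t ht
        omega
    · rw [hM3 t ht]
      refine key (w i).val le_rfl (fun a ha hai => ?_) _ (by omega)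
      have h1 := (hσ a ha).2
      rw [wi_a hT hai (hlt a ha)] at h1
      omega
  · -- `b < i`
    rw [hM4 b t hbi]
    have hbr : b < r := hbi.trans hir
    refine app_zero _ _ ((comm_lin e he hir (ne_of_lt hbi) hbr.le σ hlt).pow_left _) _ _ ?_
    refine hC b t σ (fun a ha => ⟨hlt a ha, ?_⟩)
    have h1 := (hσ a ha).2
    rwa [wi_a hT (ne_of_lt ((hlt a ha).trans hbi)) ((hlt a ha).trans hbr)] at h1

end Pool.Agent.Work.MP_ca14f8_co.QE

end

section

/-!
The constraints `(b, t)`, `i < b < r`, of `w_i` for `e_ir^β u`, easy cases.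
-/

set_option autoImplicit false
open Classical

namespace Pool.Agent.Work.MP_ca14f8_co.QE

namespace XCcC

variable {n : ℕ} {M : Type} [AddCommGroup M] [Module ℚ M]

lemma comm_e (e : Fin n → Fin n → Module.End ℚ M) (he : IsRep e) {a b i r : Fin n}
    (hab : a < b) (hir : i < r) (hbi : b ≠ i) (har : a ≠ r) : Commute (e a b) (e i r) := by
  have h := he a b i r hab hir
  rw [if_neg hbi, if_neg har, sub_zero] at h
  exact sub_eq_zero.1 h

lemma comm_lin (e : Fin n → Fin n → Module.End ℚ M) (he : IsRep e) {b i r : Fin n}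
    (hir : i < r) (hib : i < b) (hbr : b < r) (σ : Fin n → ℚ) (hσ : ∀ a, σ a ≠ 0 → a < b) :
    Commute (Lin e b σ) (e i r) := by
  unfold Lin
  refine Commute.sum_left _ _ _ (fun a _ => ?_)
  by_cases h : σ a = 0
  · rw [h, zero_smul]
    exact Commute.zero_left _
  · have hab : a < b := hσ a h
    exact (comm_e e he hab hir (ne_of_gt hib) (ne_of_lt (hab.trans hbr))).smul_left _

lemma app_zero (L E : Module.End ℚ M) (hLE : Commute L E) (m β : ℕ) (u : M)
    (h : (L ^ m) u = 0) : (L ^ m) ((E ^ β) u) = 0 := by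
  have h1 : L ^ m * E ^ β = E ^ β * L ^ m := hLE.pow_pow m β
  have h2 : (L ^ m * E ^ β) u = (E ^ β * L ^ m) u := by rw [h1]
  rw [Module.End.mul_apply, Module.End.mul_apply, h, map_zero] at h2
  exact h2

lemma wi_i {w v : Equiv.Perm (Fin n)} {r s i : Fin n} (h : TrD w v r s) (hir : i < r) :
    (v * Equiv.swap i r) i = w s := by
  rw [Equiv.Perm.mul_apply, Equiv.swap_apply_left, h.hv, Equiv.Perm.mul_apply,
    Equiv.swap_apply_left]

lemma wi_a {w v : Equiv.Perm (Fin n)} {r s i a : Fin n} (h : TrD w v r s) (hai : a ≠ i)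
    (har : a < r) : (v * Equiv.swap i r) a = w a := by
  rw [Equiv.Perm.mul_apply, Equiv.swap_apply_of_ne_of_ne hai (ne_of_lt har), h.hv,
    Equiv.Perm.mul_apply, Equiv.swap_apply_of_ne_of_ne (ne_of_lt har)
      (ne_of_lt (har.trans h.hrs))]

end XCcC

theorem I_CcC (hM : StMM3) : StCcC := by
  intro n M _ _ e w v r s i u hH b t hib hbr hcase σ hσ
  obtain ⟨he, htr, hcon, hi, -⟩ := hH
  have hi' := (Finset.mem_filter.1 hi).2
  obtain ⟨hir, hws, -⟩ := hi'
  obtain ⟨-, hA, hB, -⟩ := hM n w v r s htr i hi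
  have hsup : ∀ a, σ a ≠ 0 → a < b := fun a ha => (hσ a ha).1
  apply XCcC.app_zero _ _ (XCcC.comm_lin e he hir hib hbr σ hsup)
  have key : ∀ t' : ℕ, (∀ a, σ a ≠ 0 → t' ≤ (w a).val) →
      ((Lin e b σ) ^ (mm w b t' + 1)) u = 0 :=
    fun t' h => hcon b t' σ (fun a ha => ⟨hsup a ha, h a ha⟩)
  have hval : ∀ a, σ a ≠ 0 → a ≠ i → t ≤ (w a).val := by
    intro a ha hai
    have h1 := (hσ a ha).2
    rwa [XCcC.wi_a htr hai ((hsup a ha).trans hbr)] at h1
  have hvali : σ i ≠ 0 → t ≤ (w s).val := by
    intro ha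
    have h1 := (hσ i ha).2
    rwa [XCcC.wi_i htr hir] at h1
  rcases hcase with hwb | ⟨hwb, ht⟩
  · obtain ⟨h1, h2⟩ := hA b t hib hbr hwb
    rw [h1]
    by_cases ht : t ≤ (w i).val
    · apply key
      intro a ha
      by_cases hai : a = i
      · rw [hai]; exact ht
      · exact hval a ha hai
    · rw [h2 (not_le.1 ht)]
      have h3 : mm w b ((w b).val + 1) = 0 := by
        unfold mm
        rw [Finset.card_eq_zero, Finset.filter_eq_empty_iff]
        rintro k - ⟨-, h4, h5⟩
        have h6 : (w k).val < (w b).val := h5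
        omega
      have h4 := key ((w b).val + 1) (by
        intro a ha
        have h7 : (w b).val < (w i).val := hwb
        by_cases hai : a = i
        · rw [hai]; omega
        · have := hval a ha hai
          omega)
      rwa [h3] at h4
  · rw [hB b t hib hbr hwb ht]
    apply key
    intro a ha
    by_cases hai : a = i
    · subst hai
      have h1 := hvali ha
      rcases ht with h2 | h2
      · exact h2
      · omega
    · exact hval a ha hai

end Pool.Agent.Work.MP_ca14f8_co.QE

end

section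

/-!
MP_ca14f8_co, block QE, item Conj: two regular nilpotent upper triangular matrices are conjugate by
an upper triangular matrix.
-/

set_option autoImplicit false
open Classical

namespace Pool.Agent.Work.MP_ca14f8_co.QE

namespace XConj

theorem solve {m : ℕ} (ν : Matrix (Fin m) (Fin m) ℚ) (hν : ν ∈ NU m)
    (hsup : ∀ a b : Fin m, b.val = a.val + 1 → ν a b ≠ 0) (k : ℕ) : ∀ y : Fin m → ℚ,
    (∀ a : Fin m, k ≤ a.val → y a = 0) → k < m →
    ∃ x : Fin m → ℚ, (∀ a : Fin m, k < a.val → x a = 0) ∧ ν.mulVec x = y ∧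
      ∀ a b : Fin m, b.val = k → a.val + 1 = k → x b * ν a b = y a := by
  induction k with
  | zero =>
    intro y hy _
    refine ⟨0, fun a _ => rfl, ?_, ?_⟩
    · rw [Matrix.mulVec_zero]
      funext a
      exact (hy a (Nat.zero_le _)).symm
    · intro a b _ h
      omega
  | succ k ih =>
    intro y hy hk
    set b : Fin m := ⟨k + 1, hk⟩ with hb
    set a : Fin m := ⟨k, by omega⟩ with ha
    have hab : ν a b ≠ 0 := hsup a b rfl
    set t : ℚ := y a / ν a b with ht
    obtain ⟨x', h1, h2, -⟩ := ih (fun i => y i - t * ν i b) (by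
      intro i hi
      by_cases h : i.val = k
      · have hia : i = a := Fin.ext h
        rw [hia, ht, div_mul_cancel₀ _ hab, sub_self]
      · have h3 : y i = 0 := hy i (by omega)
        have h4 : ν i b = 0 := hν i b (by
          show (k + 1) ≤ i.val
          omega)
        rw [h3, h4]
        ring) (by omega)
    refine ⟨fun i => x' i + t * (Pi.single b (1 : ℚ) : Fin m → ℚ) i, ?_, ?_, ?_⟩
    · intro i hi
      have h3 : i ≠ b := by
        intro h
        rw [h] at hi
        exact lt_irrefl _ hi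
      show x' i + t * (Pi.single b (1 : ℚ) : Fin m → ℚ) i = 0
      rw [h1 i (by omega), Pi.single_eq_of_ne h3]
      ring
    · funext i
      have h3 : ν.mulVec (fun i => x' i + t * (Pi.single b (1 : ℚ) : Fin m → ℚ) i) i =
          ν.mulVec x' i + t * ν.mulVec (Pi.single b (1 : ℚ)) i := by
        simp only [Matrix.mulVec, dotProduct, Finset.mul_sum, ← Finset.sum_add_distrib]
        refine Finset.sum_congr rfl fun j _ => ?_
        ring
      rw [h3, h2, Matrix.mulVec_single_one]
      simp only [Matrix.col_apply]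
      ring
    · intro a' b' hb' ha'
      have h3 : b' = b := Fin.ext hb'
      have h4 : a' = a := Fin.ext (by
        show a'.val = k
        omega)
      subst h3 h4
      show (x' _ + t * (Pi.single _ (1 : ℚ) : Fin m → ℚ) _) * _ = _
      rw [Pi.single_eq_same, h1 _ (by
        show k < k + 1
        omega), zero_add, mul_one, ht, div_mul_cancel₀ _ hab]

theorem cols {m : ℕ} (ν ν' : Matrix (Fin m) (Fin m) ℚ) (hν : ν ∈ NU m) (hν' : ν' ∈ NU m)
    (hsup : ∀ a b : Fin m, b.val = a.val + 1 → ν a b ≠ 0 ∧ ν' a b ≠ 0) (n : ℕ) : n ≤ m →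
    ∃ c : Fin m → Fin m → ℚ, ∀ j : Fin m, j.val < n → (∀ a, j < a → c j a = 0) ∧ c j j ≠ 0 ∧
      ∀ i, ν.mulVec (c j) i = ∑ a, ν' a j * c a i := by
  induction n with
  | zero => exact fun _ => ⟨fun _ _ => 0, fun j hj => absurd hj (Nat.not_lt_zero _)⟩
  | succ n ih =>
    intro hn
    obtain ⟨c, hc⟩ := ih (by omega)
    set j0 : Fin m := ⟨n, by omega⟩ with hj0
    have hval : j0.val = n := rfl
    -- the right-hand side
    have hsupp : ∀ r : Fin m, n ≤ r.val → ∑ a, ν' a j0 * c a r = 0 := by
      intro r hr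
      refine Finset.sum_eq_zero fun a _ => ?_
      by_cases h : a.val < n
      · rw [(hc a h).1 r (by
          show a.val < r.val
          omega), mul_zero]
      · rw [hν' a j0 (by
          show n ≤ a.val
          omega), zero_mul]
    have hx : ∃ x : Fin m → ℚ, (∀ a : Fin m, n < a.val → x a = 0) ∧ x j0 ≠ 0 ∧
        ∀ i, ν.mulVec x i = ∑ a, ν' a j0 * c a i := by
      rcases Nat.eq_zero_or_pos n with h0 | hpos
      · refine ⟨Pi.single j0 1, ?_, ?_, ?_⟩
        · intro a ha
          refine Pi.single_eq_of_ne ?_ _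
          intro h
          rw [h, hval] at ha
          exact lt_irrefl _ ha
        · rw [Pi.single_eq_same]
          exact one_ne_zero
        · intro i
          rw [Matrix.mulVec_single_one, hsupp i (by omega)]
          exact hν i j0 (by
            show n ≤ i.val
            omega)
      · obtain ⟨x, h1, h2, h3⟩ := solve ν hν (fun a b h => (hsup a b h).1) n
          (fun i => ∑ a, ν' a j0 * c a i) hsupp (by omega)
        refine ⟨x, h1, ?_, fun i => by rw [h2]⟩
        set a : Fin m := ⟨n - 1, by omega⟩ with ha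
        have haval : a.val = n - 1 := rfl
        have h4 := h3 a j0 rfl (by omega)
        have h5 : ∑ a', ν' a' j0 * c a' a = ν' a j0 * c a a := by
          refine Finset.sum_eq_single a ?_ ?_
          · intro a' _ hne
            by_cases h : a'.val < n
            · have h6 : a'.val ≠ a.val := fun h7 => hne (Fin.ext h7)
              rw [(hc a' h).1 a (by
                show a'.val < a.val
                omega), mul_zero]
            · rw [hν' a' j0 (by
                show n ≤ a'.val
                omega), zero_mul]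
          · intro h
            exact absurd (Finset.mem_univ _) h
        have h6 : ν' a j0 * c a a ≠ 0 := by
          refine mul_ne_zero (hsup a j0 (by omega)).2 (hc a (by omega)).2.1
        intro h7
        rw [h7, zero_mul, h5] at h4
        exact h6 h4.symm
    obtain ⟨x, hx1, hx2, hx3⟩ := hx
    refine ⟨Function.update c j0 x, fun j hj => ?_⟩
    -- the sum does not change
    have hsum : ∀ i, j.val ≤ n → ∑ a, ν' a j * Function.update c j0 x a i =
        ∑ a, ν' a j * c a i := by
      intro i hjn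
      refine Finset.sum_congr rfl fun a _ => ?_
      by_cases h : a = j0
      · rw [h, hν' j0 j (by
          show j.val ≤ n
          exact hjn), zero_mul, zero_mul]
      · rw [Function.update_of_ne h]
    by_cases h : j = j0
    · subst h
      rw [Function.update_self]
      refine ⟨fun a ha => hx1 a ha, hx2, fun i => ?_⟩
      rw [hx3 i, hsum i le_rfl]
    · have hjn : j.val < n := by
        have h8 : j.val ≠ n := fun h9 => h (Fin.ext h9)
        omega
      rw [Function.update_of_ne h]
      refine ⟨(hc j hjn).1, (hc j hjn).2.1, fun i => ?_⟩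
      rw [(hc j hjn).2.2 i, hsum i hjn.le]

end XConj

theorem I_Conj : StConj := by
  intro m ν ν' hν hν' hsup
  obtain ⟨c, hc⟩ := XConj.cols ν ν' hν hν' hsup m le_rfl
  refine ⟨Matrix.of (fun a b => c b a), ?_, ?_, ?_⟩
  · intro a b hab
    exact (hc b b.2).1 a hab
  · intro a
    exact (hc a a.2).2.1
  · ext i j
    have h := (hc j j.2).2.2 i
    simp only [Matrix.mul_apply, Matrix.of_apply]
    simp only [Matrix.mulVec, dotProduct] at h
    rw [h]
    refine Finset.sum_congr rfl fun a _ => ?_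
    ring

end Pool.Agent.Work.MP_ca14f8_co.QE

end

section

/-!
Bijection of covers, block QE of MP_ca14f8_co.
-/

set_option autoImplicit false
open Classical

namespace Pool.Agent.Work.MP_ca14f8_co.QE

namespace XCovBij

theorem key {n : ℕ} (v : Equiv.Perm (Fin n)) (a b P Q : Fin n) (hab : a < b)
    (h1 : ¬ (P = a ∧ Q = b)) (h2 : ¬ (P = b ∧ Q = a)) (hPQ : (v Q).val = (v P).val + 1) :
    (Cov v a b ∧ Equiv.swap a b Q < Equiv.swap a b P) ↔
      (Q < P ∧ Cov (v * Equiv.swap P Q) a b) := by
  have hne : P ≠ Q := by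
    rintro rfl
    omega
  have hinj : ∀ c d : Fin n, c ≠ d → (v c).val ≠ (v d).val := fun c d hcd h =>
    hcd (v.injective (Fin.ext h))
  unfold Cov
  simp only [Equiv.Perm.coe_mul, Function.comp_apply]
  have e1 : Equiv.swap P Q P = Q := Equiv.swap_apply_left P Q
  have e2 : Equiv.swap P Q Q = P := Equiv.swap_apply_right P Q
  have e3 : ∀ c, c ≠ P → c ≠ Q → Equiv.swap P Q c = c := fun c => Equiv.swap_apply_of_ne_of_ne
  have f1 : Equiv.swap a b a = b := Equiv.swap_apply_left a b
  have f2 : Equiv.swap a b b = a := Equiv.swap_apply_right a b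
  have f3 : ∀ c, c ≠ a → c ≠ b → Equiv.swap a b c = c := fun c => Equiv.swap_apply_of_ne_of_ne
  by_cases hPa : P = a
  · subst hPa
    have hQb : Q ≠ b := fun h => h1 ⟨rfl, h⟩
    rw [f1, f3 Q hne.symm hQb, e1, e3 b hab.ne' hQb.symm]
    have i1 := hinj Q b hQb
    constructor
    · rintro ⟨⟨_, g1, g2⟩, g3⟩
      have g4 : Q < P := by
        by_contra hc
        have hc1 : P < Q := lt_of_le_of_ne (not_lt.mp hc) hne
        refine g2 Q hc1 g3 ⟨?_, ?_⟩
        · rw [Fin.lt_def]; omega
        · rw [Fin.lt_def] at g1 ⊢; omega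
      refine ⟨g4, hab, ?_, ?_⟩
      · rw [Fin.lt_def] at g1 ⊢; omega
      · intro c hc1 hc2
        rw [e3 c hc1.ne' (g4.trans hc1).ne']
        rintro ⟨hc3, hc4⟩
        refine g2 c hc1 hc2 ⟨?_, hc4⟩
        rw [Fin.lt_def] at hc3 ⊢; omega
    · rintro ⟨g4, _, g1, g2⟩
      refine ⟨⟨hab, ?_, ?_⟩, g4.trans hab⟩
      · rw [Fin.lt_def] at g1 ⊢; omega
      · intro c hc1 hc2
        have g3 := g2 c hc1 hc2
        rw [e3 c hc1.ne' (g4.trans hc1).ne'] at g3
        rintro ⟨hc3, hc4⟩
        refine g3 ⟨?_, hc4⟩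
        have i2 := hinj c Q (g4.trans hc1).ne'
        rw [Fin.lt_def] at hc3 ⊢; omega
  by_cases hPb : P = b
  · subst hPb
    have hQa : Q ≠ a := fun h => h2 ⟨rfl, h⟩
    rw [f2, f3 Q hQa hne.symm, e1, e3 a hab.ne hQa.symm]
    have i1 := hinj Q a hQa
    have i2 := hinj P a hPa
    constructor
    · rintro ⟨⟨_, g1, g2⟩, g3⟩
      refine ⟨g3.trans hab, hab, ?_, ?_⟩
      · rw [Fin.lt_def] at g1 ⊢; omega
      · intro c hc1 hc2
        rw [e3 c hc2.ne (g3.trans hc1).ne']
        rintro ⟨hc3, hc4⟩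
        refine g2 c hc1 hc2 ⟨hc3, ?_⟩
        have i3 := hinj c P hc2.ne
        rw [Fin.lt_def] at hc4 ⊢; omega
    · rintro ⟨g4, _, g1, g2⟩
      have g5 : Q < a := by
        by_contra hc
        have hc1 : a < Q := lt_of_le_of_ne (not_lt.mp hc) hQa.symm
        have g3 := g2 Q hc1 g4
        rw [e2] at g3
        refine g3 ⟨?_, ?_⟩
        · rw [Fin.lt_def] at g1 ⊢; omega
        · rw [Fin.lt_def]; omega
      refine ⟨⟨hab, ?_, ?_⟩, g5⟩
      · rw [Fin.lt_def] at g1 ⊢; omega
      · intro c hc1 hc2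
        have g3 := g2 c hc1 hc2
        rw [e3 c hc2.ne (g5.trans hc1).ne'] at g3
        rintro ⟨hc3, hc4⟩
        refine g3 ⟨hc3, ?_⟩
        rw [Fin.lt_def] at hc4 ⊢; omega
  by_cases hQa : Q = a
  · subst hQa
    rw [f1, f3 P hPa hPb, e2, e3 b (Ne.symm hPb) hab.ne']
    have i1 := hinj P b hPb
    constructor
    · rintro ⟨⟨_, g1, g2⟩, g3⟩
      refine ⟨hab.trans g3, hab, ?_, ?_⟩
      · rw [Fin.lt_def] at g1 ⊢; omega
      · intro c hc1 hc2
        rw [e3 c (hc2.trans g3).ne hc1.ne']
        rintro ⟨hc3, hc4⟩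
        refine g2 c hc1 hc2 ⟨?_, hc4⟩
        have i2 := hinj c Q hc1.ne'
        rw [Fin.lt_def] at hc3 ⊢; omega
    · rintro ⟨g4, _, g1, g2⟩
      have i3 := hinj Q b hab.ne
      have g5 : b < P := by
        by_contra hc
        have hc1 : P < b := lt_of_le_of_ne (not_lt.mp hc) hPb
        have g3 := g2 P g4 hc1
        rw [e1] at g3
        refine g3 ⟨?_, ?_⟩
        · rw [Fin.lt_def]; omega
        · rw [Fin.lt_def] at g1 ⊢; omega
      refine ⟨⟨hab, ?_, ?_⟩, g5⟩
      · rw [Fin.lt_def] at g1 ⊢; omega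
      · intro c hc1 hc2
        have g3 := g2 c hc1 hc2
        rw [e3 c (hc2.trans g5).ne hc1.ne'] at g3
        rintro ⟨hc3, hc4⟩
        refine g3 ⟨?_, hc4⟩
        rw [Fin.lt_def] at hc3 ⊢; omega
  by_cases hQb : Q = b
  · subst hQb
    rw [f2, f3 P hPa hPb, e2, e3 a (Ne.symm hPa) hab.ne]
    have i1 := hinj P a hPa
    constructor
    · rintro ⟨⟨_, g1, g2⟩, g3⟩
      have g4 : Q < P := by
        by_contra hc
        have hc1 : P < Q := lt_of_le_of_ne (not_lt.mp hc) hne
        refine g2 P g3 hc1 ⟨?_, ?_⟩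
        · rw [Fin.lt_def] at g1 ⊢; omega
        · rw [Fin.lt_def]; omega
      refine ⟨g4, hab, ?_, ?_⟩
      · rw [Fin.lt_def] at g1 ⊢; omega
      · intro c hc1 hc2
        rw [e3 c (hc2.trans g4).ne hc2.ne]
        rintro ⟨hc3, hc4⟩
        refine g2 c hc1 hc2 ⟨hc3, ?_⟩
        rw [Fin.lt_def] at hc4 ⊢; omega
    · rintro ⟨g4, _, g1, g2⟩
      refine ⟨⟨hab, ?_, ?_⟩, hab.trans g4⟩
      · rw [Fin.lt_def] at g1 ⊢; omega
      · intro c hc1 hc2
        have g3 := g2 c hc1 hc2
        rw [e3 c (hc2.trans g4).ne hc2.ne] at g3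
        rintro ⟨hc3, hc4⟩
        refine g3 ⟨hc3, ?_⟩
        have i2 := hinj c P (hc2.trans g4).ne
        rw [Fin.lt_def] at hc4 ⊢; omega
  · rw [f3 P hPa hPb, f3 Q hQa hQb, e3 a (Ne.symm hPa) (Ne.symm hQa),
      e3 b (Ne.symm hPb) (Ne.symm hQb)]
    have i1 := hinj P a hPa
    have i2 := hinj P b hPb
    have i3 := hinj Q a hQa
    have i4 := hinj Q b hQb
    have hh : ∀ c, (v a < v (Equiv.swap P Q c) ∧ v (Equiv.swap P Q c) < v b) ↔
        (v a < v c ∧ v c < v b) := by
      intro c
      by_cases hcP : c = P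
      · subst hcP
        rw [e1]
        simp only [Fin.lt_def]
        omega
      by_cases hcQ : c = Q
      · subst hcQ
        rw [e2]
        simp only [Fin.lt_def]
        omega
      rw [e3 c hcP hcQ]
    simp only [hh]
    tauto

end XCovBij

theorem I_CovBij (_h : StCovLen) : StCovBij := by
  intro n v a b p hp hab
  obtain ⟨x, y⟩ := p
  simp only at hp ⊢
  have hvP : v (v.symm x) = x := v.apply_symm_apply x
  have hvQ : v (v.symm y) = y := v.apply_symm_apply y
  have hs : Equiv.swap x y * v = v * Equiv.swap (v.symm x) (v.symm y) := by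
    rw [Equiv.mul_swap_eq_swap_mul, hvP, hvQ]
  have hd : ∀ z, (v * Equiv.swap a b).symm z = Equiv.swap a b (v.symm z) := by
    intro z
    rw [Equiv.symm_apply_eq]
    simp
  rw [mem_Desc, mem_Desc, hs, ← mul_assoc, hs]
  simp only [hd]
  constructor
  · rintro ⟨g1, ⟨_, g2⟩, g3⟩
    have h1 : ¬ (v.symm x = a ∧ v.symm y = b) := by
      rintro ⟨r1, r2⟩
      apply g3
      rw [r1, r2, mul_assoc, Equiv.swap_mul_self, mul_one]
    have h2 : ¬ (v.symm x = b ∧ v.symm y = a) := by
      rintro ⟨r1, r2⟩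
      apply g3
      rw [r1, r2, Equiv.swap_comm b a, mul_assoc, Equiv.swap_mul_self, mul_one]
    have := (XCovBij.key v a b (v.symm x) (v.symm y) hab h1 h2 (by rw [hvP, hvQ]; exact hp)).mp
      ⟨g1, g2⟩
    exact ⟨⟨hp, this.1⟩, this.2, g3⟩
  · rintro ⟨⟨_, g2⟩, g1, g3⟩
    have h1 : ¬ (v.symm x = a ∧ v.symm y = b) := by
      rintro ⟨r1, r2⟩
      apply g3
      rw [r1, r2, mul_assoc, Equiv.swap_mul_self, mul_one]
    have h2 : ¬ (v.symm x = b ∧ v.symm y = a) := by
      rintro ⟨r1, r2⟩
      apply g3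
      rw [r1, r2, Equiv.swap_comm b a, mul_assoc, Equiv.swap_mul_self, mul_one]
    have := (XCovBij.key v a b (v.symm x) (v.symm y) hab h1 h2 (by rw [hvP, hvQ]; exact hp)).mpr
      ⟨g2, g1⟩
    exact ⟨this.1, ⟨hp, this.2⟩, g3⟩

end Pool.Agent.Work.MP_ca14f8_co.QE

end

section

/-!
Item Even of the block QE of MP_ca14f8_co: even size factorisation from the block factorisation.
-/

set_option autoImplicit false
open Classical

namespace Pool.Agent.Work.MP_ca14f8_co.QE

namespace XEven

/-- even positions to the left summand, odd positions to the right summand. -/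
def toF {m : ℕ} : Fin m ⊕ Fin m → Fin (2 * m)
  | Sum.inl i => ⟨2 * i.val, by have := i.isLt; omega⟩
  | Sum.inr i => ⟨2 * i.val + 1, by have := i.isLt; omega⟩

def ofF {m : ℕ} (a : Fin (2 * m)) : Fin m ⊕ Fin m :=
  if a.val % 2 = 0 then Sum.inl ⟨a.val / 2, by have := a.isLt; omega⟩
  else Sum.inr ⟨a.val / 2, by have := a.isLt; omega⟩

def eqv (m : ℕ) : Fin m ⊕ Fin m ≃ Fin (2 * m) where
  toFun := toF
  invFun := ofF
  left_inv := by
    rintro (i | i)
    · have h : (2 * i.val) % 2 = 0 := by omega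
      have h2 : (2 * i.val) / 2 = i.val := by omega
      simp [toF, ofF]
    · have h : (2 * i.val + 1) % 2 ≠ 0 := by omega
      have h2 : (2 * i.val + 1) / 2 = i.val := by omega
      simp only [toF, ofF, if_neg h]
      congr 1
      exact Fin.ext h2
  right_inv := by
    intro a
    by_cases h : a.val % 2 = 0
    · simp only [ofF, if_pos h, toF]
      apply Fin.ext
      show 2 * (a.val / 2) = a.val
      omega
    · simp only [ofF, if_neg h, toF]
      apply Fin.ext
      show 2 * (a.val / 2) + 1 = a.val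
      omega

lemma eqv_inl {m : ℕ} (i : Fin m) : ((eqv m) (Sum.inl i)).val = 2 * i.val := rfl
lemma eqv_inr {m : ℕ} (i : Fin m) : ((eqv m) (Sum.inr i)).val = 2 * i.val + 1 := rfl

lemma ev_inl {m : ℕ} (i : Fin m) : (eqv m) (Sum.inl i) ∈ ev (2 * m) := by
  simp [ev, eqv_inl]

lemma ev_inr {m : ℕ} (i : Fin m) : (eqv m) (Sum.inr i) ∉ ev (2 * m) := by
  simp only [ev, Finset.mem_filter, Finset.mem_univ, true_and, eqv_inr]
  omega

/-- the transported block matrix. -/
def tr {m : ℕ} (A : Matrix (Fin m ⊕ Fin m) (Fin m ⊕ Fin m) ℚ) :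
    Matrix (Fin (2 * m)) (Fin (2 * m)) ℚ := A.submatrix (eqv m).symm (eqv m).symm

lemma tr_mul {m : ℕ} (A B : Matrix (Fin m ⊕ Fin m) (Fin m ⊕ Fin m) ℚ) :
    tr (A * B) = tr A * tr B := by
  unfold tr
  rw [Matrix.submatrix_mul_equiv]

lemma tr_one_add {m : ℕ} (A : Matrix (Fin m ⊕ Fin m) (Fin m ⊕ Fin m) ℚ) :
    tr (1 + A) = 1 + tr A := by
  ext a b
  simp [tr, Matrix.one_apply]

lemma up_eq {m : ℕ} (Q : Matrix (Fin m) (Fin m) ℚ) :
    (Matrix.fromBlocks 1 Q 0 1 : Matrix (Fin m ⊕ Fin m) (Fin m ⊕ Fin m) ℚ) =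
      1 + Matrix.fromBlocks 0 Q 0 0 := by
  rw [← Matrix.fromBlocks_one, Matrix.fromBlocks_add]
  simp

lemma lo_eq {m : ℕ} (R : Matrix (Fin m) (Fin m) ℚ) :
    (Matrix.fromBlocks 1 0 R 1 : Matrix (Fin m ⊕ Fin m) (Fin m ⊕ Fin m) ℚ) =
      1 + Matrix.fromBlocks 0 0 R 0 := by
  rw [← Matrix.fromBlocks_one, Matrix.fromBlocks_add]
  simp

lemma up_mem {m : ℕ} (Q : Matrix (Fin m) (Fin m) ℚ) (hQ : ∀ a b, b < a → Q a b = 0) :
    tr (Matrix.fromBlocks 0 Q 0 0) ∈ SB (2 * m) (ev (2 * m)) := by
  intro a b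
  obtain ⟨x, rfl⟩ := (eqv m).surjective a
  obtain ⟨y, rfl⟩ := (eqv m).surjective b
  simp only [tr, Matrix.submatrix_apply, Equiv.symm_apply_apply]
  rcases x with i | i <;> rcases y with j | j
  · intro h; exact absurd rfl h
  · intro h
    rw [Matrix.fromBlocks_apply₁₂] at h
    have hij : i ≤ j := by
      by_contra hc
      exact h (hQ _ _ (not_le.mp hc))
    refine ⟨?_, ev_inl i, ev_inr j⟩
    rw [Fin.lt_def, eqv_inl, eqv_inr]
    have : i.val ≤ j.val := hij
    omega
  · intro h; exact absurd rfl h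
  · intro h; exact absurd rfl h

lemma lo_mem {m : ℕ} (R : Matrix (Fin m) (Fin m) ℚ) (hR : R ∈ NU m) :
    tr (Matrix.fromBlocks 0 0 R 0) ∈ SB (2 * m) (ev (2 * m))ᶜ := by
  intro a b
  obtain ⟨x, rfl⟩ := (eqv m).surjective a
  obtain ⟨y, rfl⟩ := (eqv m).surjective b
  simp only [tr, Matrix.submatrix_apply, Equiv.symm_apply_apply]
  rcases x with i | i <;> rcases y with j | j
  · intro h; exact absurd rfl h
  · intro h; exact absurd rfl h
  · intro h
    rw [Matrix.fromBlocks_apply₂₁] at h
    have hij : i < j := by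
      by_contra hc
      exact h (hR _ _ (not_lt.mp hc))
    refine ⟨?_, ?_, ?_⟩
    · rw [Fin.lt_def, eqv_inl, eqv_inr]
      have : i.val < j.val := hij
      omega
    · rw [Finset.mem_compl]; exact ev_inr i
    · rw [Finset.mem_compl, not_not]; exact ev_inl j
  · intro h; exact absurd rfl h

end XEven

open XEven in
theorem I_Even (h : StFac) : StEven := by
  intro m X hX hc
  obtain ⟨hX0, hX1⟩ := hX
  set Y := X.submatrix (eqv m) (eqv m) with hY
  have hXY : X = tr Y := by
    ext a b
    simp [tr, hY]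
  have hval : ∀ x y, Y x y = X (eqv m x) (eqv m y) := fun x y => rfl
  have hP : Y.toBlocks₁₁ ∈ UT m := by
    constructor
    · intro a b hab
      apply hX0
      rw [Fin.lt_def, eqv_inl, eqv_inl]
      have : b.val < a.val := hab
      omega
    · intro a
      exact hX1 _
  have hT : Y.toBlocks₂₂ ∈ UT m := by
    constructor
    · intro a b hab
      apply hX0
      rw [Fin.lt_def, eqv_inr, eqv_inr]
      have : b.val < a.val := hab
      omega
    · intro a
      exact hX1 _
  have hQ : ∀ a b, b < a → Y.toBlocks₁₂ a b = 0 := by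
    intro a b hab
    apply hX0
    rw [Fin.lt_def, eqv_inl, eqv_inr]
    have : b.val < a.val := hab
    omega
  have hR : Y.toBlocks₂₁ ∈ NU m := by
    intro a b hab
    apply hX0
    rw [Fin.lt_def, eqv_inl, eqv_inr]
    have : b.val ≤ a.val := hab
    omega
  obtain ⟨Q₁, Q₂, R₁, R₂, hQ₁, hQ₂, hR₁, hR₂, hfac⟩ := h m Y.toBlocks₁₁ Y.toBlocks₁₂
    Y.toBlocks₂₁ Y.toBlocks₂₂ hP hT hQ hR (by
      intro a b hab
      have e1 : ((eqv m) (Sum.inl b)).val = ((eqv m) (Sum.inr a)).val + 1 := by
        rw [eqv_inl, eqv_inr]; omega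
      have e2 : ((eqv m) (Sum.inr b)).val = ((eqv m) (Sum.inr a)).val + 2 := by
        rw [eqv_inr, eqv_inr]; omega
      have e3 : ((eqv m) (Sum.inr a)).val = ((eqv m) (Sum.inl a)).val + 1 := by
        rw [eqv_inl, eqv_inr]
      have e4 : ((eqv m) (Sum.inl b)).val = ((eqv m) (Sum.inl a)).val + 2 := by
        rw [eqv_inl, eqv_inl]; omega
      refine ⟨(hc _ _ _ e1 e2).1 (by rw [eqv_inr]; omega), (hc _ _ _ e3 e4).2 (by rw [eqv_inl]; omega)⟩)
  rw [Matrix.fromBlocks_toBlocks] at hfac
  refine ⟨tr (Matrix.fromBlocks 0 Q₁ 0 0), up_mem Q₁ hQ₁, tr (Matrix.fromBlocks 0 0 R₁ 0),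
    lo_mem R₁ hR₁, tr (Matrix.fromBlocks 0 Q₂ 0 0), up_mem Q₂ hQ₂,
    tr (Matrix.fromBlocks 0 0 R₂ 0), lo_mem R₂ hR₂, ?_⟩
  rw [hXY, hfac, tr_mul, tr_mul, tr_mul, up_eq, up_eq, lo_eq, lo_eq, tr_one_add, tr_one_add,
    tr_one_add, tr_one_add]

end Pool.Agent.Work.MP_ca14f8_co.QE

end

section

/-!
Item QE Fac (helper70): factorisation into four unipotent block matrices.
-/

set_option autoImplicit false
open Classical

namespace Pool.Agent.Work.MP_ca14f8_co.QE

namespace XFac

variable {m : ℕ}

/-- upper triangular -/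
def Up (A : Matrix (Fin m) (Fin m) ℚ) : Prop := ∀ a b, b < a → A a b = 0

lemma up_iff {A : Matrix (Fin m) (Fin m) ℚ} : Up A ↔ A.BlockTriangular id := by
  unfold Up Matrix.BlockTriangular
  simp only [id]

lemma mul_up {A B : Matrix (Fin m) (Fin m) ℚ} (hA : Up A) (hB : Up B) : Up (A * B) := by
  intro a b hab
  rw [Matrix.mul_apply]
  refine Finset.sum_eq_zero (fun c _ => ?_)
  rcases lt_or_ge c a with h | h
  · rw [hA a c h, zero_mul]
  · rw [hB c b (lt_of_lt_of_le hab h), mul_zero]

lemma mul_diag {A B : Matrix (Fin m) (Fin m) ℚ} (hA : Up A) (hB : Up B) (a : Fin m) :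
    (A * B) a a = A a a * B a a := by
  rw [Matrix.mul_apply, Finset.sum_eq_single a]
  · intro c _ hca
    rcases lt_or_gt_of_ne hca with h | h
    · rw [hA a c h, zero_mul]
    · rw [hB c a h, mul_zero]
  · intro h; exact absurd (Finset.mem_univ _) h

lemma mul_super {A B : Matrix (Fin m) (Fin m) ℚ} (hA : Up A) (hB : Up B) {a b : Fin m}
    (hab : b.val = a.val + 1) :
    (A * B) a b = A a a * B a b + A a b * B b b := by
  have hne : a ≠ b := by
    rintro rfl
    omega
  rw [Matrix.mul_apply, ← Finset.add_sum_erase _ _ (Finset.mem_univ a),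
    ← Finset.add_sum_erase _ _ (Finset.mem_erase.2 ⟨Ne.symm hne, Finset.mem_univ b⟩)]
  rw [Finset.sum_eq_zero, add_zero]
  intro c hc
  simp only [Finset.mem_erase, Finset.mem_univ, and_true] at hc
  rcases lt_or_ge c a with h | h
  · rw [hA a c h, zero_mul]
  · have : b < c := by
      rw [Fin.lt_def]
      have h1 : c.val ≠ a.val := fun e => hc.2 (Fin.ext e)
      have h2 : c.val ≠ b.val := fun e => hc.1 (Fin.ext e)
      have h3 : a.val ≤ c.val := h
      omega
    rw [hB c b this, mul_zero]

/-- strictly upper times upper -/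
lemma nu_mul {A B : Matrix (Fin m) (Fin m) ℚ} (hA : A ∈ NU m) (hB : Up B) : A * B ∈ NU m := by
  intro a b hba
  rw [Matrix.mul_apply]
  refine Finset.sum_eq_zero (fun c _ => ?_)
  rcases le_or_gt c a with h | h
  · rw [hA a c h, zero_mul]
  · rw [hB c b (lt_of_le_of_lt hba h), mul_zero]

lemma mul_nu {A B : Matrix (Fin m) (Fin m) ℚ} (hA : Up A) (hB : B ∈ NU m) : A * B ∈ NU m := by
  intro a b hba
  rw [Matrix.mul_apply]
  refine Finset.sum_eq_zero (fun c _ => ?_)
  rcases lt_or_ge c a with h | h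
  · rw [hA a c h, zero_mul]
  · rw [hB c b (le_trans hba h), mul_zero]

lemma nu_up {A : Matrix (Fin m) (Fin m) ℚ} (hA : A ∈ NU m) : Up A := fun a b h => hA a b h.le

lemma ut_up {A : Matrix (Fin m) (Fin m) ℚ} (hA : A ∈ UT m) : Up A := hA.1

lemma nu_sub {A B : Matrix (Fin m) (Fin m) ℚ} (hA : A ∈ NU m) (hB : B ∈ NU m) :
    A - B ∈ NU m := by
  intro a b h
  rw [Matrix.sub_apply, hA a b h, hB a b h, sub_zero]

/-- inverse of an upper triangular matrix with non-zero diagonal -/
lemma exists_inv {A : Matrix (Fin m) (Fin m) ℚ} (hA : Up A) (hd : ∀ a, A a a ≠ 0) :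
    ∃ B : Matrix (Fin m) (Fin m) ℚ, Up B ∧ A * B = 1 ∧ B * A = 1 := by
  have hdet : A.det ≠ 0 := by
    rw [Matrix.det_of_isUpperTriangular (up_iff.1 hA)]
    exact Finset.prod_ne_zero_iff.2 (fun a _ => hd a)
  have hu : IsUnit A.det := isUnit_iff_ne_zero.2 hdet
  have : Invertible A := Matrix.invertibleOfIsUnitDet A hu
  refine ⟨A⁻¹, ?_, Matrix.mul_nonsing_inv A hu, Matrix.nonsing_inv_mul A hu⟩
  rw [up_iff]
  exact Matrix.blockTriangular_inv_of_blockTriangular (up_iff.1 hA)

lemma ut_sub_one {A : Matrix (Fin m) (Fin m) ℚ} (hA : A ∈ UT m) : A - 1 ∈ NU m := by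
  intro a b hba
  rcases hba.eq_or_lt with rfl | h
  · rw [Matrix.sub_apply, hA.2, Matrix.one_apply_eq, sub_self]
  · rw [Matrix.sub_apply, hA.1 a b h, Matrix.one_apply_ne (ne_of_gt h), sub_zero]

end XFac

open XFac in
theorem I_Fac (h : StConj) : StFac := by
  intro m P Q R T hP hT hQ hR hs
  obtain ⟨Ti, hTi, hTT, hTT'⟩ := exists_inv hT.1 (fun a => by rw [hT.2 a]; exact one_ne_zero)
  have hTid : ∀ a, Ti a a = 1 := by
    intro a
    have h1 := mul_diag hT.1 hTi a
    rw [hTT, Matrix.one_apply_eq, hT.2 a, one_mul] at h1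
    exact h1.symm
  have hTiU : Ti ∈ UT m := ⟨hTi, hTid⟩
  have hQT : Up (Q * Ti) := mul_up hQ hTi
  have hQTR : Q * Ti * R ∈ NU m := mul_nu hQT hR
  set Δ := P - Q * Ti * R with hΔ
  have hν : Δ - 1 ∈ NU m := by
    have : Δ - 1 = (P - 1) - Q * Ti * R := by rw [hΔ]; abel
    rw [this]
    exact nu_sub (ut_sub_one hP) hQTR
  have hν' : Ti - 1 ∈ NU m := ut_sub_one hTiU
  have hsup : ∀ a b : Fin m, b.val = a.val + 1 → (Δ - 1) a b ≠ 0 ∧ (Ti - 1) a b ≠ 0 := by
    intro a b hab
    have hne : a ≠ b := by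
      rintro rfl
      omega
    obtain ⟨g1, g2⟩ := hs a b hab
    have hab' : a < b := by rw [Fin.lt_def]; omega
    constructor
    · rw [Matrix.sub_apply, Matrix.one_apply_ne hne, sub_zero, hΔ, Matrix.sub_apply,
        mul_super hQT (nu_up hR) hab, mul_diag hQ hTi, hTid, hR b b le_rfl, mul_one, mul_zero,
        add_zero]
      exact g2
    · rw [Matrix.sub_apply, Matrix.one_apply_ne hne, sub_zero]
      have h1 := mul_super hT.1 hTi hab
      rw [hTT, Matrix.one_apply_ne hne, hT.2, hTid, one_mul, mul_one] at h1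
      intro e
      rw [e, zero_add] at h1
      exact g1 h1.symm
  obtain ⟨C, hC, hCd, hCe⟩ := h m (Δ - 1) (Ti - 1) hν hν' hsup
  have hCT : C * Ti = Δ * C := by
    rw [mul_sub, sub_mul, mul_one, one_mul] at hCe
    exact sub_left_injective hCe
  obtain ⟨Ci, hCi, hCC, hCC'⟩ := exists_inv hC hCd
  set R₁ := (T - 1) * Ci with hR₁
  have hR1 : R₁ ∈ NU m := nu_mul (ut_sub_one hT) hCi
  have hR2 : Ti * (R - R₁) ∈ NU m := mul_nu hTi (nu_sub hR hR1)
  refine ⟨(Q - C) * Ti, C, R₁, Ti * (R - R₁), ?_, hC, hR1, hR2, ?_⟩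
  · refine mul_up ?_ hTi
    intro a b hba
    rw [Matrix.sub_apply, hQ a b hba, hC a b hba, sub_zero]
  · have e22 : R₁ * C + 1 = T := by
      rw [hR₁, mul_assoc, hCC', mul_one]; abel
    have e21 : R₁ * (1 + C * (Ti * (R - R₁))) + Ti * (R - R₁) = R := by
      have : R₁ * (1 + C * (Ti * (R - R₁))) + Ti * (R - R₁) =
          R₁ + (R₁ * C + 1) * (Ti * (R - R₁)) := by
        rw [mul_add, mul_one, add_mul, one_mul, mul_assoc R₁, add_assoc]
      rw [this, e22, ← mul_assoc, hTT, one_mul]; abel
    have e12 : C + (Q - C) * Ti * T = Q := by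
      rw [mul_assoc, hTT', mul_one]; abel
    have e11 : 1 + C * (Ti * (R - R₁)) + (Q - C) * Ti * R = P := by
      have h1 : C * (Ti * R₁) = 1 - Δ := by
        rw [hR₁, ← mul_assoc Ti, mul_sub, hTT', mul_one, ← mul_assoc C, mul_sub, mul_one, hCT,
          sub_mul, hCC, mul_assoc, hCC, mul_one]
      rw [mul_sub, mul_sub, h1, sub_mul, sub_mul, mul_assoc C Ti R, hΔ]
      abel
    rw [Matrix.fromBlocks_multiply, Matrix.fromBlocks_multiply, Matrix.fromBlocks_multiply]
    simp only [one_mul, mul_one, zero_mul, mul_zero, add_zero, zero_add]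
    rw [e22, e21, e12, e11]

end Pool.Agent.Work.MP_ca14f8_co.QE

end

section

/-!
The final assembly of the quadratic exponent theorem, block QE of MP_ca14f8_co.
-/

set_option autoImplicit false
open Classical

namespace Pool.Agent.Work.MP_ca14f8_co.QE

namespace XFin

theorem first (U B : ℚ) (D N V k m : ℕ) (hU : 0 ≤ U) (hk : 1 ≤ k) (h1 : U ≤ (D : ℚ))
    (h2 : (V : ℚ) ≤ B) (h3 : D ^ 2 ≤ N ^ 7) (h4 : 3 * k ^ 2 ≤ 4 * m) (h5 : N ^ m ≤ V)
    (hB : 0 ≤ B) : U ^ (3 * k ^ 2) ≤ B ^ 14 := by
  rcases Nat.eq_zero_or_pos D with hD | hD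
  · subst hD
    have hU0 : U = 0 := le_antisymm (by simpa using h1) hU
    rw [hU0, zero_pow]
    · positivity
    · have : 0 < k ^ 2 := by positivity
      omega
  · have e1 : D ^ (3 * k ^ 2) ≤ V ^ 14 := by
      calc D ^ (3 * k ^ 2) ≤ D ^ (4 * m) := Nat.pow_le_pow_right hD h4
        _ = (D ^ 2) ^ (2 * m) := by rw [← pow_mul]; congr 1; ring
        _ ≤ (N ^ 7) ^ (2 * m) := Nat.pow_le_pow_left h3 _
        _ = (N ^ m) ^ 14 := by rw [← pow_mul, ← pow_mul]; congr 1; ring
        _ ≤ V ^ 14 := Nat.pow_le_pow_left h5 _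
    have e2 : ((D ^ (3 * k ^ 2) : ℕ) : ℚ) ≤ ((V ^ 14 : ℕ) : ℚ) := by exact_mod_cast e1
    calc U ^ (3 * k ^ 2) ≤ (D : ℚ) ^ (3 * k ^ 2) := pow_le_pow_left₀ hU h1 _
      _ ≤ (V : ℚ) ^ 14 := by simpa using e2
      _ ≤ B ^ 14 := pow_le_pow_left₀ (by positivity) h2 _

theorem second (U B : ℚ) (D N V k : ℕ) (hU : 0 ≤ U) (hk : 1 ≤ k) (h1 : U ≤ (D : ℚ))
    (h2 : (V : ℚ) ≤ B) (h3 : D ^ 2 ≤ N ^ 7)
    (h5 : D ^ k * N ^ (k * (k - 1) / 2) ≤ V) (hB : 0 ≤ B) : U ^ (k ^ 2 + 6 * k) ≤ B ^ 7 := by
  obtain ⟨j, hj⟩ : ∃ j, k * (k - 1) = 2 * j := by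
    have := Nat.even_mul_pred_self k
    exact (even_iff_exists_two_mul.mp this)
  have hj2 : k * (k - 1) / 2 = j := by omega
  rw [hj2] at h5
  have hsq : k ^ 2 + 6 * k = 7 * k + 2 * j := by
    rw [← hj]
    obtain ⟨l, rfl⟩ : ∃ l, k = l + 1 := ⟨k - 1, by omega⟩
    simp only [Nat.add_sub_cancel]
    ring
  have e1 : D ^ (k ^ 2 + 6 * k) ≤ V ^ 7 := by
    rw [hsq]
    calc D ^ (7 * k + 2 * j) = D ^ (7 * k) * (D ^ 2) ^ j := by rw [pow_add, pow_mul D 2 j]
      _ ≤ D ^ (7 * k) * (N ^ 7) ^ j := Nat.mul_le_mul_left _ (Nat.pow_le_pow_left h3 _)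
      _ = (D ^ k * N ^ j) ^ 7 := by rw [mul_pow, ← pow_mul, ← pow_mul, ← pow_mul]; ring
      _ ≤ V ^ 7 := Nat.pow_le_pow_left h5 _
  have e2 : ((D ^ (k ^ 2 + 6 * k) : ℕ) : ℚ) ≤ ((V ^ 7 : ℕ) : ℚ) := by exact_mod_cast e1
  calc U ^ (k ^ 2 + 6 * k) ≤ (D : ℚ) ^ (k ^ 2 + 6 * k) := pow_le_pow_left₀ hU h1 _
    _ ≤ (V : ℚ) ^ 7 := by simpa using e2
    _ ≤ B ^ 7 := pow_le_pow_left₀ (by positivity) h2 _

end XFin

theorem I_Fin (h1 : StUle) (h2 : StVle) (h3 : StBfin) (h4 : StC1) (h5 : StC2) (h6 : StTsp) :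
    StFin := by
  intro n k w hk
  obtain ⟨m, hm, hV⟩ := h4 n k (Fin n) (Ic w)
  have hT := h6 n k w
  constructor
  · exact XFin.first (Ups w) (Ups (Bl k w)) (dV (UT n) (Ic w)) (dL (NU n) (Ic w))
      (dV (UT (n * k)) (Ic (Bl k w))) k m (Ups_nonneg w) hk (h1 n w) (h2 (n * k) (Bl k w))
      (h3 n (Fin n) (Ic w)) hm (hV.trans hT) (Ups_nonneg _)
  · exact XFin.second (Ups w) (Ups (Bl k w)) (dV (UT n) (Ic w)) (dL (NU n) (Ic w))
      (dV (UT (n * k)) (Ic (Bl k w))) k (Ups_nonneg w) hk (h1 n w) (h2 (n * k) (Bl k w))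
      (h3 n (Fin n) (Ic w)) ((h5 n k (Fin n) (Ic w) hk).trans hT) (Ups_nonneg _)

end Pool.Agent.Work.MP_ca14f8_co.QE

end

section

/-!
Item Gen of the block QE of MP_ca14f8_co: every unitriangular matrix is a limit along a line of
products of four square zero factors.
-/

set_option autoImplicit false
open Classical

namespace Pool.Agent.Work.MP_ca14f8_co.QE

namespace XGen

/-- the embedding. -/
def em (n : ℕ) (a : Fin n) : Fin (2 * n) := ⟨a.val, by have := a.isLt; omega⟩

lemma em_inj (n : ℕ) : Function.Injective (em n) := by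
  intro a b h
  have := congrArg Fin.val h
  exact Fin.ext this

lemma em_lt {n : ℕ} {a b : Fin n} : em n a < em n b ↔ a < b := Iff.rfl

lemma em_ev {n : ℕ} (a : Fin n) : em n a ∈ ev (2 * n) ↔ a ∈ ev n := by
  simp [ev, em]

/-- block diagonal of `X` and `1`. -/
noncomputable def bd (n : ℕ) (X : Matrix (Fin n) (Fin n) ℚ) : Matrix (Fin (2 * n)) (Fin (2 * n)) ℚ :=
  fun a b => if h : a.val < n ∧ b.val < n then X ⟨a.val, h.1⟩ ⟨b.val, h.2⟩
    else if a = b then 1 else 0

/-- the shift by two. -/
noncomputable def sh (n : ℕ) : Matrix (Fin n) (Fin n) ℚ := fun a b => if b.val = a.val + 2 then 1 else 0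

lemma sub_mul {n : ℕ} (A B : Matrix (Fin (2 * n)) (Fin (2 * n)) ℚ)
    (hB : B.BlockTriangular id) :
    (A * B).submatrix (em n) (em n) = A.submatrix (em n) (em n) * B.submatrix (em n) (em n) := by
  ext a b
  simp only [Matrix.submatrix_apply, Matrix.mul_apply]
  symm
  apply Finset.sum_of_injOn (em n)
  · intro x _ y _ h
    exact em_inj n h
  · intro x _
    simp
  · intro c _ hc
    have hcn : n ≤ c.val := by
      by_contra hlt
      push Not at hlt
      apply hc
      exact ⟨⟨c.val, hlt⟩, by simp, rfl⟩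
    have : B c (em n b) = 0 := by
      apply hB
      show em n b < c
      have h1 : (em n b).val < c.val := lt_of_lt_of_le b.isLt hcn
      exact h1
    rw [this, mul_zero]
  · intro c _
    rfl

lemma bt_one_add {m : ℕ} {S : Finset (Fin m)} {B : Matrix (Fin m) (Fin m) ℚ} (hB : B ∈ SB m S) :
    (1 + B).BlockTriangular id := by
  intro i j hij
  have hij' : j < i := hij
  have h1 : (1 : Matrix (Fin m) (Fin m) ℚ) i j = 0 := Matrix.one_apply_ne (ne_of_gt hij')
  have h2 : B i j = 0 := by
    by_contra hne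
    exact absurd (hB i j hne).1 (not_lt.mpr hij'.le)
  simp [Matrix.add_apply, h1, h2]

lemma sub_one_add {n : ℕ} (B : Matrix (Fin (2 * n)) (Fin (2 * n)) ℚ) :
    (1 + B).submatrix (em n) (em n) = 1 + B.submatrix (em n) (em n) := by
  ext a b
  simp only [Matrix.submatrix_apply, Matrix.add_apply, Matrix.one_apply]
  by_cases h : a = b
  · simp [h]
  · have : em n a ≠ em n b := fun h' => h (em_inj n h')
    simp [h, this]

lemma sb_ev {n : ℕ} {B : Matrix (Fin (2 * n)) (Fin (2 * n)) ℚ} (hB : B ∈ SB (2 * n) (ev (2 * n))) :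
    B.submatrix (em n) (em n) ∈ SB n (ev n) := by
  intro a b hab
  obtain ⟨h1, h2, h3⟩ := hB _ _ hab
  exact ⟨h1, (em_ev a).mp h2, fun h => h3 ((em_ev b).mpr h)⟩

lemma sb_od {n : ℕ} {B : Matrix (Fin (2 * n)) (Fin (2 * n)) ℚ} (hB : B ∈ SB (2 * n) (ev (2 * n))ᶜ) :
    B.submatrix (em n) (em n) ∈ SB n (ev n)ᶜ := by
  intro a b hab
  obtain ⟨h1, h2, h3⟩ := hB _ _ hab
  refine ⟨h1, ?_, ?_⟩
  · rw [Finset.mem_compl] at h2 ⊢
    exact fun h => h2 ((em_ev a).mpr h)
  · rw [Finset.mem_compl, not_not] at h3 ⊢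
    exact (em_ev b).mp h3

lemma pp_sub {n : ℕ} {Y : Matrix (Fin (2 * n)) (Fin (2 * n)) ℚ}
    (hY : Y ∈ PP (2 * n) (ev (2 * n)) (ev (2 * n))ᶜ) :
    Y.submatrix (em n) (em n) ∈ PP n (ev n) (ev n)ᶜ := by
  obtain ⟨B₁, h1, B₂, h2, B₃, h3, B₄, h4, rfl⟩ := hY
  refine ⟨B₁.submatrix (em n) (em n), sb_ev h1, B₂.submatrix (em n) (em n), sb_od h2,
    B₃.submatrix (em n) (em n), sb_ev h3, B₄.submatrix (em n) (em n), sb_od h4, ?_⟩
  have t4 := bt_one_add h4
  have t3 := (bt_one_add h3).mul t4
  have t2 := (bt_one_add h2).mul t3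
  rw [sub_mul _ _ t2, sub_mul _ _ t3, sub_mul _ _ t4, sub_one_add, sub_one_add, sub_one_add,
    sub_one_add]

lemma bd_sub {n : ℕ} (X : Matrix (Fin n) (Fin n) ℚ) : (bd n X).submatrix (em n) (em n) = X := by
  ext a b
  have h : (em n a).val < n ∧ (em n b).val < n := ⟨a.isLt, b.isLt⟩
  simp only [Matrix.submatrix_apply, bd]
  rw [dif_pos h]
  rfl

lemma sh_sub {n : ℕ} : (sh (2 * n)).submatrix (em n) (em n) = sh n := by
  ext a b
  rfl

lemma bd_ut {n : ℕ} {X : Matrix (Fin n) (Fin n) ℚ} (hX : X ∈ UT n) : bd n X ∈ UT (2 * n) := by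
  constructor
  · intro a b hab
    unfold bd
    split_ifs with h1 h2
    · exact hX.1 _ _ hab
    · exact absurd h2 (ne_of_gt hab)
    · rfl
  · intro a
    unfold bd
    split_ifs with h1 h2
    · exact hX.2 _
    · rfl
    · exact absurd rfl h2

end XGen

open XGen in
theorem I_Gen (h : StEven) : StGen := by
  intro n X hX
  refine ⟨sh n, ?_, ?_⟩
  · intro a b hab
    have : b.val ≠ a.val + 2 := by
      have : b.val ≤ a.val := hab
      omega
    simp [sh, this]
  · let bad : Finset ℚ :=
      (Finset.univ : Finset (Fin (2 * n) × Fin (2 * n) × Fin (2 * n))).image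
        (fun p => - bd n X p.1 p.2.2) ∪
      (Finset.univ : Finset (Fin (2 * n) × Fin (2 * n) × Fin (2 * n))).image
        (fun p => bd n X p.1 p.2.1 * bd n X p.2.1 p.2.2 - bd n X p.1 p.2.2)
    apply (bad.finite_toSet).subset
    intro ε hε
    by_contra hbad
    apply hε
    have hnb1 : ∀ a b c : Fin (2 * n), bd n X a c + ε ≠ 0 := by
      intro a b c h0
      apply hbad
      simp only [bad, Finset.coe_union, Set.mem_union, Finset.mem_coe, Finset.mem_image]
      left
      exact ⟨(a, b, c), Finset.mem_univ _, by simp only; linarith⟩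
    have hnb2 : ∀ a b c : Fin (2 * n), bd n X a c + ε - bd n X a b * bd n X b c ≠ 0 := by
      intro a b c h0
      apply hbad
      simp only [bad, Finset.coe_union, Set.mem_union, Finset.mem_coe, Finset.mem_image]
      right
      exact ⟨(a, b, c), Finset.mem_univ _, by simp only; linarith⟩
    have hY : bd n X + ε • sh (2 * n) ∈ PP (2 * n) (ev (2 * n)) (ev (2 * n))ᶜ := by
      apply h
      · have hb := bd_ut hX
        constructor
        · intro a b hab
          have h2 : b.val ≠ a.val + 2 := by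
            have : b.val < a.val := hab
            omega
          simp [Matrix.add_apply, hb.1 a b hab, sh, h2]
        · intro a
          have h2 : a.val ≠ a.val + 2 := by omega
          simp [Matrix.add_apply, hb.2 a, sh]
      · intro a b c hab hac
        have hbc : c.val = b.val + 1 := by omega
        have e1 : (bd n X + ε • sh (2 * n)) a c = bd n X a c + ε := by
          simp [Matrix.add_apply, sh, hac]
        have e2 : (bd n X + ε • sh (2 * n)) a b = bd n X a b := by
          have : b.val ≠ a.val + 2 := by omega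
          simp [Matrix.add_apply, sh, this]
        have e3 : (bd n X + ε • sh (2 * n)) b c = bd n X b c := by
          have : c.val ≠ b.val + 2 := by omega
          simp [Matrix.add_apply, sh, this]
        rw [e1, e2, e3]
        exact ⟨fun _ => hnb1 a b c, fun _ => hnb2 a b c⟩
    have := pp_sub hY
    have e : (bd n X + ε • sh (2 * n)).submatrix (em n) (em n) = X + ε • sh n := by
      rw [Matrix.submatrix_add, Pi.add_apply, Pi.add_apply, Matrix.submatrix_smul, Pi.smul_apply,
        Pi.smul_apply, bd_sub, sh_sub]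
    rwa [e] at this

end Pool.Agent.Work.MP_ca14f8_co.QE

end

section

set_option autoImplicit false

namespace Pool.Agent.Work.MP_ca14f8_co.QE

namespace XL3

theorem comm_pow {M : Type} [AddCommGroup M] [Module ℚ M] (E q p : Module.End ℚ M)
    (h : E * q - q * E = p) (hpq : Commute p q) :
    ∀ j : ℕ, E * q ^ (j + 1) = q ^ (j + 1) * E + ((j : ℚ) + 1) • (p * q ^ j) := by
  have h' : E * q = q * E + p := by rw [← h]; abel
  intro j
  induction j with
  | zero => simp [h']
  | succ j ih =>
    have h1 : E * q ^ (j + 1 + 1) = (E * q ^ (j + 1)) * q := by rw [pow_succ q (j + 1), mul_assoc]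
    have h2 : q ^ (j + 1) * E * q = q ^ (j + 1 + 1) * E + p * q ^ (j + 1) := by
      rw [mul_assoc, h', mul_add, ← mul_assoc, ← pow_succ, (hpq.pow_right (j + 1)).eq]
    have h3 : p * q ^ j * q = p * q ^ (j + 1) := by rw [mul_assoc, ← pow_succ]
    rw [h1, ih, add_mul, h2, smul_mul_assoc, h3, add_assoc]
    congr 1
    push_cast
    module

theorem main (M : Type) [AddCommGroup M] [Module ℚ M] (E q p : Module.End ℚ M)
    (h : E * q - q * E = p) (hpE : Commute p E) (hpq : Commute p q) :
    ∀ (μ γ : ℕ) (u : M), (E ^ (μ + 1)) u = 0 → (q ^ γ) u = 0 →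
      ∀ i j, μ + γ ≤ i + j → (p ^ i * q ^ j) u = 0 := by
  intro μ
  induction μ with
  | zero =>
    intro γ u hE hq i
    induction i with
    | zero =>
      intro j hj
      have hj' : j = (j - γ) + γ := by omega
      rw [hj', pow_zero, one_mul, pow_add, Module.End.mul_apply, hq, map_zero]
    | succ i ih =>
      intro j hj
      have h0 := ih (j + 1) (by omega)
      have hE' : E u = 0 := by simpa using hE
      have h1 : E ((p ^ i * q ^ (j + 1)) u) = 0 := by rw [h0, map_zero]
      have h2 : E * (p ^ i * q ^ (j + 1)) =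
          p ^ i * q ^ (j + 1) * E + ((j : ℚ) + 1) • (p ^ (i + 1) * q ^ j) := by
        rw [← mul_assoc, ← (hpE.pow_left i).eq, mul_assoc, comm_pow E q p h hpq j, mul_add,
          mul_smul_comm, ← mul_assoc, ← mul_assoc, ← pow_succ]
      rw [← Module.End.mul_apply, h2, LinearMap.add_apply, LinearMap.smul_apply,
        Module.End.mul_apply, hE', map_zero, zero_add] at h1
      have h3 : ((j : ℚ) + 1) ≠ 0 := by positivity
      exact (smul_eq_zero.1 h1).resolve_left h3
  | succ μ IH =>
    intro γ u hE hq i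
    have hq1 : (q ^ (γ + 1)) (E u) = 0 := by
      have h2 := comm_pow E q p h hpq γ
      have h3 : (E * q ^ (γ + 1)) u = 0 := by
        rw [Module.End.mul_apply, pow_succ', Module.End.mul_apply, hq, map_zero, map_zero]
      rw [h2, LinearMap.add_apply, LinearMap.smul_apply, Module.End.mul_apply,
        Module.End.mul_apply, hq, map_zero, smul_zero, add_zero] at h3
      exact h3
    have hE1 : (E ^ (μ + 1)) (E u) = 0 := by
      rw [← Module.End.mul_apply, ← pow_succ]; exact hE
    have hu := IH (γ + 1) (E u) hE1 hq1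
    induction i with
    | zero =>
      intro j hj
      have hj' : j = (j - γ) + γ := by omega
      rw [hj', pow_zero, one_mul, pow_add, Module.End.mul_apply, hq, map_zero]
    | succ i ih =>
      intro j hj
      have h0 := ih (j + 1) (by omega)
      have hE' := hu i (j + 1) (by omega)
      have h1 : E ((p ^ i * q ^ (j + 1)) u) = 0 := by rw [h0, map_zero]
      have h2 : E * (p ^ i * q ^ (j + 1)) =
          p ^ i * q ^ (j + 1) * E + ((j : ℚ) + 1) • (p ^ (i + 1) * q ^ j) := by
        rw [← mul_assoc, ← (hpE.pow_left i).eq, mul_assoc, comm_pow E q p h hpq j, mul_add,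
          mul_smul_comm, ← mul_assoc, ← mul_assoc, ← pow_succ]
      rw [← Module.End.mul_apply, h2, LinearMap.add_apply, LinearMap.smul_apply,
        Module.End.mul_apply, hE', zero_add] at h1
      have h3 : ((j : ℚ) + 1) ≠ 0 := by positivity
      exact (smul_eq_zero.1 h1).resolve_left h3

end XL3

theorem I_L3 : StL3 := by
  intro M _ _ E q p μ γ u h hpE hpq hE hq i j hij
  exact XL3.main M E q p h hpE hpq μ γ u hE hq i j hij

end Pool.Agent.Work.MP_ca14f8_co.QE

end

section

/-!
Block QE of MP_ca14f8_co: combinatorics of `mm`, part 3 (item 11942).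
-/

set_option autoImplicit false
open Classical

namespace Pool.Agent.Work.MP_ca14f8_co.QE

namespace XMM3

variable {n : ℕ}

lemma W_r (w v : Equiv.Perm (Fin n)) (r s i : Fin n) (h : TrD w v r s) (hir : i < r) :
    (v * Equiv.swap i r) r = w i := by
  have hrs := h.hrs
  rw [h.hv]
  simp only [Equiv.Perm.mul_apply, Equiv.swap_apply_right]
  rw [Equiv.swap_apply_of_ne_of_ne (ne_of_lt hir) (ne_of_lt (hir.trans hrs))]

lemma W_s (w v : Equiv.Perm (Fin n)) (r s i : Fin n) (h : TrD w v r s) (hir : i < r) :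
    (v * Equiv.swap i r) s = w r := by
  have hrs := h.hrs
  rw [h.hv]
  simp only [Equiv.Perm.mul_apply]
  rw [Equiv.swap_apply_of_ne_of_ne (ne_of_gt (hir.trans hrs)) (ne_of_gt hrs),
    Equiv.swap_apply_right]

lemma W_o (w v : Equiv.Perm (Fin n)) (r s i : Fin n) (h : TrD w v r s) (k : Fin n)
    (h1 : k ≠ i) (h2 : k ≠ r) (h3 : k ≠ s) :
    (v * Equiv.swap i r) k = w k := by
  rw [h.hv]
  simp only [Equiv.Perm.mul_apply]
  rw [Equiv.swap_apply_of_ne_of_ne h1 h2, Equiv.swap_apply_of_ne_of_ne h2 h3]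

/-- splitting of `mm` at the threshold `t`. -/
lemma mm_split (w : Equiv.Perm (Fin n)) (b : Fin n) (a t : ℕ) (hat : a ≤ t) (htb : t ≤ (w b).val) :
    mm w b a = mm w b t +
      (Finset.univ.filter (fun k => b < k ∧ a ≤ (w k).val ∧ (w k).val < t)).card := by
  unfold mm
  rw [← Finset.card_union_of_disjoint]
  · congr 1
    ext k
    simp only [Finset.mem_union, Finset.mem_filter, Finset.mem_univ, true_and, Fin.lt_def]
    constructor
    · rintro ⟨h1, h2, h3⟩
      by_cases h4 : t ≤ (w k).val
      · exact Or.inl ⟨h1, h4, h3⟩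
      · exact Or.inr ⟨h1, h2, not_le.mp h4⟩
    · rintro (⟨h1, h2, h3⟩ | ⟨h1, h2, h3⟩)
      · exact ⟨h1, hat.trans h2, h3⟩
      · exact ⟨h1, h2, lt_of_lt_of_le h3 htb⟩
  · rw [Finset.disjoint_left]
    intro k hk hk'
    simp only [Finset.mem_filter, Finset.mem_univ, true_and] at hk hk'
    omega

end XMM3

open XMM3 in
theorem I_MM3 : StMM3 := by
  intro n w v r s h i hi
  simp only [Trs, Finset.mem_filter, Finset.mem_univ, true_and] at hi
  obtain ⟨hir, hwi, hno⟩ := hi
  have hrs := h.hrs
  have hws := h.hws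
  have hWr := W_r w v r s i h hir
  have hWs := W_s w v r s i h hir
  have hWo := W_o w v r s i h
  set W := v * Equiv.swap i r with hW
  have hWb : ∀ b, i < b → b < r → W b = w b := fun b h1 h2 =>
    hWo b (ne_of_gt h1) (ne_of_lt h2) (ne_of_lt (h2.trans hrs))
  have hdich : ∀ b, i < b → b < r → w b < w i ∨ w s < w b := by
    intro b h1 h2
    rcases lt_trichotomy (w b) (w i) with h3 | h3 | h3
    · exact Or.inl h3
    · exact absurd (w.injective h3) (ne_of_gt h1)
    · rcases lt_trichotomy (w s) (w b) with h4 | h4 | h4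
      · exact Or.inr h4
      · exact absurd (w.injective h4) (ne_of_gt (h2.trans hrs))
      · exact absurd ⟨h3, h4⟩ (hno b h1 h2)
  refine ⟨hdich, ?_, ?_, ?_⟩
  · intro b t h1 h2 h3
    constructor
    · unfold mm
      rw [hWb b h1 h2]
      congr 1
      ext k
      simp only [Finset.mem_filter, Finset.mem_univ, true_and]
      by_cases hbk : b < k
      · have hki : k ≠ i := ne_of_gt (h1.trans hbk)
        by_cases hkr : k = r
        · subst hkr
          rw [hWr]
          constructor
          · rintro ⟨-, -, h5⟩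
            exact absurd h3 (not_lt.mpr h5.le)
          · rintro ⟨-, -, h5⟩
            exact absurd (h3.trans (hwi.trans hws)) (not_lt.mpr h5.le)
        by_cases hks : k = s
        · subst hks
          rw [hWs]
          constructor
          · rintro ⟨-, -, h5⟩
            exact absurd (h3.trans (hwi.trans hws)) (not_lt.mpr h5.le)
          · rintro ⟨-, -, h5⟩
            exact absurd (h3.trans hwi) (not_lt.mpr h5.le)
        rw [hWo k hki hkr hks]
      · constructor
        · rintro ⟨h5, -⟩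
          exact absurd h5 hbk
        · rintro ⟨h5, -⟩
          exact absurd h5 hbk
    · intro ht
      unfold mm
      rw [Finset.card_eq_zero, Finset.filter_eq_empty_iff]
      rintro k - ⟨-, h5, h6⟩
      rw [Fin.lt_def] at h6 h3
      omega
  · intro b t h1 h2 h3 ht
    unfold mm
    rw [hWb b h1 h2]
    apply Finset.card_equiv (Equiv.swap r s)
    intro k
    simp only [Finset.mem_filter, Finset.mem_univ, true_and]
    by_cases hkr : k = r
    · subst hkr
      rw [hWr, Equiv.swap_apply_left]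
      rw [Fin.lt_def] at hwi h3
      simp only [Fin.lt_def] at h1 h2 hrs ⊢
      omega
    by_cases hks : k = s
    · subst hks
      rw [hWs, Equiv.swap_apply_right]
      simp only [Fin.lt_def] at h1 h2 hrs ⊢
      omega
    rw [Equiv.swap_apply_of_ne_of_ne hkr hks]
    by_cases hki : k = i
    · subst hki
      constructor
      · rintro ⟨h5, -⟩
        exact absurd h1 (not_lt.mpr h5.le)
      · rintro ⟨h5, -⟩
        exact absurd h1 (not_lt.mpr h5.le)
    rw [hWo k hki hkr hks]
  · intro b t h1 h2 h3 ht1 ht2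
    constructor
    · unfold mm
      rw [hWb b h1 h2]
      have e1 : (Finset.univ.filter (fun k => b < k ∧ t ≤ (W k).val ∧ W k < w b)).card =
          ((Finset.univ.filter (fun k => b < k ∧ t ≤ (w k).val ∧ w k < w b)).erase s).card := by
        apply Finset.card_equiv (Equiv.swap r s)
        intro k
        simp only [Finset.mem_filter, Finset.mem_univ, true_and, Finset.mem_erase]
        by_cases hkr : k = r
        · subst hkr
          rw [hWr, Equiv.swap_apply_left]
          constructor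
          · rintro ⟨-, h5, -⟩
            omega
          · rintro ⟨h5, -⟩
            exact absurd rfl h5
        by_cases hks : k = s
        · subst hks
          rw [hWs, Equiv.swap_apply_right]
          simp only [Fin.lt_def] at h1 h2 hrs ⊢
          constructor
          · rintro ⟨h5, h6, h7⟩
            exact ⟨fun he => by rw [he] at hrs; omega, h2, h6, h7⟩
          · rintro ⟨-, h5, h6, h7⟩
            exact ⟨h2.trans hrs, h6, h7⟩
        rw [Equiv.swap_apply_of_ne_of_ne hkr hks]
        by_cases hki : k = i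
        · subst hki
          constructor
          · rintro ⟨h5, -⟩
            exact absurd h1 (not_lt.mpr h5.le)
          · rintro ⟨-, h5, -⟩
            exact absurd h1 (not_lt.mpr h5.le)
        rw [hWo k hki hkr hks]
        constructor
        · intro h5
          exact ⟨hks, h5⟩
        · rintro ⟨-, h5⟩
          exact h5
      have hs : s ∈ (Finset.univ.filter (fun k => b < k ∧ t ≤ (w k).val ∧ w k < w b)) := by
        simp only [Finset.mem_filter, Finset.mem_univ, true_and]
        exact ⟨h2.trans hrs, ht2, h3⟩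
      rw [e1, Finset.card_erase_add_one hs]
    · have hle : (w i).val ≤ t := ht1.le
      have htb : t ≤ (w b).val := by
        rw [Fin.lt_def] at h3; omega
      have htr : t ≤ (w r).val := by
        rw [Fin.lt_def] at hws; omega
      rw [mm_split w b (w i).val t hle htb, mm_split w r (w i).val t hle htr]
      have e2 : (Finset.univ.filter (fun k => b < k ∧ (w i).val ≤ (w k).val ∧ (w k).val < t)) =
          (Finset.univ.filter (fun k => r < k ∧ (w i).val ≤ (w k).val ∧ (w k).val < t)) := by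
        ext k
        simp only [Finset.mem_filter, Finset.mem_univ, true_and]
        constructor
        · rintro ⟨h5, h6, h7⟩
          refine ⟨?_, h6, h7⟩
          rcases lt_trichotomy k r with h8 | h8 | h8
          · exfalso
            rcases hdich k (h1.trans h5) h8 with h9 | h9
            · rw [Fin.lt_def] at h9; omega
            · rw [Fin.lt_def] at h9; omega
          · subst h8
            exfalso
            omega
          · exact h8
        · rintro ⟨h5, h6, h7⟩
          exact ⟨h2.trans h5, h6, h7⟩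
      rw [e2]
      omega

end Pool.Agent.Work.MP_ca14f8_co.QE

end

section

set_option autoImplicit false
open Classical

namespace Pool.Agent.Work.MP_ca14f8_co.QE

namespace XMix

/-- polynomial minor -/
noncomputable def mnP {ι : Type} [Fintype ι] [DecidableEq ι] (I : Finset ι) (ρ : ι → ι)
    (P : Matrix ι ι (Polynomial ℚ)) : Polynomial ℚ :=
  (Matrix.of (fun (a b : I) => P (ρ a) b)).det

theorem eval_mnP {ι : Type} [Fintype ι] [DecidableEq ι] (I : Finset ι) (ρ : ι → ι)
    (P : Matrix ι ι (Polynomial ℚ)) (ε : ℚ) :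
    (mnP I ρ P).eval ε = mn I ρ (P.map (fun p => p.eval ε)) := by
  unfold mnP mn
  rw [← Polynomial.coe_evalRingHom, RingHom.map_det]
  rfl

theorem key {S Z : Type} [Fintype S] (p : S → Polynomial ℚ) (q : S → Z → Polynomial ℚ)
    (h : ∀ z, ∑ s, p s * q s z = 0)
    (hli : LinearIndependent ℚ (fun s => fun z : Z => (q s z).eval 0)) : ∀ s, p s = 0 := by
  have h1 : ∀ m : ℕ, ∀ s, (Polynomial.X : Polynomial ℚ) ^ m ∣ p s := by
    intro m
    induction m with
    | zero => intro s; simp
    | succ m ih =>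
      choose p' hp' using ih
      have h2 : ∀ z, ∑ s, p' s * q s z = 0 := by
        intro z
        have h3 := h z
        have h4 : ∑ s, p s * q s z = Polynomial.X ^ m * ∑ s, p' s * q s z := by
          rw [Finset.mul_sum]
          refine Finset.sum_congr rfl (fun s _ => ?_)
          rw [hp' s]; ring
        rw [h4] at h3
        rcases mul_eq_zero.mp h3 with h5 | h5
        · exact absurd h5 (pow_ne_zero _ Polynomial.X_ne_zero)
        · exact h5
      have h3 : ∀ s, (p' s).eval 0 = 0 := by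
        rw [Fintype.linearIndependent_iff] at hli
        refine hli (fun s => (p' s).eval 0) ?_
        ext z
        have h4 := congrArg (Polynomial.eval 0) (h2 z)
        rw [Polynomial.eval_finsetSum] at h4
        simpa [Finset.sum_apply] using h4
      intro s
      have h4 : (Polynomial.X : Polynomial ℚ) ∣ p' s := by
        rw [Polynomial.X_dvd_iff, Polynomial.coeff_zero_eq_eval_zero]
        exact h3 s
      rw [hp' s, pow_succ]
      exact mul_dvd_mul_left _ h4
  intro s
  ext d
  have h2 := Polynomial.X_pow_dvd_iff.mp (h1 (d + 1) s) d (Nat.lt_succ_self d)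
  simpa using h2

theorem mn_block {n k : ℕ} (I : Finset (Fin n)) (r : Fin k → Fin n → Fin n)
    (x : Fin k → Matrix (Fin n) (Fin n) ℚ) (Y : Matrix (Fin n × Fin k) (Fin n × Fin k) ℚ)
    (hY : ∀ p q, Y p q ≠ 0 → p.2 < q.2) :
    mn (bl k I) (fun p => (r p.2 p.1, p.2)) (Matrix.blockDiagonal x + Y) =
      ∏ β, mn I (r β) (x β) := by
  unfold mn
  set M : Matrix (bl k I) (bl k I) ℚ :=
    Matrix.of (fun (a b : bl k I) =>
      (Matrix.blockDiagonal x + Y) (r a.1.2 a.1.1, a.1.2) b.1) with hM
  have hT : Matrix.BlockTriangular M (fun p : bl k I => p.1.2) := by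
    intro p q hpq
    have h1 : Y (r p.1.2 p.1.1, p.1.2) q.1 = 0 := by
      by_contra h2
      have h3 := hY _ _ h2
      exact absurd h3 (not_lt.mpr (le_of_lt hpq))
    have h2 : p.1.2 ≠ q.1.2 := ne_of_gt hpq
    rw [hM]
    simp only [Matrix.of_apply, Matrix.add_apply, h1, add_zero]
    rw [Matrix.blockDiagonal_apply]
    rw [if_neg h2]
  rw [hT.det_fintype]
  refine Finset.prod_congr rfl (fun β _ => ?_)
  let e : I ≃ {p : bl k I // p.1.2 = β} :=
    { toFun := fun a => ⟨⟨(a.1, β), by
        unfold bl; exact Finset.mem_product.mpr ⟨a.2, Finset.mem_univ _⟩⟩, rfl⟩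
      invFun := fun p => ⟨p.1.1.1, by
        have h := p.1.2
        unfold bl at h
        exact (Finset.mem_product.mp h).1⟩
      left_inv := fun a => rfl
      right_inv := by
        rintro ⟨⟨⟨a, b⟩, h⟩, h'⟩
        subst h'
        rfl }
  rw [← Matrix.det_submatrix_equiv_self e]
  congr 1
  ext a b
  have h1 : Y (r β a.1, β) (b.1, β) = 0 := by
    by_contra h2
    exact absurd (hY _ _ h2) (lt_irrefl _)
  simp only [Matrix.submatrix_apply, Matrix.toSquareBlock_def, Matrix.of_apply, hM, e,
    Equiv.coe_fn_mk, Matrix.add_apply, h1, add_zero, Matrix.blockDiagonal_apply, if_true]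

/-- row choice for the first product. -/
def R0 {n k D : ℕ} {κ : Type} (ρ : Fin D → κ → Fin n → Fin n) (A : Fin k → Fin D) (j : κ)
    (p : Fin n × Fin k) : Fin n × Fin k := (ρ (A p.2) j p.1, p.2)

end XMix

open XMix in
theorem I_Mix (hT : StTens) : StMix := by
  intro n k κ _ I K _ σ hσ S _ R hR
  have hfin0 : Module.Finite ℚ (Submodule.span ℚ
      (Set.range (fun (ρ : κ → Fin n → Fin n) => fun X : UT n => FF I ρ X.1))) :=
    Module.Finite.span_of_finite ℚ (Set.finite_range _)
  obtain ⟨f, hf, -, hli⟩ := Submodule.exists_fun_fin_finrank_span_eq ℚ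
    (Set.range (fun (ρ : κ → Fin n → Fin n) => fun X : UT n => FF I ρ X.1))
  choose ρ hρ using hf
  have hD : Module.finrank ℚ (Submodule.span ℚ
    (Set.range (fun (ρ : κ → Fin n → Fin n) => fun X : UT n => FF I ρ X.1))) = dV (UT n) I := rfl
  revert f ρ
  rw [hD]
  generalize dV (UT n) I = D
  intro f hli ρ hρ
  have hTens := hT (Fin k) (UT n) D f hli
  -- the family
  let ρG : (Fin k → Fin D) × S → (κ × Option K) → (Fin n × Fin k) → (Fin n × Fin k) :=
    fun AS p => match p.2 with
      | none => R0 ρ AS.1 p.1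
      | some γ => R AS.2 γ p.1
  let G : (Fin k → Fin D) × S → (XK n k → ℚ) := fun AS =>
    fun X => FF (fun p : κ × Option K => bl k (I p.1)) (ρG AS) X.1
  have hG : ∀ AS, G AS ∈ VS (XK n k) (fun p : κ × Option K => bl k (I p.1)) := by
    intro AS
    exact Submodule.subset_span ⟨ρG AS, rfl⟩
  have hGval : ∀ AS X, G AS X = (∏ j, mn (bl k (I j)) (R0 ρ AS.1 j) X.1) *
      ∏ γ, ∏ j, mn (bl k (I j)) (R AS.2 γ j) X.1 := by
    intro AS X
    show FF (fun p : κ × Option K => bl k (I p.1)) (ρG AS) X.1 = _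
    unfold FF
    rw [Fintype.prod_prod_type, Finset.prod_comm (s := (Finset.univ : Finset K)),
      ← Finset.prod_mul_distrib]
    refine Finset.prod_congr rfl (fun j _ => ?_)
    rw [Fintype.prod_option]
  have hindep : LinearIndependent ℚ G := by
    rw [Fintype.linearIndependent_iff]
    intro c hc
    -- the identity
    have hc1 : ∀ X : XK n k, ∑ AS, c AS * G AS X = 0 := by
      intro X
      have := congrFun hc X
      simpa [Finset.sum_apply] using this
    have hc2 : ∀ X : XK n k, ∑ s, (∑ A, c (A, s) * ∏ j, mn (bl k (I j)) (R0 ρ A j) X.1) *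
        ∏ γ, ∏ j, mn (bl k (I j)) (R s γ j) X.1 = 0 := by
      intro X
      rw [← hc1 X, Fintype.sum_prod_type_right]
      refine Finset.sum_congr rfl (fun s _ => ?_)
      rw [Finset.sum_mul]
      refine Finset.sum_congr rfl (fun A _ => ?_)
      rw [hGval]
      ring
    -- the point
    have hmem : ∀ (x : Fin k → UT n) (Y : YK n k σ),
        Matrix.blockDiagonal (fun β => (x β).1) + Y.1 ∈ XK n k := by
      intro x Y p q hpq
      have h1 : Y.1 p q = 0 := by
        by_contra h2
        exact hpq (Y.2 p q h2).1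
      rw [Matrix.add_apply, h1, add_zero]
      obtain ⟨p1, p2⟩ := p
      obtain ⟨q1, q2⟩ := q
      rw [Matrix.blockDiagonal_apply]
      by_cases h3 : p2 = q2
      · subst h3
        rw [if_pos rfl]
        by_cases h4 : p1 = q1
        · subst h4
          rw [if_pos rfl]
          exact (x p2).2.2 p1
        · rw [if_neg (by rintro h5; exact h4 (congrArg Prod.fst h5))]
          refine (x p2).2.1 p1 q1 ?_
          exact lt_of_le_of_ne (not_lt.mp hpq) (Ne.symm h4)
      · rw [if_neg h3, if_neg (by rintro h5; exact h3 (congrArg Prod.snd h5))]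
    have hYlt : ∀ (Y : YK n k σ) p q, Y.1 p q ≠ 0 → p.2 < q.2 := by
      intro Y p q h
      obtain ⟨_, γ, hγ⟩ := Y.2 p q h
      have := hσ γ
      rw [Fin.lt_def]
      omega
    have hfirst : ∀ (x : Fin k → UT n) (Y : YK n k σ) (A : Fin k → Fin D),
        ∏ j, mn (bl k (I j)) (R0 ρ A j) (Matrix.blockDiagonal (fun β => (x β).1) + Y.1) =
          ∏ β, f (A β) (x β) := by
      intro x Y A
      have h1 : ∀ j, mn (bl k (I j)) (R0 ρ A j)
          (Matrix.blockDiagonal (fun β => (x β).1) + Y.1) =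
          ∏ β, mn (I j) (ρ (A β) j) (x β).1 := by
        intro j
        exact mn_block (I j) (fun β => ρ (A β) j) (fun β => (x β).1) Y.1 (hYlt Y)
      rw [Finset.prod_congr rfl (fun j _ => h1 j), Finset.prod_comm]
      refine Finset.prod_congr rfl (fun β _ => ?_)
      rw [← hρ (A β)]
      rfl
    have hc3 : ∀ (x : Fin k → UT n) (Y : YK n k σ),
        ∑ s, (∑ A, c (A, s) * ∏ β, f (A β) (x β)) *
        ∏ γ, ∏ j, mn (bl k (I j)) (R s γ j)
          (Matrix.blockDiagonal (fun β => (x β).1) + Y.1) = 0 := by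
      intro x Y
      rw [← hc2 ⟨_, hmem x Y⟩]
      refine Finset.sum_congr rfl (fun s _ => ?_)
      congr 1
      refine Finset.sum_congr rfl (fun A _ => ?_)
      rw [hfirst x Y A]
    -- the polynomials
    have hc4 : ∀ (x : Fin k → UT n) (s : S), ∑ A, c (A, s) * ∏ β, f (A β) (x β) = 0 := by
      intro x
      -- line
      have hline : ∀ (ε : ℚ) (β : Fin k),
          (1 : Matrix (Fin n) (Fin n) ℚ) + ε • ((x β).1 - 1) ∈ UT n := by
        intro ε β
        refine ⟨?_, ?_⟩
        · intro a b hab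
          have h1 := (x β).2.1 a b hab
          simp [Matrix.add_apply, Matrix.smul_apply, Matrix.sub_apply, h1,
            Matrix.one_apply_ne (ne_of_gt hab)]
        · intro a
          have h1 := (x β).2.2 a
          simp [Matrix.add_apply, Matrix.smul_apply, Matrix.sub_apply, h1]
      let xl : ℚ → Fin k → UT n := fun ε β => ⟨_, hline ε β⟩
      let P : Fin k → Matrix (Fin n) (Fin n) (Polynomial ℚ) := fun β =>
        Matrix.of (fun a b => Polynomial.C ((1 : Matrix (Fin n) (Fin n) ℚ) a b) +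
          Polynomial.X * Polynomial.C (((x β).1 - 1) a b))
      have hP : ∀ ε β, (P β).map (fun p => p.eval ε) = (xl ε β).1 := by
        intro ε β
        ext a b
        simp [P, xl, Matrix.map_apply]
      let p : S → Polynomial ℚ := fun s =>
        ∑ A, Polynomial.C (c (A, s)) * ∏ β, ∏ j, mnP (I j) (ρ (A β) j) (P β)
      let q : S → YK n k σ → Polynomial ℚ := fun s Y =>
        ∏ γ, ∏ j, mnP (bl k (I j)) (R s γ j)
          (Matrix.blockDiagonal P + Y.1.map Polynomial.C)
      have hp : ∀ ε s, (p s).eval ε = ∑ A, c (A, s) * ∏ β, f (A β) (xl ε β) := by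
        intro ε s
        simp only [p, Polynomial.eval_finsetSum, Polynomial.eval_mul, Polynomial.eval_C,
          Polynomial.eval_prod, eval_mnP, hP]
        refine Finset.sum_congr rfl (fun A _ => ?_)
        congr 1
        refine Finset.prod_congr rfl (fun β _ => ?_)
        rw [← hρ (A β)]
        rfl
      have hq : ∀ ε s Y, (q s Y).eval ε = ∏ γ, ∏ j, mn (bl k (I j)) (R s γ j)
          (Matrix.blockDiagonal (fun β => (xl ε β).1) + Y.1) := by
        intro ε s Y
        simp only [q, Polynomial.eval_prod, eval_mnP]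
        refine Finset.prod_congr rfl (fun γ _ => Finset.prod_congr rfl (fun j _ => ?_))
        congr 1
        ext a b
        simp only [Matrix.map_apply, Matrix.add_apply, Matrix.blockDiagonal_apply,
          Polynomial.eval_add, Polynomial.eval_C]
        congr 1
        split_ifs with h
        · rw [← hP ε a.2]
          rfl
        · simp
      have hpq : ∀ Y, ∑ s, p s * q s Y = 0 := by
        intro Y
        refine Polynomial.funext (fun ε => ?_)
        rw [Polynomial.eval_finsetSum, Polynomial.eval_zero, ← hc3 (xl ε) Y]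
        refine Finset.sum_congr rfl (fun s _ => ?_)
        rw [Polynomial.eval_mul, hp, hq]
      have hq0 : LinearIndependent ℚ (fun s => fun Y : YK n k σ => (q s Y).eval 0) := by
        have h1 : (fun s => fun Y : YK n k σ => (q s Y).eval 0) =
            (fun s => fun Y : YK n k σ =>
              ∏ γ, ∏ j, mn (bl k (I j)) (R s γ j) (1 + Y.1)) := by
          funext s Y
          rw [hq]
          have h2 : Matrix.blockDiagonal (fun β => (xl 0 β).1) =
              (1 : Matrix (Fin n × Fin k) (Fin n × Fin k) ℚ) := by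
            have h3 : (fun β => (xl 0 β).1) = (1 : Fin k → Matrix (Fin n) (Fin n) ℚ) := by
              funext β
              simp [xl]
            rw [h3, Matrix.blockDiagonal_one]
          rw [h2]
        rw [h1]
        exact hR
      have hp0 := key p q hpq hq0
      intro s
      have h1 := hp 1 s
      rw [hp0 s, Polynomial.eval_zero] at h1
      rw [h1]
      refine Finset.sum_congr rfl (fun A _ => ?_)
      congr 1
      refine Finset.prod_congr rfl (fun β _ => ?_)
      congr 1
      apply Subtype.ext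
      simp [xl]
    rintro ⟨A, s⟩
    rw [Fintype.linearIndependent_iff] at hTens
    refine hTens (fun A => c (A, s)) ?_ A
    funext z
    have := hc4 z s
    simpa [Finset.sum_apply] using this
  -- the dimension
  have hfin : Module.Finite ℚ (VS (XK n k) (fun p : κ × Option K => bl k (I p.1))) := by
    unfold VS
    exact Module.Finite.span_of_finite ℚ (Set.finite_range _)
  let G' : (Fin k → Fin D) × S → VS (XK n k) (fun p : κ × Option K => bl k (I p.1)) :=
    fun AS => ⟨G AS, hG AS⟩
  have hG' : LinearIndependent ℚ G' := by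
    apply LinearIndependent.of_comp (Submodule.subtype _)
    exact hindep
  have h1 := hG'.fintype_card_le_finrank
  rw [Fintype.card_prod, Fintype.card_fun, Fintype.card_fin, Fintype.card_fin] at h1
  exact h1

end Pool.Agent.Work.MP_ca14f8_co.QE

end

section

set_option autoImplicit false
open Classical

namespace Pool.Agent.Work.MP_ca14f8_co.QE

namespace XSemi

/-- the evaluation vectors of independent functions span -/
theorem span_top {S Z : Type} [Fintype S] (g : S → Z → ℚ) (hg : LinearIndependent ℚ g) :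
    Submodule.span ℚ (Set.range (fun (z : Z) (s : S) => g s z)) = ⊤ := by
  by_contra h
  have h1 : Submodule.span ℚ (Set.range (fun (z : Z) (s : S) => g s z)) < ⊤ :=
    lt_top_iff_ne_top.2 h
  obtain ⟨f, hf, hle⟩ := Submodule.exists_le_ker_of_lt_top _ h1
  apply hf
  have hrep : ∀ x : S → ℚ, f x = ∑ s, x s * f (Pi.single s 1) := by
    intro x
    conv_lhs => rw [← Finset.univ_sum_single x, map_sum]
    refine Finset.sum_congr rfl fun s _ => ?_
    have : (Pi.single s (x s) : S → ℚ) = x s • Pi.single s (1 : ℚ) := by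
      rw [← Pi.single_smul, smul_eq_mul, mul_one]
    rw [this, map_smul, smul_eq_mul]
  have h2 : ∀ s, f (Pi.single s 1) = 0 := by
    rw [Fintype.linearIndependent_iff] at hg
    refine hg (fun s => f (Pi.single s 1)) ?_
    funext z
    have h3 : f (fun s => g s z) = 0 := by
      have : (fun s => g s z) ∈ Submodule.span ℚ (Set.range (fun (z : Z) (s : S) => g s z)) :=
        Submodule.subset_span ⟨z, rfl⟩
      exact LinearMap.mem_ker.1 (hle this)
    rw [hrep] at h3
    simp only [Finset.sum_apply, Pi.smul_apply, smul_eq_mul, Pi.zero_apply]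
    rw [← h3]
    exact Finset.sum_congr rfl fun s _ => mul_comm _ _
  refine LinearMap.ext fun x => ?_
  rw [hrep]
  simp [h2]

/-- good points -/
theorem points {S Z : Type} [Fintype S] (g : S → Z → ℚ) (hg : LinearIndependent ℚ g) :
    ∃ z : S → Z, (Matrix.of (fun s s' : S => g s (z s'))).det ≠ 0 := by
  have hsp := span_top g hg
  obtain ⟨κ, a, _, h1, h2⟩ := exists_linearIndependent' ℚ (fun (z : Z) (s : S) => g s z)
  rw [hsp] at h1
  let b : Module.Basis κ ℚ (S → ℚ) := Module.Basis.mk h2 h1.ge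
  haveI : Finite κ := Module.Finite.finite_basis b
  haveI : Fintype κ := Fintype.ofFinite κ
  have hc : Fintype.card κ = Fintype.card S := by
    rw [← Module.finrank_eq_card_basis b, Module.finrank_fintype_fun_eq_card]
  let e : S ≃ κ := (Fintype.equivOfCardEq hc).symm
  refine ⟨fun s => a (e s), ?_⟩
  have h3 : LinearIndependent ℚ (Matrix.of (fun s s' : S => g s (a (e s')))).col := by
    have := h2.comp e e.injective
    exact this
  rw [Matrix.linearIndependent_cols_iff_isUnit, Matrix.isUnit_iff_isUnit_det] at h3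
  exact h3.ne_zero

end XSemi

theorem I_Semi : StSemi := by
  intro S Z _ P hP
  obtain ⟨z, hz⟩ := XSemi.points _ hP
  let M : Matrix S S (Polynomial ℚ) := Matrix.of fun s s' => P s (z s')
  have hev : ∀ t : ℚ, M.det.eval t = (Matrix.of (fun s s' : S => (P s (z s')).eval t)).det := by
    intro t
    have := RingHom.map_det (Polynomial.evalRingHom t) M
    rw [Polynomial.coe_evalRingHom] at this
    rw [this]
    rfl
  have hM : M.det ≠ 0 := by
    intro h
    apply hz
    rw [← hev 0, h, Polynomial.eval_zero]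
  have hX : Polynomial.X * M.det ≠ 0 := mul_ne_zero Polynomial.X_ne_zero hM
  obtain ⟨t, ht⟩ : ∃ t : ℚ, (Polynomial.X * M.det).eval t ≠ 0 := by
    by_contra h
    push Not at h
    exact hX (Polynomial.funext fun t => by rw [h t, Polynomial.eval_zero])
  rw [Polynomial.eval_mul, Polynomial.eval_X] at ht
  refine ⟨t, left_ne_zero_of_mul ht, ?_⟩
  have hd := right_ne_zero_of_mul ht
  rw [hev] at hd
  rw [Fintype.linearIndependent_iff]
  intro c hc
  have h1 : Matrix.vecMul c (Matrix.of (fun s s' : S => (P s (z s')).eval t)) = 0 := by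
    funext s'
    have := congrFun hc (z s')
    simp only [Finset.sum_apply, Pi.smul_apply, smul_eq_mul, Pi.zero_apply] at this
    simp only [Matrix.vecMul, dotProduct, Matrix.of_apply, Pi.zero_apply]
    exact this
  have h2 := Matrix.eq_zero_of_vecMul_eq_zero hd h1
  intro s
  rw [h2]
  rfl

end Pool.Agent.Work.MP_ca14f8_co.QE

end

section

/-!
Block QE of MP_ca14f8_co: the finite difference `tau` on products of minors.
-/

set_option autoImplicit false
open Classical

namespace Pool.Agent.Work.MP_ca14f8_co.QE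

namespace XTau

/-- finite differences of a polynomial of degree at most `β`. -/
theorem fd_poly (P : Polynomial ℚ) (β : ℕ) (h : P.natDegree ≤ β) :
    ∑ t ∈ Finset.range (β + 1), (-1 : ℚ) ^ (β - t) * (β.choose t : ℚ) * P.eval (t : ℚ) =
      (β.factorial : ℚ) * P.coeff β := by
  have e := fwdDiff_iter_eq_sum_shift (1 : ℚ) (fun x => P.eval x) β 0
  have e2 : ∑ t ∈ Finset.range (β + 1), (-1 : ℚ) ^ (β - t) * (β.choose t : ℚ) * P.eval (t : ℚ) =
      ((fwdDiff (1 : ℚ))^[β] (fun x => P.eval x)) 0 := by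
    rw [e]
    refine Finset.sum_congr rfl fun t _ => ?_
    rw [zsmul_eq_mul]
    push_cast
    simp
  rw [e2]
  rcases Nat.lt_or_eq_of_le h with h | h
  · rw [Polynomial.coeff_eq_zero_of_natDegree_lt h, mul_zero,
      Polynomial.fwdDiff_iter_eq_zero_of_degree_lt h]
    rfl
  · subst h
    rw [P.fwdDiff_iter_degree_eq_factorial]
    rw [Pi.smul_apply, Pi.natCast_apply, smul_eq_mul, mul_comm]
    rfl

theorem mul_apply {n : ℕ} (X : Matrix (Fin n) (Fin n) ℚ) (i r : Fin n) (t : ℚ) (a b : Fin n) :
    (X * (1 + t • Matrix.single i r (1 : ℚ))) a b = X a b + if b = r then t * X a i else 0 := by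
  rw [mul_add, mul_one, Matrix.add_apply, Matrix.mul_smul, Matrix.smul_apply]
  congr 1
  split_ifs with h
  · subst h
    simp
  · rw [Matrix.mul_single_apply_of_ne]
    · simp
    · exact h

theorem mem_UT {n : ℕ} {X : Matrix (Fin n) (Fin n) ℚ} (hX : X ∈ UT n) {i r : Fin n} (hir : i < r)
    (t : ℚ) : X * (1 + t • Matrix.single i r (1 : ℚ)) ∈ UT n := by
  refine ⟨fun a b hab => ?_, fun a => ?_⟩
  · rw [mul_apply, hX.1 a b hab]
    split_ifs with h
    · subst h
      rw [hX.1 a i (hir.trans hab)]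
      ring
    · ring
  · rw [mul_apply, hX.2 a]
    split_ifs with h
    · subst h
      rw [hX.1 a i hir]
      ring
    · ring

theorem mn_col {n : ℕ} (I : Finset (Fin n)) (ρ : Fin n → Fin n) (X : Matrix (Fin n) (Fin n) ℚ)
    (i r : Fin n) (hir : i < r) (t : ℚ) :
    mn I ρ (X * (1 + t • Matrix.single i r (1 : ℚ))) =
      if r ∈ I ∧ i ∉ I then mn I ρ X + mc I (Function.update id r i) ρ X * t else mn I ρ X := by
  by_cases hr : r ∈ I
  · have key : mn I ρ (X * (1 + t • Matrix.single i r (1 : ℚ))) =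
        mn I ρ X + t * (Matrix.updateCol (Matrix.of (fun (a b : I) => X (ρ a) b)) ⟨r, hr⟩
          (fun a => X (ρ a) i)).det := by
      have e1 : (Matrix.of (fun (a b : I) =>
          (X * (1 + t • Matrix.single i r (1 : ℚ))) (ρ a) b)) =
          Matrix.updateCol (Matrix.of (fun (a b : I) => X (ρ a) b)) ⟨r, hr⟩
            ((fun a : I => X (ρ a) r) + t • (fun a : I => X (ρ a) i)) := by
        ext a b
        rw [Matrix.of_apply, mul_apply, Matrix.updateCol_apply]
        by_cases hb : b = ⟨r, hr⟩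
        · subst hb
          simp
        · have hb' : (b : Fin n) ≠ r := fun h => hb (Subtype.ext h)
          simp [hb, hb']
      unfold mn
      rw [e1, Matrix.det_updateCol_add, Matrix.det_updateCol_smul]
      congr 2
      have e2 : (fun a : I => X (ρ a) r) =
          fun a : I => (Matrix.of (fun (a b : I) => X (ρ a) b)) a ⟨r, hr⟩ := by
        funext a
        rfl
      rw [e2]
      exact Matrix.updateCol_eq_self _ _
    rw [key]
    by_cases hi : i ∈ I
    · rw [if_neg (by tauto)]
      have hne : (⟨i, hi⟩ : I) ≠ ⟨r, hr⟩ := fun h => (ne_of_lt hir) (congrArg Subtype.val h)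
      rw [Matrix.det_zero_of_column_eq hne]
      · ring
      · intro k
        rw [Matrix.updateCol_apply, Matrix.updateCol_apply, if_neg hne, if_pos rfl]
        rfl
    · rw [if_pos ⟨hr, hi⟩, mul_comm t]
      congr 2
      unfold mc
      congr 1
      ext a b
      rw [Matrix.updateCol_apply, Matrix.of_apply]
      by_cases hb : b = ⟨r, hr⟩
      · subst hb
        simp
      · have hb' : (b : Fin n) ≠ r := fun h => hb (Subtype.ext h)
        simp [hb, hb']
  · rw [if_neg (by tauto)]
    unfold mn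
    congr 1
    ext a b
    rw [Matrix.of_apply, Matrix.of_apply, mul_apply, if_neg, add_zero]
    intro h
    exact hr (h ▸ b.2)

open Polynomial in
theorem prod_poly {κ : Type} (s : Finset κ) (c : κ → Prop) [DecidablePred c] (a d : κ → ℚ) :
    (∏ j ∈ s, (if c j then (C (a j) + C (d j) * X : ℚ[X]) else C (a j))).natDegree ≤
        (s.filter c).card ∧
      (∏ j ∈ s, (if c j then (C (a j) + C (d j) * X : ℚ[X]) else C (a j))).coeff
        (s.filter c).card = ∏ j ∈ s, (if c j then d j else a j) := by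
  induction s using Finset.induction_on with
  | empty => simp
  | insert j s hj ih =>
    obtain ⟨h1, h2⟩ := ih
    rw [Finset.prod_insert hj, Finset.prod_insert hj, Finset.filter_insert]
    by_cases hc : c j
    · have hd : (C (a j) + C (d j) * X : ℚ[X]).natDegree ≤ 1 := by
        compute_degree
      have hj' : j ∉ s.filter c := fun h => hj (Finset.mem_filter.1 h).1
      simp only [hc, if_true]
      rw [Finset.card_insert_of_notMem hj', add_comm (s.filter c).card 1]
      refine ⟨le_trans Polynomial.natDegree_mul_le (add_le_add hd h1), ?_⟩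
      rw [Polynomial.coeff_mul_add_eq_of_natDegree_le hd h1, h2]
      congr 1
      simp
    · simp only [hc, if_false]
      refine ⟨le_trans Polynomial.natDegree_mul_le (by simpa using h1), ?_⟩
      rw [Polynomial.coeff_C_mul, h2]

theorem tau_FF {n : ℕ} (I : Fin n → Finset (Fin n)) (ρ : Fin n → Fin n → Fin n)
    (i r : Fin n) (β : ℕ) (hir : i < r)
    (hc : (Finset.univ.filter (fun j => r ∈ I j ∧ i ∉ I j)).card ≤ β) (X : UT n) :
    tau i r β (fun X => FF I ρ X.1) X = (β.factorial : ℚ) *
      (∏ j, (if r ∈ I j ∧ i ∉ I j then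
        (Polynomial.C (mn (I j) (ρ j) X.1) +
          Polynomial.C (mc (I j) (Function.update id r i) (ρ j) X.1) * Polynomial.X :
            Polynomial ℚ) else Polynomial.C (mn (I j) (ρ j) X.1))).coeff β := by
  have h := prod_poly Finset.univ (fun j => r ∈ I j ∧ i ∉ I j)
    (fun j => mn (I j) (ρ j) X.1) (fun j => mc (I j) (Function.update id r i) (ρ j) X.1)
  rw [← fd_poly _ β (le_trans h.1 hc)]
  unfold tau
  refine Finset.sum_congr rfl fun t _ => ?_
  congr 1
  rw [ext, dif_pos (mem_UT X.2 hir _)]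
  show FF I ρ _ = _
  unfold FF
  rw [Polynomial.eval_prod]
  refine Finset.prod_congr rfl fun j _ => ?_
  rw [mn_col _ _ _ _ _ hir]
  split_ifs with hcj
  · simp
  · simp

end XTau

open XTau in
theorem I_Tau : StTau := by
  intro n I ρ i r β hir
  refine ⟨fun hc => ?_, fun hc => ?_⟩
  · funext X
    rw [tau_FF I ρ i r β hir hc.le X]
    have h := prod_poly Finset.univ (fun j => r ∈ I j ∧ i ∉ I j)
      (fun j => mn (I j) (ρ j) X.1) (fun j => mc (I j) (Function.update id r i) (ρ j) X.1)
    rw [Polynomial.coeff_eq_zero_of_natDegree_lt (lt_of_le_of_lt h.1 hc)]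
    simp
  · funext X
    rw [tau_FF I ρ i r β hir hc.le X]
    have h := prod_poly Finset.univ (fun j => r ∈ I j ∧ i ∉ I j)
      (fun j => mn (I j) (ρ j) X.1) (fun j => mc (I j) (Function.update id r i) (ρ j) X.1)
    rw [← hc, h.2]

end Pool.Agent.Work.MP_ca14f8_co.QE

end

section

set_option autoImplicit false
open Classical

namespace Pool.Agent.Work.MP_ca14f8_co.QE

namespace XUCon

variable {n : ℕ}

noncomputable def AA (b : Fin n) (σ : Fin n → ℚ) : Matrix (Fin n) (Fin n) ℚ :=
  Matrix.of (fun a c => if c = b then σ a else 0)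

lemma AA_sq (b : Fin n) (σ : Fin n → ℚ) (h : σ b = 0) : AA b σ * AA b σ = 0 := by
  ext a c
  rw [Matrix.mul_apply]
  simp only [AA, Matrix.of_apply, Matrix.zero_apply]
  rw [Finset.sum_eq_single b]
  · simp [h]
  · intro d _ hd
    simp [hd]
  · intro hb
    exact absurd (Finset.mem_univ b) hb

lemma eop_AA {β : Type} [DecidableEq β] [Fintype β] (b : Fin n) (σ : Fin n → ℚ) :
    Lin (fun a b : Fin n => (eop (β := β) (Matrix.single a b (1 : ℚ)))) b σ
      = eop (β := β) (AA b σ) := by
  apply LinearMap.ext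
  intro t
  funext ρ
  simp only [Lin, eop, LinearMap.sum_apply, LinearMap.smul_apply, Finset.sum_apply, Pi.smul_apply,
    op, LinearMap.coe_mk, AddHom.coe_mk, smul_eq_mul, Finset.mul_sum]
  rw [Finset.sum_comm]
  apply Finset.sum_congr rfl
  intro x _
  rw [Finset.sum_comm]
  apply Finset.sum_congr rfl
  intro c _
  simp only [AA, Matrix.of_apply, Matrix.single_apply]
  rw [Finset.sum_eq_single (ρ x)]
  · by_cases hc : c = b
    · subst hc
      simp
    · have : ¬ (b = c) := fun h => hc h.symm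
      simp [hc, this]
  · intro a _ ha
    simp [ha]
  · intro hb
    exact absurd (Finset.mem_univ _) hb

lemma fac (I : Finset (Fin n)) (b : Fin n) (σ : Fin n → ℚ) (hσb : σ b = 0) (g : I → Fin n) :
    ∃ c d : ℚ, (∀ t : ℚ, (Matrix.of (fun (a b' : I) =>
        ((1 : Matrix (Fin n) (Fin n) ℚ) + t • AA b σ) (g a) b')).det = c + t * d) ∧
      ((b ∈ I → ∀ a, σ a ≠ 0 → a ∈ I) → d = 0) := by
  by_cases hb : b ∈ I
  · set M0 : Matrix I I ℚ := Matrix.of (fun (a b' : I) => (1 : Matrix (Fin n) (Fin n) ℚ) (g a) b')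
      with hM0
    refine ⟨M0.det, (M0.updateCol ⟨b, hb⟩ (fun a => σ (g a))).det, ?_, ?_⟩
    · intro t
      have h1 : (Matrix.of (fun (a b' : I) =>
          ((1 : Matrix (Fin n) (Fin n) ℚ) + t • AA b σ) (g a) b'))
          = M0.updateCol ⟨b, hb⟩ ((fun a => M0 a ⟨b, hb⟩) + t • (fun a => σ (g a))) := by
        ext a b'
        by_cases hbb : b' = ⟨b, hb⟩
        · subst hbb
          simp [M0, AA]
        · have hne : (b' : Fin n) ≠ b := by
            intro h
            exact hbb (Subtype.ext h)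
          rw [Matrix.updateCol_ne hbb]
          simp [M0, AA, hne]
      rw [h1, Matrix.det_updateCol_add, Matrix.det_updateCol_smul]
      congr 1
      rw [Matrix.updateCol_eq_self]
    · intro h
      have h2 : (fun a : I => σ (g a)) = (fun k => ∑ i : I, (σ i) • M0 k i) := by
        funext k
        simp only [M0, Matrix.of_apply, Matrix.one_apply, smul_eq_mul, mul_ite, mul_one, mul_zero]
        by_cases hk : g k ∈ I
        · rw [Finset.sum_eq_single ⟨g k, hk⟩]
          · simp
          · intro i _ hi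
            rw [if_neg]
            intro h3
            exact hi (Subtype.ext h3.symm)
          · intro h3
            exact absurd (Finset.mem_univ _) h3
        · have h4 : σ (g k) = 0 := by
            by_contra h5
            exact hk (h hb _ h5)
          rw [h4]
          symm
          apply Finset.sum_eq_zero
          intro i _
          rw [if_neg]
          intro h3
          exact hk (h3 ▸ i.2)
      rw [h2, Matrix.det_updateCol_sum]
      simp [hσb]
  · refine ⟨(Matrix.of (fun (a b' : I) => (1 : Matrix (Fin n) (Fin n) ℚ) (g a) b')).det, 0, ?_, ?_⟩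
    · intro t
      rw [mul_zero, add_zero]
      congr 1
      ext a b'
      have hne : (b' : Fin n) ≠ b := by
        intro h
        exact hb (h ▸ b'.2)
      simp [AA, hne]
    · intro _
      rfl

end XUCon

open XUCon in
theorem I_UCon (hE : StExp) : StUCon := by
  intro n w b t0 σ hS
  have hσb : σ b = 0 := by
    by_contra h
    exact absurd (hS b h).1 (lt_irrefl _)
  rw [eop_AA]
  obtain ⟨hnil, hexp⟩ := hE n (Ic w) (AA b σ) 1 (AA_sq b σ hσb)
  set N := Fintype.card (Σ j, Ic w j) with hN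
  set m := mm w b t0 with hm
  by_cases hmN : N < m + 1
  · have : (eop (β := (Σ j, Ic w j)) (AA b σ)) ^ (m + 1) = 0 := by
      have h1 : m + 1 = (N + 1) + (m - N) := by omega
      rw [h1, pow_add, hnil, zero_mul]
    rw [this]
    rfl
  · rw [not_lt] at hmN
    funext ρ
    have hf : ∀ j, ∃ c d : ℚ, (∀ t : ℚ, (Matrix.of (fun (a b' : Ic w j) =>
        ((1 : Matrix (Fin n) (Fin n) ℚ) + t • AA b σ) (ρ ⟨j, a⟩) b')).det = c + t * d) ∧
        ((b ∈ Ic w j → ∀ a, σ a ≠ 0 → a ∈ Ic w j) → d = 0) := fun j =>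
      fac (Ic w j) b σ hσb (fun a => ρ ⟨j, a⟩)
    choose c d hcd hd using hf
    have hd' : ∀ j, ¬ (b ∈ Ic w j ∧ t0 ≤ j.val) → d j = 0 := by
      intro j hj
      apply hd
      intro hb a ha
      obtain ⟨h1, h2⟩ := hS a ha
      have h3 : j.val < t0 := by
        by_contra h4
        exact hj ⟨hb, not_lt.mp h4⟩
      rw [Ic, Finset.mem_filter] at hb ⊢
      refine ⟨Finset.mem_univ _, lt_trans h1 hb.2.1, ?_⟩
      rw [Fin.lt_def]
      omega
    set v : ℕ → ℚ := fun k => (((eop (β := (Σ j, Ic w j)) (AA b σ)) ^ k) (UU (Ic w) 1)) ρ with hv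
    set P : Polynomial ℚ := ∑ k ∈ Finset.range (N + 1),
      Polynomial.C (v k / (k.factorial : ℚ)) * Polynomial.X ^ k with hP
    set Q : Polynomial ℚ := ∏ j : Fin n, (Polynomial.C (d j) * Polynomial.X + Polynomial.C (c j))
      with hQ
    have hPQ : P = Q := by
      apply Polynomial.funext
      intro t
      have h1 := congrFun (hexp t) ρ
      rw [mul_one] at h1
      have h2 : Q.eval t = UU (Ic w) (1 + t • AA b σ) ρ := by
        rw [hQ, Polynomial.eval_prod]
        unfold UU
        apply Finset.prod_congr rfl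
        intro j _
        rw [hcd j t]
        simp
        ring
      rw [h2, h1, hP, Polynomial.eval_finsetSum, Finset.sum_apply]
      apply Finset.sum_congr rfl
      intro k _
      simp only [Polynomial.eval_mul, Polynomial.eval_C, Polynomial.eval_pow, Polynomial.eval_X,
        Pi.smul_apply, smul_eq_mul, hv]
      ring
    have hQd : Q.natDegree ≤ m := by
      rw [hQ]
      refine le_trans (Polynomial.natDegree_prod_le _ _) ?_
      have h1 : ∀ j : Fin n, (Polynomial.C (d j) * Polynomial.X + Polynomial.C (c j)).natDegree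
          ≤ if (b ∈ Ic w j ∧ t0 ≤ j.val) then 1 else 0 := by
        intro j
        split_ifs with h
        · exact Polynomial.natDegree_linear_le
        · rw [hd' j h]
          simp
      refine le_trans (Finset.sum_le_sum (fun j _ => h1 j)) ?_
      rw [← Finset.card_filter]
      rw [hm, mm]
      have h2 : (Finset.univ.filter (fun j : Fin n => b ∈ Ic w j ∧ t0 ≤ j.val)) ⊆
          (Finset.univ.filter (fun k => b < k ∧ t0 ≤ (w k).val ∧ w k < w b)).image w := by
        intro j hj
        rw [Finset.mem_filter] at hj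
        obtain ⟨_, hj1, hj2⟩ := hj
        rw [Ic, Finset.mem_filter] at hj1
        rw [Finset.mem_image]
        refine ⟨w.symm j, ?_, by simp⟩
        rw [Finset.mem_filter]
        refine ⟨Finset.mem_univ _, hj1.2.1, ?_, ?_⟩
        · simpa using hj2
        · simpa using hj1.2.2
      exact le_trans (Finset.card_le_card h2) Finset.card_image_le
    have hc : P.coeff (m + 1) = 0 := by
      rw [hPQ]
      apply Polynomial.coeff_eq_zero_of_natDegree_lt
      omega
    rw [hP, Polynomial.finsetSum_coeff] at hc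
    simp only [Polynomial.coeff_C_mul, Polynomial.coeff_X_pow, mul_ite, mul_one, mul_zero] at hc
    rw [Finset.sum_eq_single (m + 1)] at hc
    · rw [if_pos rfl] at hc
      have h5 : ((m + 1).factorial : ℚ) ≠ 0 := by
        exact_mod_cast (Nat.factorial_pos _).ne'
      have h6 : v (m + 1) = 0 := by
        rcases div_eq_zero_iff.mp hc with h | h
        · exact h
        · exact absurd h h5
      exact h6
    · intro k _ hk
      rw [if_neg (fun h => hk h.symm)]
    · intro h
      exfalso
      apply h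
      rw [Finset.mem_range]
      omega

end Pool.Agent.Work.MP_ca14f8_co.QE

end

section

/-!
Item QE Unip: a stable subspace which contains the vector of the identity contains the vectors of
all unitriangular matrices.
-/

set_option autoImplicit false
open Classical

namespace Pool.Agent.Work.MP_ca14f8_co.QE

namespace XUnip

variable {n : ℕ}

/-- strictly upper part of column `b`. -/
def Cm (X : Matrix (Fin n) (Fin n) ℚ) (b : Fin n) : Matrix (Fin n) (Fin n) ℚ :=
  Matrix.of (fun a c => if c = b ∧ a < b then X a b else 0)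

/-- the columns with index less than `m` are those of `X`. -/
def Xm (X : Matrix (Fin n) (Fin n) ℚ) (m : ℕ) : Matrix (Fin n) (Fin n) ℚ :=
  Matrix.of (fun a c => if c.val < m then X a c else if a = c then 1 else 0)

lemma Cm_sq (X : Matrix (Fin n) (Fin n) ℚ) (b : Fin n) : Cm X b * Cm X b = 0 := by
  ext a c
  rw [Matrix.mul_apply, Matrix.zero_apply]
  refine Finset.sum_eq_zero (fun d _ => ?_)
  simp only [Cm, Matrix.of_apply]
  by_cases h : d = b
  · subst h
    have : ¬ (c = d ∧ d < d) := fun h => lt_irrefl _ h.2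
    simp [this]
  · have : ¬ (d = b ∧ a < b) := fun h' => h h'.1
    simp [this]

lemma Xm_row (X : Matrix (Fin n) (Fin n) ℚ) (hX : X ∈ UT n) (b c : Fin n) :
    Xm X b.val b c = if c = b then 1 else 0 := by
  simp only [Xm, Matrix.of_apply]
  by_cases h : c.val < b.val
  · have hcb : c < b := h
    have hne : c ≠ b := ne_of_lt hcb
    simp [h, hne, hX.1 b c hcb]
  · simp only [h, if_false]
    by_cases h2 : c = b
    · simp [h2]
    · have : ¬ (b = c) := fun h' => h2 h'.symm
      simp [h2, this]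

lemma Xm_succ (X : Matrix (Fin n) (Fin n) ℚ) (hX : X ∈ UT n) (b : Fin n) :
    (1 + (1 : ℚ) • Cm X b) * Xm X b.val = Xm X (b.val + 1) := by
  rw [one_smul, add_mul, one_mul]
  ext a c
  rw [Matrix.add_apply, Matrix.mul_apply]
  have h1 : ∑ d, Cm X b a d * Xm X b.val d c = (if a < b then X a b else 0) *
      (if c = b then 1 else 0) := by
    rw [Finset.sum_eq_single b]
    · rw [Xm_row X hX b c]
      simp [Cm]
    · intro d _ hd
      have : ¬ (d = b ∧ a < b) := fun h' => hd h'.1
      simp [Cm, this]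
    · intro h; exact absurd (Finset.mem_univ b) h
  rw [h1]
  simp only [Xm, Matrix.of_apply]
  by_cases hc : c = b
  · subst hc
    have h2 : ¬ (c.val < c.val) := lt_irrefl _
    have h3 : c.val < c.val + 1 := Nat.lt_succ_self _
    simp only [h2, h3, if_true, if_false, mul_one]
    rcases lt_trichotomy a c with h | h | h
    · have hne : a ≠ c := ne_of_lt h
      simp [h, hne]
    · subst h
      simp [hX.2 a]
    · have hne : a ≠ c := ne_of_gt h
      have hnl : ¬ (a < c) := not_lt.mpr h.le
      simp [hne, hnl, hX.1 a c h]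
  · have hv : c.val ≠ b.val := fun h => hc (Fin.ext h)
    have hiff : (c.val < b.val + 1) ↔ (c.val < b.val) := by omega
    simp only [hc, if_false, mul_zero, add_zero, hiff]

lemma eop_expand {β : Type} [DecidableEq β] [Fintype β] (A : Matrix (Fin n) (Fin n) ℚ) :
    (eop (β := β) A) = ∑ a, ∑ b, A a b • (eop (β := β) (Matrix.single a b (1 : ℚ))) := by
  refine LinearMap.ext (fun t => ?_)
  funext ρ
  simp only [eop, LinearMap.sum_apply, LinearMap.smul_apply, Finset.sum_apply, Pi.smul_apply,
    smul_eq_mul]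
  have hL : ∀ x : β, (op x A) t ρ = ∑ c, A (ρ x) c * t (Function.update ρ x c) := fun x => rfl
  have hR : ∀ (x : β) (a b : Fin n), (op x (Matrix.single a b (1 : ℚ))) t ρ =
      ∑ c, (Matrix.single a b (1 : ℚ)) (ρ x) c * t (Function.update ρ x c) := fun x a b => rfl
  simp only [hL, hR]
  have key : ∀ x : β, ∑ a, ∑ b, A a b * (∑ c, (Matrix.single a b (1 : ℚ)) (ρ x) c *
      t (Function.update ρ x c)) = ∑ c, A (ρ x) c * t (Function.update ρ x c) := by
    intro x
    rw [Finset.sum_eq_single (ρ x)]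
    · refine Finset.sum_congr rfl (fun b _ => ?_)
      congr 1
      rw [Finset.sum_eq_single b]
      · simp
      · intro c _ hc
        rw [Matrix.single_apply]
        have : ¬ (b = c) := fun h => hc h.symm
        simp [this]
      · intro h; exact absurd (Finset.mem_univ b) h
    · intro a _ ha
      refine Finset.sum_eq_zero (fun b _ => ?_)
      have : ∑ c, (Matrix.single a b (1 : ℚ)) (ρ x) c * t (Function.update ρ x c) = 0 := by
        refine Finset.sum_eq_zero (fun c _ => ?_)
        rw [Matrix.single_apply]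
        have : ¬ (a = ρ x ∧ b = c) := fun h => ha h.1
        simp [this]
      rw [this, mul_zero]
    · intro h; exact absurd (Finset.mem_univ (ρ x)) h
  calc ∑ x : β, ∑ c, A (ρ x) c * t (Function.update ρ x c)
      = ∑ x : β, ∑ a, ∑ b, A a b * (∑ c, (Matrix.single a b (1 : ℚ)) (ρ x) c *
      t (Function.update ρ x c)) := by
        exact Finset.sum_congr rfl (fun x _ => (key x).symm)
    _ = ∑ a, ∑ x : β, ∑ b, A a b * (∑ c, (Matrix.single a b (1 : ℚ)) (ρ x) c *
      t (Function.update ρ x c)) := Finset.sum_comm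
    _ = ∑ a, ∑ b, ∑ x : β, A a b * (∑ c, (Matrix.single a b (1 : ℚ)) (ρ x) c *
      t (Function.update ρ x c)) := Finset.sum_congr rfl (fun a _ => Finset.sum_comm)
    _ = _ := by
        refine Finset.sum_congr rfl (fun a _ => Finset.sum_congr rfl (fun b _ => ?_))
        rw [Finset.mul_sum]

lemma eop_mem {β : Type} [DecidableEq β] [Fintype β] (Z : Submodule ℚ ((β → Fin n) → ℚ))
    (hZ : Stab (fun a b : Fin n => (eop (β := β) (Matrix.single a b (1 : ℚ)))) Z)
    (A : Matrix (Fin n) (Fin n) ℚ) (hA : ∀ a b, A a b ≠ 0 → a < b) :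
    ∀ x ∈ Z, (eop (β := β) A) x ∈ Z := by
  intro x hx
  rw [eop_expand A]
  simp only [LinearMap.sum_apply, LinearMap.smul_apply]
  refine Submodule.sum_mem _ (fun a _ => Submodule.sum_mem _ (fun b _ => ?_))
  by_cases h : A a b = 0
  · rw [h, zero_smul]; exact Submodule.zero_mem _
  · exact Submodule.smul_mem _ _ (hZ a b (hA a b h) x hx)

lemma pow_mem {M : Type} [AddCommGroup M] [Module ℚ M] (Z : Submodule ℚ M) (f : Module.End ℚ M)
    (hf : ∀ x ∈ Z, f x ∈ Z) (k : ℕ) : ∀ x ∈ Z, (f ^ k) x ∈ Z := by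
  induction k with
  | zero => intro x hx; simpa using hx
  | succ k ih =>
    intro x hx
    rw [pow_succ', Module.End.mul_apply]
    exact hf _ (ih x hx)

end XUnip

theorem I_Unip (hE : StExp) : StUnip := by
  intro n I Z hZ h1 X hX
  have hmain : ∀ m : ℕ, m ≤ n → UU I (XUnip.Xm X m) ∈ Z := by
    intro m
    induction m with
    | zero =>
      intro _
      have : XUnip.Xm X 0 = 1 := by
        ext a c
        simp [XUnip.Xm, Matrix.one_apply]
      rw [this]; exact h1
    | succ m ih =>
      intro hm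
      have hmn : m < n := hm
      have ih' := ih hmn.le
      set b : Fin n := ⟨m, hmn⟩ with hb
      have hstep := XUnip.Xm_succ X hX b
      have hbv : b.val = m := rfl
      rw [hbv] at hstep
      rw [← hstep]
      rw [(hE n I (XUnip.Cm X b) (XUnip.Xm X m) (XUnip.Cm_sq X b)).2 1]
      refine Submodule.sum_mem _ (fun k _ => Submodule.smul_mem _ _ ?_)
      refine XUnip.pow_mem Z _ (XUnip.eop_mem Z hZ _ ?_) k _ ih'
      intro a c h
      by_contra hlt
      apply h
      simp only [XUnip.Cm, Matrix.of_apply]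
      by_cases hc : c = b ∧ a < b
      · exfalso; exact hlt (by rw [hc.1]; exact hc.2)
      · simp [hc]
  have hfin : XUnip.Xm X n = X := by
    ext a c
    simp [XUnip.Xm, c.isLt]
  rw [← hfin]
  exact hmain n le_rfl

end Pool.Agent.Work.MP_ca14f8_co.QE

end
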