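import Pool.Agent.Work.MP_ca14f8_co.QE.Stmts

/-! Bundle of small proof modules (one section per former module). -/

section

/-!
# Item A2a: the spaces `VS` decrease along a transition
-/

set_option autoImplicit false
open Classical

namespace Pool.Agent.Work.MP_ca14f8_co.QE

namespace XA2a

theorem mn_erase {n : ℕ} (I : Finset (Fin n)) (r : Fin n) (hr : r ∈ I) (hle : ∀ a ∈ I, a ≤ r)
    (ρ : Fin n → Fin n) (X : Matrix (Fin n) (Fin n) ℚ) (hX : X ∈ UT n) :
    mn I (Function.update ρ r r) X = mn (I.erase r) ρ X := by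
  unfold mn
  have h := Matrix.twoBlockTriangular_det
    (Matrix.of (fun (a b : I) => X (Function.update ρ r r a) b)) (fun i : I => i.1 ≠ r) ?_
  · rw [h]
    have h2 : ((Matrix.of (fun (a b : I) => X (Function.update ρ r r a) b)).toSquareBlockProp
        (fun i : I => ¬ (i.1 ≠ r))).det = 1 := by
      haveI : Unique {i : I // ¬ (i.1 ≠ r)} :=
        ⟨⟨⟨⟨r, hr⟩, by simp⟩⟩, by
          rintro ⟨⟨a, ha⟩, h⟩
          have : a = r := not_not.1 h
          subst this
          rfl⟩
      rw [Matrix.det_unique]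
      have h3 : ((default : {i : I // ¬ (i.1 ≠ r)}).1.1) = r := not_not.1 (default : {i : I // ¬ (i.1 ≠ r)}).2
      change X (Function.update ρ r r (default : {i : I // ¬ (i.1 ≠ r)}).1.1)
        (default : {i : I // ¬ (i.1 ≠ r)}).1.1 = 1
      rw [h3, Function.update_self]
      exact hX.2 r
    rw [h2, mul_one]
    let e : ↥(I.erase r) ≃ {i : I // i.1 ≠ r} :=
      { toFun := fun a => ⟨⟨a.1, (Finset.mem_erase.1 a.2).2⟩, (Finset.mem_erase.1 a.2).1⟩
        invFun := fun a => ⟨a.1.1, Finset.mem_erase.2 ⟨a.2, a.1.2⟩⟩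
        left_inv := fun a => rfl
        right_inv := fun a => rfl }
    rw [← Matrix.det_submatrix_equiv_self e]
    congr 1
    ext a b
    have ha : a.1 ≠ r := (Finset.mem_erase.1 a.2).1
    change X (Function.update ρ r r a.1) b.1 = X (ρ a.1) b.1
    rw [Function.update_of_ne ha]
  · intro i hi j hj
    have h1 : i.1 = r := not_not.1 hi
    have h2 : j.1 < r := lt_of_le_of_ne (hle _ j.2) hj
    change X (Function.update ρ r r i.1) j.1 = 0
    rw [h1, Function.update_self]
    exact hX.1 r j.1 h2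

end XA2a

open XA2a in
theorem I_A2a (hC : StComb) : StA2a := by
  intro n w v r s hT
  obtain ⟨h1, h2, h3, h4, -⟩ := hC n w v r s hT
  unfold VS
  rw [Submodule.span_le]
  rintro _ ⟨ρ, rfl⟩
  apply Submodule.subset_span
  refine ⟨Function.update ρ (w s) (Function.update (ρ (w s)) r r), ?_⟩
  funext X
  unfold FF
  refine Finset.prod_congr rfl ?_
  intro j _
  by_cases hj : j = w s
  · subst hj
    rw [Function.update_self, h3]
    exact mn_erase _ r h2 (h4 (w s)) _ _ X.2
  · rw [Function.update_of_ne hj, h1 j hj]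

end Pool.Agent.Work.MP_ca14f8_co.QE

end

section

/-!
Block QE of MP_ca14f8_co, item A3: the abstract module theorem.
-/

set_option autoImplicit false
open Classical

namespace Pool.Agent.Work.MP_ca14f8_co.QE

namespace XA3

variable {n : ℕ} {M : Type} [AddCommGroup M] [Module ℚ M]

theorem conF_mono {w : Equiv.Perm (Fin n)} {e : Fin n → Fin n → Module.End ℚ M}
    {F F' : Submodule ℚ M} {u : M} (h : F ≤ F') (hc : ConF w e F u) : ConF w e F' u :=
  fun b t σ hs => h (hc b t σ hs)

theorem sup_union (F : Submodule ℚ M) (T T' : Finset M) :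
    F ⊔ Submodule.span ℚ ((T ∪ T' : Finset M) : Set M) =
      (F ⊔ Submodule.span ℚ (T : Set M)) ⊔ Submodule.span ℚ (T' : Set M) := by
  rw [Finset.coe_union, Submodule.span_union, sup_assoc]

theorem mm_one (b : Fin n) (t : ℕ) : mm (1 : Equiv.Perm (Fin n)) b t = 0 := by
  unfold mm
  rw [Finset.card_eq_zero, Finset.filter_eq_empty_iff]
  rintro k - ⟨h1, -, h3⟩
  simp only [Equiv.Perm.coe_one, id_eq] at h3
  exact absurd (lt_trans h1 h3) (lt_irrefl _)

theorem lin_single (e : Fin n → Fin n → Module.End ℚ M) (a b : Fin n) :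
    Lin e b (Pi.single a 1) = e a b := by
  unfold Lin
  rw [Finset.sum_eq_single a]
  · simp
  · intro c _ hc
    rw [Pi.single_eq_of_ne hc, zero_smul]
  · intro h
    exact absurd (Finset.mem_univ a) h

theorem base {e : Fin n → Fin n → Module.End ℚ M} {F : Submodule ℚ M} {u : M}
    (hst : Stab e F) (hc : ConF (1 : Equiv.Perm (Fin n)) e F u) :
    Stab e (F ⊔ Submodule.span ℚ (({u} : Finset M) : Set M)) := by
  intro a b hab x hx
  rw [Finset.coe_singleton] at hx ⊢
  rw [Submodule.mem_sup] at hx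
  obtain ⟨f, hf, g, hg, rfl⟩ := hx
  rw [Submodule.mem_span_singleton] at hg
  obtain ⟨c, rfl⟩ := hg
  refine Submodule.mem_sup_left ?_
  rw [map_add, map_smul]
  refine F.add_mem (hst a b hab f hf) (F.smul_mem c ?_)
  have h1 := hc b 0 (Pi.single a 1) (fun a' ha' => by
    by_cases h2 : a' = a
    · subst h2
      exact ⟨hab, Nat.zero_le _⟩
    · exact absurd (Pi.single_eq_of_ne h2 _) ha')
  rw [mm_one, lin_single, zero_add, pow_one] at h1
  exact h1

end XA3

open XA3 in
theorem I_A3 (hTR : StTR) (hEX : StEX) (hMU : StMU) (hB : StBbF) (hC : StCcF) : StA3 := by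
  intro n M _ _ e w
  induction hm : mu w using Nat.strong_induction_on generalizing w with
  | _ m ih =>
  intro F u hrep hst hcon
  by_cases hw : w = 1
  · subst hw
    refine ⟨{u}, ?_, base hst hcon, ?_⟩
    · rw [Finset.card_singleton, Ups_one]
      simp
    · refine Submodule.mem_sup_right (Submodule.subset_span ?_)
      simp
  · obtain ⟨r, s, hD⟩ := hEX n w hw
    set v := w * Equiv.swap r s with hv
    obtain ⟨hm1, hm2⟩ := hMU n w v r s hD
    have key : ∀ S : Finset (Fin n), S ⊆ Trs w r s →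
        (∀ i ∈ Trs w r s, ∀ j ∈ S, i < j → i ∈ S) →
        ∃ T : Finset M, (T.card : ℚ) ≤ ∑ i ∈ S, Ups (v * Equiv.swap i r) ∧
          Stab e (F ⊔ Submodule.span ℚ (T : Set M)) ∧
          ∀ i ∈ S, ((e i r) ^ (mm w r (w i).val)) u ∈ F ⊔ Submodule.span ℚ (T : Set M) := by
      intro S
      induction S using Finset.induction_on_max with
      | empty =>
        intro _ _
        refine ⟨∅, by simp, ?_, by simp⟩
        simpa using hst
      | insert a S ha ihS =>
        intro h1 h2
        have haT : a ∈ Trs w r s := h1 (Finset.mem_insert_self a S)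
        obtain ⟨T, hT1, hT2, hT3⟩ := ihS (fun i hi => h1 (Finset.mem_insert_of_mem hi))
          (fun i hi j hj hij => by
            rcases Finset.mem_insert.mp (h2 i hi j (Finset.mem_insert_of_mem hj) hij) with h3 | h3
            · subst h3
              exact absurd (lt_trans hij (ha j hj)) (lt_irrefl _)
            · exact h3)
        have hc1 := hC n M e w v r s a (F ⊔ Submodule.span ℚ (T : Set M)) u hrep hT2 hD
          (conF_mono le_sup_left hcon) haT (fun i' hi' hlt => by
            rcases Finset.mem_insert.mp (h2 i' hi' a (Finset.mem_insert_self a S) hlt) with h3 | h3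
            · exact absurd (h3 ▸ hlt) (lt_irrefl _)
            · exact hT3 i' h3)
        obtain ⟨T', hT1', hT2', hT3'⟩ := ih (mu (v * Equiv.swap a r)) (hm ▸ hm2 a haT)
          (v * Equiv.swap a r) rfl _ _ hrep hT2 hc1
        refine ⟨T ∪ T', ?_, ?_, ?_⟩
        · have h3 : a ∉ S := fun h4 => lt_irrefl _ (ha a h4)
          rw [Finset.sum_insert h3]
          have h4 : ((T ∪ T').card : ℚ) ≤ (T.card : ℚ) + T'.card := by
            exact_mod_cast Finset.card_union_le T T'
          linarith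
        · rw [sup_union]
          exact hT2'
        · intro i hi
          rw [sup_union]
          rcases Finset.mem_insert.mp hi with h3 | h3
          · subst h3
            exact hT3'
          · exact Submodule.mem_sup_left (hT3 i h3)
    obtain ⟨T, hT1, hT2, hT3⟩ := key (Trs w r s) (Finset.Subset.refl _) (fun i hi _ _ _ => hi)
    have hb1 := hB n M e w v r s (F ⊔ Submodule.span ℚ (T : Set M)) u hrep hT2 hD
      (conF_mono le_sup_left hcon) hT3
    obtain ⟨T', hT1', hT2', hT3'⟩ := ih (mu v) (hm ▸ hm1) v rfl _ _ hrep hT2 hb1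
    refine ⟨T ∪ T', ?_, ?_, ?_⟩
    · rw [hTR n w v r s hD]
      have h4 : ((T ∪ T').card : ℚ) ≤ (T.card : ℚ) + T'.card := by
        exact_mod_cast Finset.card_union_le T T'
      linarith
    · rw [sup_union]
      exact hT2'
    · rw [sup_union]
      exact hT3'

end Pool.Agent.Work.MP_ca14f8_co.QE

end

section

/-!
Items LM and B1: behaviour of `dV` under left multiplication and products.
-/

set_option autoImplicit false
open Classical

namespace Pool.Agent.Work.MP_ca14f8_co.QE

namespace XB1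

/-- extension of a row choice. -/
noncomputable def ex {ι : Type} (I : Finset ι) (c : I → ι) (a : ι) : ι :=
  if h : a ∈ I then c ⟨a, h⟩ else a

lemma ex_coe {ι : Type} (I : Finset ι) (c : I → ι) (a : I) : ex I c a = c a := by
  simp [ex]

lemma mn_mul {ι : Type} [Fintype ι] [DecidableEq ι] (I : Finset ι) (ρ : ι → ι)
    (g X : Matrix ι ι ℚ) :
    mn I ρ (g * X) = ∑ c : I → ι, (∏ a : I, g (ρ a) (c a)) * mn I (ex I c) X := by
  unfold mn
  have h1 : (Matrix.of (fun (a b : I) => (g * X) (ρ a) b)) =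
      (fun a : I => ∑ k : ι, g (ρ a) k • (fun b : I => X k b)) := by
    ext a b
    simp [Matrix.mul_apply, Finset.sum_apply]
  have h2 : (Matrix.of (fun (a b : I) => (g * X) (ρ a) b)).det =
      (Matrix.detRowAlternating (R := ℚ) (n := I)).toMultilinearMap
        (fun a : I => ∑ k : ι, g (ρ a) k • (fun b : I => X k b)) := by
    rw [h1]; rfl
  rw [h2, MultilinearMap.map_sum]
  refine Finset.sum_congr rfl (fun c _ => ?_)
  rw [MultilinearMap.map_smul_univ]
  have h3 : (Matrix.of (fun (a b : I) => X (ex I c a) b)) = (fun a : I => fun b : I => X (c a) b) := by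
    ext a b
    simp [ex_coe]
  rw [h3]
  rfl

/-- the vector of the functions `FF`. -/
noncomputable def uu {ι κ : Type} [Fintype ι] [DecidableEq ι] [Fintype κ] (I : κ → Finset ι)
    (X : Matrix ι ι ℚ) : (κ → ι → ι) → ℚ := fun ρ => FF I ρ X

lemma FF_mul {ι κ : Type} [Fintype ι] [DecidableEq ι] [Fintype κ] (I : κ → Finset ι)
    (ρ : κ → ι → ι) (g X : Matrix ι ι ℚ) :
    FF I ρ (g * X) = ∑ c : (j : κ) → (I j → ι), (∏ j, ∏ a : I j, g (ρ j a) (c j a)) *
      FF I (fun j => ex (I j) (c j)) X := by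
  unfold FF
  simp only [mn_mul]
  rw [Finset.prod_univ_sum]
  rw [Fintype.piFinset_univ]
  refine Finset.sum_congr rfl (fun c _ => ?_)
  rw [Finset.prod_mul_distrib]

/-- the action of `g` on the vector of minors. -/
noncomputable def TT {ι κ : Type} [Fintype ι] [DecidableEq ι] [Fintype κ] (I : κ → Finset ι)
    (g : Matrix ι ι ℚ) : ((κ → ι → ι) → ℚ) →ₗ[ℚ] ((κ → ι → ι) → ℚ) where
  toFun := fun v ρ => ∑ c : (j : κ) → (I j → ι), (∏ j, ∏ a : I j, g (ρ j a) (c j a)) *
      v (fun j => ex (I j) (c j))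
  map_add' := by
    intro v w; ext ρ; simp [mul_add, Finset.sum_add_distrib]
  map_smul' := by
    intro t v; ext ρ; simp [Finset.mul_sum, mul_left_comm]

lemma uu_mul {ι κ : Type} [Fintype ι] [DecidableEq ι] [Fintype κ] (I : κ → Finset ι)
    (g X : Matrix ι ι ℚ) : uu I (g * X) = TT I g (uu I X) := by
  ext ρ
  exact FF_mul I ρ g X

/-- the span of the vectors. -/
noncomputable def SS {ι κ : Type} [Fintype ι] [DecidableEq ι] [Fintype κ] (I : κ → Finset ι)
    (𝒳 : Set (Matrix ι ι ℚ)) : Submodule ℚ ((κ → ι → ι) → ℚ) :=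
  Submodule.span ℚ (uu I '' 𝒳)

lemma dV_eq (h : StRK) {ι κ : Type} [Fintype ι] [DecidableEq ι] [Fintype κ] (I : κ → Finset ι)
    (𝒳 : Set (Matrix ι ι ℚ)) : dV 𝒳 I = Module.finrank ℚ (SS I 𝒳) := by
  unfold dV VS SS
  rw [h (κ → ι → ι) 𝒳 (fun ρ X => FF I ρ X.1)]
  have : Set.range (fun (z : 𝒳) (p : κ → ι → ι) => FF I p z.1) = uu I '' 𝒳 := by
    ext v
    constructor
    · rintro ⟨z, rfl⟩
      exact ⟨z.1, z.2, rfl⟩
    · rintro ⟨z, hz, rfl⟩
      exact ⟨⟨z, hz⟩, rfl⟩
  rw [this]

lemma finrank_sup_le {V : Type} [AddCommGroup V] [Module ℚ V] [FiniteDimensional ℚ V]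
    {α : Type} (s : Finset α) (W : α → Submodule ℚ V) (N : ℕ)
    (hW : ∀ a ∈ s, Module.finrank ℚ (W a) ≤ N) :
    Module.finrank ℚ (↥(s.sup W)) ≤ N * s.card := by
  induction s using Finset.induction_on with
  | empty => simp
  | insert a s ha ih =>
    rw [Finset.sup_insert, Finset.card_insert_of_notMem ha]
    have h1 := Submodule.finrank_add_le_finrank_add_finrank (W a) (s.sup W)
    have h2 := ih (fun b hb => hW b (Finset.mem_insert_of_mem hb))
    have h3 := hW a (Finset.mem_insert_self a s)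
    have h4 : N * (s.card + 1) = N * s.card + N := by ring
    omega

end XB1

open XB1

theorem I_LM (h : StRK) : StLM := by
  intro ι κ _ _ _ 𝒳 g I
  rw [dV_eq h, dV_eq h]
  have : SS I {X | ∃ x ∈ 𝒳, X = g * x} ≤ (SS I 𝒳).map (TT I g) := by
    unfold SS
    rw [Submodule.map_span]
    apply Submodule.span_mono
    rintro v ⟨X, ⟨x, hx, rfl⟩, rfl⟩
    exact ⟨uu I x, ⟨x, hx, rfl⟩, (uu_mul I g x).symm⟩
  exact le_trans (Submodule.finrank_mono this) (Submodule.finrank_map_le _ _)

theorem I_B1 (h : StRK) : StB1 := by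
  intro ι κ _ _ _ 𝒳 𝒵 I N hN
  obtain ⟨b, hb1, hb2, hb3⟩ := exists_linearIndependent ℚ (uu I '' 𝒵)
  have hfin : b.Finite := hb3.setFinite
  have hz : ∀ v : (κ → ι → ι) → ℚ, v ∈ b → ∃ z ∈ 𝒵, uu I z = v := fun v hv => hb1 hv
  choose! zz hzz1 hzz2 using hz
  have hcard : hfin.toFinset.card = dV 𝒵 I := by
    rw [dV_eq h]
    unfold SS
    rw [← hb2]
    haveI := hfin.fintype
    have h5 := finrank_span_set_eq_card (R := ℚ) (M := (κ → ι → ι) → ℚ) (s := b) hb3
    rw [h5]
    congr 1
    ext v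
    simp
  rw [← hcard, dV_eq h]
  set W : ((κ → ι → ι) → ℚ) → Submodule ℚ ((κ → ι → ι) → ℚ) :=
    fun v => SS I {X | ∃ x ∈ 𝒳, X = x * zz v} with hW
  have h1 : ∀ v ∈ hfin.toFinset, Module.finrank ℚ (W v) ≤ N := by
    intro v hv
    have hv' : v ∈ b := by simpa using hv
    have := hN (zz v) (hzz1 v hv')
    rw [dV_eq h] at this
    exact this
  refine le_trans (Submodule.finrank_mono ?_) (finrank_sup_le hfin.toFinset W N h1)
  unfold SS
  rw [Submodule.span_le]
  rintro v ⟨X, ⟨x, hx, z, hz, rfl⟩, rfl⟩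
  show uu I (x * z) ∈ _
  rw [uu_mul]
  have h2 : uu I z ∈ Submodule.span ℚ b := by
    rw [hb2]
    exact Submodule.subset_span ⟨z, hz, rfl⟩
  have h3 : TT I x (uu I z) ∈ (Submodule.span ℚ b).map (TT I x) := Submodule.mem_map_of_mem h2
  rw [Submodule.map_span] at h3
  refine (Submodule.span_le.2 ?_) h3
  rintro _ ⟨v, hv, rfl⟩
  have h4 : TT I x v = uu I (x * zz v) := by
    rw [uu_mul, hzz2 v hv]
  rw [h4]
  have h5 : W v ≤ hfin.toFinset.sup W := Finset.le_sup (f := W) (by simpa using hv)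
  apply h5
  exact Submodule.subset_span ⟨x * zz v, ⟨x, hx, rfl⟩, rfl⟩

end Pool.Agent.Work.MP_ca14f8_co.QE

end

section

/-!
Item Bb of the block QE.
-/

set_option autoImplicit false
open Classical

namespace Pool.Agent.Work.MP_ca14f8_co.QE

namespace XBb

theorem v_eq {n : ℕ} {w v : Equiv.Perm (Fin n)} {r s : Fin n} (h : TrD w v r s) {a : Fin n}
    (ha : a < r) : v a = w a := by
  have hs : a ≠ s := ne_of_lt (lt_trans ha h.hrs)
  have hr : a ≠ r := ne_of_lt ha
  rw [h.hv, Equiv.Perm.mul_apply, Equiv.swap_apply_of_ne_of_ne hr hs]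

theorem sup_w {n : ℕ} {w v : Equiv.Perm (Fin n)} {r s : Fin n} (h : TrD w v r s) {b : Fin n}
    (hb : b ≤ r) {t : ℕ} {σ : Fin n → ℚ} (hσ : Sup v b t σ) : Sup w b t σ := by
  intro a ha
  obtain ⟨h1, h2⟩ := hσ a ha
  refine ⟨h1, ?_⟩
  rw [← v_eq h (lt_of_lt_of_le h1 hb)]
  exact h2

end XBb

theorem I_Bb (hD : StD) (hM : StMM1) : StBb := by
  intro n M _ _ e w v r s u hrep htr hcon htrs b t σ hσ
  obtain ⟨m1, m2, m3, m4⟩ := hM n w v r s htr
  rcases lt_trichotomy b r with hb | hb | hb
  · rw [m2 b t hb]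
    exact hcon b t σ (XBb.sup_w htr hb.le hσ)
  · subst hb
    by_cases ht : t ≤ (w s).val
    · rw [m4 t ht]
      exact hD n M e w v b s u hrep htr hcon t ht (fun i hi _ => htrs i hi) σ
        (XBb.sup_w htr le_rfl hσ)
    · push Not at ht
      rw [m3 t ht]
      exact hcon b t σ (XBb.sup_w htr le_rfl hσ)
  · rw [(m1 b t hb).2]
    have h0 := hcon b 0 σ (fun a ha => ⟨(hσ a ha).1, Nat.zero_le _⟩)
    rw [(m1 b 0 hb).1] at h0
    exact h0

end Pool.Agent.Work.MP_ca14f8_co.QE

end

section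

/-!
Item C0: independent functions on the blown up matrices.
-/

set_option autoImplicit false
open Classical

namespace Pool.Agent.Work.MP_ca14f8_co.QE

namespace XC0

/-- a basis among the generators -/
theorem exists_gen {V : Type} [AddCommGroup V] [Module ℚ V] (S : Set V) :
    ∃ l : Fin (Module.finrank ℚ (Submodule.span ℚ S)) → V, (∀ i, l i ∈ S) ∧
      LinearIndependent ℚ l := by
  by_cases h : Module.finrank ℚ (Submodule.span ℚ S) = 0
  · haveI : IsEmpty (Fin (Module.finrank ℚ (Submodule.span ℚ S))) := by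
      rw [h]; infer_instance
    exact ⟨fun i => isEmptyElim i, fun i => isEmptyElim i, linearIndependent_empty_type⟩
  · haveI : Module.Finite ℚ (Submodule.span ℚ S) :=
      Module.finite_of_finrank_pos (Nat.pos_of_ne_zero h)
    obtain ⟨b, hb, hspan, hli⟩ := exists_linearIndependent ℚ S
    let B0 : Module.Basis b ℚ (Submodule.span ℚ (Set.range ((↑) : b → V))) :=
      Module.Basis.span hli
    have hr : Submodule.span ℚ (Set.range ((↑) : b → V)) = Submodule.span ℚ S := by
      rw [Subtype.range_coe, hspan]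
    let B : Module.Basis b ℚ (Submodule.span ℚ S) := B0.map (LinearEquiv.ofEq _ _ hr)
    haveI : Finite b := Module.Finite.finite_basis B
    haveI : Fintype b := Fintype.ofFinite b
    have hc : Fintype.card b = Module.finrank ℚ (Submodule.span ℚ S) :=
      (Module.finrank_eq_card_basis B).symm
    let e : b ≃ Fin (Module.finrank ℚ (Submodule.span ℚ S)) := Fintype.equivFinOfCardEq hc
    exact ⟨fun i => (e.symm i : V), fun i => hb (e.symm i).2, hli.comp _ e.symm.injective⟩

/-- pullback along a surjection -/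
theorem pull {ι Z Z' : Type} (φ : Z' → Z) (hφ : Function.Surjective φ) (f : ι → Z → ℚ)
    (hf : LinearIndependent ℚ f) : LinearIndependent ℚ (fun i => fun z : Z' => f i (φ z)) := by
  have h := hf.map' (LinearMap.funLeft ℚ ℚ φ)
    (LinearMap.ker_eq_bot.2 (LinearMap.funLeft_injective_of_surjective ℚ ℚ φ hφ))
  exact h

/-- membership in `Gam`. -/
theorem mem_Gam {k : ℕ} {K : Type} [Fintype K] (σ : K → ℤ) (p : K × Fin k) :
    p ∈ Gam k σ ↔ (0 ≤ (p.2.val : ℤ) - σ p.1 ∧ (p.2.val : ℤ) - σ p.1 < k) := by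
  unfold Gam
  rw [Finset.mem_filter]
  exact ⟨fun h => h.2, fun h => ⟨Finset.mem_univ _, h⟩⟩

/-- the row block belonging to an element of `Gam`. -/
def rb {k : ℕ} {K : Type} [Fintype K] (σ : K → ℤ) (g : Gam k σ) : Fin k :=
  ⟨((g.1.2.val : ℤ) - σ g.1.1).toNat, by
    have h := (mem_Gam σ g.1).1 g.2
    omega⟩

theorem rb_cast {k : ℕ} {K : Type} [Fintype K] (σ : K → ℤ) (g : Gam k σ) :
    ((rb σ g).val : ℤ) = (g.1.2.val : ℤ) - σ g.1.1 := by
  have h := (mem_Gam σ g.1).1 g.2
  have h2 : (rb σ g).val = ((g.1.2.val : ℤ) - σ g.1.1).toNat := rfl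
  rw [h2]
  exact Int.toNat_of_nonneg h.1

/-- the blocks of `Y`. -/
noncomputable def zz {n k : ℕ} {K : Type} [Fintype K] (σ : K → ℤ) (Y : YK n k σ) (g : Gam k σ) :
    NU n := ⟨blk Y.1 (rb σ g) g.1.2, by
      intro a b hab
      by_contra hne
      have h := (Y.2 _ _ hne).1
      exact absurd h (not_lt.2 hab)⟩

theorem zz_surj {n k : ℕ} {K : Type} [Fintype K] (σ : K → ℤ) (hσ : Function.Injective σ) :
    Function.Surjective (fun Y : YK n k σ => zz (n := n) (k := k) σ Y) := by
  intro z
  refine ⟨⟨Matrix.of (fun p q => if h : ∃ g : Gam k σ, g.1.2 = q.2 ∧ rb σ g = p.2 then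
    (z (Classical.choose h)).1 p.1 q.1 else 0), ?_⟩, ?_⟩
  · intro p q hpq
    simp only [Matrix.of_apply] at hpq
    by_cases h : ∃ g : Gam k σ, g.1.2 = q.2 ∧ rb σ g = p.2
    · rw [dif_pos h] at hpq
      refine ⟨?_, ?_⟩
      · by_contra hlt
        exact hpq ((z (Classical.choose h)).2 _ _ (not_lt.1 hlt))
      · have hs := Classical.choose_spec h
        refine ⟨(Classical.choose h).1.1, ?_⟩
        have hg := rb_cast σ (Classical.choose h)
        rw [hs.2, hs.1] at hg
        rw [hg]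
        ring
    · rw [dif_neg h] at hpq
      exact absurd rfl hpq
  · funext g
    apply Subtype.ext
    funext a b
    show (Matrix.of (fun p q => if h : ∃ g : Gam k σ, g.1.2 = q.2 ∧ rb σ g = p.2 then
      (z (Classical.choose h)).1 p.1 q.1 else 0) : Matrix (Fin n × Fin k) (Fin n × Fin k) ℚ)
        (a, rb σ g) (b, g.1.2) = (z g).1 a b
    simp only [Matrix.of_apply]
    have h : ∃ g' : Gam k σ, g'.1.2 = g.1.2 ∧ rb σ g' = rb σ g := ⟨g, rfl, rfl⟩
    rw [dif_pos h]
    have hs := Classical.choose_spec h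
    have heq : Classical.choose h = g := by
      apply Subtype.ext
      apply Prod.ext
      · apply hσ
        have hg := rb_cast σ (Classical.choose h)
        have hg' := rb_cast σ g
        rw [hs.2, hs.1, hg'] at hg
        linarith
      · exact hs.1
    rw [heq]

/-- scaling preserves `YK`. -/
theorem scl_mem {n k : ℕ} {K : Type} (σ : K → ℤ) (N : ℕ) (t : ℚ)
    (Y : Matrix (Fin n × Fin k) (Fin n × Fin k) ℚ) (hY : Y ∈ YK n k σ) :
    scl N t Y ∈ YK n k σ := by
  intro p q hpq
  apply hY p q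
  intro h0
  apply hpq
  unfold scl
  simp only [Matrix.of_apply]
  rw [h0, mul_zero]

end XC0

open XC0 in
theorem I_C0 (h1 : StSc1) (h2 : StTens) (h3 : StSemi) : StC0 := by
  intro n k κ _ I K _ σ hσ hσk
  obtain ⟨l, hl, hli⟩ := exists_gen {f : NU n → ℚ | ∃ (C : κ → Finset (Fin n))
    (ρ : κ → Fin n → Fin n), Adm I C ρ ∧ f = fun B : NU n => FF C ρ B.1}
  have hl' : ∃ l : Fin (dL (NU n) I) → (NU n → ℚ), (∀ i, l i ∈ {f : NU n → ℚ |
    ∃ (C : κ → Finset (Fin n)) (ρ : κ → Fin n → Fin n), Adm I C ρ ∧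
      f = fun B : NU n => FF C ρ B.1}) ∧ LinearIndependent ℚ l := ⟨l, hl, hli⟩
  clear hl hli l
  obtain ⟨l, hl, hli⟩ := hl'
  choose C ρ hadm hlf using hl
  -- the choices
  let Cs : (Gam k σ → Fin (dL (NU n) I)) → K → κ → Fin k → Finset (Fin n) := fun s γ j β =>
    if h : (γ, β) ∈ Gam k σ then C (s ⟨(γ, β), h⟩) j else ∅
  let ρs : (Gam k σ → Fin (dL (NU n) I)) → K → κ → Fin k → Fin n → Fin n := fun s γ j β =>
    if h : (γ, β) ∈ Gam k σ then ρ (s ⟨(γ, β), h⟩) j else id
  have hC1 : ∀ s γ j β, Cs s γ j β ⊆ I j ∧ ∀ a ∈ Cs s γ j β, ρs s γ j β a ∉ I j := by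
    intro s γ j β
    by_cases h : (γ, β) ∈ Gam k σ
    · have e1 : Cs s γ j β = C (s ⟨(γ, β), h⟩) j := dif_pos h
      have e2 : ρs s γ j β = ρ (s ⟨(γ, β), h⟩) j := dif_pos h
      rw [e1, e2]
      exact hadm _ j
    · have e1 : Cs s γ j β = ∅ := dif_neg h
      rw [e1]
      exact ⟨Finset.empty_subset _, fun a ha => absurd ha (Finset.notMem_empty a)⟩
  have hC2 : ∀ s γ j β, (Cs s γ j β).Nonempty →
      0 ≤ (β.val : ℤ) - σ γ ∧ (β.val : ℤ) - σ γ < k := by
    intro s γ j β hne
    by_cases h : (γ, β) ∈ Gam k σ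
    · exact (mem_Gam σ (γ, β)).1 h
    · have e1 : Cs s γ j β = ∅ := dif_neg h
      rw [e1] at hne
      exact absurd hne Finset.not_nonempty_empty
  have hS : ∀ s γ j, ∃ E : ℤ, ∀ Y : Matrix (Fin n × Fin k) (Fin n × Fin k) ℚ,
      (∀ p q, Y p q ≠ 0 → p.1 < q.1) →
      ∃ Q : Polynomial ℚ, (∀ t : ℚ, t ≠ 0 →
        t ^ E * mn (bl k (I j)) (rch (σ γ) (Cs s γ j) (ρs s γ j))
          (1 + scl (8 * k ^ 2 + 8) t Y) = Q.eval t) ∧
      Q.eval 0 = ∏ β : Fin k, if h : 0 ≤ (β.val : ℤ) - σ γ ∧ (β.val : ℤ) - σ γ < k then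
        mn (Cs s γ j β) (ρs s γ j β) (blk Y ⟨((β.val : ℤ) - σ γ).toNat, by omega⟩ β) else 1 :=
    fun s γ j => h1 n k (I j) (σ γ) (Cs s γ j) (ρs s γ j) (hC1 s γ j) (hC2 s γ j) (hσk γ)
  choose E hE using hS
  have hYK : ∀ Y : YK n k σ, ∀ p q, Y.1 p q ≠ 0 → p.1 < q.1 := fun Y p q h => (Y.2 p q h).1
  have hQ : ∀ s γ j, ∀ Y : YK n k σ, ∃ Q : Polynomial ℚ, (∀ t : ℚ, t ≠ 0 →
        t ^ (E s γ j) * mn (bl k (I j)) (rch (σ γ) (Cs s γ j) (ρs s γ j))
          (1 + scl (8 * k ^ 2 + 8) t Y.1) = Q.eval t) ∧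
      Q.eval 0 = ∏ β : Fin k, if h : 0 ≤ (β.val : ℤ) - σ γ ∧ (β.val : ℤ) - σ γ < k then
        mn (Cs s γ j β) (ρs s γ j β) (blk Y.1 ⟨((β.val : ℤ) - σ γ).toNat, by omega⟩ β) else 1 :=
    fun s γ j Y => hE s γ j Y.1 (hYK Y)
  choose Q hQ1 hQ2 using hQ
  let P : (Gam k σ → Fin (dL (NU n) I)) → YK n k σ → Polynomial ℚ := fun s Y =>
    ∏ γ, ∏ j, Q s γ j Y
  -- value at zero
  have hP0 : ∀ s Y, (P s Y).eval 0 = ∏ g : Gam k σ, l (s g) (zz σ Y g) := by
    intro s Y
    have e1 : (P s Y).eval 0 = ∏ γ, ∏ j, (Q s γ j Y).eval 0 := by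
      show (∏ γ, ∏ j, Q s γ j Y : Polynomial ℚ).eval 0 = _
      rw [Polynomial.eval_prod]
      refine Finset.prod_congr rfl fun γ _ => ?_
      rw [Polynomial.eval_prod]
    rw [e1]
    have e2 : ∀ γ, ∏ j, (Q s γ j Y).eval 0 = ∏ β : Fin k,
        (if h : (γ, β) ∈ Gam k σ then l (s ⟨(γ, β), h⟩) (zz σ Y ⟨(γ, β), h⟩) else 1) := by
      intro γ
      have e3 : ∏ j, (Q s γ j Y).eval 0 = ∏ j, ∏ β : Fin k,
        (if h : 0 ≤ (β.val : ℤ) - σ γ ∧ (β.val : ℤ) - σ γ < k then
        mn (Cs s γ j β) (ρs s γ j β) (blk Y.1 ⟨((β.val : ℤ) - σ γ).toNat, by omega⟩ β) else 1) :=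
        Finset.prod_congr rfl fun j _ => hQ2 s γ j Y
      rw [e3, Finset.prod_comm]
      refine Finset.prod_congr rfl fun β _ => ?_
      by_cases h : (γ, β) ∈ Gam k σ
      · have h' := (mem_Gam σ (γ, β)).1 h
        rw [dif_pos h]
        rw [hlf (s ⟨(γ, β), h⟩)]
        show _ = FF (C (s ⟨(γ, β), h⟩)) (ρ (s ⟨(γ, β), h⟩)) (blk Y.1 (rb σ ⟨(γ, β), h⟩) β)
        unfold FF
        refine Finset.prod_congr rfl fun j _ => ?_
        rw [dif_pos h']
        have e4 : Cs s γ j β = C (s ⟨(γ, β), h⟩) j := dif_pos h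
        have e5 : ρs s γ j β = ρ (s ⟨(γ, β), h⟩) j := dif_pos h
        rw [e4, e5]
        rfl
      · have h' : ¬ (0 ≤ (β.val : ℤ) - σ γ ∧ (β.val : ℤ) - σ γ < k) :=
          fun hh => h ((mem_Gam σ (γ, β)).2 hh)
        rw [dif_neg h]
        refine Finset.prod_eq_one fun j _ => ?_
        rw [dif_neg h']
    have e6 : ∏ γ, ∏ j, (Q s γ j Y).eval 0 = ∏ p : K × Fin k,
        (if h : p ∈ Gam k σ then l (s ⟨p, h⟩) (zz σ Y ⟨p, h⟩) else 1) := by
      rw [Fintype.prod_prod_type]
      exact Finset.prod_congr rfl fun γ _ => e2 γ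
    rw [e6]
    have e7 : ∏ p : K × Fin k,
        (if h : p ∈ Gam k σ then l (s ⟨p, h⟩) (zz σ Y ⟨p, h⟩) else 1) =
        ∏ p ∈ Gam k σ, (if h : p ∈ Gam k σ then l (s ⟨p, h⟩) (zz σ Y ⟨p, h⟩) else 1) := by
      symm
      apply Finset.prod_subset (Finset.subset_univ _)
      intro p _ hp
      exact dif_neg hp
    rw [e7, ← Finset.prod_coe_sort (Gam k σ)
      (fun p => if h : p ∈ Gam k σ then l (s ⟨p, h⟩) (zz σ Y ⟨p, h⟩) else 1)]
    refine Finset.prod_congr rfl fun g _ => ?_
    rw [dif_pos g.2]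
  have hli0 : LinearIndependent ℚ (fun s => fun Y : YK n k σ => (P s Y).eval 0) := by
    have e1 : (fun s => fun Y : YK n k σ => (P s Y).eval 0) =
        (fun s : Gam k σ → Fin (dL (NU n) I) => fun Y : YK n k σ =>
          ∏ g : Gam k σ, l (s g) (zz σ Y g)) := by
      funext s Y
      exact hP0 s Y
    rw [e1]
    exact pull (fun Y : YK n k σ => zz (n := n) (k := k) σ Y) (zz_surj σ hσ)
      (fun s : Gam k σ → Fin (dL (NU n) I) => fun z : Gam k σ → NU n => ∏ g, l (s g) (z g))
      (h2 (Gam k σ) (NU n) (dL (NU n) I) l hli)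
  obtain ⟨t, ht, hlt⟩ := h3 (Gam k σ → Fin (dL (NU n) I)) (YK n k σ) P hli0
  refine ⟨fun s γ j => rch (σ γ) (Cs s γ j) (ρs s γ j), ?_⟩
  rw [Fintype.linearIndependent_iff] at hlt ⊢
  intro c hc s0
  -- the scalars
  let T : (Gam k σ → Fin (dL (NU n) I)) → ℚ := fun s => ∏ γ, ∏ j, t ^ (E s γ j)
  have hT : ∀ s, T s ≠ 0 := fun s => Finset.prod_ne_zero_iff.2 fun γ _ =>
    Finset.prod_ne_zero_iff.2 fun j _ => zpow_ne_zero _ ht
  have hPt : ∀ s (Y : YK n k σ), (P s Y).eval t = T s * ∏ γ, ∏ j, mn (bl k (I j))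
      (rch (σ γ) (Cs s γ j) (ρs s γ j)) (1 + scl (8 * k ^ 2 + 8) t Y.1) := by
    intro s Y
    show (∏ γ, ∏ j, Q s γ j Y : Polynomial ℚ).eval t = _
    rw [Polynomial.eval_prod, ← Finset.prod_mul_distrib]
    refine Finset.prod_congr rfl fun γ _ => ?_
    rw [Polynomial.eval_prod, ← Finset.prod_mul_distrib]
    refine Finset.prod_congr rfl fun j _ => ?_
    exact (hQ1 s γ j Y t ht).symm
  have hfin := hlt (fun s => c s / T s) (by
    funext Y
    have e1 := congrFun hc ⟨scl (8 * k ^ 2 + 8) t Y.1, scl_mem σ _ t Y.1 Y.2⟩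
    simp only [Finset.sum_apply, Pi.smul_apply, smul_eq_mul, Pi.zero_apply] at e1 ⊢
    rw [← e1]
    refine Finset.sum_congr rfl fun s _ => ?_
    rw [hPt s Y]
    have := hT s
    field_simp) s0
  have := hT s0
  rcases div_eq_zero_iff.1 hfin with h | h
  · exact h
  · exact absurd h this

end Pool.Agent.Work.MP_ca14f8_co.QE

end

section

/-!
Case distinction: `StCc` from `StMM3`, `StCcA`, `StCcB`, `StCcC`, `StCcD`.
-/

set_option autoImplicit false
open Classical

namespace Pool.Agent.Work.MP_ca14f8_co.QE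

theorem I_Cc (hM : StMM3) (hA : StCcA) (hB : StCcB) (hC : StCcC) (hD : StCcD) : StCc := by
  intro n M _ _ e w v r s i u h
  have hTr : TrD w v r s := h.2.1
  have hi : i ∈ Trs w r s := h.2.2.2.1
  obtain ⟨h1, -, -, -⟩ := hM n w v r s hTr i hi
  have key : ∀ b t, CcAt e w v r i u b t := by
    intro b t
    rcases lt_trichotomy b i with hb | hb | hb
    · exact hA n M e w v r s i u h b t (Or.inr (Or.inr hb))
    · subst hb
      exact hB n M e w v r s b u h t
    · rcases lt_trichotomy b r with hr | hr | hr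
      · rcases h1 b hb hr with h2 | h2
        · exact hC n M e w v r s i u h b t hb hr (Or.inl h2)
        · by_cases ht1 : t ≤ (w i).val
          · exact hC n M e w v r s i u h b t hb hr (Or.inr ⟨h2, Or.inl ht1⟩)
          · by_cases ht2 : t ≤ (w s).val
            · exact hD n M e w v r s i u h b t hb hr h2 (not_le.mp ht1) ht2
            · exact hC n M e w v r s i u h b t hb hr (Or.inr ⟨h2, Or.inr (not_le.mp ht2)⟩)
      · exact hA n M e w v r s i u h b t (Or.inr (Or.inl hr))
      · exact hA n M e w v r s i u h b t (Or.inl hr)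
  intro b t σ hσ
  exact key b t σ hσ

end Pool.Agent.Work.MP_ca14f8_co.QE

end

section

set_option autoImplicit false
open Classical

namespace Pool.Agent.Work.MP_ca14f8_co.QE

namespace XComb

theorem mem_Ic {n : ℕ} (w : Equiv.Perm (Fin n)) (a k : Fin n) :
    a ∈ Ic w (w k) ↔ a < k ∧ w k < w a := by
  simp [Ic]

theorem mem_Ic_v {n : ℕ} (w : Equiv.Perm (Fin n)) (r s a k : Fin n) :
    a ∈ Ic (w * Equiv.swap r s) (w k) ↔
      a < Equiv.swap r s k ∧ w k < w (Equiv.swap r s a) := by
  have h : (w * Equiv.swap r s).symm (w k) = Equiv.swap r s k := by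
    rw [Equiv.symm_apply_eq, Equiv.Perm.mul_apply, Equiv.swap_apply_self]
  simp [Ic, h]

theorem mem_Ic_wi {n : ℕ} (w : Equiv.Perm (Fin n)) (r s i a k : Fin n) :
    a ∈ Ic (w * Equiv.swap r s * Equiv.swap i r) (w k) ↔
      a < Equiv.swap i r (Equiv.swap r s k) ∧
        w k < w (Equiv.swap r s (Equiv.swap i r a)) := by
  have h : (w * Equiv.swap r s * Equiv.swap i r).symm (w k) =
      Equiv.swap i r (Equiv.swap r s k) := by
    rw [Equiv.symm_apply_eq, Equiv.Perm.mul_apply, Equiv.Perm.mul_apply,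
      Equiv.swap_apply_self, Equiv.swap_apply_self]
  simp [Ic, h]

/-- the data in terms of natural numbers -/
theorem sw {n : ℕ} (x y k : Fin n) :
    (k = x ∧ Equiv.swap x y k = y) ∨ (k ≠ x ∧ k = y ∧ Equiv.swap x y k = x) ∨
      (k ≠ x ∧ k ≠ y ∧ Equiv.swap x y k = k) := by
  by_cases h1 : k = x
  · left; subst h1; exact ⟨rfl, Equiv.swap_apply_left _ _⟩
  · by_cases h2 : k = y
    · right; left; subst h2; exact ⟨h1, rfl, Equiv.swap_apply_right _ _⟩
    · right; right; exact ⟨h1, h2, Equiv.swap_apply_of_ne_of_ne h1 h2⟩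

theorem inj {n : ℕ} (w : Equiv.Perm (Fin n)) (a k : Fin n) :
    (a.val = k.val ∧ (w a).val = (w k).val) ∨ (a.val ≠ k.val ∧ (w a).val ≠ (w k).val) := by
  by_cases h : a = k
  · left; subst h; exact ⟨rfl, rfl⟩
  · right
    refine ⟨fun h' => h (Fin.ext h'), fun h' => h (w.injective (Fin.ext h'))⟩

end XComb

open XComb in
theorem I_Comb : StComb := by
  intro n w v r s h
  obtain ⟨hrs, hws, inc, smax, hv⟩ := h
  subst hv
  have hrs' : r.val < s.val := hrs
  have hws' : (w s).val < (w r).val := hws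
  have inc' : ∀ a b : Fin n, r.val < a.val → a.val < b.val → (w a).val < (w b).val :=
    fun a b h1 h2 => inc a b h1 h2
  have smax' : ∀ k : Fin n, s.val < k.val → (w r).val < (w k).val := fun k h1 => smax k h1
  refine ⟨?_, ?_, ?_, ?_, ?_⟩
  · intro j hj
    obtain ⟨k, rfl⟩ := w.surjective j
    have hks : k ≠ s := fun h => hj (by rw [h])
    ext a
    rw [mem_Ic, mem_Ic_v]
    have e1 := inc' a k
    have e2 := inc' k a
    have e3 := inc' k s
    have e4 := inc' a s
    have e5 := smax' k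
    have e6 := smax' a
    have e7 := inj w a k
    have e8 := inj w a r
    have e9 := inj w a s
    have e10 := inj w k r
    have e11 := inj w k s
    have hks' : k.val ≠ s.val := fun h => hks (Fin.ext h)
    rcases sw r s k with ⟨h1, h2⟩ | ⟨h1, h1', h2⟩ | ⟨h1, h1', h2⟩ <;>
    rcases sw r s a with ⟨h3, h4⟩ | ⟨h3, h3', h4⟩ | ⟨h3, h3', h4⟩ <;>
    rw [h2, h4] <;> simp only [Fin.lt_def, Fin.ext_iff, ne_eq] at * <;> omega
  · rw [mem_Ic]; exact ⟨hrs, hws⟩
  · ext a
    rw [Finset.mem_erase, mem_Ic, mem_Ic_v]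
    have e4 := inc' a s
    have e6 := smax' a
    have e8 := inj w a r
    have e9 := inj w a s
    rw [Equiv.swap_apply_right]
    rcases sw r s a with ⟨h3, h4⟩ | ⟨h3, h3', h4⟩ | ⟨h3, h3', h4⟩ <;>
    rw [h4] <;> simp only [Fin.lt_def, Fin.ext_iff, ne_eq] at * <;> omega
  · intro j a ha
    obtain ⟨k, rfl⟩ := w.surjective j
    rw [mem_Ic] at ha
    by_contra hc
    push_neg at hc
    exact absurd (inc a k hc ha.1) (not_lt.mpr ha.2.le)
  · intro i hi
    have hi2 := hi
    simp only [Trs, Finset.mem_filter, Finset.mem_univ, true_and] at hi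
    obtain ⟨hir, hwi, hno⟩ := hi
    have hir' : i.val < r.val := hir
    have hwi' : (w i).val < (w s).val := hwi
    have hno' : ∀ a : Fin n, i.val < a.val → a.val < r.val →
        ¬ ((w i).val < (w a).val ∧ (w a).val < (w s).val) := fun a h1 h2 => hno a h1 h2
    have hine : i ≠ r := hir.ne
    refine ⟨?_, ?_, ?_, ?_, ?_, ?_, ?_, ?_, ?_⟩
    · rw [mem_Ic]; intro h; exact absurd h.2 (not_lt.mpr hwi.le)
    · rw [mem_Ic]; intro h; exact absurd h.1 (lt_irrefl _)
    · rw [mem_Ic]; intro h; exact absurd h.1 (not_lt.mpr hir.le)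
    · ext a
      rw [Finset.mem_insert, Finset.mem_union, Finset.mem_erase, mem_Ic, mem_Ic, mem_Ic_wi]
      have hk : Equiv.swap i r (Equiv.swap r s i) = r := by
        rw [Equiv.swap_apply_of_ne_of_ne (x := i) hine (by
          intro h; rw [h] at hir; exact absurd (hir.trans hrs) (lt_irrefl _)),
          Equiv.swap_apply_left]
      rw [hk]
      have e1 := inc' a s
      have e2 := smax' a
      have e3 := hno' a
      have e4 := inj w a r
      have e5 := inj w a s
      have e6 := inj w a i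
      have e7 : i ≠ s := by
        intro h; rw [h] at hir; exact absurd (hir.trans hrs) (lt_irrefl _)
      rcases sw i r a with ⟨h1, h2⟩ | ⟨h1, h1', h2⟩ | ⟨h1, h1', h2⟩
      · rw [h2, Equiv.swap_apply_left]
        simp only [Fin.lt_def, Fin.ext_iff, ne_eq] at *; omega
      · rw [h2, Equiv.swap_apply_of_ne_of_ne hine e7]
        simp only [Fin.lt_def, Fin.ext_iff, ne_eq] at *; omega
      · rw [h2]
        rcases sw r s a with ⟨h3, h4⟩ | ⟨h3, h3', h4⟩ | ⟨h3, h3', h4⟩ <;>
        rw [h4] <;> simp only [Fin.lt_def, Fin.ext_iff, ne_eq] at * <;> omega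
    · ext a
      rw [Finset.mem_inter, Finset.mem_erase, mem_Ic, mem_Ic, mem_Ic_wi]
      rw [Equiv.swap_apply_right, Equiv.swap_apply_right]
      have e1 := inc' a s
      have e2 := smax' a
      have e3 := hno' a
      have e4 := inj w a r
      have e5 := inj w a s
      have e6 := inj w a i
      have e7 : i ≠ s := by
        intro h; rw [h] at hir; exact absurd (hir.trans hrs) (lt_irrefl _)
      rcases sw i r a with ⟨h1, h2⟩ | ⟨h1, h1', h2⟩ | ⟨h1, h1', h2⟩
      · rw [h2, Equiv.swap_apply_left]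
        simp only [Fin.lt_def, Fin.ext_iff, ne_eq] at *; omega
      · rw [h2, Equiv.swap_apply_of_ne_of_ne hine e7]
        simp only [Fin.lt_def, Fin.ext_iff, ne_eq] at *; omega
      · rw [h2]
        rcases sw r s a with ⟨h3, h4⟩ | ⟨h3, h3', h4⟩ | ⟨h3, h3', h4⟩ <;>
        rw [h4] <;> simp only [Fin.lt_def, Fin.ext_iff, ne_eq] at * <;> omega
    · intro j hj1 hj2
      obtain ⟨k, rfl⟩ := w.surjective j
      have hks : k ≠ s := fun h => hj1 (by rw [h])
      have hki : k ≠ i := fun h => hj2 (by rw [h])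
      have his : i ≠ s := by
        intro h; rw [h] at hir; exact absurd (hir.trans hrs) (lt_irrefl _)
      ext a
      rw [mem_Ic_wi]
      have e1 := inc' a s
      have e2 := smax' a
      have e3 := hno' a
      have e4 := inj w a r
      have e5 := inj w a s
      have e6 := inj w a i
      have f1 := inc' k s
      have f2 := smax' k
      have f3 := hno' k
      have f4 := inj w k r
      have f5 := inj w k s
      have f6 := inj w k i
      have g1 := inc' a k
      have g2 := inc' k a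
      have g3 := inj w a k
      have hA : Equiv.swap i r (Equiv.swap r s k) = if k = r then s else k := by
        by_cases hk : k = r
        · rw [if_pos hk, hk, Equiv.swap_apply_left, Equiv.swap_apply_of_ne_of_ne his.symm hrs.ne']
        · rw [if_neg hk, Equiv.swap_apply_of_ne_of_ne hk hks,
            Equiv.swap_apply_of_ne_of_ne hki hk]
      have hB : Equiv.swap r s (Equiv.swap i r a) =
          if a = i then s else if a = r then i else if a = s then r else a := by
        by_cases h1 : a = i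
        · rw [if_pos h1, h1, Equiv.swap_apply_left, Equiv.swap_apply_left]
        · rw [if_neg h1]
          by_cases h2 : a = r
          · rw [if_pos h2, h2, Equiv.swap_apply_right, Equiv.swap_apply_of_ne_of_ne hine his]
          · rw [if_neg h2, Equiv.swap_apply_of_ne_of_ne h1 h2]
            by_cases h3 : a = s
            · rw [if_pos h3, h3, Equiv.swap_apply_right]
            · rw [if_neg h3, Equiv.swap_apply_of_ne_of_ne h2 h3]
      rw [hA, hB]
      by_cases hc : r ∈ Ic w (w k) ∧ i ∉ Ic w (w k)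
      · rw [if_pos hc]
        rw [Finset.mem_insert, Finset.mem_erase]
        simp only [mem_Ic] at hc ⊢
        split_ifs <;> simp only [Fin.lt_def, Fin.ext_iff, ne_eq] at * <;> omega
      · rw [if_neg hc]
        simp only [mem_Ic] at hc ⊢
        split_ifs <;> simp only [Fin.lt_def, Fin.ext_iff, ne_eq] at * <;> omega
    · have : Finset.univ.filter (fun j => r ∈ Ic w j ∧ i ∉ Ic w j) =
          (Finset.univ.filter (fun k => r < k ∧ (w i).val ≤ (w k).val ∧ w k < w r)).image w := by
        ext j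
        obtain ⟨k, rfl⟩ := w.surjective j
        simp only [Finset.mem_filter, Finset.mem_univ, true_and, Finset.mem_image, mem_Ic]
        constructor
        · intro h
          refine ⟨k, ?_, rfl⟩
          simp only [Fin.lt_def] at *
          omega
        · rintro ⟨k', h, hk'⟩
          have := w.injective hk'
          subst this
          simp only [Fin.lt_def] at *
          omega
      rw [this, Finset.card_image_of_injective _ w.injective]
      rfl
    · have : Finset.univ.filter (fun j => r ∈ Ic (w * Equiv.swap r s) j ∧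
          i ∉ Ic (w * Equiv.swap r s) j) =
          ((Finset.univ.filter (fun k => r < k ∧ (w i).val ≤ (w k).val ∧ w k < w r)).erase
            s).image w := by
        have his : i ≠ s := by
          intro h; rw [h] at hir; exact absurd (hir.trans hrs) (lt_irrefl _)
        ext j
        obtain ⟨k, rfl⟩ := w.surjective j
        have hr : Equiv.swap r s r = s := Equiv.swap_apply_left _ _
        have hi' : Equiv.swap r s i = i := Equiv.swap_apply_of_ne_of_ne hine his
        simp only [Finset.mem_filter, Finset.mem_univ, true_and, Finset.mem_image, mem_Ic_v,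
          Finset.mem_erase, hr, hi']
        have f1 := inc' k s
        have f2 := smax' k
        have f4 := inj w k r
        have f5 := inj w k s
        have f6 := inj w k i
        constructor
        · intro h
          refine ⟨k, ?_, rfl⟩
          rcases sw r s k with ⟨h3, h4⟩ | ⟨h3, h3', h4⟩ | ⟨h3, h3', h4⟩ <;>
          rw [h4] at h <;> simp only [Fin.lt_def, Fin.ext_iff, ne_eq] at * <;> omega
        · rintro ⟨k', h, hk'⟩
          have := w.injective hk'
          subst this
          rcases sw r s k' with ⟨h3, h4⟩ | ⟨h3, h3', h4⟩ | ⟨h3, h3', h4⟩ <;>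
          rw [h4] <;> simp only [Fin.lt_def, Fin.ext_iff, ne_eq] at * <;> omega
      rw [this, Finset.card_image_of_injective _ w.injective]
      have hs : s ∈ Finset.univ.filter
          (fun k => r < k ∧ (w i).val ≤ (w k).val ∧ w k < w r) := by
        simp only [Finset.mem_filter, Finset.mem_univ, true_and]
        exact ⟨hrs, hwi'.le, hws⟩
      rw [Finset.card_erase_of_mem hs]
      have := Finset.card_pos.mpr ⟨s, hs⟩
      unfold mm
      omega
    · intro i' hi' hlt
      simp only [Trs, Finset.mem_filter, Finset.mem_univ, true_and] at hi'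
      obtain ⟨h1, h2, h3⟩ := hi'
      have h4 := h3 i hlt hir
      have h5 : w i < w i' := by
        have := inj w i i'
        simp only [Fin.lt_def] at *
        omega
      refine ⟨?_, ?_, h5⟩
      · rw [mem_Ic]; exact ⟨hlt, h5⟩
      · rw [mem_Ic]; intro h; exact absurd h.2 (not_lt.mpr h2.le)

end Pool.Agent.Work.MP_ca14f8_co.QE

end

section

/-! The exponential formula in the tensor model (item 11931). -/

set_option autoImplicit false
open Classical

namespace Pool.Agent.Work.MP_ca14f8_co.QE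

namespace XExp

/-- powers of `S + N` with `N ^ 2 = 0`. -/
theorem pow_add {R : Type} [Ring R] (S N : R) (hc : S * N = N * S) (hN : N * N = 0) (k : ℕ) :
    (S + N) ^ (k + 1) = S ^ (k + 1) + ((k : R) + 1) * (S ^ k * N) := by
  have hck : ∀ m : ℕ, S ^ m * N = N * S ^ m := by
    intro m
    exact ((show Commute S N from hc).pow_left m)
  induction k with
  | zero => simp
  | succ k ih =>
    rw [pow_succ (S + N) (k + 1), ih]
    have e1 : S ^ (k + 1) * N = S ^ k * N * S := by
      rw [pow_succ, mul_assoc, hc, mul_assoc]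
    have e2 : S ^ k * N * N = 0 := by rw [mul_assoc, hN, mul_zero]
    have e3 : ((k : R) + 1) * (S ^ k * N) * (S + N) = ((k : R) + 1) * (S ^ (k + 1) * N) := by
      rw [mul_assoc, mul_add, e2, add_zero, e1]
    rw [add_mul, e3, mul_add, ← pow_succ]
    push_cast
    noncomm_ring

theorem nil {R β : Type} [DecidableEq β] [Ring R] (N : β → R) (hc : ∀ x y, N x * N y = N y * N x)
    (hN : ∀ x, N x * N x = 0) (s : Finset β) : (∑ x ∈ s, N x) ^ (s.card + 1) = 0 := by
  induction s using Finset.induction_on with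
  | empty => simp
  | insert x s hx ih =>
    have hcs : (∑ y ∈ s, N y) * N x = N x * (∑ y ∈ s, N y) := by
      rw [Finset.sum_mul, Finset.mul_sum]
      exact Finset.sum_congr rfl (fun y _ => hc y x)
    rw [Finset.sum_insert hx, add_comm, Finset.card_insert_of_notMem hx, pow_add _ _ hcs (hN x)]
    rw [pow_succ, ih]
    simp

theorem expo {V β : Type} [DecidableEq β] [AddCommGroup V] [Module ℚ V] (N : β → Module.End ℚ V)
    (hc : ∀ x y, N x * N y = N y * N x)
    (hN : ∀ x, N x * N x = 0) (t : ℚ) (G : Finset β → V)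
    (hG : ∀ x s, x ∉ s → G (insert x s) = G s + t • (N x) (G s)) (s : Finset β) :
    G s = ∑ k ∈ Finset.range (s.card + 1),
      (t ^ k / (k.factorial : ℚ)) • ((∑ x ∈ s, N x) ^ k) (G ∅) := by
  induction s using Finset.induction_on with
  | empty => simp
  | insert x s hx ih =>
    have hcs : (∑ y ∈ s, N y) * N x = N x * (∑ y ∈ s, N y) := by
      rw [Finset.sum_mul, Finset.mul_sum]
      exact Finset.sum_congr rfl (fun y _ => hc y x)
    have hnil : (∑ y ∈ s, N y) ^ (s.card + 1) = 0 := nil N hc hN s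
    rw [hG x s hx, Finset.card_insert_of_notMem hx, Finset.sum_range_succ', Finset.sum_insert hx,
      add_comm (N x)]
    set S := ∑ y ∈ s, N y with hS
    have hck : ∀ m : ℕ, S ^ m * N x = N x * S ^ m := by
      intro m
      exact ((show Commute S (N x) from hcs).pow_left m)
    have e1 : ∀ k ∈ Finset.range (s.card + 1),
        (t ^ (k + 1) / ((k + 1).factorial : ℚ)) • ((S + N x) ^ (k + 1)) (G ∅)
        = (t ^ (k + 1) / ((k + 1).factorial : ℚ)) • (S ^ (k + 1)) (G ∅)
          + t • (N x) ((t ^ k / (k.factorial : ℚ)) • (S ^ k) (G ∅)) := by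
      intro k _
      rw [pow_add _ _ hcs (hN x)]
      have e2 : ((k : Module.End ℚ V) + 1) * (S ^ k * N x) = ((k : ℚ) + 1) • (N x * S ^ k) := by
        rw [hck]
        ext v
        simp [add_smul, Nat.cast_smul_eq_nsmul]
      rw [e2]
      simp only [LinearMap.add_apply, LinearMap.smul_apply, Module.End.mul_apply, smul_add,
        map_smul, smul_smul]
      congr 2
      have h1 : ((k + 1).factorial : ℚ) = ((k : ℚ) + 1) * (k.factorial : ℚ) := by
        rw [Nat.factorial_succ]; push_cast; ring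
      rw [h1]
      have h2 : ((k : ℚ) + 1) ≠ 0 := by positivity
      have h3 : (k.factorial : ℚ) ≠ 0 := by positivity
      field_simp
      ring
    rw [Finset.sum_congr rfl e1, Finset.sum_add_distrib, ← Finset.smul_sum, ← map_sum, ← ih]
    have e4 : ∑ k ∈ Finset.range (s.card + 1),
        (t ^ (k + 1) / ((k + 1).factorial : ℚ)) • (S ^ (k + 1)) (G ∅)
        + (t ^ 0 / (Nat.factorial 0 : ℚ)) • ((S + N x) ^ 0) (G ∅) = G s := by
      have h5 := Finset.sum_range_succ' (fun k => (t ^ k / (k.factorial : ℚ)) • (S ^ k) (G ∅))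
        (s.card + 1)
      have h6 := Finset.sum_range_succ (fun k => (t ^ k / (k.factorial : ℚ)) • (S ^ k) (G ∅))
        (s.card + 1)
      rw [hnil] at h6
      rw [← ih] at h6
      simp only [LinearMap.zero_apply, smul_zero, add_zero] at h6
      rw [h6] at h5
      rw [h5]
      simp
    rw [add_right_comm, e4]

section op
variable {β : Type} [DecidableEq β] {n : ℕ}

theorem op_apply (x : β) (A : Matrix (Fin n) (Fin n) ℚ) (t : (β → Fin n) → ℚ) (ρ : β → Fin n) :
    op x A t ρ = ∑ c, A (ρ x) c * t (Function.update ρ x c) := rfl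

theorem op_sq (x : β) (A : Matrix (Fin n) (Fin n) ℚ) (hA : A * A = 0) :
    op x A * op x A = 0 := by
  ext t ρ
  simp only [Module.End.mul_apply, op_apply, LinearMap.zero_apply, Pi.zero_apply,
    Function.update_self, Function.update_idem, Finset.mul_sum]
  rw [Finset.sum_comm]
  have : ∀ d, ∑ c, A (ρ x) c * (A c d * t (Function.update ρ x d)) = 0 := by
    intro d
    have h : (A * A) (ρ x) d = 0 := by rw [hA]; rfl
    rw [Matrix.mul_apply] at h
    simp only [← mul_assoc]
    rw [← Finset.sum_mul, h, zero_mul]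
  simp [this]

theorem op_comm (x y : β) (A : Matrix (Fin n) (Fin n) ℚ) :
    op x A * op y A = op y A * op x A := by
  by_cases hxy : x = y
  · rw [hxy]
  ext t ρ
  simp only [Module.End.mul_apply, op_apply, Finset.mul_sum]
  rw [Finset.sum_comm]
  refine Finset.sum_congr rfl (fun d _ => Finset.sum_congr rfl (fun c _ => ?_))
  rw [Function.update_of_ne (Ne.symm hxy), Function.update_of_ne hxy, Function.update_comm hxy]
  ring

end op

/-- rows in the boxes of `s` from `Y`, the others from `X`. -/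
noncomputable def GG {n : ℕ} (I : Fin n → Finset (Fin n)) (X Y : Matrix (Fin n) (Fin n) ℚ)
    (s : Finset (Σ j, I j)) : ((Σ j, I j) → Fin n) → ℚ :=
  fun ρ => ∏ j, (Matrix.of (fun (a b : I j) =>
    if (⟨j, a⟩ : Σ j, I j) ∈ s then Y (ρ ⟨j, a⟩) b else X (ρ ⟨j, a⟩) b)).det

theorem row_lin {m : Type} [Fintype m] [DecidableEq m] {n : ℕ} (M : Matrix m m ℚ) (a : m)
    (u : m → ℚ) (t : ℚ) (c : Fin n → ℚ) (v : Fin n → m → ℚ) :
    (M.updateRow a (fun b => u b + t * ∑ k, c k * v k b)).det
      = (M.updateRow a u).det + t * ∑ k, c k * (M.updateRow a (v k)).det := by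
  have h : (fun b => u b + t * ∑ k, c k * v k b) = u + t • ∑ k, c k • v k := by
    ext b; simp [Finset.sum_apply]
  rw [h]
  have key : ∀ w : m → ℚ, (M.updateRow a w).det
      = (Matrix.detRowAlternating (R := ℚ) (n := m)).toMultilinearMap.toLinearMap M a w := by
    intro w; rfl
  rw [key, key, map_add, map_smul, map_sum]
  simp only [map_smul, smul_eq_mul]
  congr 2

theorem GG_insert {n : ℕ} (I : Fin n → Finset (Fin n)) (A X : Matrix (Fin n) (Fin n) ℚ) (t : ℚ)
    (x : Σ j, I j) (s : Finset (Σ j, I j)) (hx : x ∉ s) :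
    GG I X ((1 + t • A) * X) (insert x s)
      = GG I X ((1 + t • A) * X) s + t • (op x A) (GG I X ((1 + t • A) * X) s) := by
  obtain ⟨j0, a0⟩ := x
  set Y := (1 + t • A) * X with hY
  have hYrow : ∀ r b, Y r b = X r b + t * ∑ k, A r k * X k b := by
    intro r b
    rw [hY, add_mul, one_mul, smul_mul_assoc]
    simp [Matrix.add_apply, Matrix.mul_apply]
  ext ρ
  simp only [Pi.add_apply, Pi.smul_apply, smul_eq_mul, op_apply]
  unfold GG
  rw [← Finset.mul_prod_erase Finset.univ _ (Finset.mem_univ j0)]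
  rw [← Finset.mul_prod_erase Finset.univ _ (Finset.mem_univ j0)]
  have hP : ∀ c : Fin n, (∏ j, (Matrix.of (fun (a b : I j) =>
      if (⟨j, a⟩ : Σ j, I j) ∈ s then Y ((Function.update ρ ⟨j0, a0⟩ c) ⟨j, a⟩) b
        else X ((Function.update ρ ⟨j0, a0⟩ c) ⟨j, a⟩) b)).det)
      = (Matrix.of (fun (a b : I j0) =>
      if (⟨j0, a⟩ : Σ j, I j) ∈ s then Y ((Function.update ρ ⟨j0, a0⟩ c) ⟨j0, a⟩) b
        else X ((Function.update ρ ⟨j0, a0⟩ c) ⟨j0, a⟩) b)).det *
        ∏ j ∈ Finset.univ.erase j0, (Matrix.of (fun (a b : I j) =>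
      if (⟨j, a⟩ : Σ j, I j) ∈ s then Y (ρ ⟨j, a⟩) b else X (ρ ⟨j, a⟩) b)).det := by
    intro c
    rw [← Finset.mul_prod_erase Finset.univ _ (Finset.mem_univ j0)]
    congr 1
    refine Finset.prod_congr rfl (fun j hj => ?_)
    have hj0 : j ≠ j0 := (Finset.mem_erase.mp hj).1
    congr 2
    funext a b
    have hne : (⟨j, a⟩ : Σ j, I j) ≠ ⟨j0, a0⟩ := by
      intro h
      exact hj0 (congrArg Sigma.fst h)
    rw [Function.update_of_ne hne]
  simp only [hP]
  have hQ : (∏ j ∈ Finset.univ.erase j0, (Matrix.of (fun (a b : I j) =>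
      if (⟨j, a⟩ : Σ j, I j) ∈ insert ⟨j0, a0⟩ s then Y (ρ ⟨j, a⟩) b else X (ρ ⟨j, a⟩) b)).det)
      = ∏ j ∈ Finset.univ.erase j0, (Matrix.of (fun (a b : I j) =>
      if (⟨j, a⟩ : Σ j, I j) ∈ s then Y (ρ ⟨j, a⟩) b else X (ρ ⟨j, a⟩) b)).det := by
    refine Finset.prod_congr rfl (fun j hj => ?_)
    have hj0 : j ≠ j0 := (Finset.mem_erase.mp hj).1
    congr 2
    funext a b
    have hne : (⟨j, a⟩ : Σ j, I j) ≠ ⟨j0, a0⟩ := by
      intro h
      exact hj0 (congrArg Sigma.fst h)
    simp [Finset.mem_insert, hne]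
  rw [hQ]
  set Q := ∏ j ∈ Finset.univ.erase j0, (Matrix.of (fun (a b : I j) =>
      if (⟨j, a⟩ : Σ j, I j) ∈ s then Y (ρ ⟨j, a⟩) b else X (ρ ⟨j, a⟩) b)).det with hQdef
  set M : Matrix (I j0) (I j0) ℚ := Matrix.of (fun (a b : I j0) =>
      if (⟨j0, a⟩ : Σ j, I j) ∈ s then Y (ρ ⟨j0, a⟩) b else X (ρ ⟨j0, a⟩) b) with hM
  have h1 : (Matrix.of (fun (a b : I j0) =>
      if (⟨j0, a⟩ : Σ j, I j) ∈ insert ⟨j0, a0⟩ s then Y (ρ ⟨j0, a⟩) b else X (ρ ⟨j0, a⟩) b))
      = M.updateRow a0 (fun b => X (ρ ⟨j0, a0⟩) b + t * ∑ k, A (ρ ⟨j0, a0⟩) k * X k b) := by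
    ext a b
    by_cases ha : a = a0
    · subst ha
      simp [hYrow]
    · have hne : (⟨j0, a⟩ : Σ j, I j) ≠ ⟨j0, a0⟩ := by
        intro h
        simp only [Sigma.mk.injEq, heq_eq_eq, true_and] at h
        exact ha h
      simp [Matrix.updateRow_ne ha, Finset.mem_insert, ha, hM]
  have h2 : M.updateRow a0 (fun b => X (ρ ⟨j0, a0⟩) b) = M := by
    ext a b
    by_cases ha : a = a0
    · subst ha
      simp [hM, hx]
    · simp [Matrix.updateRow_ne ha]
  have h3 : ∀ c : Fin n, (Matrix.of (fun (a b : I j0) =>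
      if (⟨j0, a⟩ : Σ j, I j) ∈ s then Y ((Function.update ρ ⟨j0, a0⟩ c) ⟨j0, a⟩) b
        else X ((Function.update ρ ⟨j0, a0⟩ c) ⟨j0, a⟩) b))
      = M.updateRow a0 (fun b => X c b) := by
    intro c
    ext a b
    by_cases ha : a = a0
    · subst ha
      simp [hx]
    · have hne : (⟨j0, a⟩ : Σ j, I j) ≠ ⟨j0, a0⟩ := by
        intro h
        simp only [Sigma.mk.injEq, heq_eq_eq, true_and] at h
        exact ha h
      simp [Matrix.updateRow_ne ha, Function.update_of_ne hne, hM]
  simp only [h1, h3]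
  rw [row_lin M a0 (fun b => X (ρ ⟨j0, a0⟩) b) t (fun k => A (ρ ⟨j0, a0⟩) k)
    (fun k b => X k b), h2]
  rw [add_mul, mul_assoc, Finset.sum_mul]
  congr 2
  refine Finset.sum_congr rfl (fun c _ => ?_)
  ring

end XExp

theorem I_Exp : StExp := by
  intro n I A X hA
  refine ⟨?_, ?_⟩
  · exact XExp.nil (fun x : (Σ j, I j) => op x A) (fun x y => XExp.op_comm x y A)
      (fun x => XExp.op_sq x A hA) Finset.univ
  · intro t
    have h := XExp.expo (fun x : (Σ j, I j) => op x A) (fun x y => XExp.op_comm x y A)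
      (fun x => XExp.op_sq x A hA) t (XExp.GG I X ((1 + t • A) * X))
      (fun x s hx => XExp.GG_insert I A X t x s hx) Finset.univ
    have e1 : XExp.GG I X ((1 + t • A) * X) Finset.univ = UU I ((1 + t • A) * X) := by
      ext ρ
      simp [XExp.GG, UU]
    have e2 : XExp.GG I X ((1 + t • A) * X) ∅ = UU I X := by
      ext ρ
      simp [XExp.GG, UU]
    rw [e1, e2] at h
    exact h

end Pool.Agent.Work.MP_ca14f8_co.QE

end

section

/-!
Item GEN: coefficients of a vanishing polynomial family.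
-/

set_option autoImplicit false
open Classical

namespace Pool.Agent.Work.MP_ca14f8_co.QE

namespace XGEN

/-- a polynomial with vector coefficients which vanishes at all non-zero rationals has zero
coefficients. -/
theorem coef_zero {M : Type} [AddCommGroup M] [Module ℚ M] (c : ℕ) (f : ℕ → M)
    (h : ∀ t : ℚ, t ≠ 0 → ∑ j ∈ Finset.range (c + 1), t ^ j • f j = 0) :
    ∀ j, j ≤ c → f j = 0 := by
  intro j hj
  rw [← Module.forall_dual_apply_eq_zero_iff ℚ]
  intro φ
  let P : Polynomial ℚ := ∑ j ∈ Finset.range (c + 1), Polynomial.C (φ (f j)) * Polynomial.X ^ j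
  have hP : P = 0 := by
    apply Polynomial.eq_zero_of_infinite_isRoot
    apply Set.Infinite.mono (s := {t : ℚ | t ≠ 0})
    · intro t ht
      have := congrArg φ (h t ht)
      simp only [map_sum, map_smul, smul_eq_mul, map_zero] at this
      simp only [Set.mem_ofPred_eq, Polynomial.IsRoot.def, P, Polynomial.eval_finsetSum,
        Polynomial.eval_mul, Polynomial.eval_C, Polynomial.eval_pow, Polynomial.eval_X]
      rw [← this]
      refine Finset.sum_congr rfl fun i _ => ?_
      ring
    · exact (Set.finite_singleton (0 : ℚ)).infinite_compl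
  have hc : P.coeff j = φ (f j) := by
    simp only [P, Polynomial.finsetSum_coeff, Polynomial.coeff_C_mul, Polynomial.coeff_X_pow]
    rw [Finset.sum_eq_single j]
    · simp
    · intro b _ hb
      simp [Ne.symm hb]
    · intro hb
      exact absurd (Finset.mem_range.mpr (by omega)) hb
  rw [← hc, hP, Polynomial.coeff_zero]

end XGEN

theorem I_GEN : StGEN := by
  intro M _ _ A B c u hAB h i j hij
  have key := XGEN.coef_zero c (fun j => (c.choose j : ℚ) • ((A ^ (c - j) * B ^ j) u)) ?_ j
    (by omega)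
  · have hc : (c.choose j : ℚ) ≠ 0 := by
      exact_mod_cast (Nat.choose_pos (by omega)).ne'
    have h2 := (smul_eq_zero.mp key).resolve_left hc
    have h3 : c - j = i := by omega
    rwa [h3] at h2
  · intro t ht
    have h1 := h t ht
    have hc : Commute (t • B) A := (hAB.symm).smul_left t
    rw [add_comm A, hc.add_pow, LinearMap.sum_apply] at h1
    rw [← h1]
    refine Finset.sum_congr rfl fun m _ => ?_
    have e1 : ((t • B) ^ m * A ^ (c - m) * (c.choose m : Module.End ℚ M)) u
        = ((c.choose m : ℚ) * t ^ m) • ((A ^ (c - m) * B ^ m) u) := by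
      rw [smul_pow, smul_mul_assoc, smul_mul_assoc]
      have e2 : B ^ m * A ^ (c - m) = A ^ (c - m) * B ^ m := ((hAB.symm).pow_pow m (c - m)).eq
      rw [e2]
      have e3 : (c.choose m : Module.End ℚ M) = (c.choose m : ℚ) • (1 : Module.End ℚ M) := by
        ext x
        simp only [Module.End.natCast_apply, LinearMap.smul_apply, Module.End.one_apply]
        exact (Nat.cast_smul_eq_nsmul ℚ _ x).symm
      rw [e3, mul_smul_comm, mul_one, LinearMap.smul_apply, LinearMap.smul_apply, smul_smul,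
        mul_comm]
    rw [e1, smul_smul, mul_comm]

end Pool.Agent.Work.MP_ca14f8_co.QE

end

section

/-!
Block QE of MP_ca14f8_co: combinatorics of `mm`, part 1 (item 11966).
-/

set_option autoImplicit false
open Classical

namespace Pool.Agent.Work.MP_ca14f8_co.QE

namespace XMM1

variable {n : ℕ}

lemma V_r (w v : Equiv.Perm (Fin n)) (r s : Fin n) (h : TrD w v r s) : v r = w s := by
  rw [h.hv]
  simp [Equiv.Perm.mul_apply]

lemma V_s (w v : Equiv.Perm (Fin n)) (r s : Fin n) (h : TrD w v r s) : v s = w r := by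
  rw [h.hv]
  simp [Equiv.Perm.mul_apply]

lemma V_o (w v : Equiv.Perm (Fin n)) (r s : Fin n) (h : TrD w v r s) (k : Fin n)
    (h1 : k ≠ r) (h2 : k ≠ s) : v k = w k := by
  rw [h.hv]
  simp only [Equiv.Perm.mul_apply]
  rw [Equiv.swap_apply_of_ne_of_ne h1 h2]

/-- `v` is increasing after `r`. -/
lemma V_inc (w v : Equiv.Perm (Fin n)) (r s : Fin n) (h : TrD w v r s) (a b : Fin n)
    (hra : r < a) (hab : a < b) : v a < v b := by
  have hrs := h.hrs
  have hws := h.hws
  have hinc := h.inc
  have hsmax := h.smax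
  have hrb := hra.trans hab
  by_cases has : a = s
  · subst has
    rw [V_s w v r a h, V_o w v r a h b (ne_of_gt hrb) (ne_of_gt hab)]
    exact hsmax b hab
  · by_cases hbs : b = s
    · subst hbs
      rw [V_s w v r b h, V_o w v r b h a (ne_of_gt hra) has]
      exact (hinc a b hra hab).trans hws
    · rw [V_o w v r s h a (ne_of_gt hra) has, V_o w v r s h b (ne_of_gt hrb) hbs]
      exact hinc a b hra hab

/-- for `k > r`: `w k < w r` iff `k ≤ s`. -/
lemma lt_iffR (w v : Equiv.Perm (Fin n)) (r s : Fin n) (h : TrD w v r s) (k : Fin n)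
    (hk : r < k) : w k < w r ↔ k ≤ s := by
  constructor
  · intro hlt
    by_contra hc
    exact absurd (h.smax k (not_le.mp hc)) (not_lt.mpr hlt.le)
  · intro hle
    rcases lt_or_eq_of_le hle with h1 | h1
    · exact (h.inc k s hk h1).trans h.hws
    · rw [h1]; exact h.hws

/-- for `k > r`: `w k < w s` iff `k < s`. -/
lemma lt_iff' (w v : Equiv.Perm (Fin n)) (r s : Fin n) (h : TrD w v r s) (k : Fin n)
    (hk : r < k) : w k < w s ↔ k < s := by
  constructor
  · intro hlt
    by_contra hc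
    rcases lt_or_eq_of_le (not_lt.mp hc) with h1 | h1
    · exact absurd (h.inc s k h.hrs h1) (not_lt.mpr hlt.le)
    · rw [h1] at hlt; exact absurd hlt (lt_irrefl _)
  · intro hlt
    exact h.inc k s hk hlt

end XMM1

open XMM1 in
theorem I_MM1 : StMM1 := by
  intro n w v r s h
  have hrs := h.hrs
  have hws := h.hws
  have hVr := V_r w v r s h
  have hVs := V_s w v r s h
  refine ⟨?_, ?_, ?_, ?_⟩
  · intro b t hb
    constructor
    · unfold mm
      rw [Finset.card_eq_zero, Finset.filter_eq_empty_iff]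
      rintro k - ⟨hbk, -, hlt⟩
      exact absurd (h.inc b k hb hbk) (not_lt.mpr hlt.le)
    · unfold mm
      rw [Finset.card_eq_zero, Finset.filter_eq_empty_iff]
      rintro k - ⟨hbk, -, hlt⟩
      exact absurd (V_inc w v r s h b k hb hbk) (not_lt.mpr hlt.le)
  · intro b t hb
    have hbs := hb.trans hrs
    have hVb : v b = w b := V_o w v r s h b (ne_of_lt hb) (ne_of_lt hbs)
    unfold mm
    apply Finset.card_bij (fun k _ => Equiv.swap r s k)
    · intro k hk
      simp only [Finset.mem_filter, Finset.mem_univ, true_and] at hk ⊢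
      obtain ⟨h1, h2, h3⟩ := hk
      rw [hVb] at h3
      by_cases hkr : k = r
      · subst hkr
        rw [hVr] at h2 h3
        rw [Equiv.swap_apply_left]
        exact ⟨hbs, h2, h3⟩
      · by_cases hks : k = s
        · subst hks
          rw [hVs] at h2 h3
          rw [Equiv.swap_apply_right]
          exact ⟨hb, h2, h3⟩
        · rw [V_o w v r s h k hkr hks] at h2 h3
          rw [Equiv.swap_apply_of_ne_of_ne hkr hks]
          exact ⟨h1, h2, h3⟩
    · intro a _ a' _ haa
      exact (Equiv.swap r s).injective haa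
    · intro k hk
      simp only [Finset.mem_filter, Finset.mem_univ, true_and] at hk
      obtain ⟨h1, h2, h3⟩ := hk
      refine ⟨Equiv.swap r s k, ?_, by simp⟩
      simp only [Finset.mem_filter, Finset.mem_univ, true_and]
      rw [hVb]
      by_cases hkr : k = r
      · subst hkr
        rw [Equiv.swap_apply_left, hVs]
        exact ⟨hbs, h2, h3⟩
      · by_cases hks : k = s
        · subst hks
          rw [Equiv.swap_apply_right, hVr]
          exact ⟨hb, h2, h3⟩
        · rw [Equiv.swap_apply_of_ne_of_ne hkr hks, V_o w v r s h k hkr hks]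
          exact ⟨h1, h2, h3⟩
  · intro t ht
    unfold mm
    congr 1
    ext k
    simp only [Finset.mem_filter, Finset.mem_univ, true_and]
    rw [hVr]
    constructor
    · rintro ⟨h1, h2, h3⟩
      by_cases hks : k = s
      · subst hks
        rw [hVs] at h3
        exact absurd h3 (not_lt.mpr hws.le)
      · rw [V_o w v r s h k (ne_of_gt h1) hks] at h2 h3
        exact ⟨h1, h2, h3.trans hws⟩
    · rintro ⟨h1, h2, h3⟩
      by_cases hks : k = s
      · subst hks
        omega
      · rw [V_o w v r s h k (ne_of_gt h1) hks]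
        refine ⟨h1, h2, ?_⟩
        rw [lt_iff' w v r s h k h1]
        have := (lt_iffR w v r s h k h1).mp h3
        exact lt_of_le_of_ne this hks
  · intro t ht
    unfold mm
    have hset : (Finset.univ.filter (fun k => r < k ∧ t ≤ (w k).val ∧ w k < w r))
        = insert s (Finset.univ.filter (fun k => r < k ∧ t ≤ (v k).val ∧ v k < v r)) := by
      ext k
      simp only [Finset.mem_insert, Finset.mem_filter, Finset.mem_univ, true_and]
      rw [hVr]
      constructor
      · rintro ⟨h1, h2, h3⟩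
        by_cases hks : k = s
        · exact Or.inl hks
        · right
          rw [V_o w v r s h k (ne_of_gt h1) hks]
          refine ⟨h1, h2, ?_⟩
          rw [lt_iff' w v r s h k h1]
          have := (lt_iffR w v r s h k h1).mp h3
          exact lt_of_le_of_ne this hks
      · rintro (h0 | ⟨h1, h2, h3⟩)
        · subst h0
          exact ⟨hrs, ht, hws⟩
        · by_cases hks : k = s
          · subst hks
            exact ⟨hrs, ht, hws⟩
          · rw [V_o w v r s h k (ne_of_gt h1) hks] at h2 h3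
            exact ⟨h1, h2, h3.trans hws⟩
    rw [hset, Finset.card_insert_of_notMem]
    simp only [Finset.mem_filter, Finset.mem_univ, true_and]
    rintro ⟨h1, h2, h3⟩
    rw [hVs, hVr] at h3
    exact absurd h3 (not_lt.mpr hws.le)

end Pool.Agent.Work.MP_ca14f8_co.QE

end

section

/-!
Block QE of MP_ca14f8_co: combinatorics of `mm`, part 2 (item 11941).
-/

set_option autoImplicit false
open Classical

namespace Pool.Agent.Work.MP_ca14f8_co.QE

namespace XMM2

variable {n : ℕ}

lemma W_i (w v : Equiv.Perm (Fin n)) (r s i : Fin n) (h : TrD w v r s) :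
    (v * Equiv.swap i r) i = w s := by
  rw [h.hv]
  simp [Equiv.Perm.mul_apply]

lemma W_r (w v : Equiv.Perm (Fin n)) (r s i : Fin n) (h : TrD w v r s) (hir : i < r) :
    (v * Equiv.swap i r) r = w i := by
  have hrs := h.hrs
  rw [h.hv]
  simp only [Equiv.Perm.mul_apply, Equiv.swap_apply_right]
  rw [Equiv.swap_apply_of_ne_of_ne (ne_of_lt hir) (ne_of_lt (hir.trans hrs))]

lemma W_s (w v : Equiv.Perm (Fin n)) (r s i : Fin n) (h : TrD w v r s) (hir : i < r) :
    (v * Equiv.swap i r) s = w r := by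
  have hrs := h.hrs
  rw [h.hv]
  simp only [Equiv.Perm.mul_apply]
  rw [Equiv.swap_apply_of_ne_of_ne (ne_of_gt (hir.trans hrs)) (ne_of_gt hrs),
    Equiv.swap_apply_right]

lemma W_o (w v : Equiv.Perm (Fin n)) (r s i : Fin n) (h : TrD w v r s) (k : Fin n)
    (h1 : k ≠ i) (h2 : k ≠ r) (h3 : k ≠ s) :
    (v * Equiv.swap i r) k = w k := by
  rw [h.hv]
  simp only [Equiv.Perm.mul_apply]
  rw [Equiv.swap_apply_of_ne_of_ne h1 h2, Equiv.swap_apply_of_ne_of_ne h2 h3]

lemma ne_val (w : Equiv.Perm (Fin n)) {a b : Fin n} (h : a ≠ b) : (w a).val ≠ (w b).val := by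
  intro he
  exact h (w.injective (Fin.ext he))

end XMM2

open XMM2 in
theorem I_MM2 : StMM2 := by
  intro n w v r s h i hi
  simp only [Trs, Finset.mem_filter, Finset.mem_univ, true_and] at hi
  obtain ⟨hir, hwi, hno⟩ := hi
  have hrs := h.hrs
  have hws := h.hws
  have hinc := h.inc
  have hsmax := h.smax
  have hWi := W_i w v r s i h
  have hWr := W_r w v r s i h hir
  have hWs := W_s w v r s i h hir
  have hWo := W_o w v r s i h
  set W := v * Equiv.swap i r with hW
  have key : ∀ k, r < k → w k < w r → k ≠ s → w k < w s := by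
    intro k h1 h2 h3
    rcases lt_trichotomy k s with h4 | h4 | h4
    · exact hinc k s h1 h4
    · exact absurd h4 h3
    · exact absurd (hsmax k h4) (not_lt.mpr h2.le)
  refine ⟨?_, ?_, ?_, ?_, ?_, ?_, ?_⟩
  · intro b t hb
    unfold mm
    rw [Finset.card_eq_zero, Finset.filter_eq_empty_iff]
    rintro k - ⟨h1, -, h3⟩
    have hbi : b ≠ i := ne_of_gt (hir.trans hb)
    have hbr : b ≠ r := ne_of_gt hb
    have hki : k ≠ i := ne_of_gt (hir.trans (hb.trans h1))
    have hkr : k ≠ r := ne_of_gt (hb.trans h1)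
    by_cases hbs : b = s
    · subst hbs
      rw [hWs, hWo k hki hkr (ne_of_gt h1)] at h3
      exact absurd (hsmax k h1) (not_lt.mpr h3.le)
    · rw [hWo b hbi hbr hbs] at h3
      by_cases hks : k = s
      · subst hks
        rw [hWs] at h3
        exact absurd ((hinc b k hb h1).trans hws) (not_lt.mpr h3.le)
      · rw [hWo k hki hkr hks] at h3
        exact absurd (hinc b k hb h1) (not_lt.mpr h3.le)
  · intro t ht
    unfold mm
    rw [hWr, ← Finset.card_union_of_disjoint]
    · congr 1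
      ext k
      simp only [Finset.mem_union, Finset.mem_filter, Finset.mem_univ, true_and]
      constructor
      · rintro (⟨h1, h2, h3⟩ | ⟨h1, h2, h3⟩)
        · have hki : k ≠ i := ne_of_gt (hir.trans h1)
          by_cases hks : k = s
          · subst hks
            rw [hWs] at h3
            exact absurd (hwi.trans hws) (not_lt.mpr h3.le)
          · rw [hWo k hki (ne_of_gt h1) hks] at h2 h3
            exact ⟨h1, h2, h3.trans (hwi.trans hws)⟩
        · exact ⟨h1, ht.trans h2, h3⟩
      · rintro ⟨h1, h2, h3⟩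
        have hki : k ≠ i := ne_of_gt (hir.trans h1)
        by_cases h4 : (w i).val ≤ (w k).val
        · exact Or.inr ⟨h1, h4, h3⟩
        · have h5 : w k < w i := by
            rw [Fin.lt_def]; omega
          have hks : k ≠ s := by
            rintro rfl
            exact absurd hwi (not_lt.mpr h5.le)
          left
          rw [hWo k hki (ne_of_gt h1) hks]
          exact ⟨h1, h2, h5⟩
    · rw [Finset.disjoint_left]
      intro k hk hk'
      simp only [Finset.mem_filter, Finset.mem_univ, true_and] at hk hk'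
      obtain ⟨h1, h2, h3⟩ := hk
      obtain ⟨-, h5, -⟩ := hk'
      have hki : k ≠ i := ne_of_gt (hir.trans h1)
      by_cases hks : k = s
      · subst hks
        rw [hWs] at h3
        exact absurd (hwi.trans hws) (not_lt.mpr h3.le)
      · rw [hWo k hki (ne_of_gt h1) hks] at h3
        rw [Fin.lt_def] at h3
        omega
  · intro t ht
    unfold mm
    rw [Finset.card_eq_zero, Finset.filter_eq_empty_iff]
    rintro k - ⟨-, h2, h3⟩
    rw [hWr, Fin.lt_def] at h3
    omega
  · intro b t hb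
    have hWb : W b = w b := hWo b (ne_of_lt hb) (ne_of_lt (hb.trans hir))
      (ne_of_lt (hb.trans (hir.trans hrs)))
    unfold mm
    rw [hWb]
    set σ : Equiv.Perm (Fin n) := Equiv.swap r s * Equiv.swap i r with hσ
    have hWσ : ∀ k, W k = w (σ k) := by
      intro k
      rw [hW, h.hv, hσ, mul_assoc, Equiv.Perm.mul_apply]
    have hσk : ∀ k, b < σ k ↔ b < k := by
      intro k
      by_cases h1 : k = i
      · subst h1
        have : σ k = s := by simp [hσ, Equiv.Perm.mul_apply]
        rw [this]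
        exact ⟨fun _ => hb, fun _ => hb.trans (hir.trans hrs)⟩
      by_cases h2 : k = r
      · subst h2
        have : σ k = i := by
          simp only [hσ, Equiv.Perm.mul_apply, Equiv.swap_apply_right]
          rw [Equiv.swap_apply_of_ne_of_ne (ne_of_lt hir) (ne_of_lt (hir.trans hrs))]
        rw [this]
        exact ⟨fun _ => hb.trans hir, fun _ => hb⟩
      by_cases h3 : k = s
      · subst h3
        have : σ k = r := by
          simp only [hσ, Equiv.Perm.mul_apply]
          rw [Equiv.swap_apply_of_ne_of_ne h1 h2, Equiv.swap_apply_right]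
        rw [this]
        exact ⟨fun _ => hb.trans (hir.trans hrs), fun _ => hb.trans hir⟩
      · have : σ k = k := by
          simp only [hσ, Equiv.Perm.mul_apply]
          rw [Equiv.swap_apply_of_ne_of_ne h1 h2, Equiv.swap_apply_of_ne_of_ne h2 h3]
        rw [this]
    apply Finset.card_equiv σ
    intro k
    simp only [Finset.mem_filter, Finset.mem_univ, true_and]
    rw [hWσ, hσk]
  · intro t ht
    unfold mm
    have e1 : (Finset.univ.filter (fun k => i < k ∧ t ≤ (W k).val ∧ W k < W i)) =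
        insert r ((Finset.univ.filter (fun k => i < k ∧ t ≤ (w k).val ∧ w k < w i)) ∪
          ((Finset.univ.filter
            (fun k => r < k ∧ (w i).val ≤ (w k).val ∧ w k < w r)).erase s)) := by
      ext k
      simp only [Finset.mem_insert, Finset.mem_union, Finset.mem_filter, Finset.mem_univ,
        true_and, Finset.mem_erase]
      rw [hWi]
      constructor
      · rintro ⟨h1, h2, h3⟩
        by_cases hkr : k = r
        · exact Or.inl hkr
        right
        have hki : k ≠ i := ne_of_gt h1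
        by_cases hks : k = s
        · subst hks
          rw [hWs] at h3
          exact absurd hws (not_lt.mpr h3.le)
        rw [hWo k hki hkr hks] at h2 h3
        rcases lt_or_gt_of_ne hkr with h4 | h4
        · left
          refine ⟨h1, h2, ?_⟩
          by_contra h5
          rcases lt_or_eq_of_le (not_lt.mp h5) with h6 | h6
          · exact hno k h1 h4 ⟨h6, h3⟩
          · exact hki (w.injective h6.symm)
        · by_cases h5 : w k < w i
          · exact Or.inl ⟨h1, h2, h5⟩
          · right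
            refine ⟨hks, h4, ?_, h3.trans hws⟩
            exact not_lt.mp h5
      · rintro (h1 | ⟨h1, h2, h3⟩ | ⟨h0, h1, h2, h3⟩)
        · subst h1
          rw [hWr]
          exact ⟨hir, ht, hwi⟩
        · have hki : k ≠ i := ne_of_gt h1
          have hkr : k ≠ r := by
            rintro rfl
            exact absurd (hwi.trans hws) (not_lt.mpr h3.le)
          have hks : k ≠ s := by
            rintro rfl
            exact absurd hwi (not_lt.mpr h3.le)
          rw [hWo k hki hkr hks]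
          exact ⟨h1, h2, h3.trans hwi⟩
        · have hki : k ≠ i := ne_of_gt (hir.trans h1)
          rw [hWo k hki (ne_of_gt h1) h0]
          exact ⟨hir.trans h1, ht.trans h2, key k h1 h3 h0⟩
    rw [e1, Finset.card_insert_of_notMem, Finset.card_union_of_disjoint,
      Finset.card_erase_of_mem]
    · have hpos : 0 < (Finset.univ.filter
            (fun k => r < k ∧ (w i).val ≤ (w k).val ∧ w k < w r)).card := by
        apply Finset.card_pos.mpr
        refine ⟨s, ?_⟩
        simp only [Finset.mem_filter, Finset.mem_univ, true_and]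
        exact ⟨hrs, hwi.le, hws⟩
      omega
    · simp only [Finset.mem_filter, Finset.mem_univ, true_and]
      exact ⟨hrs, hwi.le, hws⟩
    · rw [Finset.disjoint_left]
      intro k hk hk'
      simp only [Finset.mem_filter, Finset.mem_univ, true_and, Finset.mem_erase] at hk hk'
      obtain ⟨-, -, h3⟩ := hk
      obtain ⟨-, -, h5, -⟩ := hk'
      rw [Fin.lt_def] at h3
      omega
    · simp only [Finset.mem_union, Finset.mem_filter, Finset.mem_univ, true_and,
        Finset.mem_erase]
      rintro (⟨-, -, h3⟩ | ⟨-, h1, -⟩)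
      · exact absurd (hwi.trans hws) (not_lt.mpr h3.le)
      · exact absurd h1 (lt_irrefl _)
  · intro t ht1 ht2
    unfold mm
    refine ⟨?_, ?_⟩
    · have e1 : (Finset.univ.filter (fun k => i < k ∧ t ≤ (W k).val ∧ W k < W i)) =
          (Finset.univ.filter (fun k => r < k ∧ t ≤ (w k).val ∧ w k < w r)).erase s := by
        ext k
        simp only [Finset.mem_filter, Finset.mem_univ, true_and, Finset.mem_erase]
        rw [hWi]
        constructor
        · rintro ⟨h1, h2, h3⟩
          have hki : k ≠ i := ne_of_gt h1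
          have hkr : k ≠ r := by
            rintro rfl
            rw [hWr] at h2
            omega
          have hks : k ≠ s := by
            rintro rfl
            rw [hWs] at h3
            exact absurd hws (not_lt.mpr h3.le)
          rw [hWo k hki hkr hks] at h2 h3
          rcases lt_or_gt_of_ne hkr with h4 | h4
          · exfalso
            refine hno k h1 h4 ⟨?_, h3⟩
            rw [Fin.lt_def]; omega
          · exact ⟨hks, h4, h2, h3.trans hws⟩
        · rintro ⟨h0, h1, h2, h3⟩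
          have hki : k ≠ i := ne_of_gt (hir.trans h1)
          rw [hWo k hki (ne_of_gt h1) h0]
          exact ⟨hir.trans h1, h2, key k h1 h3 h0⟩
      rw [e1, Finset.card_erase_of_mem]
      · have hpos : 0 < (Finset.univ.filter
              (fun k => r < k ∧ t ≤ (w k).val ∧ w k < w r)).card := by
          apply Finset.card_pos.mpr
          refine ⟨s, ?_⟩
          simp only [Finset.mem_filter, Finset.mem_univ, true_and]
          exact ⟨hrs, ht2, hws⟩
        omega
      · simp only [Finset.mem_filter, Finset.mem_univ, true_and]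
        exact ⟨hrs, ht2, hws⟩
    · rw [Finset.card_eq_zero, Finset.filter_eq_empty_iff]
      rintro k - ⟨-, h2, h3⟩
      rw [Fin.lt_def] at h3
      omega
  · intro t ht
    unfold mm
    rw [Fin.lt_def] at hwi
    refine ⟨?_, ?_, ?_⟩
    · rw [Finset.card_eq_zero, Finset.filter_eq_empty_iff]
      rintro k - ⟨-, h2, h3⟩
      rw [hWi, Fin.lt_def] at h3
      omega
    · rw [Finset.card_eq_zero, Finset.filter_eq_empty_iff]
      rintro k - ⟨-, h2, h3⟩
      rw [Fin.lt_def] at h3
      omega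
    · rw [Finset.card_eq_zero, Finset.filter_eq_empty_iff]
      rintro k - ⟨h1, h2, h3⟩
      by_cases hks : k = s
      · subst hks
        omega
      · have h4 := key k h1 h3 hks
        rw [Fin.lt_def] at h4
        omega

end Pool.Agent.Work.MP_ca14f8_co.QE

end

section

/-!
Block QE of MP_ca14f8_co, item Sc1: degeneration of one minor.
-/

set_option autoImplicit false
open Classical

namespace Pool.Agent.Work.MP_ca14f8_co.QE

namespace XSc1

open Polynomial

variable {n k : ℕ}

/-- exponent of the row -/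
noncomputable def pr (c : ℤ) (C : Fin k → Finset (Fin n)) (a : Fin n × Fin k) : ℤ :=
  if a.1 ∈ C a.2 then -(8 * (k : ℤ) ^ 2 + 8) + (4 * (k : ℤ) ^ 2 + 4) +
    2 * c * ((a.2.val : ℤ) - c) + c ^ 2 else 0

/-- exponent of the column -/
noncomputable def qc (c : ℤ) (C : Fin k → Finset (Fin n)) (b : Fin n × Fin k) : ℤ :=
  if b.1 ∈ C b.2 then -(4 * (k : ℤ) ^ 2 + 4) - 2 * c * (b.2.val : ℤ) else 0

/-- total exponent -/
noncomputable def ez (c : ℤ) (C : Fin k → Finset (Fin n)) (ρ : Fin k → Fin n → Fin n)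
    (a b : Fin n × Fin k) : ℤ :=
  pr c C a + qc c C b + (((8 * k ^ 2 + 8 +
    (((((rch c C ρ a).2.val : ℤ) - (b.2.val : ℤ)) ^ 2).toNat) : ℕ)) : ℤ)

lemma rch_act {c : ℤ} {C : Fin k → Finset (Fin n)} {ρ : Fin k → Fin n → Fin n}
    {a : Fin n × Fin k} (h1 : a.1 ∈ C a.2)
    (h2 : 0 ≤ (a.2.val : ℤ) - c ∧ (a.2.val : ℤ) - c < k) :
    rch c C ρ a = (ρ a.2 a.1, ⟨((a.2.val : ℤ) - c).toNat, by omega⟩) := by
  unfold rch
  rw [dif_pos ⟨h1, h2⟩]

lemma rch_not {c : ℤ} {C : Fin k → Finset (Fin n)} {ρ : Fin k → Fin n → Fin n}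
    {a : Fin n × Fin k} (h1 : a.1 ∉ C a.2) : rch c C ρ a = a := by
  unfold rch
  rw [dif_neg (fun h => h1 h.1)]

lemma ez_eq {c : ℤ} {C : Fin k → Finset (Fin n)} {ρ : Fin k → Fin n → Fin n}
    (a b : Fin n × Fin k) : ez c C ρ a b = pr c C a + qc c C b + (8 * (k : ℤ) ^ 2 + 8) +
      (((rch c C ρ a).2.val : ℤ) - (b.2.val : ℤ)) ^ 2 := by
  unfold ez
  rw [Nat.cast_add, Int.toNat_of_nonneg (sq_nonneg _)]
  push_cast
  ring

lemma ez_act {c : ℤ} {C : Fin k → Finset (Fin n)} {ρ : Fin k → Fin n → Fin n}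
    (hC : ∀ β : Fin k, (C β).Nonempty → 0 ≤ (β.val : ℤ) - c ∧ (β.val : ℤ) - c < k)
    {a b : Fin n × Fin k} (ha : a.1 ∈ C a.2) (hb : b.1 ∈ C b.2) :
    ez c C ρ a b = ((a.2.val : ℤ) - (b.2.val : ℤ)) ^ 2 := by
  have h2 := hC a.2 ⟨_, ha⟩
  rw [ez_eq, rch_act ha h2]
  unfold pr qc
  rw [if_pos ha, if_pos hb]
  simp only
  rw [Int.toNat_of_nonneg h2.1]
  ring

lemma ez_pos {c : ℤ} {C : Fin k → Finset (Fin n)} {ρ : Fin k → Fin n → Fin n}
    (hC : ∀ β : Fin k, (C β).Nonempty → 0 ≤ (β.val : ℤ) - c ∧ (β.val : ℤ) - c < k)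
    (hc : |c| ≤ k) {a b : Fin n × Fin k} (h : ¬ (a.1 ∈ C a.2 ∧ b.1 ∈ C b.2)) :
    0 < ez c C ρ a b := by
  rw [ez_eq]
  have hk : (0 : ℤ) ≤ k := Int.natCast_nonneg k
  obtain ⟨c1, c2⟩ := abs_le.1 hc
  have hb1 : (b.2.val : ℤ) < k := by exact_mod_cast b.2.2
  have hb0 : (0 : ℤ) ≤ b.2.val := Int.natCast_nonneg _
  have hsq := sq_nonneg ((((rch c C ρ a).2.val : ℤ) - (b.2.val : ℤ)))
  by_cases ha : a.1 ∈ C a.2
  · have hb : b.1 ∉ C b.2 := fun hb => h ⟨ha, hb⟩
    obtain ⟨h1, h2⟩ := hC a.2 ⟨_, ha⟩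
    unfold pr qc
    rw [if_pos ha, if_neg hb]
    obtain ⟨al, hal⟩ : ∃ al : ℤ, al = (a.2.val : ℤ) - c := ⟨_, rfl⟩
    rw [← hal] at h1 h2 ⊢
    have h3 : -(k : ℤ) ^ 2 ≤ c * al := by
      have := mul_nonneg (by linarith : (0 : ℤ) ≤ c + k) h1
      nlinarith
    have h4 := sq_nonneg c
    nlinarith
  · unfold pr
    rw [if_neg ha]
    by_cases hb : b.1 ∈ C b.2
    · unfold qc
      rw [if_pos hb]
      have h3 : c * (b.2.val : ℤ) ≤ (k : ℤ) ^ 2 := by
        have := mul_nonneg (by linarith : (0 : ℤ) ≤ k - c) hb0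
        nlinarith
      nlinarith
    · unfold qc
      rw [if_neg hb]
      nlinarith [sq_nonneg (k : ℤ)]

lemma prod_zpow (ι : Type) [Fintype ι] (t : ℚ) (ht : t ≠ 0) (f : ι → ℤ) :
    ∏ i, t ^ (f i) = t ^ (∑ i, f i) := by
  have : ∀ s : Finset ι, ∏ i ∈ s, t ^ (f i) = t ^ (∑ i ∈ s, f i) := by
    intro s
    induction s using Finset.induction_on with
    | empty => simp
    | insert a s ha ih => rw [Finset.prod_insert ha, Finset.sum_insert ha, ih, zpow_add₀ ht]
  exact this Finset.univ

/-- The polynomial matrix. -/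
noncomputable def PM (I : Finset (Fin n)) (c : ℤ) (C : Fin k → Finset (Fin n))
    (ρ : Fin k → Fin n → Fin n) (Y : Matrix (Fin n × Fin k) (Fin n × Fin k) ℚ) :
    Matrix (bl k I) (bl k I) ℚ[X] :=
  Matrix.of (fun a b => (if rch c C ρ a = b then (1 : ℚ[X]) else 0) +
    X ^ (ez c C ρ a b).toNat * Polynomial.C (Y (rch c C ρ a) b))

lemma evdet (I : Finset (Fin n)) (c : ℤ) (C : Fin k → Finset (Fin n))
    (ρ : Fin k → Fin n → Fin n) (Y : Matrix (Fin n × Fin k) (Fin n × Fin k) ℚ) (t : ℚ) :
    (PM I c C ρ Y).det.eval t = (Matrix.of (fun (a b : bl k I) =>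
      (if rch c C ρ a = b then (1 : ℚ) else 0) +
        t ^ (ez c C ρ a b).toNat * (Y (rch c C ρ a) b))).det := by
  rw [← Polynomial.coe_evalRingHom, RingHom.map_det]
  congr 1
  ext a b
  simp only [RingHom.mapMatrix_apply, Matrix.map_apply, PM, Matrix.of_apply,
    Polynomial.coe_evalRingHom, Polynomial.eval_add, Polynomial.eval_mul, Polynomial.eval_pow,
    Polynomial.eval_X, Polynomial.eval_C]
  split_ifs <;> simp

/-- the block of an index -/
noncomputable def bk (C : Fin k → Finset (Fin n)) (a : Fin n × Fin k) : Fin (k + 1) :=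
  if a.1 ∈ C a.2 then a.2.succ else 0

lemma mem_bl {I : Finset (Fin n)} (a : bl k I) : a.1.1 ∈ I := by
  have := a.2
  unfold bl at this
  exact (Finset.mem_product.1 this).1

lemma zero_det (I : Finset (Fin n)) (c : ℤ) (C : Fin k → Finset (Fin n))
    (ρ : Fin k → Fin n → Fin n) (hI : ∀ β, C β ⊆ I ∧ ∀ a ∈ C β, ρ β a ∉ I)
    (hC : ∀ β : Fin k, (C β).Nonempty → 0 ≤ (β.val : ℤ) - c ∧ (β.val : ℤ) - c < k)
    (hc : |c| ≤ k) (Y : Matrix (Fin n × Fin k) (Fin n × Fin k) ℚ) :
    (Matrix.of (fun (a b : bl k I) => (if rch c C ρ a = b then (1 : ℚ) else 0) +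
        (0 : ℚ) ^ (ez c C ρ a b).toNat * (Y (rch c C ρ a) b))).det =
    ∏ β : Fin k, if h : 0 ≤ (β.val : ℤ) - c ∧ (β.val : ℤ) - c < k then
        mn (C β) (ρ β) (blk Y ⟨((β.val : ℤ) - c).toNat, by omega⟩ β) else 1 := by
  obtain ⟨A, hA⟩ : ∃ A : Matrix (bl k I) (bl k I) ℚ,
      A = Matrix.of (fun (a b : bl k I) => (if rch c C ρ a = b then (1 : ℚ) else 0) +
        (0 : ℚ) ^ (ez c C ρ a b).toNat * (Y (rch c C ρ a) b)) := ⟨_, rfl⟩
  rw [← hA]
  -- entries
  have e1 : ∀ a b : bl k I, a.1.1 ∉ C a.1.2 → A a b = if a = b then 1 else 0 := by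
    intro a b ha
    rw [hA, Matrix.of_apply, rch_not ha]
    have h1 : 0 < ez c C ρ a b := ez_pos hC hc (fun h => ha h.1)
    rw [zero_pow (by omega), zero_mul, add_zero]
    congr 1
    exact propext Subtype.ext_iff.symm
  have e2 : ∀ a b : bl k I, a.1.1 ∈ C a.1.2 → ¬ rch c C ρ a = b := by
    intro a b ha h
    have h1 := rch_act (ρ := ρ) ha (hC _ ⟨_, ha⟩)
    have h2 : (rch c C ρ a.1).1 = ρ a.1.2 a.1.1 := by rw [h1]
    rw [h] at h2
    exact (hI a.1.2).2 _ ha (h2 ▸ mem_bl b)
  have e3 : ∀ a b : bl k I, a.1.1 ∈ C a.1.2 → b.1.1 ∉ C b.1.2 → A a b = 0 := by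
    intro a b ha hb
    have h1 : 0 < ez c C ρ a b := ez_pos hC hc (fun h => hb h.2)
    rw [hA, Matrix.of_apply, if_neg (e2 a b ha), zero_pow (by omega), zero_mul, add_zero]
  have e4 : ∀ a b : bl k I, a.1.1 ∈ C a.1.2 → b.1.1 ∈ C b.1.2 → a.1.2 ≠ b.1.2 → A a b = 0 := by
    intro a b ha hb hab
    have h1 : 0 < ez c C ρ a b := by
      rw [ez_act hC ha hb]
      have : ((a.1.2.val : ℤ) - (b.1.2.val : ℤ)) ≠ 0 := by
        intro h
        apply hab
        apply Fin.ext
        omega
      positivity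
    rw [hA, Matrix.of_apply, if_neg (e2 a b ha), zero_pow (by omega), zero_mul, add_zero]
  have e5 : ∀ a b : bl k I, a.1.1 ∈ C a.1.2 → b.1.1 ∈ C b.1.2 → a.1.2 = b.1.2 →
      A a b = Y (rch c C ρ a) b := by
    intro a b ha hb hab
    have h1 : ez c C ρ a b = 0 := by
      rw [ez_act hC ha hb, hab]
      ring
    rw [hA, Matrix.of_apply, if_neg (e2 a b ha), h1]
    simp
  -- block triangular
  have hBT : A.BlockTriangular (fun a : bl k I => bk C a.1) := by
    intro a b hab
    by_cases ha : a.1.1 ∈ C a.1.2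
    · by_cases hb : b.1.1 ∈ C b.1.2
      · apply e4 a b ha hb
        intro h
        have h1 : bk C b.1 < bk C a.1 := hab
        unfold bk at h1
        rw [if_pos ha, if_pos hb, h] at h1
        exact absurd h1 (lt_irrefl _)
      · exact e3 a b ha hb
    · rw [e1 a b ha, if_neg]
      rintro rfl
      exact absurd hab (lt_irrefl _)
  rw [hBT.det_fintype, Fin.prod_univ_succ]
  have f0 : (A.toSquareBlock (fun a : bl k I => bk C a.1) 0).det = 1 := by
    have : A.toSquareBlock (fun a : bl k I => bk C a.1) 0 = 1 := by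
      ext a b
      have ha : a.1.1.1 ∉ C a.1.1.2 := by
        intro h
        have h1 := a.2
        simp only [bk, if_pos h] at h1
        exact Fin.succ_ne_zero _ h1
      rw [Matrix.toSquareBlock_def, Matrix.of_apply, e1 _ _ ha, Matrix.one_apply]
      congr 1
      exact propext Subtype.ext_iff.symm
    rw [this, Matrix.det_one]
  rw [f0, one_mul]
  refine Finset.prod_congr rfl fun β _ => ?_
  have key : ∀ x : bl k I, bk C x.1 = β.succ ↔ (x.1.1 ∈ C β ∧ x.1.2 = β) := by
    intro x
    unfold bk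
    constructor
    · intro h
      by_cases hx : x.1.1 ∈ C x.1.2
      · rw [if_pos hx] at h
        have h1 := Fin.succ_injective _ h
        exact ⟨h1 ▸ hx, h1⟩
      · rw [if_neg hx] at h
        exact absurd h.symm (Fin.succ_ne_zero _)
    · rintro ⟨h1, h2⟩
      rw [if_pos (h2 ▸ h1), h2]
  by_cases h : 0 ≤ (β.val : ℤ) - c ∧ (β.val : ℤ) - c < k
  · rw [dif_pos h]
    unfold mn
    have hmem : ∀ a : C β, ((a.1, β) : Fin n × Fin k) ∈ bl k I := by
      intro a
      unfold bl
      exact Finset.mem_product.2 ⟨(hI β).1 a.2, Finset.mem_univ _⟩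
    let e : (C β) ≃ {x : bl k I // bk C x.1 = β.succ} :=
      { toFun := fun a => ⟨⟨(a.1, β), hmem a⟩, (key _).2 ⟨a.2, rfl⟩⟩
        invFun := fun x => ⟨x.1.1.1, ((key _).1 x.2).1⟩
        left_inv := fun a => rfl
        right_inv := fun x => by
          apply Subtype.ext
          apply Subtype.ext
          exact Prod.ext rfl ((key _).1 x.2).2.symm }
    rw [← Matrix.det_submatrix_equiv_self e]
    congr 1
    ext a b
    have h1 : ((e a).1.1).1 ∈ C ((e a).1.1).2 := a.2
    have h2 : ((e b).1.1).1 ∈ C ((e b).1.1).2 := b.2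
    rw [Matrix.submatrix_apply, Matrix.toSquareBlock_def, Matrix.of_apply, Matrix.of_apply,
      e5 _ _ h1 h2 rfl, rch_act h1 h]
    rfl
  · rw [dif_neg h]
    have hE : IsEmpty {x : bl k I // bk C x.1 = β.succ} := by
      constructor
      intro x
      exact h (hC β ⟨_, ((key _).1 x.2).1⟩)
    exact Matrix.det_isEmpty

end XSc1

open XSc1 in
theorem I_Sc1 : StSc1 := by
  intro n k I c C ρ hI hC hc
  refine ⟨(∑ a : bl k I, pr c C a.1) + ∑ a : bl k I, qc c C a.1, ?_⟩
  intro Y _
  refine ⟨(PM I c C ρ Y).det, ?_, ?_⟩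
  · intro t ht
    rw [evdet, zpow_add₀ ht, ← prod_zpow _ t ht, ← prod_zpow _ t ht]
    unfold mn
    rw [mul_assoc, ← Matrix.det_mul_row, ← Matrix.det_mul_column]
    congr 1
    ext a b
    simp only [Matrix.of_apply, Matrix.add_apply, Matrix.one_apply, scl]
    have hez : 0 ≤ ez c C ρ a b := by
      by_cases h : a.1.1 ∈ C a.1.2 ∧ b.1.1 ∈ C b.1.2
      · rw [ez_act hC h.1 h.2]
        positivity
      · exact (ez_pos hC hc h).le
    have h1 : t ^ (ez c C ρ a b).toNat = t ^ (pr c C a.1) * t ^ (qc c C b.1) *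
        t ^ (8 * k ^ 2 + 8 +
          (((((rch c C ρ a).2.val : ℤ) - (b.1.2.val : ℤ)) ^ 2).toNat)) := by
      rw [← zpow_natCast t (ez c C ρ a b).toNat, Int.toNat_of_nonneg hez, ez, zpow_add₀ ht,
        zpow_add₀ ht, zpow_natCast]
    rw [h1]
    by_cases h : rch c C ρ a = b
    · have ha : a.1.1 ∉ C a.1.2 := by
        intro ha
        have h2 := rch_act (ρ := ρ) ha (hC _ ⟨_, ha⟩)
        have h3 : (rch c C ρ a.1).1 = ρ a.1.2 a.1.1 := by rw [h2]
        rw [h] at h3
        exact (hI a.1.2).2 _ ha (h3 ▸ mem_bl b)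
      have hab : (a : Fin n × Fin k) = b := by
        rw [← h, rch_not ha]
      have h4 : pr c C a.1 = 0 := by
        unfold pr
        rw [if_neg ha]
      have h5 : qc c C b.1 = 0 := by
        unfold qc
        rw [← hab, if_neg ha]
      rw [if_pos h, h4, h5, zpow_zero, one_mul, one_mul, one_mul, one_mul]
    · rw [if_neg h]
      ring
  · rw [evdet, zero_det I c C ρ hI hC hc Y]

end Pool.Agent.Work.MP_ca14f8_co.QE

end

section

/-!
The transition formula from the Monk rule (block QE of MP_ca14f8_co).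
-/

set_option autoImplicit false
open Classical

namespace Pool.Agent.Work.MP_ca14f8_co.QE

namespace XTR

/-- Extension of a permutation by a fixed last point. -/
noncomputable def exP {n : ℕ} (w : Equiv.Perm (Fin n)) : Equiv.Perm (Fin (n + 1)) :=
  (finSuccEquivLast (n := n)).trans ((Equiv.optionCongr w).trans (finSuccEquivLast (n := n)).symm)

theorem exP_cast {n : ℕ} (w : Equiv.Perm (Fin n)) (i : Fin n) :
    exP w i.castSucc = (w i).castSucc := by
  simp [exP]

theorem exP_last {n : ℕ} (w : Equiv.Perm (Fin n)) : exP w (Fin.last n) = Fin.last n := by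
  simp [exP]

theorem exP_mul_swap {n : ℕ} (w : Equiv.Perm (Fin n)) (a b : Fin n) :
    exP (w * Equiv.swap a b) = exP w * Equiv.swap a.castSucc b.castSucc := by
  apply Equiv.ext
  intro x
  refine Fin.lastCases ?_ ?_ x
  · rw [exP_last, Equiv.Perm.mul_apply,
      Equiv.swap_apply_of_ne_of_ne (Fin.castSucc_lt_last a).ne' (Fin.castSucc_lt_last b).ne',
      exP_last]
  · intro i
    rw [exP_cast, Equiv.Perm.mul_apply, Equiv.Perm.mul_apply]
    by_cases ha : i = a
    · subst ha
      rw [Equiv.swap_apply_left, Equiv.swap_apply_left, exP_cast]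
    · by_cases hb : i = b
      · subst hb
        rw [Equiv.swap_apply_right, Equiv.swap_apply_right, exP_cast]
      · rw [Equiv.swap_apply_of_ne_of_ne ha hb, Equiv.swap_apply_of_ne_of_ne, exP_cast]
        · intro h; exact ha (Fin.castSucc_injective n h)
        · intro h; exact hb (Fin.castSucc_injective n h)

theorem cov_cast {n : ℕ} (v : Equiv.Perm (Fin n)) (a b : Fin n) :
    Cov (exP v) a.castSucc b.castSucc ↔ Cov v a b := by
  constructor
  · rintro ⟨h1, h2, h3⟩
    rw [exP_cast, exP_cast] at h2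
    refine ⟨Fin.castSucc_lt_castSucc_iff.1 h1, Fin.castSucc_lt_castSucc_iff.1 h2, ?_⟩
    intro c hac hcb hh
    refine h3 c.castSucc (Fin.castSucc_lt_castSucc_iff.2 hac) (Fin.castSucc_lt_castSucc_iff.2 hcb) ?_
    rw [exP_cast, exP_cast, exP_cast]
    exact ⟨Fin.castSucc_lt_castSucc_iff.2 hh.1, Fin.castSucc_lt_castSucc_iff.2 hh.2⟩
  · rintro ⟨h1, h2, h3⟩
    refine ⟨Fin.castSucc_lt_castSucc_iff.2 h1, ?_, ?_⟩
    · rw [exP_cast, exP_cast]; exact Fin.castSucc_lt_castSucc_iff.2 h2
    · intro c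
      refine Fin.lastCases ?_ ?_ c
      · intro _ hlb
        exact absurd hlb (not_lt.2 (Fin.le_last _))
      · intro c hac hcb hh
        rw [exP_cast, exP_cast, exP_cast] at hh
        exact h3 c (Fin.castSucc_lt_castSucc_iff.1 hac) (Fin.castSucc_lt_castSucc_iff.1 hcb)
          ⟨Fin.castSucc_lt_castSucc_iff.1 hh.1, Fin.castSucc_lt_castSucc_iff.1 hh.2⟩

section

variable {n : ℕ} {w v : Equiv.Perm (Fin n)} {r s : Fin n} (h : TrD w v r s)

include h

theorem v_r : v r = w s := by
  rw [h.hv, Equiv.Perm.mul_apply, Equiv.swap_apply_left]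

theorem v_s : v s = w r := by
  rw [h.hv, Equiv.Perm.mul_apply, Equiv.swap_apply_right]

theorem v_ne {c : Fin n} (h1 : c ≠ r) (h2 : c ≠ s) : v c = w c := by
  rw [h.hv, Equiv.Perm.mul_apply, Equiv.swap_apply_of_ne_of_ne h1 h2]

theorem cov_up (b : Fin n) : Cov v r b ↔ b = s := by
  have hrs := h.hrs
  have hws := h.hws
  constructor
  · rintro ⟨h1, h2, h3⟩
    by_contra hne
    rcases lt_or_gt_of_ne hne with hlt | hgt
    · rw [v_r h, v_ne h h1.ne' hne] at h2
      exact absurd h2 (not_lt.2 (h.inc b s h1 hlt).le)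
    · refine h3 s hrs hgt ?_
      rw [v_r h, v_s h, v_ne h h1.ne' hne]
      exact ⟨hws, h.smax b hgt⟩
  · intro hb
    subst hb
    refine ⟨hrs, ?_, ?_⟩
    · rw [v_r h, v_s h]; exact hws
    · intro c h1 h2 hh
      rw [v_r h, v_ne h h1.ne' h2.ne] at hh
      exact absurd hh.1 (not_lt.2 (h.inc c b h1 h2).le)

theorem cov_down (a : Fin n) : Cov v a r ↔ a ∈ Trs w r s := by
  have hrs := h.hrs
  simp only [Trs, Finset.mem_filter, Finset.mem_univ, true_and]
  constructor
  · rintro ⟨h1, h2, h3⟩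
    have ha : v a = w a := v_ne h h1.ne (h1.trans hrs).ne
    rw [ha, v_r h] at h2
    refine ⟨h1, h2, ?_⟩
    intro c hac hcr hh
    refine h3 c hac hcr ?_
    rw [ha, v_r h, v_ne h hcr.ne (hcr.trans hrs).ne]
    exact hh
  · rintro ⟨h1, h2, h3⟩
    have ha : v a = w a := v_ne h h1.ne (h1.trans hrs).ne
    refine ⟨h1, ?_, ?_⟩
    · rw [ha, v_r h]; exact h2
    · intro c hac hcr hh
      rw [ha, v_r h, v_ne h hcr.ne (hcr.trans hrs).ne] at hh
      exact h3 c hac hcr hh

theorem filter_up :
    Finset.univ.filter (fun b => Cov (exP v) r.castSucc b) = {s.castSucc} := by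
  ext b
  simp only [Finset.mem_filter, Finset.mem_univ, true_and, Finset.mem_singleton]
  refine Fin.lastCases ?_ ?_ b
  · constructor
    · rintro ⟨_, _, h3⟩
      exfalso
      refine h3 s.castSucc (Fin.castSucc_lt_castSucc_iff.2 h.hrs) (Fin.castSucc_lt_last s) ?_
      rw [exP_cast, exP_cast, exP_last, v_r h, v_s h]
      exact ⟨Fin.castSucc_lt_castSucc_iff.2 h.hws, Fin.castSucc_lt_last _⟩
    · intro hh
      exact absurd hh (Fin.castSucc_lt_last s).ne'
  · intro b
    rw [cov_cast, cov_up h]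
    constructor
    · intro hb; rw [hb]
    · intro hb; exact Fin.castSucc_injective n hb

theorem filter_down :
    Finset.univ.filter (fun a => Cov (exP v) a r.castSucc) =
      (Trs w r s).image Fin.castSucc := by
  ext a
  simp only [Finset.mem_filter, Finset.mem_univ, true_and, Finset.mem_image]
  refine Fin.lastCases ?_ ?_ a
  · constructor
    · rintro ⟨h1, _, _⟩
      exact absurd h1 (not_lt.2 (Fin.le_last _))
    · rintro ⟨i, _, hi⟩
      exact absurd hi (Fin.castSucc_lt_last i).ne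
  · intro a
    rw [cov_cast, cov_down h]
    constructor
    · intro ha; exact ⟨a, ha, rfl⟩
    · rintro ⟨i, hi, hia⟩
      rw [← Fin.castSucc_injective n hia]; exact hi

end

end XTR

open XTR in
theorem I_TR (h1 : StStab) (h2 : StMonk) : StTR := by
  intro n w v r s h
  have hst : ∀ u : Equiv.Perm (Fin n), Ups (exP u) = Ups u := fun u => h1 n u (exP u) (exP_cast u)
  have hm := h2 n (exP v) r.castSucc (exP_last v) (Fin.castSucc_lt_last r).ne
  rw [filter_up h, filter_down h, Finset.sum_singleton,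
    Finset.sum_image (fun a _ b _ hab => Fin.castSucc_injective n hab), ← exP_mul_swap, hst, hst] at hm
  have hw : v * Equiv.swap r s = w := by
    rw [h.hv, mul_assoc, Equiv.swap_mul_self, mul_one]
  rw [hw] at hm
  have hs : ∑ i ∈ Trs w r s, Ups (exP v * Equiv.swap i.castSucc r.castSucc) =
      ∑ i ∈ Trs w r s, Ups (v * Equiv.swap i r) := by
    refine Finset.sum_congr rfl ?_
    intro i _
    rw [← exP_mul_swap, hst]
  rw [hs] at hm
  rw [hm]
  ring

end Pool.Agent.Work.MP_ca14f8_co.QE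

end

section

/-!
Item Ule: `Ups w ≤ dV (UT n) (Ic w)`.
-/

set_option autoImplicit false
open Classical

namespace Pool.Agent.Work.MP_ca14f8_co.QE

namespace XUle

theorem Ic_one {n : ℕ} (j : Fin n) : Ic (1 : Equiv.Perm (Fin n)) j = ∅ := by
  unfold Ic
  rw [Finset.filter_eq_empty_iff]
  intro a _ h
  have h1 : a < j := h.1
  have h2 : j < a := h.2
  exact absurd h1 (not_lt.2 h2.le)

theorem mn_empty {n : ℕ} (ρ : Fin n → Fin n) (X : Matrix (Fin n) (Fin n) ℚ) :
    mn (∅ : Finset (Fin n)) ρ X = 1 := by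
  unfold mn
  have : IsEmpty (↥(∅ : Finset (Fin n))) := ⟨fun x => absurd x.2 (Finset.notMem_empty _)⟩
  exact Matrix.det_isEmpty

theorem one_mem_UT (n : ℕ) : (1 : Matrix (Fin n) (Fin n) ℚ) ∈ UT n := by
  refine ⟨fun a b h => Matrix.one_apply_ne (ne_of_gt h), fun a => Matrix.one_apply_eq a⟩

theorem base (n : ℕ) : 1 ≤ dV (UT n) (Ic (1 : Equiv.Perm (Fin n))) := by
  unfold dV
  have : Module.Finite ℚ (VS (UT n) (Ic (1 : Equiv.Perm (Fin n)))) := by
    unfold VS
    exact Module.Finite.span_of_finite ℚ (Set.finite_range _)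
  rw [Submodule.one_le_finrank_iff]
  intro h
  have hmem : (fun X : UT n => FF (Ic (1 : Equiv.Perm (Fin n))) (fun _ => id) X.1) ∈
      VS (UT n) (Ic (1 : Equiv.Perm (Fin n))) :=
    Submodule.subset_span ⟨fun _ => id, rfl⟩
  rw [h, Submodule.mem_bot] at hmem
  have h1 := congrFun hmem ⟨1, one_mem_UT n⟩
  have h2 : FF (Ic (1 : Equiv.Perm (Fin n))) (fun _ => id) (1 : Matrix (Fin n) (Fin n) ℚ) = 1 := by
    unfold FF
    refine Finset.prod_eq_one (fun j _ => ?_)
    rw [Ic_one]
    exact mn_empty _ _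
  simp only [Pi.zero_apply] at h1
  rw [h2] at h1
  exact one_ne_zero h1

end XUle

theorem I_Ule (hTR : StTR) (hEX : StEX) (hMU : StMU) (hA : StA2) : StUle := by
  intro n w
  induction hm : mu w using Nat.strong_induction_on generalizing w with
  | _ m ih =>
  subst hm
  by_cases hw : w = 1
  · subst hw
    rw [Ups_one]
    exact_mod_cast XUle.base n
  · obtain ⟨r, s, hT⟩ := hEX n w hw
    have hmu := hMU n w _ r s hT
    rw [hTR n w _ r s hT]
    have h1 := ih _ hmu.1 (w * Equiv.swap r s) rfl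
    have h2 : ∑ i ∈ Trs w r s, Ups (w * Equiv.swap r s * Equiv.swap i r) ≤
        ∑ i ∈ Trs w r s, ((dV (UT n) (Ic (w * Equiv.swap r s * Equiv.swap i r)) : ℕ) : ℚ) :=
      Finset.sum_le_sum (fun i hi => ih _ (hmu.2 i hi) _ rfl)
    have h3 : ((dV (UT n) (Ic (w * Equiv.swap r s)) +
        ∑ i ∈ Trs w r s, dV (UT n) (Ic (w * Equiv.swap r s * Equiv.swap i r)) : ℕ) : ℚ) ≤
        ((dV (UT n) (Ic w) : ℕ) : ℚ) := by
      exact_mod_cast hA n w _ r s hT
    rw [Nat.cast_add, Nat.cast_sum] at h3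
    linarith

end Pool.Agent.Work.MP_ca14f8_co.QE

end
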